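import Mathlib

/-!
Finite index overgroups and the strong Atiyah conjecture: the definitions.
-/

namespace Pool.Agent.FIO

/-- The Hilbert space `l2(X)`. -/
abbrev L2 (X : Type*) : Type _ := lp (fun _ : X => ℂ) 2

open Classical in
/-- The basis vector at a point `x`: value 1 at `x`, 0 elsewhere. -/
noncomputable def dl {X : Type*} (x : X) : L2 X := lp.single 2 x (1 : ℂ)

/-- Squared norm of the orthogonal projection of the basis vector at `x` to the closure of `K`. -/
noncomputable def phi {X : Type*} (K : Submodule ℂ (L2 X)) (x : X) : ℝ :=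
  ‖K.topologicalClosure.starProjection (dl x)‖ ^ 2

/-- The value at `(k, g)` of a matrix `A` of finitely supported functions on `G` (elements of the
group ring) applied to a vector `v` of functions on `G`: `∑ i, (A k i) * v i` (convolution). -/
noncomputable def app {G : Type*} [Group G] {ι κ : Type*} [Fintype ι] (A : κ → ι → G →₀ ℂ)
    (v : ι × G → ℂ) (k : κ) (g : G) : ℂ :=
  ∑ i, (A k i).sum fun x c => c * v (i, x⁻¹ * g)

/-- The kernel of the matrix `A` on `l2(G)^ι = l2(ι × G)`. -/
def kerMat {G : Type*} [Group G] {ι κ : Type*} [Fintype ι] (A : κ → ι → G →₀ ℂ) :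
    Submodule ℂ (L2 (ι × G)) where
  carrier := {v | ∀ k g, app A v k g = 0}
  add_mem' := by
    intro v w hv hw k g
    have h : app A (v + w : L2 (ι × G)) k g = app A v k g + app A w k g := by
      simp only [app, Finsupp.sum, lp.coeFn_add, Pi.add_apply, mul_add, Finset.sum_add_distrib]
    rw [h, hv k g, hw k g, add_zero]
  zero_mem' := by
    intro k g
    simp [app, Finsupp.sum]
  smul_mem' := by
    intro c v hv k g
    have h : app A (c • v : L2 (ι × G)) k g = c * app A v k g := by
      simp only [app, Finsupp.sum, lp.coeFn_smul, Pi.smul_apply, smul_eq_mul, Finset.mul_sum]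
      refine Finset.sum_congr rfl fun i _ => Finset.sum_congr rfl fun x _ => ?_
      ring
    rw [h, hv k g, mul_zero]

/-- The von Neumann dimension of (the closure of) a right translation invariant subspace of
`l2(G)^ι = l2(ι × G)`: the trace of the orthogonal projection. -/
noncomputable def vdim {G : Type*} [Group G] {ι : Type*} [Fintype ι]
    (K : Submodule ℂ (L2 (ι × G))) : ℝ :=
  ∑ i, phi K (i, 1)

/-- The orders of the finite subgroups of `G` are bounded. -/
def BoundedFin (G : Type*) [Group G] : Prop :=
  ∃ B : ℕ, ∀ K : Subgroup G, Finite K → Nat.card K ≤ B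

/-- The least common multiple of the orders of the finite subgroups of `G`. -/
noncomputable def lcmFin (G : Type*) [Group G] : ℕ :=
  sInf {m : ℕ | 0 < m ∧ ∀ K : Subgroup G, Finite K → Nat.card K ∣ m}

/-- The class `A_F`: the orders of the finite subgroups are bounded and `lcm(G)` times the
von Neumann dimension of the kernel of every matrix over `F G` on `l2(G)^b` is an integer. -/
def Atiyah (F : Subfield ℂ) (G : Type*) [Group G] : Prop :=
  BoundedFin G ∧ ∀ (a b : ℕ) (A : Fin a → Fin b → G →₀ ℂ), (∀ k i g, A k i g ∈ F) →
    ∃ z : ℤ, (lcmFin G : ℝ) * vdim (kerMat A) = z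

end Pool.Agent.FIO
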