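import Pool.Agent.FIO.Hil

set_option autoImplicit false

open scoped InnerProductSpace ENNReal
open Function

namespace Pool.Agent.FIO

/-- Push a matrix over `G` forward along a homomorphism. -/
noncomputable def mapMat {G G₂ : Type*} [Group G] [Group G₂] {ι κ : Type*} (f : G →* G₂)
    (A : κ → ι → G →₀ ℂ) : κ → ι → G₂ →₀ ℂ := fun k i => (A k i).mapDomain f

/-- The functional `v ↦ app A v k g`. -/
noncomputable def appL {G : Type*} [Group G] {ι κ : Type*} [Fintype ι] (A : κ → ι → G →₀ ℂ)
    (k : κ) (g : G) : L2 (ι × G) →L[ℂ] ℂ :=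
  ∑ i, ∑ x ∈ (A k i).support, (A k i x) • evL (i, x⁻¹ * g)

theorem appL_apply {G : Type*} [Group G] {ι κ : Type*} [Fintype ι] (A : κ → ι → G →₀ ℂ)
    (k : κ) (g : G) (v : L2 (ι × G)) : appL A k g v = app A v k g := by
  simp [appL, app, Finsupp.sum]

theorem isClosed_kerMat {G : Type*} [Group G] {ι κ : Type*} [Fintype ι] (A : κ → ι → G →₀ ℂ) :
    IsClosed (kerMat A : Set (L2 (ι × G))) := by
  have h : (kerMat A : Set (L2 (ι × G))) = ⋂ k, ⋂ g, {v | appL A k g v = 0} := by
    ext v
    simp only [Set.mem_iInter, Set.mem_ofPred_eq, appL_apply]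
    rfl
  rw [h]
  exact isClosed_iInter fun k => isClosed_iInter fun g =>
    isClosed_eq (appL A k g).continuous continuous_const

/-- Induction to an overgroup does not change the dimension of the kernel. -/
theorem vdim_mapMat {G G₂ : Type*} [Group G] [Group G₂] {ι κ : Type*} [Fintype ι] (f : G →* G₂)
    (hf : Injective f) (A : κ → ι → G →₀ ℂ) :
    vdim (kerMat (mapMat f A)) = vdim (kerMat A) := by
  let E : ι × G → ι × G₂ := fun x => (x.1, f x.2)
  have hE : Injective E := by
    rintro ⟨i, g⟩ ⟨j, h⟩ hh
    simp only [E, Prod.mk.injEq] at hh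
    ext
    · exact hh.1
    · exact hf hh.2
  have key : ∀ (v : ι × G₂ → ℂ) (k : κ) (g₂ : G₂), app (mapMat f A) v k g₂ =
      ∑ i, (A k i).sum fun x c => c * v (i, (f x)⁻¹ * g₂) := by
    intro v k g₂
    unfold app mapMat
    refine Finset.sum_congr rfl fun i _ => ?_
    rw [Finsupp.sum_mapDomain_index]
    · intro x; simp
    · intro x c c'; ring
  unfold vdim
  refine Finset.sum_congr rfl fun i _ => le_antisymm ?_ ?_
  · refine phi_le_of (isClosed_kerMat _) fun v hv => ⟨resL E hE v, ?_, ?_, norm_resL_le _ _ _⟩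
    · intro k g
      have h := hv k (f g)
      rw [key] at h
      rw [← h]
      unfold app
      refine Finset.sum_congr rfl fun j _ => Finset.sum_congr rfl fun x _ => ?_
      simp [E]
    · simp [E]
  · refine phi_le_of (isClosed_kerMat _) fun v hv => ⟨extL E hE v, ?_, ?_, ?_⟩
    · intro k g₂
      rw [key]
      by_cases hg : ∃ g, f g = g₂
      · obtain ⟨g, rfl⟩ := hg
        have h := hv k g
        rw [← h]
        unfold app
        refine Finset.sum_congr rfl fun j _ => Finset.sum_congr rfl fun x _ => ?_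
        have e1 : ((j, (f x)⁻¹ * f g) : ι × G₂) = E (j, x⁻¹ * g) := by simp [E]
        have e2 : extL E hE v (j, (f x)⁻¹ * f g) = v (j, x⁻¹ * g) := by
          rw [e1]
          exact extL_apply _ _ _ _
        exact congrArg (fun t => A k j x * t) e2
      · refine Finset.sum_eq_zero fun j _ => Finset.sum_eq_zero fun x _ => ?_
        have e2 : extL E hE v (j, (f x)⁻¹ * g₂) = 0 := by
          refine extL_zero _ _ _ _ ?_
          rintro ⟨j', g'⟩ hh
          simp only [E, Prod.mk.injEq] at hh
          refine hg ⟨x * g', ?_⟩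
          rw [map_mul, hh.2]
          group
        change A k j x * extL E hE v (j, (f x)⁻¹ * g₂) = 0
        rw [e2, mul_zero]
    · have e1 : ((i, (1 : G₂)) : ι × G₂) = E (i, 1) := by simp [E]
      have e2 : extL E hE v (i, (1 : G₂)) = v (i, 1) := by
        rw [e1]
        exact extL_apply _ _ _ _
      rw [e2]
    · exact le_of_eq ((extL E hE).norm_map v)

/-- Comparison along a bijection of the index sets. -/
theorem phi_equiv {X X' : Type*} (E : X' ≃ X) {K : Submodule ℂ (L2 X)}
    {K' : Submodule ℂ (L2 X')} (hK : IsClosed (K : Set (L2 X)))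
    (hK' : IsClosed (K' : Set (L2 X')))
    (h : ∀ v : L2 X, v ∈ K ↔ resL E E.injective v ∈ K') (x' : X') :
    phi K' x' = phi K (E x') := by
  refine le_antisymm ?_ ?_
  · refine phi_le_of hK' fun v hv => ⟨resL E.symm E.symm.injective v, ?_, ?_, norm_resL_le _ _ _⟩
    · rw [h]
      convert hv using 1
      apply lp.ext
      funext y
      simp
    · simp
  · refine phi_le_of hK fun v hv => ⟨resL E E.injective v, (h v).mp hv, by simp, norm_resL_le _ _ _⟩

/-- Reindexing rows and columns. -/
theorem vdim_reindex {G : Type*} [Group G] {ι κ ι' κ' : Type*} [Fintype ι] [Fintype ι']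
    (eι : ι ≃ ι') (eκ : κ ≃ κ') (A : κ → ι → G →₀ ℂ) :
    vdim (kerMat fun (k : κ') (i : ι') => A (eκ.symm k) (eι.symm i)) = vdim (kerMat A) := by
  let E : ι × G ≃ ι' × G := eι.prodCongr (Equiv.refl G)
  have h : ∀ i, phi (kerMat A) (i, 1) =
      phi (kerMat fun (k : κ') (i : ι') => A (eκ.symm k) (eι.symm i)) (E (i, 1)) := by
    intro i
    refine phi_equiv E (isClosed_kerMat _) (isClosed_kerMat _) (fun v => ?_) _
    have h2 : ∀ k g, app (fun (k : κ') (i : ι') => A (eκ.symm k) (eι.symm i)) v (eκ k) g =
        app A (resL E E.injective v) k g := by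
      intro k g
      unfold app
      rw [← Equiv.sum_comp eι]
      refine Finset.sum_congr rfl fun j _ => ?_
      simp only [Equiv.symm_apply_apply]
      rfl
    constructor
    · intro hv k g
      rw [← h2]
      exact hv _ _
    · intro hv k g
      have := h2 (eκ.symm k) g
      rw [Equiv.apply_symm_apply] at this
      rw [this]
      exact hv _ _
  unfold vdim
  rw [← Equiv.sum_comp eι]
  exact Finset.sum_congr rfl fun i _ => (h i).symm

/-- right translation invariance of the projection to the kernel of a matrix -/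
theorem phi_kerMat {G : Type*} [Group G] {ι κ : Type*} [Fintype ι] (A : κ → ι → G →₀ ℂ)
    (i : ι) (g : G) : phi (kerMat A) (i, g) = phi (kerMat A) (i, 1) := by
  let E : ι × G ≃ ι × G := (Equiv.refl ι).prodCongr (Equiv.mulRight g)
  have h := phi_equiv E (K := kerMat A) (K' := kerMat A) (isClosed_kerMat _) (isClosed_kerMat _)
    (fun v => ?_) (i, 1)
  · rw [h]
    simp [E]
  · have h2 : ∀ k h, app A (resL E E.injective v) k h = app A v k (h * g) := by
      intro k h
      unfold app
      refine Finset.sum_congr rfl fun j _ => Finset.sum_congr rfl fun x _ => ?_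
      simp [E, mul_assoc]
    constructor
    · intro hv k h
      rw [h2]
      exact hv _ _
    · intro hv k h
      have := h2 k (h * g⁻¹)
      rw [inv_mul_cancel_right] at this
      rw [← this]
      exact hv _ _

/-- Integrality for arbitrary finite index types. -/
theorem Atiyah.int {F : Subfield ℂ} {G : Type*} [Group G] (h : Atiyah F G) {ι κ : Type*}
    [Fintype ι] [Finite κ] (A : κ → ι → G →₀ ℂ) (hA : ∀ k i g, A k i g ∈ F) :
    ∃ z : ℤ, (lcmFin G : ℝ) * vdim (kerMat A) = z := by
  haveI := Fintype.ofFinite κ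
  obtain ⟨z, hz⟩ := h.2 (Fintype.card κ) (Fintype.card ι)
    (fun k i => A ((Fintype.equivFin κ).symm k) ((Fintype.equivFin ι).symm i))
    (fun k i g => hA _ _ _)
  refine ⟨z, ?_⟩
  rw [← hz, vdim_reindex (Fintype.equivFin ι) (Fintype.equivFin κ) A]

end Pool.Agent.FIO
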