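import Pool.Agent.FIO.Rank
import Pool.Agent.FIO.Emb

set_option autoImplicit false

open scoped InnerProductSpace ENNReal
open Function

namespace Pool.Agent.FIO

variable {N : Type*} [Group N] {α β : Type*}

theorem dim_tr_tr {m n : N} (v : L2 (α × N)) (h : m * n = 1) : tr α m (tr α n v) = v := by
  apply lp.ext
  funext x
  obtain ⟨a, g⟩ := x
  rw [tr_apply, tr_apply, mul_assoc, h, mul_one]

theorem dim_norm_tr_le (n : N) (v : L2 (α × N)) : ‖tr α n v‖ ≤ ‖v‖ := norm_resL_le _ _ v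

theorem dim_norm_tr (n : N) (v : L2 (α × N)) : ‖tr α n v‖ = ‖v‖ := by
  refine le_antisymm (dim_norm_tr_le n v) ?_
  have h := dim_norm_tr_le n⁻¹ (tr α n v)
  rwa [dim_tr_tr v (inv_mul_cancel n)] at h

/-- The translation as an isometry. -/
noncomputable def dim_trI (α : Type*) (n : N) : L2 (α × N) →ₗᵢ[ℂ] L2 (α × N) :=
  ⟨(tr α n : L2 (α × N) →ₗ[ℂ] L2 (α × N)), dim_norm_tr n⟩

theorem dim_inner_tr (n : N) (v w : L2 (α × N)) : ⟪tr α n v, tr α n w⟫_ℂ = ⟪v, w⟫_ℂ :=
  (dim_trI α n).inner_map_map v w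

/-- The projection to a closed invariant subspace commutes with the translations. -/
theorem starProjection_tr {K : Submodule ℂ (L2 (α × N))} [K.HasOrthogonalProjection]
    (hinv : Inv K) (n : N) (v : L2 (α × N)) :
    K.starProjection (tr α n v) = tr α n (K.starProjection v) := by
  refine Submodule.eq_starProjection_of_mem_of_inner_eq_zero
    (hinv _ (K.starProjection_apply_mem v) n) fun w hw => ?_
  have h1 : w = tr α n (tr α n⁻¹ w) := (dim_tr_tr w (mul_inv_cancel n)).symm
  rw [h1, ← map_sub, dim_inner_tr]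
  exact K.starProjection_inner_eq_zero v _ (hinv w hw _)

section Hilb

variable {X : Type*}

theorem dim_inner_dl {K : Submodule ℂ (L2 X)} [K.HasOrthogonalProjection] (x : X) {v : L2 X}
    (hv : v ∈ K) : ⟪(dl x : L2 X), v⟫_ℂ = ⟪K.starProjection (dl x), v⟫_ℂ := by
  have h := K.starProjection_inner_eq_zero (dl x) v hv
  rw [inner_sub_left, sub_eq_zero] at h
  exact h

/-- Upper bound for `phi` of a sum of orthogonal subspaces. -/
theorem dim_phi_le_add {A B C : Submodule ℂ (L2 X)} (hA : IsClosed (A : Set (L2 X)))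
    (hB : IsClosed (B : Set (L2 X))) (hC : IsClosed (C : Set (L2 X)))
    (h : ∀ c ∈ C, ∃ a ∈ A, ∃ b ∈ B, c = a + b ∧ ⟪a, b⟫_ℂ = 0) (x : X) :
    phi C x ≤ phi A x + phi B x := by
  have : CompleteSpace A := hA.completeSpace_coe
  have : CompleteSpace B := hB.completeSpace_coe
  have : CompleteSpace C := hC.completeSpace_coe
  rw [phi_closed hA, phi_closed hB, phi_closed hC]
  obtain ⟨a, ha, b, hb, hc, hab⟩ := h _ (C.starProjection_apply_mem (dl x))
  set c := C.starProjection (dl x) with hcdef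
  have h1 : ((‖c‖ ^ 2 : ℝ) : ℂ) = ⟪A.starProjection (dl x), a⟫_ℂ + ⟪B.starProjection (dl x), b⟫_ℂ := by
    rw [← dim_inner_dl x ha, ← dim_inner_dl x hb, ← inner_add_right, ← hc,
      dim_inner_dl x (C.starProjection_apply_mem (dl x)), ← hcdef, inner_self_eq_norm_sq_to_K]
    simp
  have h2 : ‖c‖ ^ 2 ≤ ‖A.starProjection (dl x)‖ * ‖a‖ + ‖B.starProjection (dl x)‖ * ‖b‖ := by
    have h3 : ‖((‖c‖ ^ 2 : ℝ) : ℂ)‖ = ‖c‖ ^ 2 := by
      rw [Complex.norm_real, Real.norm_of_nonneg (by positivity)]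
    rw [← h3, h1]
    exact (norm_add_le _ _).trans (add_le_add (norm_inner_le_norm _ _) (norm_inner_le_norm _ _))
  have h4 : ‖c‖ ^ 2 = ‖a‖ ^ 2 + ‖b‖ ^ 2 := by
    rw [hc, sq, sq, sq]
    exact norm_add_sq_eq_norm_sq_add_norm_sq_of_inner_eq_zero a b hab
  set p := ‖A.starProjection (dl x : L2 X)‖
  set q := ‖B.starProjection (dl x : L2 X)‖
  by_contra hlt
  push Not at hlt
  have h5 : (p * ‖a‖ + q * ‖b‖) ^ 2 ≤ (p ^ 2 + q ^ 2) * ‖c‖ ^ 2 := by
    rw [h4]
    nlinarith [sq_nonneg (p * ‖b‖ - q * ‖a‖)]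
  have h6 : (‖c‖ ^ 2) ^ 2 ≤ (p ^ 2 + q ^ 2) * ‖c‖ ^ 2 :=
    (pow_le_pow_left₀ (by positivity) h2 2).trans h5
  have h7 : 0 < ‖c‖ ^ 2 := lt_of_le_of_lt (by positivity) hlt
  nlinarith

/-- Lower bound. -/
theorem dim_phi_add_le {A B C : Submodule ℂ (L2 X)} (hA : IsClosed (A : Set (L2 X)))
    (hB : IsClosed (B : Set (L2 X))) (hC : IsClosed (C : Set (L2 X)))
    (hAC : A ≤ C) (hBC : B ≤ C) (hAB : ∀ a ∈ A, ∀ b ∈ B, ⟪a, b⟫_ℂ = 0) (x : X) :
    phi A x + phi B x ≤ phi C x := by
  have : CompleteSpace A := hA.completeSpace_coe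
  have : CompleteSpace B := hB.completeSpace_coe
  have : CompleteSpace C := hC.completeSpace_coe
  rw [phi_closed hA, phi_closed hB, phi_closed hC]
  set a := A.starProjection (dl x) with ha
  set b := B.starProjection (dl x) with hb
  set c := C.starProjection (dl x) with hc
  have ham : a ∈ A := A.starProjection_apply_mem _
  have hbm : b ∈ B := B.starProjection_apply_mem _
  have h1 : ‖a + b‖ ^ 2 = ‖a‖ ^ 2 + ‖b‖ ^ 2 := by
    rw [sq, sq, sq]
    exact norm_add_sq_eq_norm_sq_add_norm_sq_of_inner_eq_zero a b (hAB a ham b hbm)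
  have h2 : ((‖a + b‖ ^ 2 : ℝ) : ℂ) = ⟪c, a + b⟫_ℂ := by
    rw [hc, ← dim_inner_dl x (C.add_mem (hAC ham) (hBC hbm)), inner_add_right,
      dim_inner_dl x ham, dim_inner_dl x hbm, ← ha, ← hb, inner_self_eq_norm_sq_to_K,
      inner_self_eq_norm_sq_to_K, h1]
    simp
  have h3 : ‖a + b‖ ^ 2 ≤ ‖c‖ * ‖a + b‖ := by
    have h4 : ‖((‖a + b‖ ^ 2 : ℝ) : ℂ)‖ = ‖a + b‖ ^ 2 := by
      rw [Complex.norm_real, Real.norm_of_nonneg (by positivity)]
    rw [← h4, h2]
    exact norm_inner_le_norm _ _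
  rw [← h1]
  by_cases h0 : ‖a + b‖ = 0
  · rw [h0, zero_pow two_ne_zero]; positivity
  · have hpos : 0 < ‖a + b‖ := lt_of_le_of_ne (norm_nonneg _) (Ne.symm h0)
    rw [sq] at h3
    exact pow_le_pow_left₀ (norm_nonneg _) (le_of_mul_le_mul_right h3 hpos) 2

theorem dim_phi_orth {A : Submodule ℂ (L2 X)} (hA : IsClosed (A : Set (L2 X))) (x : X) :
    phi Aᗮ x = 1 - phi A x := by
  have : CompleteSpace A := hA.completeSpace_coe
  rw [phi_closed hA, phi_closed A.isClosed_orthogonal]
  have h := Submodule.norm_sq_eq_add_norm_sq_starProjection (dl x : L2 X) A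
  rw [norm_dl] at h
  linarith

theorem dim_phi_ker {Y : Type*} {W : Submodule ℂ (L2 X)} [W.HasOrthogonalProjection]
    (hW : IsClosed (W : Set (L2 X))) (T : L2 X →L[ℂ] L2 Y) (x : X) :
    phi W x - phi (W ⊓ LinearMap.ker (T : L2 X →ₗ[ℂ] L2 Y)) x ≤
      1 - phi (LinearMap.ker ((T ∘L W.starProjection : L2 X →L[ℂ] L2 Y) : L2 X →ₗ[ℂ] L2 Y)) x := by
  have hk : IsClosed ((LinearMap.ker (T : L2 X →ₗ[ℂ] L2 Y) : Submodule ℂ (L2 X)) : Set (L2 X)) :=
    ContinuousLinearMap.isClosed_ker T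
  have hk' : IsClosed ((LinearMap.ker ((T ∘L W.starProjection : L2 X →L[ℂ] L2 Y) :
      L2 X →ₗ[ℂ] L2 Y) : Submodule ℂ (L2 X)) : Set (L2 X)) :=
    ContinuousLinearMap.isClosed_ker _
  have h := dim_phi_le_add (A := Wᗮ) (B := W ⊓ LinearMap.ker (T : L2 X →ₗ[ℂ] L2 Y))
    (C := LinearMap.ker ((T ∘L W.starProjection : L2 X →L[ℂ] L2 Y) : L2 X →ₗ[ℂ] L2 Y))
    W.isClosed_orthogonal (hW.inter hk) hk' (fun c hc => by
      refine ⟨c - W.starProjection c, W.sub_starProjection_mem_orthogonal c, W.starProjection c,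
        ⟨W.starProjection_apply_mem c, ?_⟩, (sub_add_cancel _ _).symm,
        W.starProjection_inner_eq_zero c _ (W.starProjection_apply_mem c)⟩
      exact hc) x
  rw [dim_phi_orth hW] at h
  linarith

end Hilb

/-- Submodularity: `dim U + dim V ≤ dim W + dim (U ∩ V)` for `U, V ≤ W`. -/
theorem vdim_sub [Fintype α] {U V W : Submodule ℂ (L2 (α × N))}
    (hU : IsClosed (U : Set (L2 (α × N)))) (hV : IsClosed (V : Set (L2 (α × N))))
    (hW : IsClosed (W : Set (L2 (α × N)))) (iU : Inv U) (iV : Inv V) (iW : Inv W)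
    (hUW : U ≤ W) (hVW : V ≤ W) : vdim U + vdim V ≤ vdim W + vdim (U ⊓ V) := by
  have : CompleteSpace U := hU.completeSpace_coe
  have : CompleteSpace V := hV.completeSpace_coe
  set S : L2 (α × N) →L[ℂ] L2 (α × N) := ContinuousLinearMap.id ℂ _ - U.starProjection with hS
  have hSa : ∀ v, S v = v - U.starProjection v := fun v => by simp [hS]
  set T : L2 (α × N) →L[ℂ] L2 (α × N) := S ∘L V.starProjection with hTd
  have hTa : ∀ v, T v = V.starProjection v - U.starProjection (V.starProjection v) := fun v => by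
    rw [hTd, ContinuousLinearMap.comp_apply, hSa]
  have hT : ∀ n v, T (tr α n v) = tr α n (T v) := by
    intro n v
    rw [hTa, hTa, starProjection_tr iV, starProjection_tr iU, map_sub]
  have hr := rank_eq T hT
  have hkS : LinearMap.ker (S : L2 (α × N) →ₗ[ℂ] L2 (α × N)) = U := by
    ext v
    rw [LinearMap.mem_ker]
    change S v = 0 ↔ v ∈ U
    rw [hSa, sub_eq_zero, eq_comm, Submodule.starProjection_eq_self_iff]
  have h1 : ∀ a : α, phi V (a, (1 : N)) - phi (U ⊓ V) (a, (1 : N)) ≤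
      1 - phi (LinearMap.ker (T : L2 (α × N) →ₗ[ℂ] L2 (α × N))) (a, 1) := by
    intro a
    have h := dim_phi_ker hV S (a, (1 : N))
    rw [hkS, inf_comm] at h
    exact h
  have h2 : ∀ a : α, 1 - phi (LinearMap.ker (ContinuousLinearMap.adjoint T :
      L2 (α × N) →ₗ[ℂ] L2 (α × N))) (a, 1) ≤ phi W (a, (1 : N)) - phi U (a, (1 : N)) := by
    intro a
    have hkc : IsClosed ((LinearMap.ker (ContinuousLinearMap.adjoint T :
      L2 (α × N) →ₗ[ℂ] L2 (α × N)) : Submodule ℂ (L2 (α × N))) : Set (L2 (α × N))) :=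
      ContinuousLinearMap.isClosed_ker _
    have h := dim_phi_add_le (A := U) (B := Wᗮ) hU W.isClosed_orthogonal hkc
      (fun u hu => by
        rw [LinearMap.mem_ker]
        change ContinuousLinearMap.adjoint T u = 0
        refine ext_inner_right ℂ fun v => ?_
        rw [ContinuousLinearMap.adjoint_inner_left, inner_zero_left, hTa]
        exact inner_eq_zero_symm.1 (U.starProjection_inner_eq_zero _ u hu))
      (fun w hw => by
        rw [LinearMap.mem_ker]
        change ContinuousLinearMap.adjoint T w = 0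
        refine ext_inner_right ℂ fun v => ?_
        rw [ContinuousLinearMap.adjoint_inner_left, inner_zero_left, hTa]
        exact inner_eq_zero_symm.1 (hw _ (W.sub_mem (hVW (V.starProjection_apply_mem _))
          (hUW (U.starProjection_apply_mem _)))))
      (fun u hu w hw => hw u (hUW hu)) (a, (1 : N))
    rw [dim_phi_orth hW] at h
    linarith
  have h3 : ∑ a : α, (phi V (a, (1 : N)) - phi (U ⊓ V) (a, (1 : N))) ≤
      ∑ a : α, (phi W (a, (1 : N)) - phi U (a, (1 : N))) :=
    (Finset.sum_le_sum fun a _ => h1 a).trans (hr.le.trans (Finset.sum_le_sum fun a _ => h2 a))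
  rw [Finset.sum_sub_distrib, Finset.sum_sub_distrib] at h3
  unfold vdim
  linarith

theorem dim_inj_row (k : β) : Injective fun g : N => (k, g) := fun g g' h => by
  simpa using h

theorem dim_inj_col (i : α) (x : N) : Injective fun g : N => (i, x⁻¹ * g) := fun g g' h => by
  simpa using h

/-- The bounded operator of a matrix. -/
noncomputable def dim_mat [Fintype α] [Fintype β] (B : β → α → N →₀ ℂ) :
    L2 (α × N) →L[ℂ] L2 (β × N) :=
  ∑ k : β, ∑ i : α, ∑ x ∈ (B k i).support, (B k i x) •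
    ((extL (fun g : N => (k, g)) (dim_inj_row k)).toContinuousLinearMap ∘L
      resL (fun g : N => (i, x⁻¹ * g)) (dim_inj_col i x))

theorem dim_mat_apply [Fintype α] [Fintype β] (B : β → α → N →₀ ℂ) (v : L2 (α × N)) (k : β)
    (g : N) : dim_mat B v (k, g) = app B v k g := by
  classical
  have h0 : dim_mat B v (k, g) = evL (k, g) (dim_mat B v) := (evL_apply _ _).symm
  rw [h0]
  unfold dim_mat
  simp only [ContinuousLinearMap.sum_apply, map_sum, ContinuousLinearMap.smul_apply, map_smul,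
    smul_eq_mul]
  rw [Finset.sum_eq_single k]
  · unfold app Finsupp.sum
    refine Finset.sum_congr rfl fun i _ => Finset.sum_congr rfl fun x _ => ?_
    congr 1
    rw [evL_apply]
    exact extL_apply (fun g : N => (k, g)) (dim_inj_row k) _ g
  · intro k' _ hk'
    refine Finset.sum_eq_zero fun i _ => Finset.sum_eq_zero fun x _ => ?_
    rw [evL_apply]
    have : (extL (fun g : N => (k', g)) (dim_inj_row k'))
        (resL (fun g : N => (i, x⁻¹ * g)) (dim_inj_col i x) v) (k, g) = 0 :=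
      extL_zero _ _ _ _ fun g' h => hk' (congrArg Prod.fst h)
    rw [ContinuousLinearMap.comp_apply]
    erw [this]
    rw [mul_zero]
  · intro h
    exact absurd (Finset.mem_univ k) h

theorem dim_mat_tr [Fintype α] [Fintype β] (B : β → α → N →₀ ℂ) (n : N) (v : L2 (α × N)) :
    dim_mat B (tr α n v) = tr β n (dim_mat B v) := by
  apply lp.ext
  funext x
  obtain ⟨k, g⟩ := x
  rw [tr_apply, dim_mat_apply, dim_mat_apply]
  unfold app
  refine Finset.sum_congr rfl fun i _ => ?_
  unfold Finsupp.sum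
  refine Finset.sum_congr rfl fun x _ => ?_
  simp only []
  rw [tr_apply, mul_assoc]

/-- A matrix with rows `β` imposes at most `card β` conditions. -/
theorem vdim_rows [Fintype α] [Fintype β] {W : Submodule ℂ (L2 (α × N))}
    (hW : IsClosed (W : Set (L2 (α × N)))) (iW : Inv W) (B : β → α → N →₀ ℂ) :
    vdim W ≤ vdim (W ⊓ kerMat B) + Fintype.card β := by
  have : CompleteSpace W := hW.completeSpace_coe
  have hr := rank_eq (dim_mat B ∘L W.starProjection) (by
    intro n v
    rw [ContinuousLinearMap.comp_apply, ContinuousLinearMap.comp_apply, starProjection_tr iW,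
      dim_mat_tr])
  have hk : LinearMap.ker (dim_mat B : L2 (α × N) →ₗ[ℂ] L2 (β × N)) = kerMat B := by
    ext v
    rw [LinearMap.mem_ker]
    change dim_mat B v = 0 ↔ ∀ k g, app B v k g = 0
    constructor
    · intro h k g
      rw [← dim_mat_apply, h]
      rfl
    · intro h
      apply lp.ext
      funext x
      obtain ⟨k, g⟩ := x
      rw [dim_mat_apply, h]
      rfl
  have h1 : ∀ a : α, phi W (a, (1 : N)) - phi (W ⊓ kerMat B) (a, (1 : N)) ≤
      1 - phi (LinearMap.ker ((dim_mat B ∘L W.starProjection : L2 (α × N) →L[ℂ] L2 (β × N)) :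
        L2 (α × N) →ₗ[ℂ] L2 (β × N))) (a, 1) := by
    intro a
    have h := dim_phi_ker hW (dim_mat B) (a, (1 : N))
    rw [hk] at h
    exact h
  have h2 : ∑ a : α, (phi W (a, (1 : N)) - phi (W ⊓ kerMat B) (a, (1 : N))) ≤
      Fintype.card β := by
    refine (Finset.sum_le_sum fun a _ => h1 a).trans (hr.le.trans ?_)
    refine (Finset.sum_le_sum (g := fun _ => (1 : ℝ)) fun b _ => ?_).trans ?_
    · have := phi_nonneg (LinearMap.ker (ContinuousLinearMap.adjoint
        (dim_mat B ∘L W.starProjection : L2 (α × N) →L[ℂ] L2 (β × N)) :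
        L2 (β × N) →ₗ[ℂ] L2 (α × N))) (b, (1 : N))
      linarith
    · simp
  rw [Finset.sum_sub_distrib] at h2
  unfold vdim
  linarith

end Pool.Agent.FIO
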