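import Pool.Agent.FIO.Lcm

set_option autoImplicit false

open Function

namespace Pool.Agent.FIO

/-- A finitely generated subgroup `L` such that all subgroups containing it have the same least
common multiple as `G`. (For every order of a finite subgroup choose one.) -/
theorem exists_fg_lcm {G : Type*} [Group G] (h : BoundedFin G) :
    ∃ L : Subgroup G, L.FG ∧ ∀ M : Subgroup G, L ≤ M → BoundedFin M ∧ lcmFin M = lcmFin G := by
  classical
  have h' := h
  obtain ⟨B, hB⟩ := h'
  let P : ℕ → Prop := fun n => ∃ K : Subgroup G, Finite K ∧ Nat.card K = n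
  let c : ℕ → Subgroup G := fun n => if hn : P n then hn.choose else ⊥
  have hc1 : ∀ n, P n → Finite (c n) ∧ Nat.card (c n) = n := by
    intro n hn
    have e : c n = hn.choose := dif_pos hn
    rw [e]
    exact hn.choose_spec
  have hcf : ∀ n, Finite (c n) := by
    intro n
    by_cases hn : P n
    · exact (hc1 n hn).1
    · have e : c n = ⊥ := dif_neg hn
      rw [e]
      infer_instance
  refine ⟨⨆ n ∈ Finset.range (B + 1), c n, ?_, fun M hM => ?_⟩
  · refine Subgroup.FG.biSup_finset _ _ fun n _ => ?_
    have := hcf n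
    exact (Group.fg_iff_subgroup_fg _).1 inferInstance
  · obtain ⟨hb, hd⟩ := h.of_injective M.subtype M.subtype_injective
    refine ⟨hb, Nat.dvd_antisymm hd (lcmFin_dvd hb.lcmFin_pos fun K hK => ?_)⟩
    have hn : P (Nat.card K) := ⟨K, hK, rfl⟩
    obtain ⟨h1, h2⟩ := hc1 _ hn
    have hle : c (Nat.card K) ≤ M := by
      refine le_trans ?_ hM
      exact le_iSup₂_of_le (Nat.card K) (Finset.mem_range.2 (Nat.lt_succ_of_le (hB K hK))) le_rfl
    rw [← h2]
    have e : Nat.card ((c (Nat.card K)).subgroupOf M) = Nat.card (c (Nat.card K)) :=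
      Nat.card_congr (Subgroup.subgroupOfEquivOfLe hle).toEquiv
    rw [← e]
    refine hb.dvd_lcmFin _ ?_
    exact Finite.of_equiv _ (Subgroup.subgroupOfEquivOfLe hle).toEquiv.symm

end Pool.Agent.FIO
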