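import Pool.Agent.FIO.Root
import Pool.Agent.FIO.Fg1

set_option autoImplicit false

open Function

namespace Pool.Agent.FIO

universe u

/-- Finitely generated root pairs. -/
theorem Root.atiyah_fg {F : Subfield ℂ} {C : ∀ (G : Type u) [Group G], Prop}
    (hR : RootClosed F C) {G : Type u} [Group G] {H : Subgroup G} {p : ℕ} {w : G} (hG : C G)
    (h : Root H p w) (hfg : Group.FG H)
    (hd : ∃ d : H →* Multiplicative ℤ, d ⟨w ^ p, h.pow_mem⟩ = Multiplicative.ofAdd (p : ℤ))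
    (hH : Atiyah F H) : Atiyah F G := by
  by_cases hl : lcmFin G = lcmFin H
  · by_cases hφ : ∃ φ : H →* Multiplicative ℤ, ¬ ∃ y, φ ⟨w ^ p, h.pow_mem⟩ = y ^ p
    · obtain ⟨φ, hφ⟩ := hφ
      exact h.atiyah_of_hom hH φ hφ
    · push_neg at hφ
      exact hR G H p w hG ⟨h.prime, h.central, h.not_mem, h.pow_mem, h.gen, hfg, hl, hφ, hd⟩ hH
  · exact h.atiyah_of_lcm_ne hH hl

private theorem fgb_map_fg {G G₂ : Type*} [Group G] [Group G₂] (f : G →* G₂) {L : Subgroup G}
    (hL : L.FG) : (L.map f).FG := by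
  classical
  obtain ⟨S, hS⟩ := hL
  refine ⟨S.image f, ?_⟩
  rw [Finset.coe_image, ← MonoidHom.map_closure, hS]

/-- A matrix over `F G` comes from a finitely generated subgroup containing a given one. -/
theorem exists_fg_matrix {F : Subfield ℂ} {G : Type*} [Group G] {a b : ℕ}
    (A : Fin a → Fin b → G →₀ ℂ) (hA : ∀ k i g, A k i g ∈ F) (L : Subgroup G) (hL : L.FG) :
    ∃ G₀ : Subgroup G, G₀.FG ∧ L ≤ G₀ ∧ ∃ A₀ : Fin a → Fin b → G₀ →₀ ℂ,
      (∀ k i g, A₀ k i g ∈ F) ∧ mapMat G₀.subtype A₀ = A := by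
  classical
  let S : Finset G := Finset.univ.biUnion fun x : Fin a × Fin b => (A x.1 x.2).support
  let G₀ : Subgroup G := L ⊔ Subgroup.closure (S : Set G)
  have hS : ∀ k i, ((A k i).support : Set G) ⊆ Set.range G₀.subtype := by
    intro k i g hg
    have h1 : g ∈ (S : Set G) := by
      rw [Finset.mem_coe]
      exact Finset.mem_biUnion.2 ⟨(k, i), Finset.mem_univ _, hg⟩
    have h2 : g ∈ G₀ := (le_sup_right : Subgroup.closure (S : Set G) ≤ G₀)
      (Subgroup.subset_closure h1)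
    exact ⟨⟨g, h2⟩, rfl⟩
  refine ⟨G₀, hL.sup ⟨S, rfl⟩, le_sup_left,
    fun k i => (A k i).comapDomain G₀.subtype (Subgroup.subtype_injective G₀).injOn, ?_, ?_⟩
  · intro k i g
    rw [Finsupp.comapDomain_apply]
    exact hA _ _ _
  · funext k i
    exact Finsupp.mapDomain_comapDomain _ (Subgroup.subtype_injective G₀) _ (hS k i)

/-- The restriction of a root pair to a subgroup containing `w`. -/
theorem Root.restrict {G : Type*} [Group G] {H : Subgroup G} {p : ℕ} {w : G} (h : Root H p w)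
    (G₀ : Subgroup G) (hw : w ∈ G₀) : Root (H.subgroupOf G₀) p (⟨w, hw⟩ : G₀) := by
  refine ⟨h.prime, fun g => Subtype.ext (h.central g), ?_, ?_, ?_⟩
  · intro hc
    exact h.not_mem (Subgroup.mem_subgroupOf.1 hc)
  · rw [Subgroup.mem_subgroupOf]
    exact h.pow_mem
  · rw [eq_top_iff]
    rintro g -
    have := h.normal
    have hg : (g : G) ∈ ((H ⊔ Subgroup.zpowers w : Subgroup G) : Set G) := by
      rw [h.gen]; exact Subgroup.mem_top _
    rw [Subgroup.normal_mul] at hg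
    obtain ⟨x, hx, y, hy, hxy⟩ := hg
    obtain ⟨i, rfl⟩ := Subgroup.mem_zpowers_iff.1 hy
    have hxy' : x * w ^ i = (g : G) := hxy
    have hx0 : x ∈ G₀ := by
      have : x = (g : G) * (w ^ i)⁻¹ := by rw [← hxy', mul_inv_cancel_right]
      rw [this]
      exact G₀.mul_mem g.2 (G₀.inv_mem (G₀.zpow_mem hw i))
    have : g = (⟨x, hx0⟩ : G₀) * (⟨w, hw⟩ : G₀) ^ i := by
      apply Subtype.ext
      rw [← hxy']
      push_cast
      rfl
    rw [this]
    refine Subgroup.mul_mem_sup ?_ (Subgroup.zpow_mem_zpowers _ _)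
    rw [Subgroup.mem_subgroupOf]
    exact hx

/-- All root pairs with a homomorphism `d` to `ℤ` with `d (w ^ p) = p`. For a matrix `A` over `F G`
take the subgroup `G₀` generated by the supports, by `w` and by a subgroup as in `exists_fg_lcm` of
`H`, and `H₀ = H ∩ G₀` (`Subgroup.fg_of_index_ne_zero`). -/
theorem Root.atiyah2 {F : Subfield ℂ} {C : ∀ (G : Type u) [Group G], Prop} (hC : GoodClass C)
    (hR : RootClosed F C) {G : Type u} [Group G] {H : Subgroup G} {p : ℕ} {w : G} (hG : C G)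
    (h : Root H p w)
    (hd : ∃ d : H →* Multiplicative ℤ, d ⟨w ^ p, h.pow_mem⟩ = Multiplicative.ofAdd (p : ℤ))
    (hH : Atiyah F H) : Atiyah F G := by
  have := h.normal
  have hfi : H.FiniteIndex := ⟨by rw [h.index]; exact h.prime.ne_zero⟩
  have hbG : BoundedFin G := BoundedFin.of_index H hH.1
  obtain ⟨L, hL, hLM⟩ := exists_fg_lcm hH.1
  refine ⟨hbG, fun a b A hA => ?_⟩
  obtain ⟨G₀, hfg, hLG, A₀, hA₀, hmap⟩ := exists_fg_matrix A hA
    (L.map H.subtype ⊔ Subgroup.zpowers w)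
    ((fgb_map_fg _ hL).sup ⟨{w}, by rw [Finset.coe_singleton, Subgroup.zpowers_eq_closure]⟩)
  have hw : w ∈ G₀ := hLG ((le_sup_right : Subgroup.zpowers w ≤ _) (Subgroup.mem_zpowers w))
  have hLG' : L.map H.subtype ≤ G₀ := le_sup_left.trans hLG
  have h₀ := h.restrict G₀ hw
  have : Group.FG G₀ := (Group.fg_iff_subgroup_fg _).2 hfg
  have hfi₀ : (H.subgroupOf G₀).FiniteIndex := ⟨by rw [h₀.index]; exact h.prime.ne_zero⟩
  have hfg₀ : Group.FG (H.subgroupOf G₀) := Subgroup.fg_of_index_ne_zero _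
  -- the isomorphism of `H ∩ G₀` as a subgroup of `G₀` and of `H`
  let f : H.subgroupOf G₀ →* H :=
    { toFun := fun x => ⟨((x : G₀) : G), x.2⟩
      map_one' := rfl
      map_mul' := fun _ _ => rfl }
  have hf : Injective f := by
    intro x y hxy
    have h1 := congrArg (fun z : H => (z : G)) hxy
    exact Subtype.ext (Subtype.ext h1)
  have hLr : L ≤ f.range := by
    intro x hx
    exact ⟨⟨⟨(x : G), hLG' ⟨x, hx, rfl⟩⟩, x.2⟩, rfl⟩
  obtain ⟨hbr, hlr⟩ := hLM f.range hLr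
  have e : H.subgroupOf G₀ ≃* f.range := MonoidHom.ofInjective hf
  have hAr : Atiyah F f.range := Atiyah.of_injective f.range.subtype
    (Subgroup.subtype_injective _) hH hlr.symm
  have hA0 : Atiyah F (H.subgroupOf G₀) := Atiyah.of_equiv e hAr
  obtain ⟨d, hdw⟩ := hd
  have hG0 : Atiyah F G₀ := Root.atiyah_fg hR (hC.sub G G₀ hG) h₀ hfg₀
    ⟨d.comp f, hdw⟩ hA0
  obtain ⟨z, hz⟩ := hG0.2 a b A₀ hA₀
  obtain ⟨c, hc⟩ := (hbG.of_injective G₀.subtype (Subgroup.subtype_injective _)).2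
  refine ⟨c * z, ?_⟩
  rw [← hmap, vdim_mapMat _ (Subgroup.subtype_injective _), hc]
  push_cast
  rw [← hz]
  ring

end Pool.Agent.FIO
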