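import Pool.Agent.FIO.Grp

set_option autoImplicit false

open Function

namespace Pool.Agent.FIO

universe u

/-- Normal subgroups of finite index, inside a good class. -/
theorem normal_of_rootClosed {F : Subfield ℂ} {C : ∀ (G : Type u) [Group G], Prop}
    (hC : GoodClass C) (hR : RootClosed F C) (G : Type u) [Group G] (H : Subgroup G) [H.Normal]
    [H.FiniteIndex] (hG : C G) (hH : Atiyah F H) : Atiyah F G :=
  index_finite hC (fun p hp k => index_pow hC (fun G _ H _ hG hi hH =>
    index_prime hC hR G H hG hi hH) p hp k) G H hG hH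

theorem goodClass_true : GoodClass.{u} (fun _ _ => True) :=
  ⟨fun _ _ _ _ => trivial, fun _ _ _ => trivial⟩

/-- No element of finite order except 1. -/
def TorFree (G : Type*) [Group G] : Prop := ∀ (g : G) (n : ℕ), 0 < n → g ^ n = 1 → g = 1

theorem goodClass_torFree : GoodClass.{u} (fun G _ => TorFree G) := by
  refine ⟨fun G _ H hG g n hn hg => ?_, fun G _ hG g n hn hg => ?_⟩
  · exact Subtype.ext (hG g n hn (by simpa using congrArg Subtype.val hg))
  · have h1 := congrArg Prod.fst hg
    have h2 := congrArg Prod.snd hg
    refine Prod.ext (hG _ n hn (by simpa using h1)) ?_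
    have h3 : n * (Multiplicative.toAdd g.2) = 0 := by
      have := congrArg Multiplicative.toAdd h2
      simpa using this
    rcases mul_eq_zero.mp h3 with h4 | h4
    · exact absurd h4 (by exact_mod_cast hn.ne')
    · exact Multiplicative.toAdd.injective (by simpa using h4)

theorem RootPair.normal {G : Type*} [Group G] {H : Subgroup G} {p : ℕ} {w : G}
    (h : RootPair H p w) : H.Normal :=
  Root.normal ⟨h.prime, h.central, h.not_mem, h.pow_mem, h.gen⟩

theorem RootPair.finiteIndex {G : Type*} [Group G] {H : Subgroup G} {p : ℕ} {w : G}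
    (h : RootPair H p w) : H.FiniteIndex :=
  ⟨by
    rw [Root.index ⟨h.prime, h.central, h.not_mem, h.pow_mem, h.gen⟩]
    exact h.prime.ne_zero⟩

/-- Part (A): normal subgroups of finite index. -/
theorem partA (F : Subfield ℂ) {C : ∀ (G : Type u) [Group G], Prop} (hC : GoodClass C) :
    (∀ (G : Type u) [Group G] (H : Subgroup G), C G → H.Normal → H.FiniteIndex → Atiyah F H →
      Atiyah F G) ↔
    (∀ (G : Type u) [Group G] (H : Subgroup G) (p : ℕ) (w : G), C G → RootPair H p w →
      Atiyah F H → Atiyah F G) := by
  constructor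
  · intro h G _ H p w hG hr hH
    exact h G H hG hr.normal hr.finiteIndex hH
  · intro h G _ H hG hn hf hH
    exact normal_of_rootClosed hC h G H hG hH

theorem lcmFin_torFree {G : Type*} [Group G] (h : TorFree G) : BoundedFin G ∧ lcmFin G = 1 := by
  have h1 : ∀ K : Subgroup G, Finite K → Nat.card K ∣ 1 := by
    intro K hK
    have : Subsingleton K := by
      refine ⟨fun x y => ?_⟩
      have hx : ∀ x : K, x = 1 := by
        intro x
        have := pow_card_eq_one' (x := x)
        refine Subtype.ext (h (x : G) (Nat.card K) Nat.card_pos ?_)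
        rw [← Subgroup.coe_pow, this]
        rfl
      rw [hx x, hx y]
    rw [Nat.card_unique]
  exact ⟨BoundedFin.of_dvd one_pos h1, Nat.dvd_one.mp (lcmFin_dvd one_pos h1)⟩

/-- Part (B): torsion-free groups, all subgroups of finite index. -/
theorem partB (F : Subfield ℂ) {C : ∀ (G : Type u) [Group G], Prop} (hC : GoodClass C)
    (hT : ∀ (G : Type u) [Group G], C G → TorFree G) :
    (∀ (G : Type u) [Group G] (H : Subgroup G), C G → H.FiniteIndex → Atiyah F H →
      Atiyah F G) ↔
    (∀ (G : Type u) [Group G] (H : Subgroup G) (p : ℕ) (w : G), C G → RootPair H p w →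
      Atiyah F H → Atiyah F G) := by
  constructor
  · intro h G _ H p w hG hr hH
    exact h G H hG hr.finiteIndex hH
  · intro h G _ H hG hf hH
    have hN : Atiyah F H.normalCore := by
      have hle : H.normalCore ≤ H := H.normalCore_le
      refine hH.of_injective (Subgroup.inclusion hle) (Subgroup.inclusion_injective hle) ?_
      rw [(lcmFin_torFree (hT H (hC.sub G H hG))).2,
        (lcmFin_torFree (hT H.normalCore (hC.sub G H.normalCore hG))).2]
    exact normal_of_rootClosed hC h G H.normalCore hG hN

end Pool.Agent.FIO
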