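import Pool.Agent.FIO.IrrDefs
import Pool.Agent.FIO.MainA

set_option autoImplicit false

namespace Pool.Agent.FIO

universe u

/-- `Q` is finitely generated, `N` is a normal subgroup of prime index `p`, `lcm(Q) = lcm(N)`, and no
`p`-chain leads from `Q` into `N`. -/
structure IrrPair {Q : Type*} [Group Q] (N : Subgroup Q) (p : ℕ) : Prop where
  prime : p.Prime
  fg : Group.FG Q
  normal : N.Normal
  index : N.index = p
  lcm_eq : lcmFin Q = lcmFin N
  irred : Irred p N

/-- `G` is generated by the finitely generated subgroup `H` and a central element `w`, not in `H`,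
with `w ^ p` in `H` for the prime `p`; `lcm(G) = lcm(H)`; some homomorphism from `H` to `ℤ` maps
`w ^ p` to `p`; no `p`-chain leads from `G` into `H`; and `w ^ p` is a `p`-th power in every
torsion-free nilpotent quotient of `H`. -/
structure IrrRoot {G : Type u} [Group G] (H : Subgroup G) (p : ℕ) (w : G) : Prop where
  prime : p.Prime
  central : ∀ g : G, w * g = g * w
  not_mem : w ∉ H
  pow_mem : w ^ p ∈ H
  gen : H ⊔ Subgroup.zpowers w = ⊤
  fg : Group.FG H
  lcm_eq : lcmFin G = lcmFin H
  hom_eq : ∃ δ : H →* Multiplicative ℤ, δ ⟨w ^ p, pow_mem⟩ = Multiplicative.ofAdd (p : ℤ)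
  irred : Irred p H
  nil_pow : ∀ (E : Type u) [Group E] (ψ : H →* E), Group.IsNilpotent E → TorFree E →
    ∃ y : H, ψ ⟨w ^ p, pow_mem⟩ = ψ y ^ p

end Pool.Agent.FIO
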