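import Pool.Agent.FIO.MainP

set_option autoImplicit false

open Function

namespace Pool.Agent.FIO

universe u

/-- `Q` is finitely generated, `N` is a normal subgroup of `Q` of prime index `p`, the two least
common multiples agree, and `Q → Q/N` does not lift to a homomorphism to `ℤ`: no homomorphism from
`Q` to `ℤ` has its kernel inside `N`. -/
structure NonLift {Q : Type*} [Group Q] (N : Subgroup Q) (p : ℕ) : Prop where
  prime : p.Prime
  fg : Group.FG Q
  normal : N.Normal
  index : N.index = p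
  lcm_eq : lcmFin Q = lcmFin N
  lift : ¬ ∃ ψ : Q →* Multiplicative ℤ, ψ.ker ≤ N

theorem RootPair.root {G : Type*} [Group G] {H : Subgroup G} {p : ℕ} {w : G}
    (h : RootPair H p w) : Root H p w := ⟨h.prime, h.central, h.not_mem, h.pow_mem, h.gen⟩

/-- Division of a homomorphism to `ℤ`. -/
private theorem pp_divide {H : Type*} [Group H] (φ : H →* Multiplicative ℤ) (m : ℤ) (hm : m ≠ 0)
    (h : ∀ x, m ∣ (φ x).toAdd) :
    ∃ φ' : H →* Multiplicative ℤ, ∀ x, (φ x).toAdd = m * (φ' x).toAdd := by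
  choose n hn using h
  have hmul : ∀ x y, n (x * y) = n x + n y := by
    intro x y
    apply mul_left_cancel₀ hm
    rw [mul_add, ← hn, ← hn, ← hn, map_mul, toAdd_mul]
  exact ⟨MonoidHom.mk' (fun x => Multiplicative.ofAdd (n x)) (fun x y => by
    rw [hmul, ofAdd_add]), hn⟩

private theorem pp_decomp {G : Type*} [Group G] {H : Subgroup G} {p : ℕ} {w : G}
    (h : Root H p w) (g : G) : ∃ x ∈ H, ∃ i : ℤ, g = x * w ^ i := by
  have := h.normal
  have hg : g ∈ ((H ⊔ Subgroup.zpowers w : Subgroup G) : Set G) := by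
    rw [h.gen]; exact Subgroup.mem_top g
  rw [Subgroup.normal_mul] at hg
  obtain ⟨x, hx, y, hy, rfl⟩ := hg
  obtain ⟨i, rfl⟩ := Subgroup.mem_zpowers_iff.1 hy
  exact ⟨x, hx, i, rfl⟩

private theorem pp_dvd {G : Type*} [Group G] {H : Subgroup G} {p : ℕ} {w : G}
    (h : Root H p w) (i : ℤ) (hi : w ^ i ∈ H) : (p : ℤ) ∣ i := by
  by_contra hcon
  have hcop : IsCoprime (p : ℤ) i :=
    ((Nat.prime_iff_prime_int.1 h.prime).coprime_iff_not_dvd).2 hcon
  obtain ⟨a, b, hab⟩ := hcop
  apply h.not_mem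
  have : w = (w ^ p) ^ a * (w ^ i) ^ b := by
    rw [← zpow_natCast, ← zpow_mul, ← zpow_mul, ← zpow_add, mul_comm (p : ℤ), mul_comm i, hab,
      zpow_one]
  rw [this]
  exact H.mul_mem (H.zpow_mem h.pow_mem _) (H.zpow_mem hi _)

/-- Extension of a homomorphism on `H` to `G`. -/
private theorem pp_extend {G : Type*} [Group G] {H : Subgroup G} {p : ℕ} {w : G}
    (h : Root H p w) (δ : H →* Multiplicative ℤ) (k : ℤ)
    (hδ : (δ ⟨w ^ p, h.pow_mem⟩).toAdd = p * k) :
    ∃ D : G →* Multiplicative ℤ, (D w).toAdd = k ∧ ∀ x : H, D x = δ x := by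
  have hkey : ∀ (x y : G) (hx : x ∈ H) (hy : y ∈ H) (i j : ℤ), x * w ^ i = y * w ^ j →
      (δ ⟨x, hx⟩).toAdd + k * i = (δ ⟨y, hy⟩).toAdd + k * j := by
    intro x y hx hy i j hxy
    have h1 : y⁻¹ * x = w ^ (j - i) := by
      have : x = y * w ^ j * (w ^ i)⁻¹ := by rw [← hxy, mul_inv_cancel_right]
      rw [this, zpow_sub]
      group
    obtain ⟨r, hr⟩ := pp_dvd h (j - i) (by rw [← h1]; exact H.mul_mem (H.inv_mem hy) hx)
    have h2 : (⟨x, hx⟩ : H) = ⟨y, hy⟩ * ⟨w ^ p, h.pow_mem⟩ ^ r := by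
      apply Subtype.ext
      push_cast
      rw [← zpow_natCast, ← zpow_mul, ← hr, ← h1]
      group
    rw [h2, map_mul, map_zpow, toAdd_mul, toAdd_zpow, hδ, smul_eq_mul]
    have h3 : j = i + p * r := by rw [← hr]; ring
    rw [h3]
    ring
  choose x hx i hxi using pp_decomp h
  refine ⟨MonoidHom.mk' (fun g => Multiplicative.ofAdd ((δ ⟨x g, hx g⟩).toAdd + k * i g)) ?_, ?_,
    ?_⟩
  · intro a b
    rw [← ofAdd_add]
    congr 1
    have hc : ∀ (n : ℤ) (g : G), w ^ n * g = g * w ^ n := by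
      intro n g
      exact ((show Commute w g from h.central g).zpow_left n).eq
    have h1 : x (a * b) * w ^ i (a * b) = (x a * x b) * w ^ (i a + i b) := by
      rw [← hxi, zpow_add, mul_assoc, ← mul_assoc (x b), ← hc (i a) (x b), mul_assoc, ← mul_assoc,
        ← hxi a, ← hxi b]
    have h2 := hkey _ _ (hx (a * b)) (H.mul_mem (hx a) (hx b)) _ _ h1
    rw [h2]
    have h3 : (⟨x a * x b, H.mul_mem (hx a) (hx b)⟩ : H) = ⟨x a, hx a⟩ * ⟨x b, hx b⟩ := rfl
    rw [h3, map_mul, toAdd_mul]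
    ring
  · change (δ ⟨x w, hx w⟩).toAdd + k * i w = k
    have h1 : x w * w ^ i w = 1 * w ^ (1 : ℤ) := by rw [← hxi, one_mul, zpow_one]
    have h2 := hkey _ _ (hx w) H.one_mem _ _ h1
    rw [h2]
    have h3 : (⟨1, H.one_mem⟩ : H) = 1 := rfl
    rw [h3, map_one, toAdd_one]
    ring
  · intro y
    have h1 : x y * w ^ i (y : G) = (y : G) * w ^ (0 : ℤ) := by rw [← hxi, zpow_zero, mul_one]
    have h2 := hkey _ _ (hx y) y.2 _ _ h1
    change Multiplicative.ofAdd ((δ ⟨x y, hx y⟩).toAdd + k * i (y : G)) = δ y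
    rw [h2]
    simp

/-- The pair of prime index behind a root pair: `G = Q × ⟨w⟩`, `Q` the kernel of `D`. -/
theorem RootPair.exists_nonLift {G : Type*} [Group G] {H : Subgroup G} {p : ℕ} {w : G}
    (h : RootPair H p w) (hb : BoundedFin H) :
    ∃ D : G →* Multiplicative ℤ, Surjective D ∧ lcmFin H = lcmFin (H.subgroupOf D.ker) ∧
      NonLift (H.subgroupOf D.ker) p := by
  have hr := h.root
  have hn := hr.normal
  have hfi : H.FiniteIndex := h.finiteIndex
  have hbG : BoundedFin G := BoundedFin.of_index H hb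
  have hp0 : (p : ℤ) ≠ 0 := by exact_mod_cast h.prime.ne_zero
  obtain ⟨δ, hδ⟩ := h.hom_eq
  obtain ⟨D, hDw, hDH⟩ := pp_extend hr δ 1 (by rw [hδ]; simp)
  have hsurj : Surjective D := by
    intro y
    refine ⟨w ^ y.toAdd, ?_⟩
    apply Multiplicative.toAdd.injective
    rw [map_zpow, toAdd_zpow, hDw]
    simp
  -- an element of `H` of degree 1
  obtain ⟨h₁, hh₁⟩ : ∃ x : H, (δ x).toAdd = 1 := by
    have h2 : ∃ x : H, ¬ (p : ℤ) ∣ (δ x).toAdd := by
      by_contra hc
      push Not at hc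
      obtain ⟨φ, hφ⟩ := pp_divide δ p hp0 hc
      obtain ⟨y, hy⟩ := h.hom_mul φ
      have h3 := hφ ⟨w ^ p, h.pow_mem⟩
      rw [hδ, hy, toAdd_ofAdd, toAdd_pow, nsmul_eq_mul] at h3
      have h4 : (1 : ℤ) = p * y.toAdd := by
        apply mul_left_cancel₀ hp0
        rw [mul_one]
        exact_mod_cast h3
      have h5 : (p : ℤ) ∣ 1 := ⟨_, h4⟩
      have h6 : p ∣ 1 := by exact_mod_cast h5
      exact h.prime.one_lt.ne' (Nat.dvd_one.1 h6)
    obtain ⟨x, hx⟩ := h2
    have hcop : IsCoprime (p : ℤ) (δ x).toAdd :=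
      ((Nat.prime_iff_prime_int.1 h.prime).coprime_iff_not_dvd).2 hx
    obtain ⟨a, b, hab⟩ := hcop
    refine ⟨⟨w ^ p, h.pow_mem⟩ ^ a * x ^ b, ?_⟩
    rw [map_mul, map_zpow, map_zpow, toAdd_mul, toAdd_zpow, toAdd_zpow, hδ]
    simpa using hab
  have hDh₁ : (D (h₁ : G)).toAdd = 1 := by rw [hDH, hh₁]
  have hmemQ : ∀ g : G, g ∈ D.ker ↔ (D g).toAdd = 0 := by
    intro g
    rw [MonoidHom.mem_ker]
    exact toAdd_eq_zero.symm
  -- finite subgroups
  have hbQ : BoundedFin D.ker :=
    (hbG.of_injective D.ker.subtype (Subgroup.subtype_injective _)).1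
  have hlQ : lcmFin G = lcmFin D.ker :=
    (lcmFin_eq D.ker.subtype (Subgroup.subtype_injective _) hbQ (fun K hK => by
      rw [Subgroup.range_subtype]
      exact le_ker_of_finite D K hK)).2
  let f : H.subgroupOf D.ker →* H :=
    { toFun := fun x => ⟨((x : D.ker) : G), x.2⟩
      map_one' := rfl
      map_mul' := fun _ _ => rfl }
  have hf : Injective f := by
    intro x y hxy
    have h1 := congrArg (fun z : H => (z : G)) hxy
    exact Subtype.ext (Subtype.ext h1)
  have hlN : lcmFin H = lcmFin (H.subgroupOf D.ker) := by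
    refine (lcmFin_eq f hf (hb.of_injective f hf).1 ?_).2
    intro K hK x hx
    have h1 := le_ker_of_finite δ K hK hx
    rw [MonoidHom.mem_ker] at h1
    refine ⟨⟨⟨(x : G), ?_⟩, x.2⟩, rfl⟩
    rw [MonoidHom.mem_ker, hDH]
    exact h1
  -- generation
  have hsup : D.ker ⊔ H = ⊤ := by
    rw [eq_top_iff]
    rintro g -
    have h1 : g = (g * ((h₁ : G) ^ (D g).toAdd)⁻¹) * (h₁ : G) ^ (D g).toAdd := by
      rw [inv_mul_cancel_right]
    rw [h1]
    refine Subgroup.mul_mem_sup ?_ (H.zpow_mem h₁.2 _)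
    rw [hmemQ, map_mul, map_inv, map_zpow, toAdd_mul, toAdd_inv, toAdd_zpow, hDh₁]
    simp
  have hindex : (H.subgroupOf D.ker).index = p := by
    have h1 : H.relIndex (D.ker ⊔ H) = H.relIndex D.ker := Subgroup.relIndex_sup_right _ _
    rw [hsup, Subgroup.relIndex_top_right, hr.index] at h1
    exact h1.symm
  have hfgG : Group.FG G := by
    have h1 : (H ⊔ Subgroup.zpowers w).FG :=
      ((Group.fg_iff_subgroup_fg H).1 h.fg).sup
        ⟨{w}, by rw [Finset.coe_singleton, Subgroup.zpowers_eq_closure]⟩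
    rw [h.gen] at h1
    exact ⟨h1⟩
  have hfgQ : Group.FG D.ker := by
    have hc : ∀ (n : ℤ) (g : G), w ^ n * g = g * w ^ n := by
      intro n g
      exact ((show Commute w g from h.central g).zpow_left n).eq
    have hmem : ∀ g : G, g * (w ^ (D g).toAdd)⁻¹ ∈ D.ker := by
      intro g
      rw [hmemQ, map_mul, map_inv, map_zpow, toAdd_mul, toAdd_inv, toAdd_zpow, hDw]
      simp
    let π : G →* D.ker := MonoidHom.mk' (fun g => ⟨g * (w ^ (D g).toAdd)⁻¹, hmem g⟩) (by
      intro a b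
      apply Subtype.ext
      change a * b * (w ^ (D (a * b)).toAdd)⁻¹ =
        (a * (w ^ (D a).toAdd)⁻¹) * (b * (w ^ (D b).toAdd)⁻¹)
      rw [map_mul, toAdd_mul, ← zpow_neg, ← zpow_neg, ← zpow_neg, neg_add, zpow_add,
        mul_assoc a, mul_assoc a, ← mul_assoc b, ← mul_assoc (w ^ (-(D a).toAdd)) b, hc])
    have : Group.FG G := hfgG
    refine Group.fg_of_surjective (f := π) ?_
    intro q
    refine ⟨(q : G), Subtype.ext ?_⟩
    change (q : G) * (w ^ (D (q : G)).toAdd)⁻¹ = q
    have h1 : (D (q : G)).toAdd = 0 := (hmemQ _).1 q.2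
    rw [h1]
    simp
  refine ⟨D, hsurj, hlN, h.prime, hfgQ, inferInstance, hindex, ?_, ?_⟩
  · rw [← hlN, ← hlQ, h.lcm_eq]
  · -- no lift
    rintro ⟨ψ, hψ⟩
    -- normalise: image of `ψ` is all of `ℤ`
    obtain ⟨c, hc⟩ := Int.subgroup_cyclic (AddMonoidHom.range (MonoidHom.toAdditiveLeft ψ))
    have hc' : ∀ g, c ∣ (ψ g).toAdd := by
      intro g
      have h1 : (ψ g).toAdd ∈ AddMonoidHom.range (MonoidHom.toAdditiveLeft ψ) :=
        ⟨Additive.ofMul g, rfl⟩
      rw [hc, AddSubgroup.mem_closure_singleton] at h1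
      obtain ⟨n, hn⟩ := h1
      exact ⟨n, by rw [← hn]; simp [mul_comm]⟩
    obtain ⟨t, ht⟩ : ∃ t, (ψ t).toAdd = c := by
      have h1 : c ∈ AddMonoidHom.range (MonoidHom.toAdditiveLeft ψ) := by
        rw [hc]
        exact AddSubgroup.subset_closure (Set.mem_singleton c)
      obtain ⟨g, hg⟩ := h1
      exact ⟨g.toMul, hg⟩
    have htop : H.subgroupOf D.ker ≠ ⊤ := by
      intro he
      rw [he, Subgroup.index_top] at hindex
      exact h.prime.one_lt.ne hindex
    have hc0 : c ≠ 0 := by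
      rintro rfl
      apply htop
      rw [eq_top_iff]
      rintro g -
      apply hψ
      rw [MonoidHom.mem_ker]
      have h1 := hc' g
      rw [zero_dvd_iff] at h1
      exact toAdd_eq_zero.1 h1
    obtain ⟨ψ', hψ'⟩ := pp_divide ψ c hc0 hc'
    have hker : ∀ q : D.ker, (ψ' q).toAdd = 0 → q ∈ H.subgroupOf D.ker := by
      intro q hq
      apply hψ
      rw [MonoidHom.mem_ker]
      have h1 := hψ' q
      rw [hq, mul_zero] at h1
      exact toAdd_eq_zero.1 h1
    have htt : (ψ' t).toAdd = 1 := by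
      have h1 := hψ' t
      rw [ht] at h1
      apply mul_left_cancel₀ hc0
      rw [← h1, mul_one]
    set N : Subgroup D.ker := H.subgroupOf D.ker with hN
    have htN : t ∉ N := by
      intro ht'
      apply htop
      rw [eq_top_iff]
      rintro g -
      have h1 : g = (g * (t ^ (ψ' g).toAdd)⁻¹) * t ^ (ψ' g).toAdd := by
        rw [inv_mul_cancel_right]
      rw [h1]
      refine N.mul_mem (hker _ ?_) (N.zpow_mem ht' _)
      rw [map_mul, map_inv, map_zpow, toAdd_mul, toAdd_inv, toAdd_zpow, htt]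
      simp
    have hNn : N.Normal := inferInstance
    have htp : t ^ p ∈ N := by
      have h1 : (QuotientGroup.mk t : D.ker ⧸ N) ^ N.index = 1 := by
        rw [Subgroup.index_eq_card]
        exact pow_card_eq_one'
      rw [hindex, ← QuotientGroup.mk_pow, QuotientGroup.eq_one_iff] at h1
      exact h1
    -- `ψ'` maps `N` to multiples of `p`
    have hNp : ∀ q : D.ker, q ∈ N ↔ (p : ℤ) ∣ (ψ' q).toAdd := by
      intro q
      have h0 : q * (t ^ (ψ' q).toAdd)⁻¹ ∈ N := by
        apply hker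
        rw [map_mul, map_inv, map_zpow, toAdd_mul, toAdd_inv, toAdd_zpow, htt]
        simp
      constructor
      · intro hq
        by_contra hcon
        have hcop : IsCoprime (p : ℤ) (ψ' q).toAdd :=
          ((Nat.prime_iff_prime_int.1 h.prime).coprime_iff_not_dvd).2 hcon
        obtain ⟨a, b, hab⟩ := hcop
        apply htN
        have h1 : t ^ (ψ' q).toAdd ∈ N := by
          have : t ^ (ψ' q).toAdd = (q * (t ^ (ψ' q).toAdd)⁻¹)⁻¹ * q := by group
          rw [this]
          exact N.mul_mem (N.inv_mem h0) hq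
        have h2 : t = (t ^ p) ^ a * (t ^ (ψ' q).toAdd) ^ b := by
          rw [← zpow_natCast, ← zpow_mul, ← zpow_mul, ← zpow_add, mul_comm (p : ℤ),
            mul_comm (ψ' q).toAdd, hab, zpow_one]
        rw [h2]
        exact N.mul_mem (N.zpow_mem htp _) (N.zpow_mem h1 _)
      · rintro ⟨r, hr⟩
        have h1 : q = (q * (t ^ (ψ' q).toAdd)⁻¹) * (t ^ p) ^ r := by
          rw [hr, ← zpow_natCast, ← zpow_mul, inv_mul_cancel_right]
        rw [h1]
        exact N.mul_mem h0 (N.zpow_mem htp _)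
    -- the element `s = h₁ w⁻¹` of `Q`
    have hsQ : (h₁ : G) * w⁻¹ ∈ D.ker := by
      rw [hmemQ, map_mul, map_inv, toAdd_mul, toAdd_inv, hDh₁, hDw]
      simp
    set s : D.ker := ⟨(h₁ : G) * w⁻¹, hsQ⟩ with hs
    have hsN : s ∉ N := by
      intro hsN
      have h1 : (h₁ : G) * w⁻¹ ∈ H := Subgroup.mem_subgroupOf.1 hsN
      apply h.not_mem
      have h2 : w = ((h₁ : G) * w⁻¹)⁻¹ * h₁ := by group
      rw [h2]
      exact H.mul_mem (H.inv_mem h1) h₁.2
    -- the homomorphism on `G`
    have hc : ∀ (n : ℤ) (g : G), w ^ n * g = g * w ^ n := by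
      intro n g
      exact ((show Commute w g from h.central g).zpow_left n).eq
    have hmem : ∀ g : G, g * (w ^ (D g).toAdd)⁻¹ ∈ D.ker := by
      intro g
      rw [hmemQ, map_mul, map_inv, map_zpow, toAdd_mul, toAdd_inv, toAdd_zpow, hDw]
      simp
    let π : G →* D.ker := MonoidHom.mk' (fun g => ⟨g * (w ^ (D g).toAdd)⁻¹, hmem g⟩) (by
      intro a b
      apply Subtype.ext
      change a * b * (w ^ (D (a * b)).toAdd)⁻¹ =
        (a * (w ^ (D a).toAdd)⁻¹) * (b * (w ^ (D b).toAdd)⁻¹)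
      rw [map_mul, toAdd_mul, ← zpow_neg, ← zpow_neg, ← zpow_neg, neg_add, zpow_add,
        mul_assoc a, mul_assoc a, ← mul_assoc b, ← mul_assoc (w ^ (-(D a).toAdd)) b, hc])
    let Φ : G →* Multiplicative ℤ := MonoidHom.mk' (fun g =>
      Multiplicative.ofAdd ((ψ' (π g)).toAdd - (D g).toAdd * (ψ' s).toAdd)) (by
      intro a b
      rw [← ofAdd_add, map_mul π, map_mul ψ', map_mul D, toAdd_mul, toAdd_mul]
      congr 1
      ring)
    have hΦ : ∀ g, (Φ g).toAdd = (ψ' (π g)).toAdd - (D g).toAdd * (ψ' s).toAdd := fun g => rfl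
    have hΦH : ∀ x : H, (p : ℤ) ∣ ((Φ.comp H.subtype) x).toAdd := by
      intro x
      change (p : ℤ) ∣ (Φ (x : G)).toAdd
      rw [hΦ]
      have h1 : (ψ' (π (x : G) * (s ^ (D (x : G)).toAdd)⁻¹)).toAdd =
          (ψ' (π (x : G))).toAdd - (D (x : G)).toAdd * (ψ' s).toAdd := by
        rw [map_mul, map_inv, map_zpow, toAdd_mul, toAdd_inv, toAdd_zpow, smul_eq_mul, sub_eq_add_neg]
      rw [← h1, ← hNp, hN, Subgroup.mem_subgroupOf]
      have h2 : ((π (x : G) * (s ^ (D (x : G)).toAdd)⁻¹ : D.ker) : G) =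
          (x : G) * (h₁ : G)⁻¹ ^ (D (x : G)).toAdd := by
        change (x : G) * (w ^ (D (x : G)).toAdd)⁻¹ * (((s ^ (D (x : G)).toAdd : D.ker) : G))⁻¹ = _
        have h3 : ((s ^ (D (x : G)).toAdd : D.ker) : G) =
            (h₁ : G) ^ (D (x : G)).toAdd * (w ^ (D (x : G)).toAdd)⁻¹ := by
          rw [Subgroup.coe_zpow]
          change ((h₁ : G) * w⁻¹) ^ (D (x : G)).toAdd = _
          have hcm : Commute (h₁ : G) w⁻¹ :=
            (show Commute w (h₁ : G) from h.central _).symm.inv_right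
          rw [hcm.mul_zpow, inv_zpow]
        rw [h3, mul_inv_rev, inv_inv, inv_zpow, mul_assoc, inv_mul_cancel_left]
      rw [h2]
      exact H.mul_mem x.2 (H.zpow_mem (H.inv_mem h₁.2) _)
    obtain ⟨φ, hφ⟩ := pp_divide (Φ.comp H.subtype) p hp0 hΦH
    obtain ⟨y, hy⟩ := h.hom_mul φ
    have h1 := hφ ⟨w ^ p, h.pow_mem⟩
    rw [hy, toAdd_pow, nsmul_eq_mul] at h1
    have h2 : ((Φ.comp H.subtype) ⟨w ^ p, h.pow_mem⟩).toAdd = p * (Φ w).toAdd := by
      change (Φ (w ^ p)).toAdd = _
      rw [map_pow, toAdd_pow, nsmul_eq_mul]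
    have h3 : (Φ w).toAdd = -(ψ' s).toAdd := by
      rw [hΦ, hDw]
      have h4 : π w = 1 := by
        apply Subtype.ext
        change w * (w ^ (D w).toAdd)⁻¹ = 1
        rw [hDw, zpow_one, mul_inv_cancel]
      rw [h4, map_one, toAdd_one]
      ring
    rw [h2, h3] at h1
    have h5 : -(ψ' s).toAdd = p * y.toAdd := by
      apply mul_left_cancel₀ hp0
      exact_mod_cast h1
    apply hsN
    rw [hNp]
    exact (dvd_neg).1 ⟨_, h5⟩

private theorem pp_toC {F : Subfield ℂ} {c p : ℕ} {G : Type u} [Group G] {H : Subgroup G} {w : G}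
    (h : RootPair H p w) (hH : AtC F c H) (hQ : ∀ D : G →* Multiplicative ℤ,
      NonLift (H.subgroupOf D.ker) p → AtC F c (H.subgroupOf D.ker) → AtC F c D.ker) :
    AtC F c G := by
  obtain ⟨D, hD, hl, hN⟩ := h.exists_nonLift hH.1
  let f : H.subgroupOf D.ker →* H :=
    { toFun := fun x => ⟨((x : D.ker) : G), x.2⟩
      map_one' := rfl
      map_mul' := fun _ _ => rfl }
  have hf : Injective f := by
    intro x y hxy
    have h1 := congrArg (fun z : H => (z : G)) hxy
    exact Subtype.ext (Subtype.ext h1)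
  exact zextC D hD (hQ D hN (hH.of_injective f hf hl))

/-- Pairs of prime index and root pairs, with a fixed constant. -/
theorem nonLift_iff_rootC (F : Subfield ℂ) (c p : ℕ) {C : ∀ (G : Type u) [Group G], Prop}
    (hC : GoodClass C) :
    (∀ (Q : Type u) [Group Q] (N : Subgroup Q), C Q → NonLift N p → AtC F c N → AtC F c Q) ↔
    (∀ (G : Type u) [Group G] (H : Subgroup G) (w : G), C G → RootPair H p w → AtC F c H →
      AtC F c G) := by
  constructor
  · intro h G _ H w hG hr hH
    exact pp_toC hr hH fun D hN hA => h D.ker _ (hC.sub G D.ker hG) hN hA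
  · intro h Q _ N hQ hN hA
    have := hN.normal
    have hp : N.index.Prime := by rw [hN.index]; exact hN.prime
    refine index_primeC hC Q N (fun G _ H w hG hr hH => ?_) hQ hp hA
    rw [hN.index] at hr
    exact h G H w hG hr hH

/-- Pairs of prime index and root pairs for `A_F`. -/
theorem nonLift_iff_root' (F : Subfield ℂ) (p : ℕ) {C : ∀ (G : Type u) [Group G], Prop}
    (hC : GoodClass C) :
    (∀ (Q : Type u) [Group Q] (N : Subgroup Q), C Q → NonLift N p → Atiyah F N → Atiyah F Q) ↔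
    (∀ (G : Type u) [Group G] (H : Subgroup G) (w : G), C G → RootPair H p w → Atiyah F H →
      Atiyah F G) := by
  have h := nonLift_iff_rootC F 1 p hC
  simpa only [AtC.one_iff] using h

/-- Pairs of prime index and root pairs, `p`-locally. -/
theorem nonLift_iff_root (F : Subfield ℂ) (p : ℕ) {C : ∀ (G : Type u) [Group G], Prop}
    (hC : GoodClass C) :
    (∀ (Q : Type u) [Group Q] (N : Subgroup Q), C Q → NonLift N p → AtP F p N → AtP F p Q) ↔
    (∀ (G : Type u) [Group G] (H : Subgroup G) (w : G), C G → RootPair H p w → AtP F p H →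
      AtP F p G) := by
  constructor
  · intro h G _ H w hG hr hH
    obtain ⟨c, hc0, hc, hHc⟩ := atP_iff_atC.1 hH
    obtain ⟨D, hD, hl, hN⟩ := hr.exists_nonLift hHc.1
    let f : H.subgroupOf D.ker →* H :=
      { toFun := fun x => ⟨((x : D.ker) : G), x.2⟩
        map_one' := rfl
        map_mul' := fun _ _ => rfl }
    have hf : Injective f := by
      intro x y hxy
      have h1 := congrArg (fun z : H => (z : G)) hxy
      exact Subtype.ext (Subtype.ext h1)
    have hQ : AtP F p D.ker := h D.ker _ (hC.sub G D.ker hG) hN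
      (atP_iff_atC.2 ⟨c, hc0, hc, hHc.of_injective f hf hl⟩)
    obtain ⟨c', hc0', hc', hQc⟩ := atP_iff_atC.1 hQ
    exact atP_iff_atC.2 ⟨c', hc0', hc', zextC D hD hQc⟩
  · intro h Q _ N hQ hN hA
    have : Fact p.Prime := ⟨hN.prime⟩
    have : N.FiniteIndex := ⟨by rw [hN.index]; exact hN.prime.ne_zero⟩
    exact ploc_finite hC h Q N hQ hA

/-- The four forms of Q1, `p`-locally, inside a class `C` of groups: all subgroups of finite index;
pairs of index `p` without lift; roots of central elements; root pairs. -/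
theorem tfae_atP (F : Subfield ℂ) (p : ℕ) (hp : p.Prime) {C : ∀ (G : Type u) [Group G], Prop}
    (hC : GoodClass C) :
    List.TFAE [
      ∀ (G : Type u) [Group G] (H : Subgroup G), C G → H.FiniteIndex → AtP F p H → AtP F p G,
      ∀ (Q : Type u) [Group Q] (N : Subgroup Q), C Q → NonLift N p → AtP F p N → AtP F p Q,
      ∀ (G : Type u) [Group G] (H : Subgroup G) (w : G), C G → Root H p w → AtP F p H → AtP F p G,
      ∀ (G : Type u) [Group G] (H : Subgroup G) (w : G), C G → RootPair H p w → AtP F p H →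
        AtP F p G] := by
  have : Fact p.Prime := ⟨hp⟩
  tfae_have 1 → 3 := by
    intro h G _ H w hG hr hH
    exact h G H hG ⟨by rw [hr.index]; exact hp.ne_zero⟩ hH
  tfae_have 3 → 4 := fun h G _ H w hG hr hH => h G H w hG hr.root hH
  tfae_have 4 → 1 := by
    intro h G _ H hG hf hH
    exact ploc_finite hC h G H hG hH
  tfae_have 2 ↔ 4 := nonLift_iff_root F p hC
  tfae_finish

/-- The four forms of Q1 for normal subgroups, inside a class `C` of groups. -/
theorem tfae_normal (F : Subfield ℂ) {C : ∀ (G : Type u) [Group G], Prop} (hC : GoodClass C) :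
    List.TFAE [
      ∀ (G : Type u) [Group G] (H : Subgroup G), C G → H.Normal → H.FiniteIndex → Atiyah F H →
        Atiyah F G,
      ∀ (Q : Type u) [Group Q] (N : Subgroup Q) (p : ℕ), C Q → NonLift N p → Atiyah F N →
        Atiyah F Q,
      ∀ (G : Type u) [Group G] (H : Subgroup G) (p : ℕ) (w : G), C G → Root H p w → Atiyah F H →
        Atiyah F G,
      ∀ (G : Type u) [Group G] (H : Subgroup G) (p : ℕ) (w : G), C G → RootPair H p w →
        Atiyah F H → Atiyah F G] := by
  tfae_have 1 → 3 := by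
    intro h G _ H p w hG hr hH
    exact h G H hG hr.normal ⟨by rw [hr.index]; exact hr.prime.ne_zero⟩ hH
  tfae_have 3 → 4 := fun h G _ H p w hG hr hH => h G H p w hG hr.root hH
  tfae_have 4 → 1 := by
    intro h G _ H hG hn hf hH
    exact normal_of_rootClosed hC h G H hG hH
  tfae_have 2 → 4 := by
    intro h G _ H p w hG hr hH
    exact (nonLift_iff_root' F p hC).1 (fun Q _ N hQ hN hA => h Q N p hQ hN hA) G H w hG hr hH
  tfae_have 4 → 2 := by
    intro h Q _ N p hQ hN hA
    exact (nonLift_iff_root' F p hC).2 (fun G _ H w hG hr hH => h G H p w hG hr hH) Q N hQ hN hA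
  tfae_finish

/-- The four forms of Q1 for torsion-free groups (all subgroups of finite index). -/
theorem tfae_torFree (F : Subfield ℂ) {C : ∀ (G : Type u) [Group G], Prop} (hC : GoodClass C)
    (hT : ∀ (G : Type u) [Group G], C G → TorFree G) :
    List.TFAE [
      ∀ (G : Type u) [Group G] (H : Subgroup G), C G → H.FiniteIndex → Atiyah F H → Atiyah F G,
      ∀ (Q : Type u) [Group Q] (N : Subgroup Q) (p : ℕ), C Q → NonLift N p → Atiyah F N →
        Atiyah F Q,
      ∀ (G : Type u) [Group G] (H : Subgroup G) (p : ℕ) (w : G), C G → Root H p w → Atiyah F H →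
        Atiyah F G,
      ∀ (G : Type u) [Group G] (H : Subgroup G) (p : ℕ) (w : G), C G → RootPair H p w →
        Atiyah F H → Atiyah F G] := by
  have h0 := tfae_normal F hC
  tfae_have 1 → 3 := by
    intro h G _ H p w hG hr hH
    exact h G H hG ⟨by rw [hr.index]; exact hr.prime.ne_zero⟩ hH
  tfae_have 2 ↔ 4 := h0.out 1 3
  tfae_have 3 ↔ 4 := h0.out 2 3
  tfae_have 4 → 1 := by
    intro h G _ H hG hf hH
    have hle : H.normalCore ≤ H := H.normalCore_le
    have hN : Atiyah F H.normalCore := by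
      refine hH.of_injective (Subgroup.inclusion hle) (Subgroup.inclusion_injective hle) ?_
      rw [(lcmFin_torFree (hT H (hC.sub G H hG))).2,
        (lcmFin_torFree (hT H.normalCore (hC.sub G H.normalCore hG))).2]
    exact normal_of_rootClosed hC h G H.normalCore hG hN
  tfae_finish

end Pool.Agent.FIO
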