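import Pool.Agent.FIO.IrrDefs
import Pool.Agent.FIO.PrimePair

set_option autoImplicit false

open Function

namespace Pool.Agent.FIO

universe u

/-- The pair of prime index behind an irreducible root pair is irreducible. -/
theorem Irred.nonLift {G : Type*} [Group G] {H : Subgroup G} {p : ℕ} (h : Irred p H)
    (D : G →* Multiplicative ℤ) : Irred p (H.subgroupOf D.ker) := by
  intro K hK hKH
  -- the kernel of `D` is the end of a chain of length 1
  have h1 : Reach p ((D.comp (⊤ : Subgroup G).subtype).ker.map (⊤ : Subgroup G).subtype) :=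
    Reach.z Reach.top (D.comp (⊤ : Subgroup G).subtype)
  have h2 : (D.comp (⊤ : Subgroup G).subtype).ker.map (⊤ : Subgroup G).subtype = D.ker := by
    ext x
    constructor
    · rintro ⟨y, hy, rfl⟩
      exact hy
    · intro hx
      exact ⟨⟨x, Subgroup.mem_top x⟩, hx, rfl⟩
  rw [h2] at h1
  refine h _ (Reach.trans h1 hK) ?_
  rintro _ ⟨y, hy, rfl⟩
  exact Subgroup.mem_subgroupOf.1 (hKH hy)

/-- Closure under irreducible pairs of prime index gives closure under irreducible root pairs,
`p`-locally. -/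
theorem irr_of_nonLiftP {F : Subfield ℂ} {p : ℕ} {C : ∀ (G : Type u) [Group G], Prop}
    (hC : GoodClass C)
    (h : ∀ (Q : Type u) [Group Q] (N : Subgroup Q), C Q → NonLift N p → Irred p N → AtP F p N →
      AtP F p Q)
    (G : Type u) [Group G] (H : Subgroup G) (w : G) (hG : C G) (hr : RootPair H p w)
    (hi : Irred p H) (hH : AtP F p H) : AtP F p G := by
  obtain ⟨c, hc0, hc, hHc⟩ := atP_iff_atC.1 hH
  obtain ⟨D, hD, hl, hN⟩ := hr.exists_nonLift hHc.1
  let f : H.subgroupOf D.ker →* H :=
    { toFun := fun x => ⟨((x : D.ker) : G), x.2⟩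
      map_one' := rfl
      map_mul' := fun _ _ => rfl }
  have hf : Injective f := by
    intro x y hxy
    have h1 := congrArg (fun z : H => (z : G)) hxy
    exact Subtype.ext (Subtype.ext h1)
  have hQ : AtP F p D.ker := h D.ker _ (hC.sub G D.ker hG) hN (hi.nonLift D)
    (atP_iff_atC.2 ⟨c, hc0, hc, hHc.of_injective f hf hl⟩)
  obtain ⟨c', hc0', hc', hQc⟩ := atP_iff_atC.1 hQ
  exact atP_iff_atC.2 ⟨c', hc0', hc', zextC D hD hQc⟩

/-- The same for `A_F`. -/
theorem irr_of_nonLift {F : Subfield ℂ} {p : ℕ} {C : ∀ (G : Type u) [Group G], Prop}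
    (hC : GoodClass C)
    (h : ∀ (Q : Type u) [Group Q] (N : Subgroup Q), C Q → NonLift N p → Irred p N → Atiyah F N →
      Atiyah F Q)
    (G : Type u) [Group G] (H : Subgroup G) (w : G) (hG : C G) (hr : RootPair H p w)
    (hi : Irred p H) (hH : Atiyah F H) : Atiyah F G := by
  obtain ⟨D, hD, hl, hN⟩ := hr.exists_nonLift hH.1
  let f : H.subgroupOf D.ker →* H :=
    { toFun := fun x => ⟨((x : D.ker) : G), x.2⟩
      map_one' := rfl
      map_mul' := fun _ _ => rfl }
  have hf : Injective f := by
    intro x y hxy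
    have h1 := congrArg (fun z : H => (z : G)) hxy
    exact Subtype.ext (Subtype.ext h1)
  exact zext D hD (h D.ker _ (hC.sub G D.ker hG) hN (hi.nonLift D) (hH.of_injective f hf hl))

/-- The four forms of Q1, `p`-locally, inside a class `C`: irreducible pairs. The hypothesis `h41`
is the statement that irreducible root pairs suffice. -/
theorem tfae_irrP (F : Subfield ℂ) (p : ℕ) (hp : p.Prime) {C : ∀ (G : Type u) [Group G], Prop}
    (hC : GoodClass C)
    (h41 : (∀ (G : Type u) [Group G] (H : Subgroup G) (w : G), C G → RootPair H p w → Irred p H →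
        AtP F p H → AtP F p G) →
      ∀ (G : Type u) [Group G] (H : Subgroup G), C G → H.FiniteIndex → AtP F p H → AtP F p G) :
    List.TFAE [
      ∀ (G : Type u) [Group G] (H : Subgroup G), C G → H.FiniteIndex → AtP F p H → AtP F p G,
      ∀ (Q : Type u) [Group Q] (N : Subgroup Q), C Q → NonLift N p → Irred p N → AtP F p N →
        AtP F p Q,
      ∀ (G : Type u) [Group G] (H : Subgroup G) (w : G), C G → Root H p w → Irred p H →
        AtP F p H → AtP F p G,
      ∀ (G : Type u) [Group G] (H : Subgroup G) (w : G), C G → RootPair H p w → Irred p H →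
        AtP F p H → AtP F p G] := by
  tfae_have 1 → 2 := fun h Q _ N hQ hN _ hA =>
    h Q N hQ ⟨by rw [hN.index]; exact hN.prime.ne_zero⟩ hA
  tfae_have 1 → 3 := fun h G _ H w hG hr _ hH =>
    h G H hG ⟨by rw [hr.index]; exact hp.ne_zero⟩ hH
  tfae_have 3 → 4 := fun h G _ H w hG hr hi hH => h G H w hG hr.root hi hH
  tfae_have 2 → 4 := fun h G _ H w hG hr hi hH => irr_of_nonLiftP hC h G H w hG hr hi hH
  tfae_have 4 → 1 := h41
  tfae_finish

/-- The four forms of Q1 for normal subgroups, inside a class `C`: irreducible pairs. -/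
theorem tfae_irrN (F : Subfield ℂ) {C : ∀ (G : Type u) [Group G], Prop} (hC : GoodClass C)
    (h41 : (∀ (G : Type u) [Group G] (H : Subgroup G) (p : ℕ) (w : G), C G → RootPair H p w →
        Irred p H → Atiyah F H → Atiyah F G) →
      ∀ (G : Type u) [Group G] (H : Subgroup G), C G → H.Normal → H.FiniteIndex → Atiyah F H →
        Atiyah F G) :
    List.TFAE [
      ∀ (G : Type u) [Group G] (H : Subgroup G), C G → H.Normal → H.FiniteIndex → Atiyah F H →
        Atiyah F G,
      ∀ (Q : Type u) [Group Q] (N : Subgroup Q) (p : ℕ), C Q → NonLift N p → Irred p N →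
        Atiyah F N → Atiyah F Q,
      ∀ (G : Type u) [Group G] (H : Subgroup G) (p : ℕ) (w : G), C G → Root H p w → Irred p H →
        Atiyah F H → Atiyah F G,
      ∀ (G : Type u) [Group G] (H : Subgroup G) (p : ℕ) (w : G), C G → RootPair H p w →
        Irred p H → Atiyah F H → Atiyah F G] := by
  tfae_have 1 → 2 := fun h Q _ N p hQ hN _ hA =>
    h Q N hQ hN.normal ⟨by rw [hN.index]; exact hN.prime.ne_zero⟩ hA
  tfae_have 1 → 3 := fun h G _ H p w hG hr _ hH =>
    h G H hG hr.normal ⟨by rw [hr.index]; exact hr.prime.ne_zero⟩ hH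
  tfae_have 3 → 4 := fun h G _ H p w hG hr hi hH => h G H p w hG hr.root hi hH
  tfae_have 2 → 4 := fun h G _ H p w hG hr hi hH =>
    irr_of_nonLift hC (fun Q _ N hQ hN hi hA => h Q N p hQ hN hi hA) G H w hG hr hi hH
  tfae_have 4 → 1 := h41
  tfae_finish

end Pool.Agent.FIO
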