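import Pool.Agent.FIO.Irr

/-!
Torsion-free nilpotent quotients.
-/

set_option autoImplicit false

open Function
open scoped commutatorElement

namespace Pool.Agent.FIO

universe u

/-- The factors of the upper central series of a torsion-free nilpotent group are torsion-free. -/
theorem nil_tf {Q : Type*} [Group Q] (htf : ∀ (x : Q) (n : ℕ), 0 < n → x ^ n = 1 → x = 1)
    (i : ℕ) : ∀ x ∈ Subgroup.upperCentralSeries Q (i + 1), ∀ n : ℕ, 0 < n →
      x ^ n ∈ Subgroup.upperCentralSeries Q i → x ∈ Subgroup.upperCentralSeries Q i := by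
  induction i with
  | zero =>
    intro x _ n hn hx
    rw [Subgroup.upperCentralSeries_zero, Subgroup.mem_bot] at hx ⊢
    exact htf x n hn hx
  | succ i ih =>
    intro x hx n hn hxn
    rw [Subgroup.mem_upperCentralSeries_succ_iff]
    intro y
    have hg := Subgroup.mem_upperCentralSeries_succ_iff.1 hx y
    refine ih _ hg n hn ?_
    -- modulo the `i`-th term
    let π : Q →* Q ⧸ Subgroup.upperCentralSeries Q i :=
      QuotientGroup.mk' (Subgroup.upperCentralSeries Q i)
    have hπ : ∀ a : Q, π a = 1 ↔ a ∈ Subgroup.upperCentralSeries Q i := fun a =>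
      QuotientGroup.eq_one_iff a
    have hcomm : ∀ a ∈ Subgroup.upperCentralSeries Q (i + 1), ∀ b : Q, π a * π b = π b * π a := by
      intro a ha b
      have h1 := (hπ _).2 (Subgroup.mem_upperCentralSeries_succ_iff.1 ha b)
      rw [map_commutatorElement, commutatorElement_eq_one_iff_mul_comm] at h1
      exact h1
    rw [← hπ, map_pow]
    have hgc := hcomm _ hg
    have h1 : π x * π y = π ⁅x, y⁆ * (π y * π x) := by
      rw [map_commutatorElement, commutatorElement_def]
      group
    have h2 : ∀ k : ℕ, π x ^ k * π y = π ⁅x, y⁆ ^ k * (π y * π x ^ k) := by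
      intro k
      induction k with
      | zero => simp
      | succ k ihk =>
        have h3 : π x * π ⁅x, y⁆ ^ k = π ⁅x, y⁆ ^ k * π x := by
          have : Commute (π ⁅x, y⁆) (π x) := hgc x
          exact (this.pow_left k).symm
        calc π x ^ (k + 1) * π y = π x * (π x ^ k * π y) := by rw [pow_succ', mul_assoc]
          _ = π x * (π ⁅x, y⁆ ^ k * (π y * π x ^ k)) := by rw [ihk]
          _ = (π x * π ⁅x, y⁆ ^ k) * (π y * π x ^ k) := by rw [mul_assoc]
          _ = π ⁅x, y⁆ ^ k * (π x * π y) * π x ^ k := by rw [h3]; simp only [mul_assoc]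
          _ = π ⁅x, y⁆ ^ k * (π ⁅x, y⁆ * (π y * π x)) * π x ^ k := by rw [h1]
          _ = π ⁅x, y⁆ ^ (k + 1) * (π y * π x ^ (k + 1)) := by
              rw [pow_succ (π ⁅x, y⁆), pow_succ' (π x)]
              simp only [mul_assoc]
    have h3 := h2 n
    have h4 : π x ^ n * π y = π y * π x ^ n := by
      rw [← map_pow]
      exact hcomm _ hxn y
    rw [h4] at h3
    exact (mul_eq_right.1 h3.symm)

/-- A normal subgroup with a torsion-free nilpotent quotient is reached. -/
theorem reach_nil {p : ℕ} {G : Type*} [Group G] (M : Subgroup G) [M.Normal]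
    [Group.IsNilpotent (G ⧸ M)] (ht : ∀ (x : G) (n : ℕ), 0 < n → x ^ n ∈ M → x ∈ M) :
    Reach p M := by
  have htf : ∀ (x : G ⧸ M) (n : ℕ), 0 < n → x ^ n = 1 → x = 1 := by
    intro x n hn hx
    obtain ⟨x, rfl⟩ := QuotientGroup.mk_surjective x
    refine (QuotientGroup.eq_one_iff x).2 (ht x n hn ?_)
    exact (QuotientGroup.eq_one_iff _).1 hx
  obtain ⟨c, hc⟩ := Group.IsNilpotent.nilpotent (G ⧸ M)
  let q : G →* G ⧸ M := QuotientGroup.mk' M
  have key : ∀ i ≤ c, Reach p ((Subgroup.upperCentralSeries (G ⧸ M) (c - i)).comap q) := by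
    intro i
    induction i with
    | zero =>
      intro _
      rw [Nat.sub_zero, hc, Subgroup.comap_top]
      exact Reach.top
    | succ i ih =>
      intro hi
      have h1 := ih (by omega)
      have hs : c - i = (c - (i + 1)) + 1 := by omega
      rw [hs] at h1
      refine Reach.ab _ _ h1 (Subgroup.comap_mono (Subgroup.upperCentralSeries_mono _
        (Nat.le_succ _))) ?_ ?_
      · intro x hx y _
        have h2 := Subgroup.mem_upperCentralSeries_succ_iff.1 (Subgroup.mem_comap.1 hx) (q y)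
        rw [Subgroup.mem_comap]
        simp only [map_mul, map_inv]
        exact h2
      · intro x hx n hn hxn
        rw [Subgroup.mem_comap] at hx hxn ⊢
        rw [map_pow] at hxn
        exact nil_tf htf _ _ hx n hn hxn
  have h1 := key c le_rfl
  rw [Nat.sub_self, Subgroup.upperCentralSeries_zero] at h1
  have h2 : (⊥ : Subgroup (G ⧸ M)).comap q = M := by
    rw [MonoidHom.comap_bot, QuotientGroup.ker_mk']
  rwa [h2] at h1

/-- In a root pair without a chain into `H`, `w ^ p` is a `p`-th power in every torsion-free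
nilpotent quotient of `H`. -/
theorem Root.nil_pow {p : ℕ} {G : Type*} [Group G] {H : Subgroup G} {w : G}
    (h : Root H p w) (hirr : Irred p H)
    {E : Type*} [Group E] [Group.IsNilpotent E]
    (htf : ∀ (x : E) (n : ℕ), 0 < n → x ^ n = 1 → x = 1) (ψ : H →* E) :
    ∃ y : H, ψ ⟨w ^ p, h.pow_mem⟩ = ψ y ^ p := by
  by_contra hno
  push Not at hno
  have hp := h.prime
  have hnorm := h.normal
  have hdec : ∀ g : G, ∃ (x : H) (i : ℤ), g = x * w ^ i := by
    intro g
    have hg : g ∈ ((H ⊔ Subgroup.zpowers w : Subgroup G) : Set G) := by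
      rw [h.gen]; exact Subgroup.mem_top g
    rw [Subgroup.normal_mul] at hg
    obtain ⟨x, hx, y, hy, rfl⟩ := hg
    obtain ⟨i, rfl⟩ := Subgroup.mem_zpowers_iff.1 hy
    exact ⟨⟨x, hx⟩, i, rfl⟩
  have hdiv : ∀ i : ℤ, w ^ i ∈ H → (p : ℤ) ∣ i := by
    intro i hi
    by_contra hcon
    have hcop : IsCoprime (p : ℤ) i :=
      ((Nat.prime_iff_prime_int.1 h.prime).coprime_iff_not_dvd).2 hcon
    obtain ⟨a, b, hab⟩ := hcop
    apply h.not_mem
    have : w = (w ^ p) ^ a * (w ^ i) ^ b := by
      rw [← zpow_natCast, ← zpow_mul, ← zpow_mul, ← zpow_add, mul_comm (p : ℤ), mul_comm i, hab,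
        zpow_one]
    rw [this]
    exact H.mul_mem (H.zpow_mem h.pow_mem _) (H.zpow_mem hi _)
  have hmul : ∀ (x : G) (i : ℤ) (n : ℕ), (x * w ^ i) ^ n = x ^ n * w ^ (i * n) := by
    intro x i n
    have hc : Commute x (w ^ i) := (show Commute w x from h.central x).symm.zpow_right i
    rw [hc.mul_pow, zpow_mul, zpow_natCast]
  set W : H := ⟨w ^ p, h.pow_mem⟩ with hW
  have hWc : ∀ x : H, Commute W x := fun x => Subtype.ext (by
    have : Commute w (x : G) := h.central x
    exact (this.pow_left p).eq)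
  set M : Subgroup G := ψ.ker.map H.subtype with hM
  have hMmem : ∀ x : H, (x : G) ∈ M ↔ ψ x = 1 := by
    intro x
    constructor
    · rintro ⟨y, hy, hyx⟩
      have : y = x := Subtype.ext hyx
      rw [← this]
      exact hy
    · intro hx
      exact ⟨x, hx, rfl⟩
  have hMH : M ≤ H := Subgroup.map_subtype_le _
  have hMn : M.Normal := by
    refine ⟨fun n hn g => ?_⟩
    obtain ⟨x, i, rfl⟩ := hdec g
    obtain ⟨y, hy, rfl⟩ := hn
    have h1 : (x : G) * w ^ i * (H.subtype y) * ((x : G) * w ^ i)⁻¹ =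
        ((x * y * x⁻¹ : H) : G) := by
      have hc : Commute (w ^ i) (y : G) := (show Commute w (y : G) from h.central y).zpow_left i
      have h2 : w ^ i * (y : G) * (w ^ i)⁻¹ = y := by
        rw [hc.eq, mul_inv_cancel_right]
      rw [mul_inv_rev]
      calc (x : G) * w ^ i * (H.subtype y) * ((w ^ i)⁻¹ * (x : G)⁻¹)
          = (x : G) * (w ^ i * (y : G) * (w ^ i)⁻¹) * (x : G)⁻¹ := by
            simp only [mul_assoc, Subgroup.coe_subtype]
        _ = _ := by rw [h2]; rfl
    rw [h1, hMmem]
    have hy' : ψ y = 1 := hy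
    rw [map_mul, map_mul, hy', mul_one, map_inv, mul_inv_cancel]
  -- elements outside `H`
  have hB : ∀ g : G, g ^ p ∈ M → g ∈ M := by
    intro g hg
    obtain ⟨x, i, rfl⟩ := hdec g
    by_cases hpi : (p : ℤ) ∣ i
    · obtain ⟨j, rfl⟩ := hpi
      have h1 : (x : G) * w ^ ((p : ℤ) * j) = ((x * W ^ j : H) : G) := by
        rw [zpow_mul, zpow_natCast]
        rfl
      rw [h1] at hg ⊢
      rw [hMmem]
      have h2 : ψ (x * W ^ j) ^ p = 1 := by
        rw [← map_pow]
        refine (hMmem _).1 ?_
        rw [Subgroup.coe_pow]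
        exact hg
      exact htf _ p hp.pos h2
    · exfalso
      rw [hmul] at hg
      have h1 : (x : G) ^ p * w ^ (i * (p : ℤ)) = ((x ^ p * W ^ i : H) : G) := by
        rw [mul_comm i, zpow_mul, zpow_natCast]
        rfl
      rw [h1, hMmem, map_mul, map_pow, map_zpow] at hg
      have h2 : ψ W ^ i = (ψ x ^ p)⁻¹ := (inv_eq_of_mul_eq_one_right hg).symm
      obtain ⟨a, b, hab⟩ := ((Nat.prime_iff_prime_int.1 h.prime).coprime_iff_not_dvd).2 hpi
      refine hno (W ^ a * (x ^ b)⁻¹) ?_
      have hc : Commute (W ^ a) ((x ^ b)⁻¹) := (((hWc x).zpow_left a).zpow_right b).inv_right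
      rw [← map_pow, hc.mul_pow, map_mul]
      calc ψ W = ψ W ^ (a * (p : ℤ) + b * i) := by rw [hab, zpow_one]
        _ = (ψ W ^ a) ^ p * (ψ W ^ i) ^ b := by
            rw [zpow_add, zpow_mul, zpow_natCast, mul_comm b, zpow_mul]
        _ = (ψ W ^ a) ^ p * ((ψ x ^ b)⁻¹) ^ p := by
            rw [h2]
            congr 1
            rw [inv_zpow, inv_pow, ← zpow_natCast, ← zpow_natCast, ← zpow_mul, ← zpow_mul,
              mul_comm b]
        _ = ψ ((W ^ a) ^ p) * ψ (((x ^ b)⁻¹) ^ p) := by
            rw [map_pow, map_zpow, map_pow, map_inv, map_zpow]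
  have ht : ∀ (n : ℕ) (g : G), 0 < n → g ^ n ∈ M → g ∈ M := by
    intro n
    induction n using Nat.strong_induction_on with
    | _ n ih =>
      intro g hn hg
      by_cases hpn : p ∣ n
      · obtain ⟨m, rfl⟩ := hpn
        have hm : 0 < m := Nat.pos_of_mul_pos_left hn
        have hlt : m < p * m := by
          have := hp.two_le
          nlinarith
        refine ih m hlt g hm (hB _ ?_)
        rwa [← pow_mul, mul_comm m]
      · obtain ⟨x, i, rfl⟩ := hdec g
        have h1 : w ^ (i * (n : ℤ)) ∈ H := by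
          have h2 : (x : G) ^ n * w ^ (i * (n : ℤ)) ∈ H := by
            rw [← hmul]
            exact hMH hg
          exact (H.mul_mem_cancel_left (H.pow_mem x.2 n)).1 h2
        have h2 := hdiv _ h1
        have h3 : (p : ℤ) ∣ i := by
          rcases (Nat.prime_iff_prime_int.1 h.prime).dvd_or_dvd h2 with h4 | h4
          · exact h4
          · exact absurd (Int.natCast_dvd_natCast.1 h4) hpn
        obtain ⟨j, rfl⟩ := h3
        have h4 : (x : G) * w ^ ((p : ℤ) * j) = ((x * W ^ j : H) : G) := by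
          rw [zpow_mul, zpow_natCast]
          rfl
        rw [h4] at hg ⊢
        rw [hMmem]
        refine htf _ n hn ?_
        rw [← map_pow]
        refine (hMmem _).1 ?_
        rw [Subgroup.coe_pow]
        exact hg
  -- the quotient is nilpotent
  have hnil : Group.IsNilpotent (G ⧸ M) := by
    let ρ : H × Multiplicative ℤ →* ψ.range × Multiplicative ℤ :=
      MonoidHom.prodMap ψ.rangeRestrict (MonoidHom.id _)
    have hρ : Surjective ρ := by
      rintro ⟨⟨_, x, rfl⟩, i⟩
      exact ⟨(x, i), rfl⟩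
    let Ψ : H × Multiplicative ℤ →* G ⧸ M :=
      { toFun := fun x => QuotientGroup.mk' M ((x.1 : G) * w ^ (Multiplicative.toAdd x.2))
        map_one' := by simp
        map_mul' := by
          rintro ⟨x, i⟩ ⟨y, j⟩
          have hc : Commute (w ^ (Multiplicative.toAdd i)) (y : G) :=
            (show Commute w (y : G) from h.central y).zpow_left _
          rw [← map_mul]
          congr 1
          simp only [Prod.mk_mul_mk, toAdd_mul, zpow_add, Subgroup.coe_mul]
          rw [mul_assoc (x : G), mul_assoc (x : G), ← mul_assoc (y : G), ← hc.eq, mul_assoc] }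
    have hΨs : Surjective Ψ := by
      intro g
      obtain ⟨g, rfl⟩ := QuotientGroup.mk_surjective g
      obtain ⟨x, i, rfl⟩ := hdec g
      exact ⟨(x, Multiplicative.ofAdd i), rfl⟩
    have hk : ρ.ker ≤ Ψ.ker := by
      rintro ⟨x, i⟩ hx
      have h1 : ψ x = 1 := congrArg (fun v => (v.1 : E)) hx
      have h2 : i = 1 := congrArg Prod.snd hx
      subst h2
      rw [MonoidHom.mem_ker]
      change QuotientGroup.mk' M ((x : G) * w ^ (0 : ℤ)) = 1
      rw [zpow_zero, mul_one]
      exact (QuotientGroup.eq_one_iff _).2 ((hMmem x).2 h1)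
    let f : ψ.range × Multiplicative ℤ →* G ⧸ M := ρ.liftOfSurjective hρ ⟨Ψ, hk⟩
    have hf : ∀ x, f (ρ x) = Ψ x := fun x =>
      MonoidHom.liftOfRightInverse_comp_apply ρ _ _ ⟨Ψ, hk⟩ x
    refine Group.nilpotent_of_surjective f ?_
    intro g
    obtain ⟨x, rfl⟩ := hΨs g
    exact ⟨ρ x, hf x⟩
  exact hirr M (reach_nil M (fun x n hn hx => ht n x hn hx)) hMH

end Pool.Agent.FIO
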