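import Pool.Agent.FIO.FinDefs
import Pool.Agent.FIO.IrrN
import Pool.Agent.FIO.Nil

set_option autoImplicit false

open Function

namespace Pool.Agent.FIO

universe u

theorem RootPair.irrRoot {G : Type u} [Group G] {H : Subgroup G} {p : ℕ} {w : G}
    (h : RootPair H p w) (hi : Irred p H) : IrrRoot H p w :=
  ⟨h.prime, h.central, h.not_mem, h.pow_mem, h.gen, h.fg, h.lcm_eq, h.hom_eq, hi,
    fun _ _ ψ hn hE => by
      have := hn
      exact h.root.nil_pow hi hE ψ⟩

theorem IrrRoot.root {G : Type u} [Group G] {H : Subgroup G} {p : ℕ} {w : G}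
    (h : IrrRoot H p w) : Root H p w := ⟨h.prime, h.central, h.not_mem, h.pow_mem, h.gen⟩

theorem NonLift.irrPair {Q : Type*} [Group Q] {N : Subgroup Q} {p : ℕ} (h : NonLift N p)
    (hi : Irred p N) : IrrPair N p := ⟨h.prime, h.fg, h.normal, h.index, h.lcm_eq, hi⟩

theorem IrrPair.finiteIndex {Q : Type*} [Group Q] {N : Subgroup Q} {p : ℕ} (h : IrrPair N p) :
    N.FiniteIndex := ⟨by rw [h.index]; exact h.prime.ne_zero⟩

/-- The three forms of Q1, `p`-locally, inside a class of groups. -/
theorem tfae_finP (F : Subfield ℂ) (p : ℕ) (hp : p.Prime) {C : ∀ (G : Type u) [Group G], Prop}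
    (hC : GoodClass C) :
    List.TFAE [
      ∀ (G : Type u) [Group G] (H : Subgroup G), C G → H.FiniteIndex → AtP F p H → AtP F p G,
      ∀ (Q : Type u) [Group Q] (N : Subgroup Q), C Q → IrrPair N p → AtP F p N → AtP F p Q,
      ∀ (G : Type u) [Group G] (H : Subgroup G) (w : G), C G → IrrRoot H p w → AtP F p H →
        AtP F p G] := by
  have h0 := tfae_irrP F p hp hC fun h => (tfae_atP_irred F p hp hC).out 2 0 |>.1 h
  tfae_have 1 → 2 := fun h Q _ N hQ hN hA => h Q N hQ hN.finiteIndex hA
  tfae_have 1 → 3 := fun h G _ H w hG hr hH => h G H hG hr.root.finiteIndex hH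
  tfae_have 2 → 1 := by
    intro h
    have h1 := h0.out 1 0
    refine h1.1 ?_
    intro Q _ N hQ hN hi hA
    exact h Q N hQ (hN.irrPair hi) hA
  tfae_have 3 → 1 := by
    intro h
    have h1 := h0.out 3 0
    refine h1.1 ?_
    intro G _ H w hG hr hi hH
    exact h G H w hG (hr.irrRoot hi) hH
  tfae_finish

/-- Q1 in full from the `p`-local forms. -/
theorem finQ (F : Subfield ℂ) {C : ∀ (G : Type u) [Group G], Prop} (hC : GoodClass C)
    (h : ∀ p : ℕ, p.Prime → ∀ (G : Type u) [Group G] (H : Subgroup G) (w : G), C G →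
      IrrRoot H p w → AtP F p H → AtP F p G) :
    ∀ (G : Type u) [Group G] (H : Subgroup G), C G → H.FiniteIndex → Atiyah F H →
      Atiyah F G :=
  partQ_irred F hC fun p hp G _ H w hG hr hi hH => h p hp G H w hG (hr.irrRoot hi) hH

/-- The three forms of Q1 for normal subgroups. -/
theorem tfae_finN (F : Subfield ℂ) {C : ∀ (G : Type u) [Group G], Prop} (hC : GoodClass C) :
    List.TFAE [
      ∀ (G : Type u) [Group G] (H : Subgroup G), C G → H.Normal → H.FiniteIndex →
        Atiyah F H → Atiyah F G,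
      ∀ (Q : Type u) [Group Q] (N : Subgroup Q) (p : ℕ), C Q → IrrPair N p → Atiyah F N →
        Atiyah F Q,
      ∀ (G : Type u) [Group G] (H : Subgroup G) (p : ℕ) (w : G), C G → IrrRoot H p w →
        Atiyah F H → Atiyah F G] := by
  have h0 := tfae_irrN F hC fun h => (tfae_normal_irred F hC).out 2 0 |>.1 h
  tfae_have 1 → 2 := fun h Q _ N p hQ hN hA => h Q N hQ hN.normal hN.finiteIndex hA
  tfae_have 1 → 3 := fun h G _ H p w hG hr hH => h G H hG hr.root.normal hr.root.finiteIndex hH
  tfae_have 2 → 1 := by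
    intro h
    have h1 := h0.out 1 0
    refine h1.1 ?_
    intro Q _ N p hQ hN hi hA
    exact h Q N p hQ (hN.irrPair hi) hA
  tfae_have 3 → 1 := by
    intro h
    have h1 := h0.out 3 0
    refine h1.1 ?_
    intro G _ H p w hG hr hi hH
    exact h G H p w hG (hr.irrRoot hi) hH
  tfae_finish

/-- Classes of torsion-free groups: all subgroups of finite index. -/
theorem finB (F : Subfield ℂ) {C : ∀ (G : Type u) [Group G], Prop} (hC : GoodClass C)
    (hT : ∀ (G : Type u) [Group G], C G → TorFree G) :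
    (∀ (G : Type u) [Group G] (H : Subgroup G), C G → H.FiniteIndex → Atiyah F H →
      Atiyah F G) ↔
    (∀ (G : Type u) [Group G] (H : Subgroup G) (p : ℕ) (w : G), C G → IrrRoot H p w →
      Atiyah F H → Atiyah F G) := by
  constructor
  · intro h G _ H p w hG hr hH
    exact h G H hG hr.root.finiteIndex hH
  · intro h
    exact (partB_irred F hC hT).2 fun G _ H p w hG hr hi hH => h G H p w hG (hr.irrRoot hi) hH

end Pool.Agent.FIO
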