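import Pool.Agent.FIO.Fg

set_option autoImplicit false

open Function

namespace Pool.Agent.FIO

universe u

/-! ### The mapping torus -/

/-- The mapping torus of `G` over `H` with respect to `t`. -/
private def grp_tor {G : Type u} [Group G] (H : Subgroup G) [H.Normal] (t : G) :
    Subgroup (G × Multiplicative ℤ) :=
  MonoidHom.eqLocus ((QuotientGroup.mk' H).comp (MonoidHom.fst G (Multiplicative ℤ)))
    ((zpowersHom (G ⧸ H) (QuotientGroup.mk' H t)).comp (MonoidHom.snd G (Multiplicative ℤ)))

private theorem grp_mem_tor {G : Type u} [Group G] (H : Subgroup G) [H.Normal] (t : G)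
    (x : G × Multiplicative ℤ) : x ∈ grp_tor H t ↔
      QuotientGroup.mk' H x.1 = (QuotientGroup.mk' H t) ^ Multiplicative.toAdd x.2 := Iff.rfl

/-- The mapping torus: normal subgroups of prime index. -/
theorem index_prime {F : Subfield ℂ} {C : ∀ (G : Type u) [Group G], Prop} (hC : GoodClass C)
    (hR : RootClosed F C) (G : Type u) [Group G] (H : Subgroup G) [H.Normal] (hG : C G)
    (hp : H.index.Prime) (hH : Atiyah F H) : Atiyah F G := by
  have : Fact H.index.Prime := ⟨hp⟩
  have hcard : Nat.card (G ⧸ H) = H.index := (Subgroup.index_eq_card H).symm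
  -- an element outside `H`
  obtain ⟨t, ht⟩ : ∃ t : G, t ∉ H := by
    by_contra hc
    push Not at hc
    have h1 : H = ⊤ := by
      ext x
      simp [hc x]
    rw [h1, Subgroup.index_top] at hp
    exact Nat.not_prime_one hp
  set q : G →* G ⧸ H := QuotientGroup.mk' H with hq
  have hqt : q t ≠ 1 := by
    intro h
    exact ht ((QuotientGroup.eq_one_iff t).1 h)
  have hgen : ∀ g : G, ∃ n : ℤ, q t ^ n = q g := by
    intro g
    have h1 : q g ∈ Subgroup.zpowers (q t) := mem_zpowers_of_prime_card hcard hqt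
    exact Subgroup.mem_zpowers_iff.1 h1
  have hpow : q t ^ H.index = 1 := by
    rw [← hcard]
    exact pow_card_eq_one'
  set T : Subgroup (G × Multiplicative ℤ) := grp_tor H t with hT
  have hmem : ∀ x : G × Multiplicative ℤ, x ∈ T ↔ q x.1 = q t ^ Multiplicative.toAdd x.2 :=
    grp_mem_tor H t
  -- the mapping torus is in the class
  set δ : T →* Multiplicative ℤ := (MonoidHom.snd G (Multiplicative ℤ)).comp T.subtype with hδ
  have hTA : Atiyah F T := by
    have hsurj : Surjective δ := by
      intro n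
      exact ⟨⟨(t ^ Multiplicative.toAdd n, n), (hmem _).2 (map_zpow q t _)⟩, rfl⟩
    refine zext δ hsurj ?_
    -- the kernel
    let e : δ.ker ≃* H :=
      { toFun := fun x => ⟨x.1.1.1, by
          have h1 : q x.1.1.1 = q t ^ Multiplicative.toAdd x.1.1.2 := (hmem _).1 x.1.2
          have h2 : x.1.1.2 = 1 := x.2
          rw [h2, toAdd_one, zpow_zero] at h1
          exact (QuotientGroup.eq_one_iff _).1 h1⟩
        invFun := fun h => ⟨⟨((h : G), 1), (hmem _).2 (by
          have h1 : q (h : G) = 1 := (QuotientGroup.eq_one_iff _).2 h.2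
          change q (h : G) = q t ^ Multiplicative.toAdd (1 : Multiplicative ℤ)
          rw [toAdd_one, zpow_zero, h1])⟩, rfl⟩
        left_inv := fun x => by
          have h2 : x.1.1.2 = 1 := x.2
          refine Subtype.ext (Subtype.ext (Prod.ext rfl ?_))
          exact h2.symm
        right_inv := fun h => rfl
        map_mul' := fun x y => rfl }
    exact Atiyah.of_equiv e hH
  -- adjoining a root
  have hroot : Root T H.index ((1, Multiplicative.ofAdd 1) : G × Multiplicative ℤ) := by
    refine ⟨hp, ?_, ?_, ?_, ?_⟩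
    · intro g
      refine Prod.ext ?_ ?_
      · simp
      · exact mul_comm _ _
    · intro h
      have h1 := (hmem _).1 h
      change q 1 = q t ^ (1 : ℤ) at h1
      rw [map_one, zpow_one] at h1
      exact hqt h1.symm
    · refine (hmem _).2 ?_
      rw [Prod.pow_mk, one_pow]
      change q 1 = q t ^ Multiplicative.toAdd (Multiplicative.ofAdd (1 : ℤ) ^ H.index)
      rw [map_one, ← ofAdd_nsmul, toAdd_ofAdd, nsmul_eq_mul, mul_one, zpow_natCast, hpow]
    · rw [eq_top_iff]
      rintro ⟨g, n⟩ -
      obtain ⟨k, hk⟩ := hgen g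
      have h1 : ((g, Multiplicative.ofAdd k) : G × Multiplicative ℤ) ∈ T :=
        (hmem _).2 hk.symm
      have h2 : ((g, n) : G × Multiplicative ℤ) = (g, Multiplicative.ofAdd k) *
          ((1, Multiplicative.ofAdd 1) : G × Multiplicative ℤ) ^ (Multiplicative.toAdd n - k) := by
        refine Prod.ext ?_ ?_
        · simp
        · change n = Multiplicative.ofAdd k * Multiplicative.ofAdd (1 : ℤ) ^ (Multiplicative.toAdd n - k)
          rw [← ofAdd_zsmul, ← ofAdd_add]
          simp
      rw [h2]
      exact Subgroup.mul_mem_sup h1 (Subgroup.zpow_mem_zpowers _ _)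
  have hbig : Atiyah F (G × Multiplicative ℤ) := by
    refine hroot.atiyah2 hC hR (hC.prod G hG) ⟨δ, ?_⟩ hTA
    change Multiplicative.ofAdd (1 : ℤ) ^ H.index = Multiplicative.ofAdd (H.index : ℤ)
    rw [← ofAdd_nsmul, nsmul_eq_mul, mul_one]
  -- back to `G`
  have hinj : Injective (MonoidHom.inl G (Multiplicative ℤ)) := fun a b h =>
    congrArg Prod.fst h
  have hGb : BoundedFin G := (BoundedFin.of_injective _ hinj hbig.1).1
  have hl : lcmFin (G × Multiplicative ℤ) = lcmFin G := by
    refine (lcmFin_eq (MonoidHom.inl G (Multiplicative ℤ)) hinj hGb fun K hK => ?_).2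
    intro x hx
    have h1 : x ∈ (MonoidHom.snd G (Multiplicative ℤ)).ker :=
      le_ker_of_finite (MonoidHom.snd G (Multiplicative ℤ)) K hK hx
    have h2 : x.2 = 1 := h1
    exact ⟨x.1, Prod.ext rfl h2.symm⟩
  exact Atiyah.of_injective _ hinj hbig hl

/-! ### Prime powers -/

/-- Normal subgroups of prime power index. -/
theorem index_pow {F : Subfield ℂ} {C : ∀ (G : Type u) [Group G], Prop} (hC : GoodClass C)
    (hI : ∀ (G : Type u) [Group G] (H : Subgroup G) [H.Normal], C G → H.index.Prime →
      Atiyah F H → Atiyah F G) (p : ℕ) (hp : p.Prime) (k : ℕ) :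
    ∀ (G : Type u) [Group G] (H : Subgroup G) [H.Normal], C G → H.index = p ^ k →
      Atiyah F H → Atiyah F G := by
  have : Fact p.Prime := ⟨hp⟩
  induction k with
  | zero =>
    intro G _ H _ _ hi hH
    rw [pow_zero, Subgroup.index_eq_one] at hi
    subst hi
    exact Atiyah.of_equiv Subgroup.topEquiv.symm hH
  | succ k ih =>
    intro G _ H _ hG hi hH
    have hcard : Nat.card (G ⧸ H) = p ^ (k + 1) := by rw [← Subgroup.index_eq_card, hi]
    have hpos : 0 < p ^ (k + 1) := pow_pos hp.pos _
    have hfin : Finite (G ⧸ H) := Nat.finite_of_card_ne_zero (by rw [hcard]; exact hpos.ne')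
    obtain ⟨M, hM⟩ := Sylow.exists_subgroup_card_pow_prime (G := G ⧸ H) p (n := k)
      (by rw [hcard]; exact pow_dvd_pow p (Nat.le_succ k))
    have hMi : M.index = p := by
      have h1 := Subgroup.card_mul_index M
      rw [hM, hcard, pow_succ] at h1
      exact Nat.eq_of_mul_eq_mul_left (pow_pos hp.pos k) h1
    have hMn : M.Normal := by
      refine Subgroup.normal_of_index_eq_minFac_card ?_
      rw [hMi, hcard, hp.pow_minFac (Nat.succ_ne_zero k)]
    set L : Subgroup G := M.comap (QuotientGroup.mk' H) with hL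
    have hLn : L.Normal := hMn.comap _
    have hLi : L.index = p := by
      rw [hL, Subgroup.index_comap_of_surjective _ (QuotientGroup.mk'_surjective H), hMi]
    have hHL : H ≤ L := by
      intro x hx
      rw [hL, Subgroup.mem_comap]
      have h1 : QuotientGroup.mk' H x = 1 := (QuotientGroup.eq_one_iff x).2 hx
      rw [h1]
      exact M.one_mem
    have hrel : (H.subgroupOf L).index = p ^ k := by
      have h1 := Subgroup.relIndex_mul_index hHL
      rw [hLi, hi, pow_succ] at h1
      exact Nat.eq_of_mul_eq_mul_right hp.pos h1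
    have hLA : Atiyah F L := by
      refine ih L (H.subgroupOf L) (hC.sub G L hG) hrel ?_
      exact Atiyah.of_equiv (Subgroup.subgroupOfEquivOfLe hHL) hH
    exact hI G L hG (by rw [hLi]; exact hp) hLA

/-! ### Sylow subgroups -/

/-- Sylow subgroups: normal subgroups of finite index. -/
theorem index_finite {F : Subfield ℂ} {C : ∀ (G : Type u) [Group G], Prop} (hC : GoodClass C)
    (hI : ∀ (p : ℕ), p.Prime → ∀ (k : ℕ) (G : Type u) [Group G] (H : Subgroup G) [H.Normal], C G →
      H.index = p ^ k → Atiyah F H → Atiyah F G)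
    (G : Type u) [Group G] (H : Subgroup G) [H.Normal] [H.FiniteIndex] (hG : C G)
    (hH : Atiyah F H) : Atiyah F G := by
  have hGb : BoundedFin G := BoundedFin.of_index H hH.1
  refine ⟨hGb, fun a b A hA => ?_⟩
  have hfin : Finite (G ⧸ H) := inferInstance
  -- the integers `m` with `m * lcm * vdim` an integer
  set x : ℝ := (lcmFin G : ℝ) * vdim (kerMat A) with hx
  let S : AddSubgroup ℤ :=
    { carrier := {m : ℤ | ∃ z : ℤ, (m : ℝ) * x = z}
      add_mem' := by
        rintro m n ⟨z, hz⟩ ⟨z', hz'⟩
        refine ⟨z + z', ?_⟩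
        push_cast
        rw [add_mul, hz, hz']
      zero_mem' := ⟨0, by simp⟩
      neg_mem' := by
        rintro m ⟨z, hz⟩
        refine ⟨-z, ?_⟩
        push_cast
        rw [neg_mul, hz] }
  have hSm : ∀ m : ℤ, m ∈ S ↔ ∃ z : ℤ, (m : ℝ) * x = z := fun _ => Iff.rfl
  have key : ∀ p : ℕ, p.Prime → ∃ n : ℕ, ¬ p ∣ n ∧ (n : ℤ) ∈ S := by
    intro p hp
    have : Fact p.Prime := ⟨hp⟩
    obtain ⟨P⟩ : Nonempty (Sylow p (G ⧸ H)) := inferInstance
    set L : Subgroup G := (P : Subgroup (G ⧸ H)).comap (QuotientGroup.mk' H) with hL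
    have hLi : L.index = (P : Subgroup (G ⧸ H)).index :=
      Subgroup.index_comap_of_surjective _ (QuotientGroup.mk'_surjective H)
    have hHL : H ≤ L := by
      intro y hy
      rw [hL, Subgroup.mem_comap]
      have h1 : QuotientGroup.mk' H y = 1 := (QuotientGroup.eq_one_iff y).2 hy
      rw [h1]
      exact (P : Subgroup (G ⧸ H)).one_mem
    have hLf : L.FiniteIndex := Subgroup.finiteIndex_of_le hHL
    obtain ⟨k, hk⟩ := IsPGroup.iff_card.1 P.isPGroup'
    have hPi : (P : Subgroup (G ⧸ H)).index ≠ 0 := by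
      rw [← hLi]
      exact hLf.index_ne_zero
    have hrel : (H.subgroupOf L).index = p ^ k := by
      have h1 := Subgroup.relIndex_mul_index hHL
      have h2 := Subgroup.card_mul_index (P : Subgroup (G ⧸ H))
      rw [← Subgroup.index_eq_card, ← h1, hLi] at h2
      have h3 := Nat.eq_of_mul_eq_mul_right (Nat.pos_of_ne_zero hPi) h2
      rw [hk] at h3
      exact h3.symm
    have hLA : Atiyah F L := by
      refine hI p hp k L (H.subgroupOf L) (hC.sub G L hG) hrel ?_
      exact Atiyah.of_equiv (Subgroup.subgroupOfEquivOfLe hHL) hH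
    obtain ⟨z, hz⟩ := index_int hLA A hA
    obtain ⟨c, hc⟩ := (BoundedFin.of_injective L.subtype L.subtype_injective hGb).2
    refine ⟨L.index, ?_, (hSm _).2 ⟨c * z, ?_⟩⟩
    · rw [hLi]
      exact P.not_dvd_index
    · push_cast
      rw [← hz, hx, hc]
      push_cast
      ring
  obtain ⟨g, hg⟩ := Int.subgroup_cyclic S
  have hg1 : g.natAbs = 1 := by
    by_contra hne
    obtain ⟨p, hp, hpg⟩ := Nat.exists_prime_and_dvd hne
    obtain ⟨n, hn, hnS⟩ := key p hp
    rw [hg, AddSubgroup.mem_closure_singleton] at hnS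
    obtain ⟨j, hj⟩ := hnS
    refine hn ?_
    have h1 : (p : ℤ) ∣ g := Int.natCast_dvd.2 hpg
    have h2 : (p : ℤ) ∣ (n : ℤ) := by
      rw [← hj, smul_eq_mul]
      exact Dvd.dvd.mul_left h1 j
    exact Int.natCast_dvd_natCast.1 h2
  have h1S : (1 : ℤ) ∈ S := by
    rw [hg, AddSubgroup.mem_closure_singleton]
    rcases Int.natAbs_eq g with h | h
    · rw [hg1] at h
      exact ⟨1, by rw [h]; simp⟩
    · rw [hg1] at h
      exact ⟨-1, by rw [h]; simp⟩
  obtain ⟨z, hz⟩ := (hSm 1).1 h1S
  exact ⟨z, by rw [← hz]; push_cast; ring⟩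

end Pool.Agent.FIO
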