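import Pool.Agent.FIO.Defs

set_option autoImplicit false

open scoped InnerProductSpace ENNReal
open Function

namespace Pool.Agent.FIO

variable {X X' : Type*}

theorem hasSum_sq (v : L2 X) : HasSum (fun x => ‖v x‖ ^ 2) (‖v‖ ^ 2) := by
  have h := lp.hasSum_norm (E := fun _ : X => ℂ) (p := 2) (by norm_num) v
  simpa using h

theorem summable_sq (v : L2 X) : Summable (fun x => ‖v x‖ ^ 2) := (hasSum_sq v).summable

theorem norm_sq_eq (v : L2 X) : ‖v‖ ^ 2 = ∑' x, ‖v x‖ ^ 2 := (hasSum_sq v).tsum_eq.symm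

/-- A vector from a square summable function. -/
noncomputable def mk (f : X → ℂ) (hf : Summable fun x => ‖f x‖ ^ 2) : L2 X :=
  ⟨f, memℓp_gen (by simpa using hf)⟩

@[simp] theorem mk_apply (f : X → ℂ) (hf : Summable fun x => ‖f x‖ ^ 2) (x : X) :
    mk f hf x = f x := rfl

theorem summable_comp (E : X' → X) (hE : Injective E) (v : L2 X) :
    Summable fun x' => ‖v (E x')‖ ^ 2 := (summable_sq v).comp_injective hE

/-- Restriction along an injective map. -/
noncomputable def resL (E : X' → X) (hE : Injective E) : L2 X →L[ℂ] L2 X' :=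
  LinearMap.mkContinuous
    { toFun := fun v => mk (fun x' => v (E x')) (summable_comp E hE v)
      map_add' := by
        intro v w
        apply lp.ext
        funext x'
        simp
      map_smul' := by
        intro c v
        apply lp.ext
        funext x'
        simp } 1 (by
      intro v
      rw [one_mul]
      refine (sq_le_sq₀ (norm_nonneg _) (norm_nonneg _)).mp ?_
      rw [norm_sq_eq, norm_sq_eq v]
      exact tsum_comp_le_tsum_of_inj (summable_sq v) (fun _ => by positivity) hE)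

@[simp] theorem resL_apply (E : X' → X) (hE : Injective E) (v : L2 X) (x' : X') :
    resL E hE v x' = v (E x') := rfl

theorem norm_resL_le (E : X' → X) (hE : Injective E) (v : L2 X) : ‖resL E hE v‖ ≤ ‖v‖ := by
  have := (resL E hE).le_of_opNorm_le (LinearMap.mkContinuous_norm_le _ zero_le_one _) v
  simpa using this

theorem summable_ext (E : X' → X) (hE : Injective E) (v : L2 X') :
    Summable fun x => ‖Function.extend E v (0 : X → ℂ) x‖ ^ 2 := by
  have h : (fun x => ‖Function.extend E v (0 : X → ℂ) x‖ ^ 2) =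
      Function.extend E (fun x' => ‖v x'‖ ^ 2) 0 := by
    funext x
    by_cases hx : ∃ x', E x' = x
    · obtain ⟨x', rfl⟩ := hx
      rw [hE.extend_apply, hE.extend_apply]
    · rw [Function.extend_apply' _ _ _ hx, Function.extend_apply' _ _ _ hx]
      simp
  rw [h]
  exact (summable_extend_zero hE).mpr (summable_sq v)

theorem norm_ext (E : X' → X) (hE : Injective E) (v : L2 X') :
    ‖mk (Function.extend E v (0 : X → ℂ)) (summable_ext E hE v)‖ = ‖v‖ := by
  refine (sq_eq_sq₀ (norm_nonneg _) (norm_nonneg _)).mp ?_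
  have h : (fun x => ‖Function.extend E v (0 : X → ℂ) x‖ ^ 2) =
      Function.extend E (fun x' => ‖v x'‖ ^ 2) 0 := by
    funext x
    by_cases hx : ∃ x', E x' = x
    · obtain ⟨x', rfl⟩ := hx
      rw [hE.extend_apply, hE.extend_apply]
    · rw [Function.extend_apply' _ _ _ hx, Function.extend_apply' _ _ _ hx]
      simp
  rw [norm_sq_eq, norm_sq_eq v]
  simp only [mk_apply]
  rw [h, tsum_extend_zero hE]

/-- Extension by zero along an injective map. -/
noncomputable def extL (E : X' → X) (hE : Injective E) : L2 X' →ₗᵢ[ℂ] L2 X where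
  toFun v := mk (Function.extend E v (0 : X → ℂ)) (summable_ext E hE v)
  map_add' := by
    intro v w
    apply lp.ext
    funext x
    by_cases hx : ∃ x', E x' = x
    · obtain ⟨x', rfl⟩ := hx
      simp [hE.extend_apply]
    · simp [Function.extend_apply' _ _ _ hx]
  map_smul' := by
    intro c v
    apply lp.ext
    funext x
    by_cases hx : ∃ x', E x' = x
    · obtain ⟨x', rfl⟩ := hx
      simp [hE.extend_apply]
    · simp [Function.extend_apply' _ _ _ hx]
  norm_map' := norm_ext E hE

@[simp] theorem extL_apply (E : X' → X) (hE : Injective E) (v : L2 X') (x' : X') :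
    extL E hE v (E x') = v x' := hE.extend_apply _ _ _

theorem extL_zero (E : X' → X) (hE : Injective E) (v : L2 X') (x : X) (hx : ∀ x', E x' ≠ x) :
    extL E hE v x = 0 := by
  change Function.extend E v (0 : X → ℂ) x = 0
  rw [Function.extend_apply' _ _ _ (by rintro ⟨x', h⟩; exact hx x' h)]
  rfl

@[simp] theorem resL_extL (E : X' → X) (hE : Injective E) (v : L2 X') :
    resL E hE (extL E hE v) = v := by
  apply lp.ext
  funext x'
  simp

theorem inner_dl (x : X) (v : L2 X) : ⟪dl x, v⟫_ℂ = v x := by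
  classical
  unfold dl
  rw [lp.inner_single_left]
  simp

theorem inner_dl_right (x : X) (v : L2 X) : ⟪v, dl x⟫_ℂ = starRingEnd ℂ (v x) := by
  rw [← inner_conj_symm, inner_dl]

@[simp] theorem norm_dl (x : X) : ‖(dl x : L2 X)‖ = 1 := by
  classical
  unfold dl
  rw [lp.norm_single (by norm_num)]
  simp

theorem dl_self (x : X) : (dl x : L2 X) x = 1 := by
  classical
  unfold dl
  simp

theorem dl_ne {x y : X} (h : y ≠ x) : (dl x : L2 X) y = 0 := by
  classical
  unfold dl
  exact lp.single_apply_ne _ _ _ h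

theorem norm_apply_le (v : L2 X) (x : X) : ‖v x‖ ≤ ‖v‖ := by
  rw [← inner_dl x v]
  have := norm_inner_le_norm (𝕜 := ℂ) (dl x : L2 X) v
  simpa using this

/-- Evaluation at a point, a continuous linear functional. -/
noncomputable def evL (x : X) : L2 X →L[ℂ] ℂ := innerSL ℂ (dl x : L2 X)

@[simp] theorem evL_apply (x : X) (v : L2 X) : evL x v = v x := inner_dl x v

theorem phi_nonneg (K : Submodule ℂ (L2 X)) (x : X) : 0 ≤ phi K x := by
  unfold phi
  positivity

theorem phi_le_one (K : Submodule ℂ (L2 X)) (x : X) : phi K x ≤ 1 := by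
  unfold phi
  have h := K.topologicalClosure.norm_starProjection_apply_le (dl x)
  rw [norm_dl] at h
  exact pow_le_one₀ (norm_nonneg _) h

theorem starProjection_congr {K K' : Submodule ℂ (L2 X)} (h : K = K')
    [K.HasOrthogonalProjection] [K'.HasOrthogonalProjection] :
    K.starProjection = K'.starProjection := by
  subst h
  rfl

theorem phi_closed {K : Submodule ℂ (L2 X)} (hK : IsClosed (K : Set (L2 X)))
    [K.HasOrthogonalProjection] (x : X) : phi K x = ‖K.starProjection (dl x)‖ ^ 2 := by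
  unfold phi
  rw [starProjection_congr hK.submodule_topologicalClosure_eq]

/-- The comparison lemma. -/
theorem phi_le_of {K : Submodule ℂ (L2 X)} {K' : Submodule ℂ (L2 X')} {x : X} {x' : X'}
    (hK : IsClosed (K : Set (L2 X)))
    (h : ∀ v ∈ K, ∃ v' ∈ K', ‖v x‖ ≤ ‖v' x'‖ ∧ ‖v'‖ ≤ ‖v‖) : phi K x ≤ phi K' x' := by
  haveI : CompleteSpace K := hK.completeSpace_coe
  rw [phi_closed hK]
  unfold phi
  set v : L2 X := K.starProjection (dl x) with hv
  have hvK : v ∈ K := K.starProjection_apply_mem _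
  have hvx : v x = ((‖v‖ ^ 2 : ℝ) : ℂ) := by
    rw [← inner_dl x v]
    have h1 : ⟪dl x, v⟫_ℂ = ⟪v, v⟫_ℂ := by
      have h2 := K.starProjection_inner_eq_zero (dl x) v hvK
      rw [inner_sub_left, sub_eq_zero] at h2
      exact h2
    rw [h1, inner_self_eq_norm_sq_to_K]
    simp
  obtain ⟨v', hv', h1, h2⟩ := h v hvK
  set P' := K'.topologicalClosure.starProjection (dl x' : L2 X') with hP'
  have h3 : ‖v' x'‖ ≤ ‖P'‖ * ‖v'‖ := by
    rw [← inner_dl x' v']
    have h4 : ⟪dl x', v'⟫_ℂ = ⟪P', v'⟫_ℂ := by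
      have h5 := K'.topologicalClosure.starProjection_inner_eq_zero (dl x') v'
        (K'.le_topologicalClosure hv')
      rw [inner_sub_left, sub_eq_zero] at h5
      exact h5
    rw [h4]
    exact norm_inner_le_norm _ _
  rw [hvx] at h1
  have h5 : ‖(((‖v‖ ^ 2 : ℝ)) : ℂ)‖ = ‖v‖ ^ 2 := by
    rw [Complex.norm_real, Real.norm_of_nonneg (by positivity)]
  rw [h5] at h1
  have h6 : ‖v‖ ^ 2 ≤ ‖P'‖ * ‖v‖ :=
    h1.trans (h3.trans (mul_le_mul_of_nonneg_left h2 (norm_nonneg _)))
  have h7 : ‖v‖ ≤ ‖P'‖ := by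
    by_cases h0 : ‖v‖ = 0
    · rw [h0]; exact norm_nonneg _
    · have hpos : 0 < ‖v‖ := lt_of_le_of_ne (norm_nonneg _) (Ne.symm h0)
      rw [sq] at h6
      exact le_of_mul_le_mul_right h6 hpos
  exact pow_le_pow_left₀ (norm_nonneg _) h7 2

theorem phi_mono {K K' : Submodule ℂ (L2 X)} (hK : IsClosed (K : Set (L2 X))) (h : K ≤ K')
    (x : X) : phi K x ≤ phi K' x :=
  phi_le_of hK fun v hv => ⟨v, h hv, le_rfl, le_rfl⟩

theorem phi_zero_of {K : Submodule ℂ (L2 X)} (hK : IsClosed (K : Set (L2 X))) {x : X}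
    (h : ∀ v ∈ K, v x = 0) : phi K x = 0 := by
  refine le_antisymm ?_ (phi_nonneg K x)
  have h1 : phi K x ≤ phi (⊥ : Submodule ℂ (L2 X)) x := by
    refine phi_le_of hK fun v hv => ⟨0, Submodule.zero_mem _, ?_, ?_⟩
    · rw [h v hv]; simp
    · simp
  refine h1.trans (le_of_eq ?_)
  rw [phi_closed (K := (⊥ : Submodule ℂ (L2 X))) (by simp)]
  simp

end Pool.Agent.FIO
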