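import Pool.Agent.FIO.RootDefs

/-!
Chains of subgroups: torsion-free abelian quotients and subgroups of finite index prime to `p`.
-/

set_option autoImplicit false

open Function

namespace Pool.Agent.FIO

/-- The subgroups of `G` at the ends of the chains `G = L 0 ≥ L 1 ≥ ... ≥ L k` in which each
`L (i + 1)` is normal in `L i` with a torsion-free abelian quotient, or is of finite index prime to
`p` in `L i` (infinite index is `0`, which `p` divides). -/
inductive Reach (p : ℕ) {G : Type*} [Group G] : Subgroup G → Prop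
  | top : Reach p ⊤
  | ab (K L : Subgroup G) (hK : Reach p K) (hL : L ≤ K)
      (hc : ∀ x ∈ K, ∀ y ∈ K, x * y * x⁻¹ * y⁻¹ ∈ L)
      (ht : ∀ x ∈ K, ∀ n : ℕ, 0 < n → x ^ n ∈ L → x ∈ L) : Reach p L
  | index (K L : Subgroup G) (hK : Reach p K) (hL : L ≤ K) (hi : ¬ p ∣ L.relIndex K) : Reach p L

/-- No chain leads from `G` into `H`. -/
def Irred (p : ℕ) {G : Type*} [Group G] (H : Subgroup G) : Prop :=
  ∀ K : Subgroup G, Reach p K → ¬ K ≤ H

/-- The kernel of a homomorphism to `ℤ`. -/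
theorem Reach.z {p : ℕ} {G : Type*} [Group G] {K : Subgroup G} (hK : Reach p K)
    (φ : K →* Multiplicative ℤ) : Reach p (φ.ker.map K.subtype) := by
  refine Reach.ab K _ hK (Subgroup.map_subtype_le _) ?_ ?_
  · intro x hx y hy
    refine ⟨⟨x, hx⟩ * ⟨y, hy⟩ * ⟨x, hx⟩⁻¹ * ⟨y, hy⟩⁻¹, ?_, rfl⟩
    change φ _ = 1
    rw [map_mul, map_mul, map_mul, map_inv, map_inv, mul_comm (φ _) (φ ⟨y, hy⟩),
      mul_inv_cancel_right, mul_inv_cancel]
  · intro x hx n hn hxn
    obtain ⟨y, hy, hyx⟩ := hxn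
    have h1 : φ y = 1 := hy
    have h2 : y = ⟨x, hx⟩ ^ n := Subtype.ext hyx
    refine ⟨⟨x, hx⟩, ?_, rfl⟩
    change φ _ = 1
    rw [h2, map_pow] at h1
    apply Multiplicative.toAdd.injective
    have h3 := congrArg Multiplicative.toAdd h1
    rw [toAdd_pow, toAdd_one, smul_eq_zero] at h3
    rcases h3 with h3 | h3
    · omega
    · rw [h3]
      rfl

theorem Reach.trans {p : ℕ} {G : Type*} [Group G] {L : Subgroup G} (hL : Reach p L)
    {K : Subgroup L} (hK : Reach p K) : Reach p (K.map L.subtype) := by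
  induction hK with
  | top =>
    rw [← MonoidHom.range_eq_map, Subgroup.range_subtype]
    exact hL
  | ab K K' hK hle hc ht ih =>
    refine Reach.ab _ _ ih (Subgroup.map_mono hle) ?_ ?_
    · rintro _ ⟨x, hx, rfl⟩ _ ⟨y, hy, rfl⟩
      exact ⟨_, hc x hx y hy, rfl⟩
    · rintro _ ⟨x, hx, rfl⟩ n hn ⟨y, hy, hyx⟩
      have h1 : y = x ^ n := Subtype.ext hyx
      rw [h1] at hy
      exact ⟨x, ht x hx n hn hy, rfl⟩
  | index K K' hK hle hi ih =>
    refine Reach.index _ _ ih (Subgroup.map_mono hle) ?_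
    rwa [Subgroup.relIndex_map_map_of_injective _ _ L.subtype_injective]

end Pool.Agent.FIO
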