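import Pool.Agent.FIO.TfAb
import Pool.Agent.FIO.IrrDefs

/-!
Chains of subgroups: torsion-free abelian quotients and subgroups of finite index.
-/

set_option autoImplicit false

open Function

namespace Pool.Agent.FIO

universe u

/-- A finite `p`-subgroup of `G` has a conjugate inside a subgroup of finite index prime to `p`. -/
private theorem irr_card_dvd {G : Type*} [Group G] {p : ℕ} [Fact p.Prime] (L : Subgroup G)
    [L.FiniteIndex] (hi : ¬ p ∣ L.index) (hb : BoundedFin G) (K : Subgroup G) (hK : Finite K)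
    (hKp : IsPGroup p K) : Nat.card K ∣ lcmFin L := by
  have hf : Finite (G ⧸ L) := inferInstance
  obtain ⟨y, hy⟩ := hKp.nonempty_fixed_point_of_prime_not_dvd_card (G ⧸ L) (by
    rwa [← Subgroup.index_eq_card])
  obtain ⟨x, rfl⟩ := QuotientGroup.mk_surjective y
  have hmem : ∀ k : K, x⁻¹ * (k : G) * x ∈ L := by
    intro k
    have h1 : ((((k : G) * x : G)) : G ⧸ L) = (x : G ⧸ L) := hy k
    have h2 := QuotientGroup.eq.1 h1.symm
    rwa [← mul_assoc] at h2
  let f : K →* L :=
    { toFun := fun k => ⟨x⁻¹ * (k : G) * x, hmem k⟩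
      map_one' := by
        apply Subtype.ext
        simp
      map_mul' := by
        intro a b
        apply Subtype.ext
        simp only [Subgroup.coe_mul]
        group }
  have hf : Injective f := by
    intro a b hab
    have h1 : x⁻¹ * (a : G) * x = x⁻¹ * (b : G) * x := congrArg Subtype.val hab
    exact Subtype.ext (mul_left_cancel (mul_right_cancel h1))
  have hbL : BoundedFin L := (hb.of_injective _ L.subtype_injective).1
  have h2 : Nat.card ((⊤ : Subgroup K).map f) = Nat.card K := by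
    rw [Subgroup.card_map_of_injective hf, Subgroup.card_top]
  rw [← h2]
  refine hbL.dvd_lcmFin _ ?_
  have : (((⊤ : Subgroup K).map f : Subgroup L) : Set L).Finite := by
    rw [Subgroup.coe_map]
    exact (Set.toFinite _).image _
  exact this

private theorem irr_lcm {G : Type*} [Group G] {p : ℕ} [hp : Fact p.Prime] (L : Subgroup G)
    (hb : BoundedFin G)
    (h : ∀ K : Subgroup G, Finite K → IsPGroup p K → Nat.card K ∣ lcmFin L) :
    ∃ q : ℕ, ¬ p ∣ q ∧ lcmFin G = q * lcmFin L := by
  obtain ⟨q, hq⟩ := (hb.of_injective _ L.subtype_injective).2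
  refine ⟨q, ?_, by rw [hq, mul_comm]⟩
  rintro ⟨m, rfl⟩
  have hpos := hb.lcmFin_pos
  have hM : lcmFin G = p * (m * lcmFin L) := by rw [hq]; ring
  have hM0 : 0 < m * lcmFin L := by
    rcases Nat.eq_zero_or_pos (m * lcmFin L) with h0 | h0
    · rw [hM, h0] at hpos
      simp at hpos
    · exact h0
  have hdvd : lcmFin G ∣ m * lcmFin L := by
    refine lcmFin_dvd hM0 fun K hK => ?_
    obtain ⟨P⟩ : Nonempty (Sylow p K) := inferInstance
    have h1 : Nat.card (P : Subgroup K) ∣ m * lcmFin L := by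
      have h2 := h ((P : Subgroup K).map K.subtype)
        (Finite.of_equiv _ ((P : Subgroup K).equivMapOfInjective _ K.subtype_injective).toEquiv)
        (P.isPGroup'.map _)
      rw [Subgroup.card_map_of_injective K.subtype_injective] at h2
      exact h2.mul_left m
    have h3 : (P : Subgroup K).index ∣ m * lcmFin L := by
      have h4 : (P : Subgroup K).index ∣ p * (m * lcmFin L) := by
        rw [← hM]
        exact (Subgroup.index_dvd_card _).trans (hb.dvd_lcmFin K hK)
      refine Nat.Coprime.dvd_of_dvd_mul_left ?_ h4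
      exact ((Nat.Prime.coprime_iff_not_dvd hp.out).2 P.not_dvd_index).symm
    rw [← Subgroup.card_mul_index (P : Subgroup K)]
    refine Nat.Coprime.mul_dvd_of_dvd_of_dvd ?_ h1 h3
    obtain ⟨n, hn⟩ := IsPGroup.iff_card.1 P.isPGroup'
    rw [hn]
    exact Nat.Coprime.pow_left n ((Nat.Prime.coprime_iff_not_dvd hp.out).2 P.not_dvd_index)
  have h5 := Nat.le_of_dvd hM0 hdvd
  rw [hM] at h5
  have := hp.out.two_le
  nlinarith

/-- Overgroups of finite index prime to `p`. -/
theorem AtP.of_index {F : Subfield ℂ} {p : ℕ} (hp : p.Prime) {G : Type*} [Group G]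
    (L : Subgroup G) [L.FiniteIndex] (hi : ¬ p ∣ L.index) (hL : AtP F p L) : AtP F p G := by
  obtain ⟨c, hc0, hc, hLA⟩ := atP_iff_atC.1 hL
  have hGb : BoundedFin G := BoundedFin.of_index L hLA.1
  refine ⟨hGb, c * L.index, Nat.mul_pos hc0 (Nat.pos_of_ne_zero Subgroup.FiniteIndex.index_ne_zero),
    ?_, fun a b A hA => ?_⟩
  · rw [hp.dvd_mul]
    rintro (h3 | h3)
    · exact hc h3
    · exact hi h3
  · obtain ⟨z, hz⟩ := index_intC hLA A hA
    obtain ⟨d, hd⟩ := (BoundedFin.of_injective L.subtype L.subtype_injective hGb).2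
    refine ⟨d * z, ?_⟩
    push_cast
    rw [← hz, hd]
    push_cast
    ring

/-- Subgroups of finite index prime to `p` have the same `p`-part of the least common multiple. -/
theorem lcm_of_index {p : ℕ} (hp : p.Prime) {G : Type*} [Group G] (hb : BoundedFin G)
    (L : Subgroup G) [L.FiniteIndex] (hi : ¬ p ∣ L.index) :
    ∃ q : ℕ, ¬ p ∣ q ∧ lcmFin G = q * lcmFin L := by
  have : Fact p.Prime := ⟨hp⟩
  exact irr_lcm L hb fun K hK hKp => irr_card_dvd L hi hb K hK hKp

/-- Torsion-free abelian quotients do not change the least common multiple. -/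
theorem lcmFin_tfab {G : Type*} [Group G] (K L : Subgroup G) (hL : L ≤ K)
    (ht : ∀ x ∈ K, ∀ n : ℕ, 0 < n → x ^ n ∈ L → x ∈ L) (hb : BoundedFin G) :
    lcmFin K = lcmFin L := by
  have hbL : BoundedFin L := (hb.of_injective L.subtype L.subtype_injective).1
  refine (lcmFin_eq (Subgroup.inclusion hL) (Subgroup.inclusion_injective hL) hbL
    (fun T hT => ?_)).2
  intro x hx
  have h1 : (⟨x, hx⟩ : T) ^ Nat.card T = 1 := pow_card_eq_one'
  have h2 : x ^ Nat.card T = 1 := congrArg Subtype.val h1
  have h3 : (x : G) ^ Nat.card T = 1 := congrArg Subtype.val h2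
  have h4 : (x : G) ∈ L := ht x x.2 (Nat.card T) Nat.card_pos (by rw [h3]; exact L.one_mem)
  exact ⟨⟨x, h4⟩, rfl⟩

theorem tfab_step {F : Subfield ℂ} {c : ℕ} {G : Type u} [Group G] (K L : Subgroup G) (hL : L ≤ K)
    (hc : ∀ x ∈ K, ∀ y ∈ K, x * y * x⁻¹ * y⁻¹ ∈ L)
    (ht : ∀ x ∈ K, ∀ n : ℕ, 0 < n → x ^ n ∈ L → x ∈ L) (h : AtC F c L) : AtC F c K :=
  (tfabC (L.subgroupOf K) (fun x y => hc x x.2 y y.2) (fun x n hn hx => ht x x.2 n hn hx)
    (AtC.of_equiv (Subgroup.subgroupOfEquivOfLe hL) h)).1

/-- Restriction to a subgroup with the same `p`-part of the least common multiple. -/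
theorem AtP.of_injective {F : Subfield ℂ} {p : ℕ} (hp : p.Prime) {G G₂ : Type*} [Group G]
    [Group G₂] (f : G →* G₂) (hf : Injective f) {q : ℕ} (hq : ¬ p ∣ q)
    (hl : lcmFin G₂ ∣ q * lcmFin G) (h : AtP F p G₂) : AtP F p G := by
  obtain ⟨hb, c, hc0, hc, h⟩ := h
  have hq0 : 0 < q := Nat.pos_of_ne_zero fun h0 => hq (h0 ▸ dvd_zero p)
  refine ⟨(hb.of_injective _ hf).1, c * q, Nat.mul_pos hc0 hq0, ?_, fun a b A hA => ?_⟩
  · rw [hp.dvd_mul]
    rintro (h1 | h1)
    · exact hc h1
    · exact hq h1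
  · obtain ⟨z, hz⟩ := h a b (mapMat f A) (ploc_mapMat' f hf A hA)
    obtain ⟨d, hd⟩ := hl
    refine ⟨d * z, ?_⟩
    rw [vdim_mapMat _ hf] at hz
    push_cast at hz ⊢
    rw [← hz]
    have hd' : (q : ℝ) * lcmFin G = lcmFin G₂ * d := by exact_mod_cast hd
    rw [mul_assoc (c : ℝ), hd']
    ring

/-- Boundedness along a chain. -/
theorem Reach.bounded {p : ℕ} {G : Type*} [Group G] {K : Subgroup G} (h : Reach p K)
    (hK : BoundedFin K) : BoundedFin G := by
  induction h with
  | top => exact (lcmFin_congr (Subgroup.topEquiv (G := G)) hK).1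
  | ab K L _ hL hc ht ih =>
    refine ih ?_
    refine (lcmFin_eq (Subgroup.inclusion hL) (Subgroup.inclusion_injective hL) hK
      (fun T hT => ?_)).1
    intro x hx
    have h1 : (⟨x, hx⟩ : T) ^ Nat.card T = 1 := pow_card_eq_one'
    have h2 : x ^ Nat.card T = 1 := congrArg Subtype.val h1
    have h3 : (x : G) ^ Nat.card T = 1 := congrArg Subtype.val h2
    have h4 : (x : G) ∈ L := ht x x.2 (Nat.card T) Nat.card_pos (by rw [h3]; exact L.one_mem)
    exact ⟨⟨x, h4⟩, rfl⟩
  | index K L _ hL hi ih =>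
    refine ih ?_
    have hf : (L.subgroupOf K).FiniteIndex := ⟨fun h0 => hi (by
      rw [Subgroup.relIndex, h0]
      exact dvd_zero p)⟩
    exact BoundedFin.of_index (L.subgroupOf K)
      (lcmFin_congr (Subgroup.subgroupOfEquivOfLe hL).symm hK).1

/-- The least common multiples along a chain. -/
theorem Reach.lcm {p : ℕ} (hp : p.Prime) {G : Type*} [Group G] (hb : BoundedFin G)
    {K : Subgroup G} (h : Reach p K) : ∃ q : ℕ, ¬ p ∣ q ∧ lcmFin G = q * lcmFin K := by
  induction h with
  | top =>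
    refine ⟨1, fun h1 => hp.one_lt.ne' (Nat.dvd_one.1 h1), ?_⟩
    rw [one_mul]
    exact (lcmFin_congr (Subgroup.topEquiv (G := G)).symm hb).2.symm
  | ab K L hK hL hc ht ih =>
    obtain ⟨q, hq, hl⟩ := ih
    exact ⟨q, hq, by rw [hl, lcmFin_tfab K L hL ht hb]⟩
  | index K L hK hL hi ih =>
    obtain ⟨q, hq, hl⟩ := ih
    have hbK : BoundedFin K := (hb.of_injective K.subtype K.subtype_injective).1
    have hf : (L.subgroupOf K).FiniteIndex := ⟨fun h0 => hi (by
      rw [Subgroup.relIndex, h0]
      exact dvd_zero p)⟩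
    obtain ⟨q', hq', hl'⟩ := lcm_of_index hp hbK (L.subgroupOf K) hi
    refine ⟨q * q', ?_, ?_⟩
    · rw [hp.dvd_mul]
      rintro (h1 | h1)
      · exact hq h1
      · exact hq' h1
    · have hbL : BoundedFin (L.subgroupOf K) :=
        (hbK.of_injective _ (L.subgroupOf K).subtype_injective).1
      rw [hl, hl', (lcmFin_congr (Subgroup.subgroupOfEquivOfLe hL) hbL).2]
      ring

/-- The `p`-local class along a chain. -/
theorem Reach.atP_up {F : Subfield ℂ} {p : ℕ} (hp : p.Prime) {G : Type u} [Group G]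
    {K : Subgroup G} (h : Reach p K) (hK : AtP F p K) : AtP F p G := by
  induction h with
  | top => exact AtP.of_equiv (Subgroup.topEquiv (G := G)).symm hK
  | ab K L _ hL hc ht ih =>
    obtain ⟨c, h0, h1, h2⟩ := atP_iff_atC.1 hK
    exact ih (atP_iff_atC.2 ⟨c, h0, h1, tfab_step K L hL hc ht h2⟩)
  | index K L _ hL hi ih =>
    have hf : (L.subgroupOf K).FiniteIndex := ⟨fun h0 => hi (by
      rw [Subgroup.relIndex, h0]
      exact dvd_zero p)⟩
    exact ih (AtP.of_index hp (L.subgroupOf K) hi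
      (AtP.of_equiv (Subgroup.subgroupOfEquivOfLe hL) hK))

/-- If a chain leads from `G` into `H`, the `p`-local class passes from `H` to `G`. -/
theorem Reach.atP {F : Subfield ℂ} {p : ℕ} (hp : p.Prime) {G : Type u} [Group G]
    {K H : Subgroup G} (h : Reach p K) (hKH : K ≤ H) (hH : AtP F p H) : AtP F p G := by
  have hbK : BoundedFin K := (hH.1.of_injective (Subgroup.inclusion hKH)
    (Subgroup.inclusion_injective hKH)).1
  have hb : BoundedFin G := h.bounded hbK
  obtain ⟨q, hq, hl⟩ := h.lcm hp hb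
  refine h.atP_up hp (AtP.of_injective hp (Subgroup.inclusion hKH)
    (Subgroup.inclusion_injective hKH) hq ?_ hH)
  rw [← hl]
  exact (hb.of_injective H.subtype H.subtype_injective).2

theorem Root.finiteIndex {G : Type*} [Group G] {H : Subgroup G} {p : ℕ} {w : G}
    (h : Root H p w) : H.FiniteIndex :=
  ⟨by rw [h.index]; exact h.prime.ne_zero⟩

/-- Root pairs with a chain into `H`, globally: for the other primes the index is prime. -/
theorem Root.atiyah_of_reach {F : Subfield ℂ} {p : ℕ} {G : Type u} [Group G] {H : Subgroup G}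
    {w : G} (h : Root H p w) {K : Subgroup G} (hK : Reach p K) (hKH : K ≤ H)
    (hH : Atiyah F H) : Atiyah F G := by
  have := h.finiteIndex
  refine Atiyah.of_atP fun q hq => ?_
  by_cases hqp : q = p
  · subst hqp
    exact hK.atP hq hKH (hH.atP hq)
  · refine AtP.of_index hq H ?_ (hH.atP hq)
    rw [h.index]
    exact fun h1 => hqp ((Nat.prime_dvd_prime_iff_eq hq h.prime).1 h1)

/-- Only the irreducible root pairs matter, `p`-locally. -/
theorem rootClosedP_of_irred {F : Subfield ℂ} {p : ℕ} (hp : p.Prime)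
    {C : ∀ (G : Type u) [Group G], Prop}
    (h : ∀ (G : Type u) [Group G] (H : Subgroup G) (w : G), C G → RootPair H p w → Irred p H →
      AtP F p H → AtP F p G) : RootClosedP F p C := by
  intro G _ H w hG hr hH
  by_cases hex : ∃ K : Subgroup G, Reach p K ∧ K ≤ H
  · obtain ⟨K, hK, hKH⟩ := hex
    exact hK.atP hp hKH hH
  · exact h G H w hG hr (fun K hK hKH => hex ⟨K, hK, hKH⟩) hH

/-- Only the irreducible root pairs matter. -/
theorem rootClosed_of_irred {F : Subfield ℂ} {C : ∀ (G : Type u) [Group G], Prop}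
    (h : ∀ (G : Type u) [Group G] (H : Subgroup G) (p : ℕ) (w : G), C G → RootPair H p w →
      Irred p H → Atiyah F H → Atiyah F G) : RootClosed F C := by
  intro G _ H p w hG hr hH
  by_cases hex : ∃ K : Subgroup G, Reach p K ∧ K ≤ H
  · obtain ⟨K, hK, hKH⟩ := hex
    exact Root.atiyah_of_reach ⟨hr.prime, hr.central, hr.not_mem, hr.pow_mem, hr.gen⟩ hK hKH hH
  · exact h G H p w hG hr (fun K hK hKH => hex ⟨K, hK, hKH⟩) hH

/-- Part (P) with irreducible pairs. -/
theorem tfae_atP_irred (F : Subfield ℂ) (p : ℕ) (hp : p.Prime)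
    {C : ∀ (G : Type u) [Group G], Prop} (hC : GoodClass C) : List.TFAE [
      ∀ (G : Type u) [Group G] (H : Subgroup G), C G → H.FiniteIndex → AtP F p H → AtP F p G,
      ∀ (G : Type u) [Group G] (H : Subgroup G) (w : G), C G → Root H p w → Irred p H →
        AtP F p H → AtP F p G,
      ∀ (G : Type u) [Group G] (H : Subgroup G) (w : G), C G → RootPair H p w → Irred p H →
        AtP F p H → AtP F p G] := by
  tfae_have 1 → 2 := by
    intro h G _ H w hG hr _ hH
    exact h G H hG hr.finiteIndex hH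
  tfae_have 2 → 3 := by
    intro h G _ H w hG hr hi hH
    exact h G H w hG ⟨hr.prime, hr.central, hr.not_mem, hr.pow_mem, hr.gen⟩ hi hH
  tfae_have 3 → 1 := by
    intro h
    exact (partP F hC p hp).2 (rootClosedP_of_irred hp h)
  tfae_finish

/-- Part (Q) with irreducible pairs. -/
theorem partQ_irred (F : Subfield ℂ) {C : ∀ (G : Type u) [Group G], Prop} (hC : GoodClass C)
    (h : ∀ p : ℕ, p.Prime → ∀ (G : Type u) [Group G] (H : Subgroup G) (w : G), C G →
      RootPair H p w → Irred p H → AtP F p H → AtP F p G) :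
    ∀ (G : Type u) [Group G] (H : Subgroup G), C G → H.FiniteIndex → Atiyah F H →
      Atiyah F G :=
  partQ F hC fun p hp => rootClosedP_of_irred hp (h p hp)

/-- Part (A) with irreducible pairs. -/
theorem tfae_normal_irred (F : Subfield ℂ) {C : ∀ (G : Type u) [Group G], Prop}
    (hC : GoodClass C) : List.TFAE [
      ∀ (G : Type u) [Group G] (H : Subgroup G), C G → H.Normal → H.FiniteIndex →
        Atiyah F H → Atiyah F G,
      ∀ (G : Type u) [Group G] (H : Subgroup G) (p : ℕ) (w : G), C G → Root H p w →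
        Irred p H → Atiyah F H → Atiyah F G,
      ∀ (G : Type u) [Group G] (H : Subgroup G) (p : ℕ) (w : G), C G → RootPair H p w →
        Irred p H → Atiyah F H → Atiyah F G] := by
  tfae_have 1 → 2 := by
    intro h G _ H p w hG hr _ hH
    exact h G H hG hr.normal hr.finiteIndex hH
  tfae_have 2 → 3 := by
    intro h G _ H p w hG hr hi hH
    exact h G H p w hG ⟨hr.prime, hr.central, hr.not_mem, hr.pow_mem, hr.gen⟩ hi hH
  tfae_have 3 → 1 := by
    intro h
    exact (partA F hC).2 (rootClosed_of_irred h)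
  tfae_finish

/-- Part (B) with irreducible pairs. -/
theorem partB_irred (F : Subfield ℂ) {C : ∀ (G : Type u) [Group G], Prop} (hC : GoodClass C)
    (hT : ∀ (G : Type u) [Group G], C G → TorFree G) :
    (∀ (G : Type u) [Group G] (H : Subgroup G), C G → H.FiniteIndex → Atiyah F H →
      Atiyah F G) ↔
    (∀ (G : Type u) [Group G] (H : Subgroup G) (p : ℕ) (w : G), C G → RootPair H p w →
      Irred p H → Atiyah F H → Atiyah F G) := by
  constructor
  · intro h G _ H p w hG hr _ hH
    exact h G H hG hr.finiteIndex hH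
  · intro h
    exact (partB F hC hT).2 (rootClosed_of_irred h)

end Pool.Agent.FIO
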