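import Pool.Agent.FIO.Emb

set_option autoImplicit false

open Function

namespace Pool.Agent.FIO

variable {G G₂ : Type*} [Group G] [Group G₂]

theorem BoundedFin.of_dvd {m : ℕ} (hm : 0 < m) (h : ∀ K : Subgroup G, Finite K → Nat.card K ∣ m) :
    BoundedFin G := ⟨m, fun K hK => Nat.le_of_dvd hm (h K hK)⟩

private theorem lcm_spec (h : BoundedFin G) :
    0 < lcmFin G ∧ ∀ K : Subgroup G, Finite K → Nat.card K ∣ lcmFin G := by
  obtain ⟨B, hB⟩ := h
  have hne : {m : ℕ | 0 < m ∧ ∀ K : Subgroup G, Finite K → Nat.card K ∣ m}.Nonempty := by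
    refine ⟨B.factorial, Nat.factorial_pos B, fun K hK => ?_⟩
    exact Nat.dvd_factorial (Nat.card_pos) (hB K hK)
  exact Nat.sInf_mem hne

theorem BoundedFin.lcmFin_pos (h : BoundedFin G) : 0 < lcmFin G := (lcm_spec h).1

theorem BoundedFin.dvd_lcmFin (h : BoundedFin G) (K : Subgroup G) (hK : Finite K) :
    Nat.card K ∣ lcmFin G := (lcm_spec h).2 K hK

theorem lcmFin_dvd {m : ℕ} (hm : 0 < m) (h : ∀ K : Subgroup G, Finite K → Nat.card K ∣ m) :
    lcmFin G ∣ m := by
  have hb : BoundedFin G := BoundedFin.of_dvd hm h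
  have h1 : 0 < Nat.gcd (lcmFin G) m ∧
      ∀ K : Subgroup G, Finite K → Nat.card K ∣ Nat.gcd (lcmFin G) m :=
    ⟨Nat.gcd_pos_of_pos_right _ hm, fun K hK => Nat.dvd_gcd (hb.dvd_lcmFin K hK) (h K hK)⟩
  have h2 : lcmFin G ≤ Nat.gcd (lcmFin G) m := Nat.sInf_le h1
  have h3 : Nat.gcd (lcmFin G) m ≤ lcmFin G := Nat.gcd_le_left _ hb.lcmFin_pos
  have h4 : Nat.gcd (lcmFin G) m = lcmFin G := le_antisymm h3 h2
  exact Nat.gcd_eq_left_iff_dvd.1 h4

theorem BoundedFin.of_injective (f : G →* G₂) (hf : Injective f) (h : BoundedFin G₂) :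
    BoundedFin G ∧ lcmFin G ∣ lcmFin G₂ := by
  have key : ∀ K : Subgroup G, Finite K → Nat.card K ∣ lcmFin G₂ := by
    intro K hK
    have e : Nat.card (K.map f) = Nat.card K := Subgroup.card_map_of_injective hf
    rw [← e]
    exact h.dvd_lcmFin _ (Finite.of_equiv _ (K.equivMapOfInjective f hf).toEquiv)
  exact ⟨BoundedFin.of_dvd h.lcmFin_pos key, lcmFin_dvd h.lcmFin_pos key⟩

/-- If all finite subgroups of `G₂` lie in the range of the injective `f`, the least common
multiples agree. -/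
theorem lcmFin_eq (f : G →* G₂) (hf : Injective f) (h : BoundedFin G)
    (hr : ∀ K : Subgroup G₂, Finite K → K ≤ f.range) :
    BoundedFin G₂ ∧ lcmFin G₂ = lcmFin G := by
  have key : ∀ K : Subgroup G₂, Finite K → Nat.card K ∣ lcmFin G := by
    intro K hK
    have e0 : (K.comap f).map f = K := Subgroup.map_comap_eq_self (hr K hK)
    have e : Nat.card ((K.comap f).map f) = Nat.card (K.comap f) :=
      Subgroup.card_map_of_injective hf
    rw [e0] at e
    rw [e]
    refine h.dvd_lcmFin _ ?_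
    have : Finite ((K.comap f).map f) := by rw [e0]; exact hK
    exact Finite.of_equiv _ ((K.comap f).equivMapOfInjective f hf).toEquiv.symm
  have hb : BoundedFin G₂ := BoundedFin.of_dvd h.lcmFin_pos key
  exact ⟨hb, Nat.dvd_antisymm (lcmFin_dvd h.lcmFin_pos key) (hb.of_injective f hf).2⟩

private theorem lcm_card (H K : Subgroup G) :
    Nat.card (K.subgroupOf H) * H.relIndex K = Nat.card K := by
  have h1 : Nat.card (H.subgroupOf K) * (H.subgroupOf K).index = Nat.card K :=
    Subgroup.card_mul_index _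
  have h2 : Nat.card (H.subgroupOf K) = Nat.card (K.subgroupOf H) := by
    rw [← Subgroup.card_subtype K (H.subgroupOf K), ← Subgroup.card_subtype H (K.subgroupOf H),
      Subgroup.subgroupOf_map_subtype, Subgroup.subgroupOf_map_subtype, inf_comm]
  rw [← h2]
  exact h1

private theorem lcm_finite (H K : Subgroup G) (hK : Finite K) : Finite (K.subgroupOf H) := by
  refine Finite.of_injective (fun x : K.subgroupOf H => (⟨((x : H) : G), x.2⟩ : K)) ?_
  intro x y hxy
  have := congrArg (fun z : K => (z : G)) hxy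
  exact Subtype.ext (Subtype.ext this)

/-- Finite index. -/
theorem BoundedFin.of_index (H : Subgroup G) [H.FiniteIndex] (h : BoundedFin H) :
    BoundedFin G := by
  obtain ⟨B, hB⟩ := h
  refine ⟨B * H.index, fun K hK => ?_⟩
  rw [← lcm_card H K]
  refine Nat.mul_le_mul (hB _ (lcm_finite H K hK)) ?_
  have := Subgroup.relIndex_le_of_le_right (H := H) (le_top : K ≤ ⊤)
    (by rw [Subgroup.relIndex_top_right]; exact Subgroup.FiniteIndex.index_ne_zero)
  rwa [Subgroup.relIndex_top_right] at this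

theorem lcmFin_dvd_index (H : Subgroup G) [H.Normal] [H.FiniteIndex] (h : BoundedFin H) :
    lcmFin G ∣ H.index * lcmFin H := by
  refine lcmFin_dvd (Nat.mul_pos (Nat.pos_of_ne_zero Subgroup.FiniteIndex.index_ne_zero)
    h.lcmFin_pos) fun K hK => ?_
  rw [← lcm_card H K, mul_comm]
  exact Nat.mul_dvd_mul (Subgroup.relIndex_dvd_index_of_normal _ _)
    (h.dvd_lcmFin _ (lcm_finite H K hK))

private theorem lcm_mapMat {F : Subfield ℂ} {ι κ : Type*} (f : G →* G₂) (hf : Injective f)
    (A : κ → ι → G →₀ ℂ) (hA : ∀ k i g, A k i g ∈ F) :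
    ∀ k i g, mapMat f A k i g ∈ F := by
  intro k i g
  unfold mapMat
  by_cases hg : g ∈ Set.range f
  · obtain ⟨x, rfl⟩ := hg
    rw [Finsupp.mapDomain_apply hf]
    exact hA k i x
  · rw [Finsupp.mapDomain_of_notMem_range _ _ hg]
    exact F.zero_mem

/-- `A_F` passes to subgroups with the same least common multiple. -/
theorem Atiyah.of_injective {F : Subfield ℂ} (f : G →* G₂) (hf : Injective f)
    (h : Atiyah F G₂) (hl : lcmFin G₂ = lcmFin G) : Atiyah F G := by
  refine ⟨(h.1.of_injective f hf).1, fun a b A hA => ?_⟩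
  obtain ⟨z, hz⟩ := h.2 a b (mapMat f A) (lcm_mapMat f hf A hA)
  refine ⟨z, ?_⟩
  rw [vdim_mapMat f hf, hl] at hz
  exact hz

theorem Atiyah.of_equiv {F : Subfield ℂ} (f : G ≃* G₂) (h : Atiyah F G₂) : Atiyah F G := by
  have h1 := (h.1.of_injective f.toMonoidHom f.injective)
  have h2 := (h1.1.of_injective f.symm.toMonoidHom f.symm.injective)
  exact h.of_injective f.toMonoidHom f.injective (Nat.dvd_antisymm h2.2 h1.2)

end Pool.Agent.FIO
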