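import Pool.Agent.FIO.PlocC
import Pool.Agent.FIO.MainA

set_option autoImplicit false

open Function

namespace Pool.Agent.FIO

universe u

/-- Part (P): for a prime `p`, all subgroups of finite index. -/
theorem partP (F : Subfield ℂ) {C : ∀ (G : Type u) [Group G], Prop} (hC : GoodClass C) (p : ℕ)
    (hp : p.Prime) :
    (∀ (G : Type u) [Group G] (H : Subgroup G), C G → H.FiniteIndex → AtP F p H → AtP F p G) ↔
    (∀ (G : Type u) [Group G] (H : Subgroup G) (w : G), C G → RootPair H p w → AtP F p H →
      AtP F p G) := by
  have : Fact p.Prime := ⟨hp⟩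
  constructor
  · intro h G _ H w hG hr hH
    exact h G H hG hr.finiteIndex hH
  · intro h G _ H hG hf hH
    exact ploc_finite hC (fun G _ H w hG hr hH => h G H w hG hr hH) G H hG hH

/-- Part (Q): the local root closures imply Q1 in full. -/
theorem partQ (F : Subfield ℂ) {C : ∀ (G : Type u) [Group G], Prop} (hC : GoodClass C)
    (h : ∀ p : ℕ, p.Prime → ∀ (G : Type u) [Group G] (H : Subgroup G) (w : G), C G →
      RootPair H p w → AtP F p H → AtP F p G) :
    ∀ (G : Type u) [Group G] (H : Subgroup G), C G → H.FiniteIndex → Atiyah F H →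
      Atiyah F G := by
  intro G _ H hG hf hH
  exact atiyah_of_finiteIndex hC (fun p hp G _ H w hG hr hH => h p hp G H w hG hr hH) G H
    hG hH

end Pool.Agent.FIO
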