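import Pool.Agent.FIO.Zext

/-!
Integrality with an extra constant `c`: the statements of the files `Win`, `Zwin`, `Lcm`, `Zext`
for the multiples `c * lcmFin G` instead of `lcmFin G`.
-/

set_option autoImplicit false

open Function

namespace Pool.Agent.FIO

variable {G G₂ : Type*} [Group G] [Group G₂] {ι κ α β : Type*} [Fintype ι]

/-- The orders of the finite subgroups of `G` are bounded and `c * lcm(G)` times the von Neumann
dimension of the kernel of every matrix over `F G` on `l2(G)^b` is an integer. -/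
def AtC (F : Subfield ℂ) (c : ℕ) (G : Type*) [Group G] : Prop :=
  BoundedFin G ∧ ∀ (a b : ℕ) (A : Fin a → Fin b → G →₀ ℂ), (∀ k i g, A k i g ∈ F) →
    ∃ z : ℤ, ((c * lcmFin G : ℕ) : ℝ) * vdim (kerMat A) = z

theorem AtC.one_iff {F : Subfield ℂ} : AtC F 1 G ↔ Atiyah F G := by
  unfold AtC Atiyah
  simp only [one_mul]

theorem AtC.int {F : Subfield ℂ} {c : ℕ} (h : AtC F c G) [Finite κ] (A : κ → ι → G →₀ ℂ) (hA : ∀ k i g, A k i g ∈ F) :
    ∃ z : ℤ, ((c * lcmFin G : ℕ) : ℝ) * vdim (kerMat A) = z := by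
  haveI := Fintype.ofFinite κ
  obtain ⟨z, hz⟩ := h.2 (Fintype.card κ) (Fintype.card ι)
    (fun k i => A ((Fintype.equivFin κ).symm k) ((Fintype.equivFin ι).symm i))
    (fun k i g => hA _ _ _)
  refine ⟨z, ?_⟩
  rw [← hz, vdim_reindex (Fintype.equivFin ι) (Fintype.equivFin κ) A]

theorem winSpace_intC {F : Subfield ℂ} {c : ℕ} [Fintype α] [Finite β] [Finite κ] {N : Subgroup G}
    (hN : AtC F c N) (r : α → G) (s : β → G)
    (hr : Injective fun an : α × N => r an.1 * (an.2 : G)) (A : κ → ι → G →₀ ℂ)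
    (hA : ∀ k i g, A k i g ∈ F) :
    ∃ z : ℤ, ((c * lcmFin N : ℕ) : ℝ) * ∑ i, ∑ a, phi (winSpace N r s A) (i, r a) = z := by
  rw [sum_phi_winSpace N r s hr A]
  refine hN.int (winMat N r s A) fun k i g => ?_
  simp only [winMat, Finsupp.comapDomain_apply]
  exact hA _ _ _

theorem index_intC {F : Subfield ℂ} {c : ℕ} [Finite κ] {N : Subgroup G} [N.FiniteIndex]
    (hN : AtC F c N) (A : κ → ι → G →₀ ℂ) (hA : ∀ k i g, A k i g ∈ F) :
    ∃ z : ℤ, ((c * lcmFin N : ℕ) : ℝ) * ((N.index : ℝ) * vdim (kerMat A)) = z := by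
  have : Fintype (G ⧸ N) := Fintype.ofFinite _
  have hr : Injective fun an : (G ⧸ N) × N => (Quotient.out an.1 : G) * (an.2 : G) := by
    rintro ⟨a, n⟩ ⟨a', n'⟩ h
    simp only at h
    have h1 : a = a' := by
      have h2 : ((Quotient.out a * (n : G) : G) : G ⧸ N) = ((Quotient.out a' * (n' : G) : G) : G ⧸ N) := by
        rw [h]
      rw [QuotientGroup.mk_mul_of_mem _ n.2, QuotientGroup.mk_mul_of_mem _ n'.2] at h2
      simpa using h2
    subst h1
    rw [mul_right_inj] at h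
    rw [Subtype.ext h]
  have hall : ∀ g : G, ∃ (a : G ⧸ N) (n : N), g = Quotient.out a * n := by
    intro g
    refine ⟨(g : G ⧸ N), ⟨(Quotient.out (g : G ⧸ N))⁻¹ * g, ?_⟩, ?_⟩
    · rw [← QuotientGroup.eq]
      simp
    · simp
  have hK : winSpace N (Quotient.out : G ⧸ N → G) (Quotient.out : G ⧸ N → G) A = kerMat A := by
    ext v
    constructor
    · rintro ⟨_, h⟩ k g
      obtain ⟨b, n, rfl⟩ := hall g
      exact h k b n
    · intro h
      refine ⟨fun i g hg => ?_, fun k b n => h k _⟩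
      obtain ⟨a, n, han⟩ := hall g
      exact absurd han (hg a n)
  obtain ⟨z, hz⟩ := winSpace_intC (β := G ⧸ N) hN (Quotient.out : G ⧸ N → G)
    (Quotient.out : G ⧸ N → G) hr A hA
  refine ⟨z, ?_⟩
  rw [← hz, hK]
  congr 1
  unfold vdim
  rw [Finset.mul_sum]
  refine Finset.sum_congr rfl fun i _ => ?_
  rw [Finset.sum_congr rfl fun a _ => phi_kerMat A i (Quotient.out a), Finset.sum_const,
    nsmul_eq_mul, Finset.card_univ, ← Nat.card_eq_fintype_card]
  rfl

theorem kw_intC {F : Subfield ℂ} {c : ℕ} [Finite κ] (δ : G →* Multiplicative ℤ) (t : G)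
    (ht : δ t = Multiplicative.ofAdd 1) (h : AtC F c δ.ker) (A : κ → ι → G →₀ ℂ)
    (hA : ∀ k i g, A k i g ∈ F) (L : ℕ) :
    ∃ z : ℤ, ((c * lcmFin δ.ker : ℕ) : ℝ) * kw δ t A L = z := by
  obtain ⟨d, hd⟩ := zwin_bound δ A
  obtain ⟨z, hz⟩ := winSpace_intC h (fun j : Fin L => t ^ (j : ℕ))
    (fun j : Fin (L + 2 * d) => t ^ ((j : ℤ) - d)) (zwin_inj δ t ht L) A hA
  refine ⟨z, ?_⟩
  rw [← hz]
  unfold kw
  rw [zwin_eq δ t ht A L d hd]

theorem ploc_mapMat' {F : Subfield ℂ} {ι κ : Type*} (f : G →* G₂) (hf : Injective f)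
    (A : κ → ι → G →₀ ℂ) (hA : ∀ k i g, A k i g ∈ F) :
    ∀ k i g, mapMat f A k i g ∈ F := by
  intro k i g
  unfold mapMat
  by_cases hg : g ∈ Set.range f
  · obtain ⟨x, rfl⟩ := hg
    rw [Finsupp.mapDomain_apply hf]
    exact hA k i x
  · rw [Finsupp.mapDomain_of_notMem_range _ _ hg]
    exact F.zero_mem

theorem AtC.of_injective {F : Subfield ℂ} {c : ℕ} (f : G →* G₂) (hf : Injective f)
    (h : AtC F c G₂) (hl : lcmFin G₂ = lcmFin G) : AtC F c G := by
  refine ⟨(h.1.of_injective f hf).1, fun a b A hA => ?_⟩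
  obtain ⟨z, hz⟩ := h.2 a b (mapMat f A) (ploc_mapMat' f hf A hA)
  refine ⟨z, ?_⟩
  rw [vdim_mapMat f hf, hl] at hz
  exact hz

theorem AtC.of_equiv {F : Subfield ℂ} {c : ℕ} (f : G ≃* G₂) (h : AtC F c G₂) : AtC F c G := by
  have h1 := (h.1.of_injective f.toMonoidHom f.injective)
  have h2 := (h1.1.of_injective f.symm.toMonoidHom f.symm.injective)
  exact h.of_injective f.toMonoidHom f.injective (Nat.dvd_antisymm h2.2 h1.2)

theorem zextC {F : Subfield ℂ} {c : ℕ} (δ : G →* Multiplicative ℤ) (hδ : Surjective δ)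
    (h : AtC F c δ.ker) : AtC F c G := by
  obtain ⟨t, ht⟩ := hδ (Multiplicative.ofAdd 1)
  have hl := lcmFin_eq δ.ker.subtype δ.ker.subtype_injective h.1 (fun K hK => by
    rw [Subgroup.range_subtype]
    exact le_ker_of_finite δ K hK)
  refine ⟨hl.1, fun a b A hA => ?_⟩
  rw [hl.2]
  obtain ⟨C, hC⟩ := le_kw δ t ht A
  exact seq_int (kw δ t A) (c * lcmFin δ.ker) (vdim (kerMat A)) C (fun L => kw_intC δ t ht h A hA L)
    (fun L => kw_convex δ t ht A L) (fun L => kw_le δ t ht A L) hC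

theorem zextC' {F : Subfield ℂ} {c : ℕ} (δ : G →* Multiplicative ℤ) (hδ : ∃ g, δ g ≠ 1)
    (h : AtC F c δ.ker) : AtC F c G := by
  obtain ⟨e, hc⟩ := Int.subgroup_cyclic (AddMonoidHom.range
    (MonoidHom.toAdditiveLeft δ))
  have hc' : ∀ g, ∃ n : ℤ, (δ g).toAdd = n * e := by
    intro g
    have h1 : (δ g).toAdd ∈ AddMonoidHom.range (MonoidHom.toAdditiveLeft δ) := ⟨Additive.ofMul g, rfl⟩
    rw [hc, AddSubgroup.mem_closure_singleton] at h1
    obtain ⟨n, hn⟩ := h1
    exact ⟨n, by rw [← hn]; simp⟩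
  have hc0 : e ≠ 0 := by
    rintro rfl
    obtain ⟨g, hg⟩ := hδ
    obtain ⟨n, hn⟩ := hc' g
    rw [mul_zero] at hn
    exact hg (toAdd_eq_zero.1 hn)
  obtain ⟨t, ht⟩ : ∃ t, (δ t).toAdd = e := by
    have h1 : e ∈ AddMonoidHom.range (MonoidHom.toAdditiveLeft δ) := by
      rw [hc]
      exact AddSubgroup.subset_closure (Set.mem_singleton e)
    obtain ⟨g, hg⟩ := h1
    exact ⟨g.toMul, hg⟩
  choose n hn using hc'
  have hmul : ∀ g g', n (g * g') = n g + n g' := by
    intro g g'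
    apply mul_right_cancel₀ hc0
    rw [add_mul, ← hn, ← hn, ← hn, map_mul, toAdd_mul]
  let δ' : G →* Multiplicative ℤ := MonoidHom.mk' (fun g => Multiplicative.ofAdd (n g)) (by
    intro g g'
    rw [hmul, ofAdd_add])
  have hk : δ'.ker = δ.ker := by
    ext g
    rw [MonoidHom.mem_ker, MonoidHom.mem_ker]
    have e1 : δ' g = Multiplicative.ofAdd (n g) := rfl
    rw [e1, ofAdd_eq_one, ← toAdd_eq_zero, hn g]
    constructor
    · intro h2
      rw [h2, zero_mul]
    · intro h2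
      exact (mul_eq_zero.1 h2).resolve_right hc0
  have hs : Surjective δ' := by
    intro y
    refine ⟨t ^ (y.toAdd), ?_⟩
    have h3 : n t = 1 := by
      apply mul_right_cancel₀ hc0
      rw [← hn, ht, one_mul]
    rw [map_zpow]
    have e1 : δ' t = Multiplicative.ofAdd 1 := by
      show Multiplicative.ofAdd (n t) = _
      rw [h3]
    rw [e1]
    apply Multiplicative.toAdd.injective
    rw [toAdd_zpow, toAdd_ofAdd]
    simp
  refine zextC δ' hs ?_
  rw [hk]
  exact h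

end Pool.Agent.FIO
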