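import Pool.Agent.FIO.RootDefs

set_option autoImplicit false

namespace Pool.Agent.FIO

universe u

/-- The `p`-local form of the class `A_F`: the orders of the finite subgroups of `G` are bounded
and there is a number `c > 0`, not divisible by `p`, such that `c * lcm(G)` times the von Neumann
dimension of the kernel of every matrix over `F G` on `l2(G)^b` is an integer. -/
def AtP (F : Subfield ℂ) (p : ℕ) (G : Type*) [Group G] : Prop :=
  BoundedFin G ∧ ∃ c : ℕ, 0 < c ∧ ¬ p ∣ c ∧
    ∀ (a b : ℕ) (A : Fin a → Fin b → G →₀ ℂ), (∀ k i g, A k i g ∈ F) →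
      ∃ z : ℤ, ((c * lcmFin G : ℕ) : ℝ) * vdim (kerMat A) = z

/-- The `p`-local class is closed, inside the class `C`, under adjoining `p`-th roots of central
elements. -/
def RootClosedP (F : Subfield ℂ) (p : ℕ) (C : ∀ (G : Type u) [Group G], Prop) : Prop :=
  ∀ (G : Type u) [Group G] (H : Subgroup G) (w : G), C G → RootPair H p w →
    AtP F p H → AtP F p G

end Pool.Agent.FIO
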