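import Pool.Agent.FIO.PlocA
import Pool.Agent.FIO.PlocDefs
import Pool.Agent.FIO.Grp

/-!
The `p`-local class: closure properties, root pairs, and normal subgroups of index `p`. The
constant `c` is kept fixed.
-/

set_option autoImplicit false

open Function

namespace Pool.Agent.FIO

universe u

/-- The constant-`c` class is closed, inside the class `C`, under the root pairs for `p`. -/
def RootClosedC (F : Subfield ℂ) (c p : ℕ) (C : ∀ (G : Type u) [Group G], Prop) : Prop :=
  ∀ (G : Type u) [Group G] (H : Subgroup G) (w : G), C G → RootPair H p w →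
    AtC F c H → AtC F c G

private theorem ploc_decomp {G : Type*} [Group G] {H : Subgroup G} {p : ℕ} {w : G}
    (h : Root H p w) (g : G) : ∃ x ∈ H, ∃ i : ℤ, g = x * w ^ i := by
  have := h.normal
  have hg : g ∈ ((H ⊔ Subgroup.zpowers w : Subgroup G) : Set G) := by
    rw [h.gen]; exact Subgroup.mem_top g
  rw [Subgroup.normal_mul] at hg
  obtain ⟨x, hx, y, hy, rfl⟩ := hg
  obtain ⟨i, rfl⟩ := Subgroup.mem_zpowers_iff.1 hy
  exact ⟨x, hx, i, rfl⟩

theorem Root.atC_of_lcm_ne {F : Subfield ℂ} {c : ℕ} {G : Type*} [Group G] {H : Subgroup G} {p : ℕ}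
    {w : G} (h : Root H p w) (hH : AtC F c H) (hl : lcmFin G ≠ lcmFin H) : AtC F c G := by
  have := h.normal
  have hfi : H.FiniteIndex := ⟨by rw [h.index]; exact h.prime.ne_zero⟩
  have hbG : BoundedFin G := BoundedFin.of_index H hH.1
  have h1 : lcmFin G ∣ p * lcmFin H := by
    have := lcmFin_dvd_index H hH.1
    rwa [h.index] at this
  have h2 : lcmFin H ∣ lcmFin G :=
    (BoundedFin.of_injective H.subtype H.subtype_injective hbG).2
  have hHpos : 0 < lcmFin H := hH.1.lcmFin_pos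
  obtain ⟨e, hc⟩ := h2
  have hcp : e ∣ p := by
    rw [hc, mul_comm p] at h1
    exact Nat.dvd_of_mul_dvd_mul_left hHpos h1
  have hcp' : e = p := by
    rcases (Nat.dvd_prime h.prime).1 hcp with h5 | h5
    · exact absurd (by rw [hc, h5, mul_one]) hl
    · exact h5
  refine ⟨hbG, fun a b A hA => ?_⟩
  obtain ⟨z, hz⟩ := index_intC (N := H) hH A hA
  refine ⟨z, ?_⟩
  rw [← hz, hc, hcp', h.index]
  push_cast
  ring

theorem Root.atC_of_hom {F : Subfield ℂ} {c : ℕ} {G : Type*} [Group G] {H : Subgroup G} {p : ℕ}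
    {w : G} (h : Root H p w) (hH : AtC F c H) (φ : H →* Multiplicative ℤ)
    (hφ : ¬ ∃ y, φ ⟨w ^ p, h.pow_mem⟩ = y ^ p) : AtC F c G := by
  set W : H := ⟨w ^ p, h.pow_mem⟩ with hW
  -- the surjection from `H × ℤ`
  let Ψ : H × Multiplicative ℤ →* G :=
    { toFun := fun x => (x.1 : G) * w ^ (Multiplicative.toAdd x.2)
      map_one' := by simp
      map_mul' := by
        rintro ⟨x, i⟩ ⟨y, j⟩
        have hc : Commute (w ^ (Multiplicative.toAdd i)) (y : G) :=
          (show Commute w (y : G) from h.central y).zpow_left _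
        simp only [Prod.mk_mul_mk, toAdd_mul, zpow_add, Subgroup.coe_mul]
        rw [mul_assoc (x : G), mul_assoc (x : G), ← mul_assoc (y : G), ← hc.eq, mul_assoc] }
  have hΨ : ∀ (x : H) (i : ℤ), Ψ (x, Multiplicative.ofAdd i) = x * w ^ i := fun x i => rfl
  have hΨs : Surjective Ψ := by
    intro g
    obtain ⟨x, hx, i, rfl⟩ := ploc_decomp h g
    exact ⟨(⟨x, hx⟩, Multiplicative.ofAdd i), rfl⟩
  let δ' : H × Multiplicative ℤ →* Multiplicative ℤ :=
    { toFun := fun x => φ x.1 ^ p * φ W ^ (Multiplicative.toAdd x.2)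
      map_one' := by simp
      map_mul' := by
        rintro ⟨x, i⟩ ⟨y, j⟩
        simp only [Prod.mk_mul_mk, toAdd_mul, zpow_add, map_mul, mul_pow]
        exact mul_mul_mul_comm _ _ _ _ }
  have hδ' : ∀ (x : H) (i : ℤ), δ' (x, Multiplicative.ofAdd i) = φ x ^ p * φ W ^ i :=
    fun x i => rfl
  -- `w ^ i ∈ H` iff `p ∣ i`
  have hdiv : ∀ i : ℤ, w ^ i ∈ H → (p : ℤ) ∣ i := by
    intro i hi
    by_contra hcon
    have hcop : IsCoprime (p : ℤ) i :=
      ((Nat.prime_iff_prime_int.1 h.prime).coprime_iff_not_dvd).2 hcon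
    obtain ⟨a, b, hab⟩ := hcop
    apply h.not_mem
    have : w = (w ^ p) ^ a * (w ^ i) ^ b := by
      rw [← zpow_natCast, ← zpow_mul, ← zpow_mul, ← zpow_add, mul_comm (p : ℤ), mul_comm i, hab,
        zpow_one]
    rw [this]
    exact H.mul_mem (H.zpow_mem h.pow_mem _) (H.zpow_mem hi _)
  have hker : Ψ.ker ≤ δ'.ker := by
    rintro ⟨x, i⟩ hx
    obtain ⟨i, rfl⟩ := Multiplicative.ofAdd.surjective i
    rw [MonoidHom.mem_ker, hΨ] at hx
    rw [MonoidHom.mem_ker, hδ']
    have h1 : w ^ i = (x : G)⁻¹ := (inv_eq_of_mul_eq_one_right hx).symm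
    obtain ⟨j, rfl⟩ := hdiv i (by rw [h1]; exact H.inv_mem x.2)
    have h2 : x = (W ^ j)⁻¹ := by
      apply Subtype.ext
      have : (x : G) * (w ^ p) ^ j = 1 := by
        rw [← zpow_natCast, ← zpow_mul]; exact hx
      simpa [hW] using eq_inv_of_mul_eq_one_left this
    rw [h2, map_inv, map_zpow, inv_pow, ← zpow_natCast, ← zpow_mul, mul_comm j, inv_mul_cancel]
  let δ : G →* Multiplicative ℤ := Ψ.liftOfSurjective hΨs ⟨δ', hker⟩
  have hδ : ∀ (x : H) (i : ℤ), δ (x * w ^ i) = φ x ^ p * φ W ^ i := by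
    intro x i
    rw [← hΨ, ← hδ']
    exact MonoidHom.liftOfRightInverse_comp_apply Ψ _ _ ⟨δ', hker⟩ _
  -- the kernel lies in `H`
  have hkerH : δ.ker ≤ H := by
    intro g hg
    obtain ⟨x, hx, i, rfl⟩ := ploc_decomp h g
    rw [MonoidHom.mem_ker] at hg
    have h1 := hδ ⟨x, hx⟩ i
    rw [show ((⟨x, hx⟩ : H) : G) = x from rfl, hg] at h1
    by_cases hpi : (p : ℤ) ∣ i
    · obtain ⟨j, rfl⟩ := hpi
      refine H.mul_mem hx ?_
      rw [zpow_mul, zpow_natCast]
      exact H.zpow_mem h.pow_mem _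
    · exfalso
      have hcop : IsCoprime (p : ℤ) i :=
        ((Nat.prime_iff_prime_int.1 h.prime).coprime_iff_not_dvd).2 hpi
      obtain ⟨a, b, hab⟩ := hcop
      apply hφ
      refine ⟨φ W ^ a * (φ ⟨x, hx⟩ ^ b)⁻¹, ?_⟩
      have h2 : φ W ^ i = (φ ⟨x, hx⟩ ^ p)⁻¹ := (inv_eq_of_mul_eq_one_right h1.symm).symm
      calc φ W = φ W ^ (a * (p : ℤ) + b * i) := by rw [hab, zpow_one]
        _ = (φ W ^ a) ^ p * (φ W ^ i) ^ b := by
            rw [zpow_add, zpow_mul, zpow_natCast, mul_comm b, zpow_mul]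
        _ = (φ W ^ a) ^ p * ((φ ⟨x, hx⟩ ^ b)⁻¹) ^ p := by
            rw [h2]
            congr 1
            rw [inv_zpow, inv_pow, ← zpow_natCast, ← zpow_natCast, ← zpow_mul, ← zpow_mul,
              mul_comm b]
        _ = (φ W ^ a * (φ ⟨x, hx⟩ ^ b)⁻¹) ^ p := by rw [mul_pow]
  -- the least common multiple of the kernel
  have hinj : Injective (Subgroup.inclusion hkerH) := Subgroup.inclusion_injective hkerH
  have hbk : BoundedFin δ.ker := (BoundedFin.of_injective (Subgroup.inclusion hkerH) hinj hH.1).1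
  have hl : lcmFin H = lcmFin δ.ker := by
    refine (lcmFin_eq (Subgroup.inclusion hkerH) hinj hbk ?_).2
    intro K hK x hx
    have h1 := le_ker_of_finite (δ.comp H.subtype) K hK hx
    rw [MonoidHom.mem_ker] at h1
    exact ⟨⟨(x : G), h1⟩, rfl⟩
  have hAk : AtC F c δ.ker := AtC.of_injective (Subgroup.inclusion hkerH) hinj hH hl
  refine zextC' δ ⟨w, ?_⟩ hAk
  intro hc
  have h1 := hδ 1 1
  rw [zpow_one, zpow_one, map_one, one_pow, one_mul, Subgroup.coe_one, one_mul, hc] at h1
  exact hφ ⟨1, by rw [← h1, one_pow]⟩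

/-- The constant does not change: the local closure gives the closure with every constant `c`
prime to `p`. -/
theorem RootClosedP.toC {F : Subfield ℂ} {p c : ℕ} {C : ∀ (G : Type u) [Group G], Prop}
    (hR : RootClosedP F p C) (hc0 : 0 < c) (hc : ¬ p ∣ c) : RootClosedC F c p C := by
  intro G _ H w hG h hH
  obtain ⟨hb, c', hc'0, hc', hGc⟩ := hR G H w hG h ⟨hH.1, c, hc0, hc, hH.2⟩
  have hr : Root H p w := ⟨h.prime, h.central, h.not_mem, h.pow_mem, h.gen⟩
  have := hr.normal
  have hfi : H.FiniteIndex := ⟨by rw [hr.index]; exact h.prime.ne_zero⟩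
  have hcop : IsCoprime (p : ℤ) (c' : ℤ) := by
    rw [Nat.isCoprime_iff_coprime]
    exact (Nat.Prime.coprime_iff_not_dvd h.prime).2 hc'
  obtain ⟨u, v, huv⟩ := hcop
  refine ⟨hb, fun a b A hA => ?_⟩
  obtain ⟨z, hz⟩ := hGc a b A hA
  obtain ⟨y, hy⟩ := index_intC (N := H) hH A hA
  refine ⟨u * y + v * c * z, ?_⟩
  rw [hr.index] at hy
  push_cast at hz hy ⊢
  rw [← hz, ← hy, h.lcm_eq]
  have huv' : (u : ℝ) * p + v * c' = 1 := by exact_mod_cast huv
  linear_combination (-(c : ℝ) * lcmFin H * vdim (kerMat A)) * huv'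

/-- Finitely generated root pairs. -/
theorem Root.atC_fg {F : Subfield ℂ} {c : ℕ} {p : ℕ}
    {C : ∀ (G : Type u) [Group G], Prop}
    (hR : RootClosedC F c p C) {G : Type u} [Group G] {H : Subgroup G} {w : G} (hG : C G)
    (h : Root H p w) (hfg : Group.FG H)
    (hd : ∃ d : H →* Multiplicative ℤ, d ⟨w ^ p, h.pow_mem⟩ = Multiplicative.ofAdd (p : ℤ))
    (hH : AtC F c H) : AtC F c G := by
  by_cases hl : lcmFin G = lcmFin H
  · by_cases hφ : ∃ φ : H →* Multiplicative ℤ, ¬ ∃ y, φ ⟨w ^ p, h.pow_mem⟩ = y ^ p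
    · obtain ⟨φ, hφ⟩ := hφ
      exact h.atC_of_hom hH φ hφ
    · push Not at hφ
      exact hR G H w hG ⟨h.prime, h.central, h.not_mem, h.pow_mem, h.gen, hfg, hl, hφ, hd⟩ hH
  · exact h.atC_of_lcm_ne hH hl

private theorem ploc_map_fg {G G₂ : Type*} [Group G] [Group G₂] (f : G →* G₂) {L : Subgroup G}
    (hL : L.FG) : (L.map f).FG := by
  classical
  obtain ⟨S, hS⟩ := hL
  refine ⟨S.image f, ?_⟩
  rw [Finset.coe_image, ← MonoidHom.map_closure, hS]

/-- All root pairs with a homomorphism `d` to `ℤ` with `d (w ^ p) = p`. For a matrix `A` over `F G`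
take the subgroup `G₀` generated by the supports, by `w` and by a subgroup as in `exists_fg_lcm` of
`H`, and `H₀ = H ∩ G₀` (`Subgroup.fg_of_index_ne_zero`). -/
theorem Root.atC2 {F : Subfield ℂ} {c : ℕ} {p : ℕ}
    {C : ∀ (G : Type u) [Group G], Prop} (hC : GoodClass C)
    (hR : RootClosedC F c p C) {G : Type u} [Group G] {H : Subgroup G} {w : G} (hG : C G)
    (h : Root H p w)
    (hd : ∃ d : H →* Multiplicative ℤ, d ⟨w ^ p, h.pow_mem⟩ = Multiplicative.ofAdd (p : ℤ))
    (hH : AtC F c H) : AtC F c G := by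
  have := h.normal
  have hfi : H.FiniteIndex := ⟨by rw [h.index]; exact h.prime.ne_zero⟩
  have hbG : BoundedFin G := BoundedFin.of_index H hH.1
  obtain ⟨L, hL, hLM⟩ := exists_fg_lcm hH.1
  refine ⟨hbG, fun a b A hA => ?_⟩
  obtain ⟨G₀, hfg, hLG, A₀, hA₀, hmap⟩ := exists_fg_matrix A hA
    (L.map H.subtype ⊔ Subgroup.zpowers w)
    ((ploc_map_fg _ hL).sup ⟨{w}, by rw [Finset.coe_singleton, Subgroup.zpowers_eq_closure]⟩)
  have hw : w ∈ G₀ := hLG ((le_sup_right : Subgroup.zpowers w ≤ _) (Subgroup.mem_zpowers w))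
  have hLG' : L.map H.subtype ≤ G₀ := le_sup_left.trans hLG
  have h₀ := h.restrict G₀ hw
  have : Group.FG G₀ := (Group.fg_iff_subgroup_fg _).2 hfg
  have hfi₀ : (H.subgroupOf G₀).FiniteIndex := ⟨by rw [h₀.index]; exact h.prime.ne_zero⟩
  have hfg₀ : Group.FG (H.subgroupOf G₀) := Subgroup.fg_of_index_ne_zero _
  -- the isomorphism of `H ∩ G₀` as a subgroup of `G₀` and of `H`
  let f : H.subgroupOf G₀ →* H :=
    { toFun := fun x => ⟨((x : G₀) : G), x.2⟩
      map_one' := rfl
      map_mul' := fun _ _ => rfl }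
  have hf : Injective f := by
    intro x y hxy
    have h1 := congrArg (fun z : H => (z : G)) hxy
    exact Subtype.ext (Subtype.ext h1)
  have hLr : L ≤ f.range := by
    intro x hx
    exact ⟨⟨⟨(x : G), hLG' ⟨x, hx, rfl⟩⟩, x.2⟩, rfl⟩
  obtain ⟨hbr, hlr⟩ := hLM f.range hLr
  have e : H.subgroupOf G₀ ≃* f.range := MonoidHom.ofInjective hf
  have hAr : AtC F c f.range := AtC.of_injective f.range.subtype
    (Subgroup.subtype_injective _) hH hlr.symm
  have hA0 : AtC F c (H.subgroupOf G₀) := AtC.of_equiv e hAr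
  obtain ⟨d, hdw⟩ := hd
  have hG0 : AtC F c G₀ := Root.atC_fg hR (hC.sub G G₀ hG) h₀ hfg₀
    ⟨d.comp f, hdw⟩ hA0
  obtain ⟨z, hz⟩ := hG0.2 a b A₀ hA₀
  obtain ⟨e', he'⟩ := (hbG.of_injective G₀.subtype (Subgroup.subtype_injective _)).2
  refine ⟨e' * z, ?_⟩
  rw [← hmap, vdim_mapMat _ (Subgroup.subtype_injective _), he']
  push_cast at hz ⊢
  rw [← hz]
  ring

/-- The mapping torus of `G` over `H` with respect to `t`. -/
private def ploc_tor {G : Type u} [Group G] (H : Subgroup G) [H.Normal] (t : G) :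
    Subgroup (G × Multiplicative ℤ) :=
  MonoidHom.eqLocus ((QuotientGroup.mk' H).comp (MonoidHom.fst G (Multiplicative ℤ)))
    ((zpowersHom (G ⧸ H) (QuotientGroup.mk' H t)).comp (MonoidHom.snd G (Multiplicative ℤ)))

private theorem ploc_mem_tor {G : Type u} [Group G] (H : Subgroup G) [H.Normal] (t : G)
    (x : G × Multiplicative ℤ) : x ∈ ploc_tor H t ↔
      QuotientGroup.mk' H x.1 = (QuotientGroup.mk' H t) ^ Multiplicative.toAdd x.2 := Iff.rfl

/-- The mapping torus: normal subgroups of prime index. -/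
theorem index_primeC {F : Subfield ℂ} {c : ℕ} {C : ∀ (G : Type u) [Group G], Prop} (hC : GoodClass C)
    (G : Type u) [Group G] (H : Subgroup G) [H.Normal]
    (hR : RootClosedC F c H.index C) (hG : C G) (hp : H.index.Prime) (hH : AtC F c H) : AtC F c G := by
  have : Fact H.index.Prime := ⟨hp⟩
  have hcard : Nat.card (G ⧸ H) = H.index := (Subgroup.index_eq_card H).symm
  -- an element outside `H`
  obtain ⟨t, ht⟩ : ∃ t : G, t ∉ H := by
    by_contra hc
    push Not at hc
    have h1 : H = ⊤ := by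
      ext x
      simp [hc x]
    rw [h1, Subgroup.index_top] at hp
    exact Nat.not_prime_one hp
  set q : G →* G ⧸ H := QuotientGroup.mk' H with hq
  have hqt : q t ≠ 1 := by
    intro h
    exact ht ((QuotientGroup.eq_one_iff t).1 h)
  have hgen : ∀ g : G, ∃ n : ℤ, q t ^ n = q g := by
    intro g
    have h1 : q g ∈ Subgroup.zpowers (q t) := mem_zpowers_of_prime_card hcard hqt
    exact Subgroup.mem_zpowers_iff.1 h1
  have hpow : q t ^ H.index = 1 := by
    rw [← hcard]
    exact pow_card_eq_one'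
  set T : Subgroup (G × Multiplicative ℤ) := ploc_tor H t with hT
  have hmem : ∀ x : G × Multiplicative ℤ, x ∈ T ↔ q x.1 = q t ^ Multiplicative.toAdd x.2 :=
    ploc_mem_tor H t
  -- the mapping torus is in the class
  set δ : T →* Multiplicative ℤ := (MonoidHom.snd G (Multiplicative ℤ)).comp T.subtype with hδ
  have hTA : AtC F c T := by
    have hsurj : Surjective δ := by
      intro n
      exact ⟨⟨(t ^ Multiplicative.toAdd n, n), (hmem _).2 (map_zpow q t _)⟩, rfl⟩
    refine zextC δ hsurj ?_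
    -- the kernel
    let e : δ.ker ≃* H :=
      { toFun := fun x => ⟨x.1.1.1, by
          have h1 : q x.1.1.1 = q t ^ Multiplicative.toAdd x.1.1.2 := (hmem _).1 x.1.2
          have h2 : x.1.1.2 = 1 := x.2
          rw [h2, toAdd_one, zpow_zero] at h1
          exact (QuotientGroup.eq_one_iff _).1 h1⟩
        invFun := fun h => ⟨⟨((h : G), 1), (hmem _).2 (by
          have h1 : q (h : G) = 1 := (QuotientGroup.eq_one_iff _).2 h.2
          change q (h : G) = q t ^ Multiplicative.toAdd (1 : Multiplicative ℤ)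
          rw [toAdd_one, zpow_zero, h1])⟩, rfl⟩
        left_inv := fun x => by
          have h2 : x.1.1.2 = 1 := x.2
          refine Subtype.ext (Subtype.ext (Prod.ext rfl ?_))
          exact h2.symm
        right_inv := fun h => rfl
        map_mul' := fun x y => rfl }
    exact AtC.of_equiv e hH
  -- adjoining a root
  have hroot : Root T H.index ((1, Multiplicative.ofAdd 1) : G × Multiplicative ℤ) := by
    refine ⟨hp, ?_, ?_, ?_, ?_⟩
    · intro g
      refine Prod.ext ?_ ?_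
      · simp
      · exact mul_comm _ _
    · intro h
      have h1 := (hmem _).1 h
      change q 1 = q t ^ (1 : ℤ) at h1
      rw [map_one, zpow_one] at h1
      exact hqt h1.symm
    · refine (hmem _).2 ?_
      rw [Prod.pow_mk, one_pow]
      change q 1 = q t ^ Multiplicative.toAdd (Multiplicative.ofAdd (1 : ℤ) ^ H.index)
      rw [map_one, ← ofAdd_nsmul, toAdd_ofAdd, nsmul_eq_mul, mul_one, zpow_natCast, hpow]
    · rw [eq_top_iff]
      rintro ⟨g, n⟩ -
      obtain ⟨k, hk⟩ := hgen g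
      have h1 : ((g, Multiplicative.ofAdd k) : G × Multiplicative ℤ) ∈ T :=
        (hmem _).2 hk.symm
      have h2 : ((g, n) : G × Multiplicative ℤ) = (g, Multiplicative.ofAdd k) *
          ((1, Multiplicative.ofAdd 1) : G × Multiplicative ℤ) ^ (Multiplicative.toAdd n - k) := by
        refine Prod.ext ?_ ?_
        · simp
        · change n = Multiplicative.ofAdd k * Multiplicative.ofAdd (1 : ℤ) ^ (Multiplicative.toAdd n - k)
          rw [← ofAdd_zsmul, ← ofAdd_add]
          simp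
      rw [h2]
      exact Subgroup.mul_mem_sup h1 (Subgroup.zpow_mem_zpowers _ _)
  have hbig : AtC F c (G × Multiplicative ℤ) := by
    refine hroot.atC2 hC hR (hC.prod G hG) ⟨δ, ?_⟩ hTA
    change Multiplicative.ofAdd (1 : ℤ) ^ H.index = Multiplicative.ofAdd (H.index : ℤ)
    rw [← ofAdd_nsmul, nsmul_eq_mul, mul_one]
  -- back to `G`
  have hinj : Injective (MonoidHom.inl G (Multiplicative ℤ)) := fun a b h =>
    congrArg Prod.fst h
  have hGb : BoundedFin G := (BoundedFin.of_injective _ hinj hbig.1).1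
  have hl : lcmFin (G × Multiplicative ℤ) = lcmFin G := by
    refine (lcmFin_eq (MonoidHom.inl G (Multiplicative ℤ)) hinj hGb fun K hK => ?_).2
    intro x hx
    have h1 : x ∈ (MonoidHom.snd G (Multiplicative ℤ)).ker :=
      le_ker_of_finite (MonoidHom.snd G (Multiplicative ℤ)) K hK hx
    have h2 : x.2 = 1 := h1
    exact ⟨x.1, Prod.ext rfl h2.symm⟩
  exact AtC.of_injective _ hinj hbig hl

end Pool.Agent.FIO
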