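import Pool.Agent.FIO.PlocB

/-!
The `p`-local class and subgroups of finite index that need not be normal: restriction to the
preimages of Sylow subgroups, and the climb to a Sylow subgroup in steps of index `p`.
-/

set_option autoImplicit false

open Function

namespace Pool.Agent.FIO

universe u

theorem atP_iff_atC {F : Subfield ℂ} {p : ℕ} {G : Type*} [Group G] :
    AtP F p G ↔ ∃ c : ℕ, 0 < c ∧ ¬ p ∣ c ∧ AtC F c G :=
  ⟨fun ⟨hb, c, h0, hc, h⟩ => ⟨c, h0, hc, hb, h⟩, fun ⟨c, h0, hc, hb, h⟩ => ⟨hb, c, h0, hc, h⟩⟩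

theorem AtP.of_equiv {F : Subfield ℂ} {p : ℕ} {G G₂ : Type*} [Group G] [Group G₂] (f : G ≃* G₂)
    (h : AtP F p G₂) : AtP F p G := by
  obtain ⟨c, h0, hc, h⟩ := atP_iff_atC.1 h
  exact atP_iff_atC.2 ⟨c, h0, hc, h.of_equiv f⟩

/-- Normal subgroups of index `p`. -/
theorem index_primeP {F : Subfield ℂ} {C : ∀ (G : Type u) [Group G], Prop}
    (hC : GoodClass C) (G : Type u) [Group G] (H : Subgroup G) [H.Normal]
    (hR : RootClosedP F H.index C) (hG : C G) (hp : H.index.Prime) (hH : AtP F H.index H) :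
    AtP F H.index G := by
  obtain ⟨c, h0, hc, h⟩ := atP_iff_atC.1 hH
  exact atP_iff_atC.2 ⟨c, h0, hc, index_primeC hC G H (hR.toC h0 hc) hG hp h⟩

/-! ### The `p`-part of the least common multiple -/

/-- A finite `p`-subgroup of `G` has a conjugate inside the preimage of a Sylow subgroup of a finite
quotient. -/
private theorem ploc_card_dvd {G Q : Type*} [Group G] [Group Q] [Finite Q] {p : ℕ}
    [Fact p.Prime] (π : G →* Q) (hπ : Surjective π) (P : Sylow p Q)
    (hb : BoundedFin G) (K : Subgroup G) (hK : Finite K) (hKp : IsPGroup p K) :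
    Nat.card K ∣ lcmFin ((P : Subgroup Q).comap π) := by
  obtain ⟨R, hR⟩ := (hKp.map π).exists_le_sylow
  obtain ⟨q, hq⟩ := MulAction.exists_smul_eq Q P R
  obtain ⟨x, rfl⟩ := hπ q
  have hmem : ∀ k : K, x⁻¹ * (k : G) * x ∈ (P : Subgroup Q).comap π := by
    intro k
    have h1 : π (k : G) ∈ (R : Subgroup Q) := hR ⟨k, k.2, rfl⟩
    rw [← hq] at h1
    rw [Sylow.coe_subgroup_smul] at h1
    rw [Subgroup.mem_pointwise_smul_iff_inv_smul_mem] at h1
    rw [Subgroup.mem_comap, map_mul, map_mul, map_inv]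
    simpa [MulAut.smul_def] using h1
  let f : K →* (P : Subgroup Q).comap π :=
    { toFun := fun k => ⟨x⁻¹ * (k : G) * x, hmem k⟩
      map_one' := by
        apply Subtype.ext
        simp
      map_mul' := by
        intro a b
        apply Subtype.ext
        simp only [Subgroup.coe_mul]
        group }
  have hf : Injective f := by
    intro a b hab
    have h1 : x⁻¹ * (a : G) * x = x⁻¹ * (b : G) * x := congrArg Subtype.val hab
    exact Subtype.ext (mul_left_cancel (mul_right_cancel h1))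
  have hbL : BoundedFin ((P : Subgroup Q).comap π) :=
    (hb.of_injective _ ((P : Subgroup Q).comap π).subtype_injective).1
  have h2 : Nat.card ((⊤ : Subgroup K).map f) = Nat.card K := by
    rw [Subgroup.card_map_of_injective hf, Subgroup.card_top]
  rw [← h2]
  refine hbL.dvd_lcmFin _ ?_
  have : (((⊤ : Subgroup K).map f : Subgroup ((P : Subgroup Q).comap π)) :
      Set ((P : Subgroup Q).comap π)).Finite := by
    rw [Subgroup.coe_map]
    exact (Set.toFinite _).image _
  exact this

private theorem ploc_lcm {G : Type*} [Group G] {p : ℕ} [hp : Fact p.Prime] (L : Subgroup G)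
    (hb : BoundedFin G)
    (h : ∀ K : Subgroup G, Finite K → IsPGroup p K → Nat.card K ∣ lcmFin L) :
    ∃ q : ℕ, ¬ p ∣ q ∧ lcmFin G = q * lcmFin L := by
  obtain ⟨q, hq⟩ := (hb.of_injective _ L.subtype_injective).2
  refine ⟨q, ?_, by rw [hq, mul_comm]⟩
  rintro ⟨m, rfl⟩
  have hpos := hb.lcmFin_pos
  have hM : lcmFin G = p * (m * lcmFin L) := by rw [hq]; ring
  have hM0 : 0 < m * lcmFin L := by
    rcases Nat.eq_zero_or_pos (m * lcmFin L) with h0 | h0
    · rw [hM, h0] at hpos
      simp at hpos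
    · exact h0
  have hdvd : lcmFin G ∣ m * lcmFin L := by
    refine lcmFin_dvd hM0 fun K hK => ?_
    obtain ⟨P⟩ : Nonempty (Sylow p K) := inferInstance
    have h1 : Nat.card (P : Subgroup K) ∣ m * lcmFin L := by
      have h2 := h ((P : Subgroup K).map K.subtype)
        (Finite.of_equiv _ ((P : Subgroup K).equivMapOfInjective _ K.subtype_injective).toEquiv)
        (P.isPGroup'.map _)
      rw [Subgroup.card_map_of_injective K.subtype_injective] at h2
      exact h2.mul_left m
    have h3 : (P : Subgroup K).index ∣ m * lcmFin L := by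
      have h4 : (P : Subgroup K).index ∣ p * (m * lcmFin L) := by
        rw [← hM]
        exact (Subgroup.index_dvd_card _).trans (hb.dvd_lcmFin K hK)
      refine Nat.Coprime.dvd_of_dvd_mul_left ?_ h4
      exact ((Nat.Prime.coprime_iff_not_dvd hp.out).2 P.not_dvd_index).symm
    rw [← Subgroup.card_mul_index (P : Subgroup K)]
    refine Nat.Coprime.mul_dvd_of_dvd_of_dvd ?_ h1 h3
    obtain ⟨n, hn⟩ := IsPGroup.iff_card.1 P.isPGroup'
    rw [hn]
    exact Nat.Coprime.pow_left n ((Nat.Prime.coprime_iff_not_dvd hp.out).2 P.not_dvd_index)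
  have h5 := Nat.le_of_dvd hM0 hdvd
  rw [hM] at h5
  have := hp.out.two_le
  nlinarith

/-- Restriction to the preimage of a Sylow subgroup of a finite quotient. -/
theorem AtP.sylow {F : Subfield ℂ} {G Q : Type*} [Group G] [Group Q] [Finite Q] {p : ℕ}
    [Fact p.Prime] (π : G →* Q) (hπ : Surjective π) (P : Sylow p Q) (h : AtP F p G) :
    AtP F p ((P : Subgroup Q).comap π) := by
  obtain ⟨hb, c, hc0, hc, h⟩ := h
  set L : Subgroup G := (P : Subgroup Q).comap π with hL
  obtain ⟨q, hq, hql⟩ := ploc_lcm L hb fun K hK hKp => ploc_card_dvd π hπ P hb K hK hKp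
  have hq0 : 0 < q := Nat.pos_of_ne_zero fun h0 => hq (h0 ▸ dvd_zero p)
  refine ⟨(hb.of_injective _ L.subtype_injective).1, c * q, Nat.mul_pos hc0 hq0, ?_,
    fun a b A hA => ?_⟩
  · rw [(Fact.out : p.Prime).dvd_mul]
    rintro (h1 | h1)
    · exact hc h1
    · exact hq h1
  · obtain ⟨z, hz⟩ := h a b (mapMat L.subtype A)
      (ploc_mapMat' L.subtype L.subtype_injective A hA)
    refine ⟨z, ?_⟩
    rw [vdim_mapMat _ L.subtype_injective, hql] at hz
    rw [← hz]
    push_cast
    ring

/-! ### The climb -/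

private theorem ploc_climb {F : Subfield ℂ} {C : ∀ (G : Type u) [Group G], Prop}
    (hC : GoodClass C) {p : ℕ} [hp : Fact p.Prime] (hR : RootClosedP F p C)
    (G : Type u) [Group G] (hG : C G) (N : Subgroup G) [N.Normal] [Finite (G ⧸ N)] (j : ℕ) :
    ∀ (n : ℕ) (R : Subgroup (G ⧸ N)), n + j = (Nat.card (G ⧸ N)).factorization p →
      Nat.card R = p ^ n → AtP F p (R.comap (QuotientGroup.mk' N)) →
      ∃ S : Subgroup (G ⧸ N), Nat.card S = p ^ (Nat.card (G ⧸ N)).factorization p ∧
        AtP F p (S.comap (QuotientGroup.mk' N)) := by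
  induction j with
  | zero =>
    intro n R hn hR0 h
    exact ⟨R, by rw [hR0, ← hn, add_zero], h⟩
  | succ j ih =>
    intro n R hn hR0 h
    have hcard0 : Nat.card (G ⧸ N) ≠ 0 := Nat.card_pos.ne'
    have hdvd : p ^ (n + 1) ∣ Nat.card (G ⧸ N) := by
      refine (hp.out.pow_dvd_iff_le_factorization hcard0).2 ?_
      omega
    obtain ⟨S, hS, hRS⟩ := Sylow.exists_subgroup_card_pow_succ hdvd hR0
    refine ih (n + 1) S (by omega) hS ?_
    set L : Subgroup G := S.comap (QuotientGroup.mk' N) with hL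
    set M : Subgroup G := R.comap (QuotientGroup.mk' N) with hM
    have hML : M ≤ L := Subgroup.comap_mono hRS
    -- `R` is normal of index `p` in `S`
    have hidx : (R.subgroupOf S).index = p := by
      have h1 := Subgroup.card_mul_index (R.subgroupOf S)
      have h2 : Nat.card (R.subgroupOf S) = p ^ n := by
        rw [← hR0]
        exact Nat.card_congr (Subgroup.subgroupOfEquivOfLe hRS).toEquiv
      rw [h2, hS, pow_succ] at h1
      exact Nat.eq_of_mul_eq_mul_left (pow_pos hp.out.pos n) h1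
    have hnorm : (R.subgroupOf S).Normal := by
      refine Subgroup.normal_of_index_eq_minFac_card ?_
      rw [hidx, hS, hp.out.pow_minFac (Nat.succ_ne_zero n)]
    let ρ : L →* S :=
      { toFun := fun x => ⟨QuotientGroup.mk' N (x : G), x.2⟩
        map_one' := Subtype.ext (map_one _)
        map_mul' := fun a b => Subtype.ext (map_mul _ _ _) }
    have hρ : Surjective ρ := by
      rintro ⟨y, hy⟩
      obtain ⟨x, rfl⟩ := QuotientGroup.mk'_surjective N y
      exact ⟨⟨x, hy⟩, rfl⟩
    have hcomap : (R.subgroupOf S).comap ρ = M.subgroupOf L := by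
      ext x
      rfl
    have hn' : (M.subgroupOf L).Normal := by
      rw [← hcomap]
      exact hnorm.comap ρ
    have hi' : (M.subgroupOf L).index = p := by
      rw [← hcomap, Subgroup.index_comap_of_surjective _ hρ, hidx]
    have h3 : AtP F p (M.subgroupOf L) := AtP.of_equiv (Subgroup.subgroupOfEquivOfLe hML) h
    have h4 : AtP F (M.subgroupOf L).index L := by
      refine index_primeP hC L (M.subgroupOf L) ?_ (hC.sub G L hG) ?_ ?_
      · rw [hi']
        exact hR
      · rw [hi']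
        exact hp.out
      · rw [hi']
        exact h3
    rw [hi'] at h4
    exact h4

/-- **The `p`-local form of Q1**, for subgroups of finite index that need not be normal. -/
theorem ploc_finite {F : Subfield ℂ} {C : ∀ (G : Type u) [Group G], Prop}
    (hC : GoodClass C) {p : ℕ} [hp : Fact p.Prime] (hR : RootClosedP F p C)
    (G : Type u) [Group G] (H : Subgroup G) [H.FiniteIndex] (hG : C G) (hH : AtP F p H) :
    AtP F p G := by
  set N : Subgroup G := H.normalCore with hN
  have hNH : N ≤ H := Subgroup.normalCore_le H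
  have hfin : Finite (G ⧸ N) := inferInstance
  set q : G →* G ⧸ N := QuotientGroup.mk' N with hq
  set Hq : Subgroup (G ⧸ N) := H.map q with hHq
  let π : H →* Hq :=
    { toFun := fun x => ⟨q (x : G), x, x.2, rfl⟩
      map_one' := Subtype.ext (map_one _)
      map_mul' := fun a b => Subtype.ext (map_mul _ _ _) }
  have hπ : Surjective π := by
    rintro ⟨_, x, hx, rfl⟩
    exact ⟨⟨x, hx⟩, rfl⟩
  obtain ⟨P⟩ : Nonempty (Sylow p Hq) := inferInstance
  have h1 : AtP F p ((P : Subgroup Hq).comap π) := hH.sylow π hπ P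
  set R : Subgroup (G ⧸ N) := (P : Subgroup Hq).map Hq.subtype with hRdef
  have hRM : R.comap q = ((P : Subgroup Hq).comap π).map H.subtype := by
    ext x
    constructor
    · rintro ⟨⟨y, hy⟩, hyP, hyx⟩
      obtain ⟨h, hh, rfl⟩ := hy
      have hyx' : q h = q x := hyx
      have hxH : x ∈ H := by
        have h2 : h⁻¹ * x ∈ N := QuotientGroup.eq.1 hyx'
        have h3 : x = h * (h⁻¹ * x) := by group
        rw [h3]
        exact H.mul_mem hh (hNH h2)
      refine ⟨⟨x, hxH⟩, ?_, rfl⟩
      have h4 : π ⟨x, hxH⟩ = ⟨q h, ⟨h, hh, rfl⟩⟩ := Subtype.ext hyx'.symm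
      change π ⟨x, hxH⟩ ∈ (P : Subgroup Hq)
      rw [h4]
      exact hyP
    · rintro ⟨⟨x', hx'⟩, hxP, rfl⟩
      exact ⟨π ⟨x', hx'⟩, hxP, rfl⟩
  have h2 : AtP F p (R.comap q) := by
    rw [hRM]
    exact AtP.of_equiv (Subgroup.equivMapOfInjective _ _ H.subtype_injective).symm h1
  obtain ⟨n, hn⟩ := IsPGroup.iff_card.1 P.isPGroup'
  have hRc : Nat.card R = p ^ n := by
    rw [hRdef, Subgroup.card_map_of_injective Hq.subtype_injective, hn]
  have hcard0 : Nat.card (G ⧸ N) ≠ 0 := Nat.card_pos.ne'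
  have hle : n ≤ (Nat.card (G ⧸ N)).factorization p := by
    refine (hp.out.pow_dvd_iff_le_factorization hcard0).1 ?_
    rw [← hRc]
    exact Subgroup.card_subgroup_dvd_card R
  obtain ⟨S, hS, hSP⟩ := ploc_climb hC hR G hG N _ n R (Nat.add_sub_cancel' hle) hRc h2
  obtain ⟨c, hc0, hc, hSA⟩ := atP_iff_atC.1 hSP
  set L : Subgroup G := S.comap q with hL
  have hNL : N ≤ L := by
    intro y hy
    rw [hL, Subgroup.mem_comap]
    have h1 : q y = 1 := (QuotientGroup.eq_one_iff y).2 hy
    rw [h1]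
    exact S.one_mem
  have hLf : L.FiniteIndex := Subgroup.finiteIndex_of_le hNL
  have hLi : L.index = S.index :=
    Subgroup.index_comap_of_surjective _ (QuotientGroup.mk'_surjective N)
  have hndvd : ¬ p ∣ L.index := by
    rw [hLi]
    intro hd
    have h3 := Subgroup.card_mul_index S
    rw [hS] at h3
    have h4 : p ^ ((Nat.card (G ⧸ N)).factorization p + 1) ∣ Nat.card (G ⧸ N) := by
      rw [pow_succ]
      conv_rhs => rw [← h3]
      exact Nat.mul_dvd_mul_left _ hd
    have h5 := (hp.out.pow_dvd_iff_le_factorization hcard0).1 h4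
    omega
  have hGb : BoundedFin G := BoundedFin.of_index H hH.1
  refine ⟨hGb, c * L.index, Nat.mul_pos hc0 (Nat.pos_of_ne_zero hLf.index_ne_zero), ?_,
    fun a b A hA => ?_⟩
  · rw [hp.out.dvd_mul]
    rintro (h3 | h3)
    · exact hc h3
    · exact hndvd h3
  · obtain ⟨z, hz⟩ := index_intC hSA A hA
    obtain ⟨d, hd⟩ := (BoundedFin.of_injective L.subtype L.subtype_injective hGb).2
    refine ⟨d * z, ?_⟩
    push_cast
    rw [← hz, hd]
    push_cast
    ring

/-! ### From the local forms to the global form -/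

theorem Atiyah.atP {F : Subfield ℂ} {G : Type*} [Group G] (h : Atiyah F G) {p : ℕ}
    (hp : p.Prime) : AtP F p G :=
  atP_iff_atC.2 ⟨1, one_pos, fun h1 => hp.one_lt.ne' (Nat.dvd_one.1 h1), AtC.one_iff.2 h⟩

/-- A group is in `A_F` if it is in all the local classes. -/
theorem Atiyah.of_atP {F : Subfield ℂ} {G : Type*} [Group G]
    (h : ∀ p : ℕ, p.Prime → AtP F p G) : Atiyah F G := by
  refine ⟨(h 2 Nat.prime_two).1, fun a b A hA => ?_⟩
  set x : ℝ := (lcmFin G : ℝ) * vdim (kerMat A) with hx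
  let S : AddSubgroup ℤ :=
    { carrier := {m : ℤ | ∃ z : ℤ, (m : ℝ) * x = z}
      add_mem' := by
        rintro m n ⟨z, hz⟩ ⟨z', hz'⟩
        refine ⟨z + z', ?_⟩
        push_cast
        rw [add_mul, hz, hz']
      zero_mem' := ⟨0, by simp⟩
      neg_mem' := by
        rintro m ⟨z, hz⟩
        refine ⟨-z, ?_⟩
        push_cast
        rw [neg_mul, hz] }
  have hSm : ∀ m : ℤ, m ∈ S ↔ ∃ z : ℤ, (m : ℝ) * x = z := fun _ => Iff.rfl
  have key : ∀ p : ℕ, p.Prime → ∃ n : ℕ, ¬ p ∣ n ∧ (n : ℤ) ∈ S := by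
    intro p hp
    obtain ⟨hb, c, hc0, hc, hcA⟩ := h p hp
    obtain ⟨z, hz⟩ := hcA a b A hA
    refine ⟨c, hc, (hSm _).2 ⟨z, ?_⟩⟩
    rw [← hz, hx]
    push_cast
    ring
  obtain ⟨g, hg⟩ := Int.subgroup_cyclic S
  have hg1 : g.natAbs = 1 := by
    by_contra hne
    obtain ⟨p, hp, hpg⟩ := Nat.exists_prime_and_dvd hne
    obtain ⟨n, hn, hnS⟩ := key p hp
    rw [hg, AddSubgroup.mem_closure_singleton] at hnS
    obtain ⟨j, hj⟩ := hnS
    refine hn ?_
    have h1 : (p : ℤ) ∣ g := Int.natCast_dvd.2 hpg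
    have h2 : (p : ℤ) ∣ (n : ℤ) := by
      rw [← hj, smul_eq_mul]
      exact Dvd.dvd.mul_left h1 j
    exact Int.natCast_dvd_natCast.1 h2
  have h1S : (1 : ℤ) ∈ S := by
    rw [hg, AddSubgroup.mem_closure_singleton]
    rcases Int.natAbs_eq g with h | h
    · rw [hg1] at h
      exact ⟨1, by rw [h]; simp⟩
    · rw [hg1] at h
      exact ⟨-1, by rw [h]; simp⟩
  obtain ⟨z, hz⟩ := (hSm 1).1 h1S
  exact ⟨z, by rw [← hz]; push_cast; ring⟩

theorem atiyah_iff {F : Subfield ℂ} {G : Type*} [Group G] :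
    Atiyah F G ↔ ∀ p : ℕ, p.Prime → AtP F p G :=
  ⟨fun h _ hp => h.atP hp, Atiyah.of_atP⟩

/-- **Q1 in full from the local root closures**: subgroups of finite index, normal or not. -/
theorem atiyah_of_finiteIndex {F : Subfield ℂ} {C : ∀ (G : Type u) [Group G], Prop}
    (hC : GoodClass C) (hR : ∀ p : ℕ, p.Prime → RootClosedP F p C)
    (G : Type u) [Group G] (H : Subgroup G) [H.FiniteIndex] (hG : C G) (hH : Atiyah F H) :
    Atiyah F G := by
  refine Atiyah.of_atP fun p hp => ?_
  have : Fact p.Prime := ⟨hp⟩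
  exact ploc_finite hC (hR p hp) G H hG (hH.atP hp)

end Pool.Agent.FIO
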