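import Pool.Agent.FIO.Hil

set_option autoImplicit false

open scoped InnerProductSpace ENNReal
open Function

namespace Pool.Agent.FIO

variable {N : Type*} [Group N] {α β : Type*}

/-- Right translation on `l2(α × N)`: `(tr n v) (a, h) = v (a, h * n)`. -/
noncomputable def tr (α : Type*) (n : N) : L2 (α × N) →L[ℂ] L2 (α × N) :=
  resL (fun x : α × N => (x.1, x.2 * n)) (by
    rintro ⟨a, h⟩ ⟨a', h'⟩ hh
    simp only [Prod.mk.injEq, mul_left_inj] at hh
    ext
    · exact hh.1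
    · exact hh.2)

@[simp] theorem tr_apply (n : N) (v : L2 (α × N)) (a : α) (h : N) :
    tr α n v (a, h) = v (a, h * n) := rfl

/-- The subspace is invariant under right translations. -/
def Inv (K : Submodule ℂ (L2 (α × N))) : Prop := ∀ v ∈ K, ∀ n : N, tr α n v ∈ K

private theorem rank_inner_tr (n : N) (v w : L2 (α × N)) :
    ⟪tr α n v, w⟫_ℂ = ⟪v, tr α n⁻¹ w⟫_ℂ := by
  rw [lp.inner_eq_tsum, lp.inner_eq_tsum]
  let e : α × N ≃ α × N := Equiv.prodCongr (Equiv.refl α) (Equiv.mulRight n)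
  rw [← e.tsum_eq (fun x => ⟪v x, tr α n⁻¹ w x⟫_ℂ)]
  refine tsum_congr fun x => ?_
  obtain ⟨a, h⟩ := x
  change ⟪v (a, h * n), w (a, h)⟫_ℂ = ⟪v (a, h * n), w (a, h * n * n⁻¹)⟫_ℂ
  rw [mul_inv_cancel_right]

private theorem rank_adj (T : L2 (α × N) →L[ℂ] L2 (β × N))
    (hT : ∀ n v, T (tr α n v) = tr β n (T v)) (n : N) (w : L2 (β × N)) :
    ContinuousLinearMap.adjoint T (tr β n w) = tr α n (ContinuousLinearMap.adjoint T w) := by
  refine ext_inner_left ℂ fun v => ?_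
  rw [ContinuousLinearMap.adjoint_inner_right]
  have h1 : ⟪T v, tr β n w⟫_ℂ = ⟪tr β n⁻¹ (T v), w⟫_ℂ := by
    rw [rank_inner_tr, inv_inv]
  have h2 : ⟪v, tr α n (ContinuousLinearMap.adjoint T w)⟫_ℂ =
      ⟪tr α n⁻¹ v, ContinuousLinearMap.adjoint T w⟫_ℂ := by
    rw [rank_inner_tr, inv_inv]
  rw [h1, h2, ContinuousLinearMap.adjoint_inner_right, hT]

private theorem rank_dl (a : α) (n m : N) :
    tr α m (dl (a, n)) = dl (a, n * m⁻¹) := by
  apply lp.ext
  funext x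
  obtain ⟨b, h⟩ := x
  rw [tr_apply]
  by_cases hx : (b, h) = (a, n * m⁻¹)
  · have hb : b = a := congrArg Prod.fst hx
    have hh : h = n * m⁻¹ := congrArg Prod.snd hx
    subst hb
    subst hh
    rw [inv_mul_cancel_right, dl_self, dl_self]
  · rw [dl_ne hx, dl_ne]
    intro he
    apply hx
    have hb : b = a := congrArg Prod.fst he
    have hh : h * m = n := congrArg Prod.snd he
    rw [hb, ← hh, mul_inv_cancel_right]

private theorem rank_expand [Fintype β] (S : L2 (α × N) →L[ℂ] L2 (β × N))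
    (R : L2 (β × N) →L[ℂ] L2 (α × N)) (a : α) :
    (R (S (dl (a, 1)))) (a, 1) =
      ∑ b, ∑' n, (R (dl (b, n))) (a, 1) * (S (dl (a, 1))) (b, n) := by
  have h1 : (R (S (dl (a, 1)))) (a, 1) =
      ⟪ContinuousLinearMap.adjoint R (dl (a, 1)), S (dl (a, 1))⟫_ℂ := by
    rw [ContinuousLinearMap.adjoint_inner_left, inner_dl]
  have h2 := lp.hasSum_inner (𝕜 := ℂ) (ContinuousLinearMap.adjoint R (dl (a, 1)))
    (S (dl (a, 1)))
  rw [← h1] at h2
  have h3 : (fun x : β × N => ⟪(ContinuousLinearMap.adjoint R (dl (a, 1))) x,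
      (S (dl (a, 1))) x⟫_ℂ) = fun x => (R (dl (x.1, x.2))) (a, 1) * (S (dl (a, 1))) (x.1, x.2) := by
    funext x
    obtain ⟨b, n⟩ := x
    have h4 : (ContinuousLinearMap.adjoint R (dl (a, 1))) (b, n) =
        starRingEnd ℂ ((R (dl (b, n))) (a, 1)) := by
      rw [← inner_dl (b, n) (ContinuousLinearMap.adjoint R (dl (a, 1))),
        ContinuousLinearMap.adjoint_inner_right, inner_dl_right]
    rw [h4, RCLike.inner_apply]
    simp [mul_comm]
  rw [h3] at h2
  have h5 := h2.prod_fiberwise (fun b => (h2.summable.prod_factor b).hasSum)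
  exact (hasSum_fintype _).unique h5 ▸ rfl

private theorem rank_trace [Fintype α] [Fintype β] (S : L2 (α × N) →L[ℂ] L2 (β × N))
    (R : L2 (β × N) →L[ℂ] L2 (α × N)) (hS : ∀ n v, S (tr α n v) = tr β n (S v))
    (hR : ∀ n v, R (tr β n v) = tr α n (R v)) :
    ∑ a, (R (S (dl (a, 1)))) (a, 1) = ∑ b, (S (R (dl (b, 1)))) (b, 1) := by
  have h1 : ∀ a : α, (R (S (dl (a, 1)))) (a, 1) =
      ∑ b, ∑' n, (R (dl (b, n))) (a, 1) * (S (dl (a, 1))) (b, n) := rank_expand S R
  have h2 : ∀ b : β, (S (R (dl (b, 1)))) (b, 1) =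
      ∑ a, ∑' n, (S (dl (a, n))) (b, 1) * (R (dl (b, 1))) (a, n) := rank_expand R S
  simp only [h1, h2]
  rw [Finset.sum_comm]
  refine Finset.sum_congr rfl fun b _ => Finset.sum_congr rfl fun a _ => ?_
  rw [← (Equiv.inv N).tsum_eq (fun n => (S (dl (a, n))) (b, 1) * (R (dl (b, 1))) (a, n))]
  refine tsum_congr fun n => ?_
  rw [Equiv.inv_apply]
  have e1 : (S (dl (a, n⁻¹))) (b, 1) = (S (dl (a, 1))) (b, n) := by
    have := rank_dl a 1 n
    rw [one_mul] at this
    rw [← this, hS, tr_apply, one_mul]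
  have e2 : (R (dl (b, n))) (a, 1) = (R (dl (b, 1))) (a, n⁻¹) := by
    have := rank_dl b 1 n⁻¹
    rw [one_mul, inv_inv] at this
    rw [← this, hR, tr_apply, one_mul]
  rw [e1, e2, mul_comm]

/-- The contraction `1 - s T* T`. -/
private noncomputable def rankS {X Y : Type*} (s : ℝ) (T : L2 X →L[ℂ] L2 Y) : L2 X →L[ℂ] L2 X :=
  1 - (s : ℂ) • (ContinuousLinearMap.adjoint T).comp T

private theorem rankS_apply {X Y : Type*} (s : ℝ) (T : L2 X →L[ℂ] L2 Y) (v : L2 X) :
    rankS s T v = v - (s : ℂ) • ContinuousLinearMap.adjoint T (T v) := rfl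

private theorem rankS_norm {X Y : Type*} (s : ℝ) (hs : 0 ≤ s) (T : L2 X →L[ℂ] L2 Y)
    (hT : s * ‖T‖ ^ 2 ≤ 1) : ‖rankS s T‖ ≤ 1 := by
  refine ContinuousLinearMap.opNorm_le_bound _ zero_le_one fun v => ?_
  rw [one_mul]
  refine (sq_le_sq₀ (norm_nonneg _) (norm_nonneg _)).mp ?_
  rw [rankS_apply, @norm_sub_sq ℂ]
  have h1 : ⟪v, (s : ℂ) • ContinuousLinearMap.adjoint T (T v)⟫_ℂ = ((s * ‖T v‖ ^ 2 : ℝ) : ℂ) := by
    rw [inner_smul_right, ContinuousLinearMap.adjoint_inner_right, inner_self_eq_norm_sq_to_K]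
    simp
  have h2 : ‖(s : ℂ) • ContinuousLinearMap.adjoint T (T v)‖ ≤ s * (‖T‖ * ‖T v‖) := by
    rw [norm_smul, Complex.norm_real, Real.norm_of_nonneg hs]
    refine mul_le_mul_of_nonneg_left ?_ hs
    refine ((ContinuousLinearMap.adjoint T).le_opNorm _).trans ?_
    rw [LinearIsometryEquiv.norm_map]
  have h3 : ‖(s : ℂ) • ContinuousLinearMap.adjoint T (T v)‖ ^ 2 ≤ (s * (‖T‖ * ‖T v‖)) ^ 2 :=
    pow_le_pow_left₀ (norm_nonneg _) h2 2
  rw [h1]
  have h4 : RCLike.re (((s * ‖T v‖ ^ 2 : ℝ) : ℂ)) = s * ‖T v‖ ^ 2 := by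
    exact Complex.ofReal_re _
  rw [h4]
  have h5 : (s * (‖T‖ * ‖T v‖)) ^ 2 = (s * ‖T‖ ^ 2) * (s * ‖T v‖ ^ 2) := by ring
  have h6 : (s * ‖T‖ ^ 2) * (s * ‖T v‖ ^ 2) ≤ 1 * (s * ‖T v‖ ^ 2) :=
    mul_le_mul_of_nonneg_right hT (by positivity)
  have h7 : 0 ≤ s * ‖T v‖ ^ 2 := by positivity
  linarith

private theorem rankS_fix {X Y : Type*} (s : ℝ) (hs : 0 < s) (T : L2 X →L[ℂ] L2 Y) :
    (rankS s T).eqLocus (1 : L2 X →L[ℂ] L2 X) = LinearMap.ker (T : L2 X →ₗ[ℂ] L2 Y) := by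
  ext v
  rw [LinearMap.mem_ker]
  have h0 : v ∈ (rankS s T).eqLocus (1 : L2 X →L[ℂ] L2 X) ↔ rankS s T v = v := Iff.rfl
  rw [h0, rankS_apply]
  change _ ↔ T v = 0
  constructor
  · intro h
    have h1 : (s : ℂ) • ContinuousLinearMap.adjoint T (T v) = 0 := by
      have := sub_eq_self.mp h
      exact this
    have h2 : ContinuousLinearMap.adjoint T (T v) = 0 := by
      rcases smul_eq_zero.mp h1 with h3 | h3
      · exfalso
        have : s = 0 := by exact_mod_cast h3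
        exact hs.ne' this
      · exact h3
    have h3 : ⟪T v, T v⟫_ℂ = 0 := by
      rw [← ContinuousLinearMap.adjoint_inner_right, h2, inner_zero_right]
    exact inner_self_eq_zero.mp h3
  · intro h
    rw [h]
    simp

private theorem rank_proj {X : Type*} (K : Submodule ℂ (L2 X)) [K.HasOrthogonalProjection]
    (x : X) : (K.starProjection (dl x)) x = ((‖K.starProjection (dl x)‖ ^ 2 : ℝ) : ℂ) := by
  have h4 : ⟪dl x, K.starProjection (dl x)⟫_ℂ =
      ⟪K.starProjection (dl x), K.starProjection (dl x)⟫_ℂ := by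
    have h5 := K.starProjection_inner_eq_zero (dl x) (K.starProjection (dl x))
      (K.starProjection_apply_mem _)
    rw [inner_sub_left, sub_eq_zero] at h5
    exact h5
  rw [inner_dl, inner_self_eq_norm_sq_to_K] at h4
  rw [h4]
  simp

private theorem rankS_lim {X Y : Type*} (s : ℝ) (hs : 0 < s) (T : L2 X →L[ℂ] L2 Y)
    (hT : s * ‖T‖ ^ 2 ≤ 1) (x : X) :
    Filter.Tendsto (fun n : ℕ => (n : ℂ)⁻¹ * ∑ j ∈ Finset.range n, ((rankS s T ^ j) (dl x)) x)
      Filter.atTop (nhds ((phi (LinearMap.ker (T : L2 X →ₗ[ℂ] L2 Y)) x : ℝ) : ℂ)) := by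
  have h1 := ContinuousLinearMap.tendsto_birkhoffAverage_orthogonalProjection (rankS s T)
    (rankS_norm s hs.le T hT) (dl x)
  have h2 := ((evL x).continuous.tendsto _).comp h1
  have hK : IsClosed ((LinearMap.ker (T : L2 X →ₗ[ℂ] L2 Y) : Submodule ℂ (L2 X)) :
      Set (L2 X)) := T.isClosed_ker
  have : CompleteSpace (LinearMap.ker (T : L2 X →ₗ[ℂ] L2 Y)) := hK.completeSpace_coe
  have h3 : evL x (((rankS s T).eqLocus (1 : L2 X →L[ℂ] L2 X)).orthogonalProjectionOnto (dl x)) =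
      ((phi (LinearMap.ker (T : L2 X →ₗ[ℂ] L2 Y)) x : ℝ) : ℂ) := by
    rw [phi_closed hK]
    have e1 : ((((rankS s T).eqLocus (1 : L2 X →L[ℂ] L2 X)).orthogonalProjectionOnto
        (dl x) : (rankS s T).eqLocus (1 : L2 X →L[ℂ] L2 X)) : L2 X) =
        (LinearMap.ker (T : L2 X →ₗ[ℂ] L2 Y)).starProjection (dl x) := by
      rw [← starProjection_congr (rankS_fix s hs T)]
      rfl
    rw [e1, evL_apply, rank_proj]
  rw [h3] at h2
  refine h2.congr fun n => ?_
  simp only [Function.comp_apply, birkhoffAverage, birkhoffSum, id]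
  rw [map_smul, map_sum, smul_eq_mul]
  congr 1
  refine Finset.sum_congr rfl fun j _ => ?_
  rw [evL_apply, FunLike.coe_pow_eq_iterate]

/-- The operators `S1 = 1 - s T* T` and `S2 = 1 - s T T*` satisfy `S1 T* = T* S2`. -/
private theorem rankS_comm {X Y : Type*} (s : ℝ) (T : L2 X →L[ℂ] L2 Y) (j : ℕ) (w : L2 Y) :
    (rankS s T ^ j) (ContinuousLinearMap.adjoint T w) =
      ContinuousLinearMap.adjoint T
        ((rankS s (ContinuousLinearMap.adjoint T) ^ j) w) := by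
  induction j with
  | zero => simp
  | succ j ih =>
    rw [pow_succ', pow_succ', mul_apply_eq_comp, mul_apply_eq_comp, ih,
      rankS_apply, rankS_apply, ContinuousLinearMap.adjoint_adjoint, map_sub, map_smul]

private theorem rankS_tr (s : ℝ) (T : L2 (α × N) →L[ℂ] L2 (β × N))
    (hT : ∀ n v, T (tr α n v) = tr β n (T v)) (j : ℕ) (n : N) (v : L2 (α × N)) :
    (rankS s T ^ j) (tr α n v) = tr α n ((rankS s T ^ j) v) := by
  induction j with
  | zero => simp
  | succ j ih =>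
    rw [pow_succ', mul_apply_eq_comp, mul_apply_eq_comp, ih,
      rankS_apply, rankS_apply, hT, rank_adj T hT, map_sub, map_smul]

private theorem rank_step [Fintype α] [Fintype β] (s : ℝ) (T : L2 (α × N) →L[ℂ] L2 (β × N))
    (hT : ∀ n v, T (tr α n v) = tr β n (T v)) (j : ℕ) :
    (Fintype.card α : ℂ) - ∑ a : α, ((rankS s T ^ j) (dl (a, 1))) (a, 1) =
      (Fintype.card β : ℂ) - ∑ b : β, ((rankS s (ContinuousLinearMap.adjoint T) ^ j)
        (dl (b, 1))) (b, 1) := by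
  set T' := ContinuousLinearMap.adjoint T with hT'
  have hT2 : ∀ n v, T' (tr β n v) = tr α n (T' v) := rank_adj T hT
  induction j with
  | zero =>
    simp [dl_self]
  | succ j ih =>
    -- the trace of `S1 ^ j * (s T* T)` and of `S2 ^ j * (s T T*)`
    have h1 : ∀ v : L2 (α × N), (rankS s T ^ (j + 1)) v =
        (rankS s T ^ j) v - (s : ℂ) • T' ((rankS s T' ^ j) (T v)) := by
      intro v
      rw [pow_succ, mul_apply_eq_comp, rankS_apply, map_sub, map_smul,
        rankS_comm]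
    have h2 : ∀ w : L2 (β × N), (rankS s T' ^ (j + 1)) w =
        (rankS s T' ^ j) w - (s : ℂ) • T (T' ((rankS s T' ^ j) w)) := by
      intro w
      rw [pow_succ', mul_apply_eq_comp, rankS_apply, hT',
        ContinuousLinearMap.adjoint_adjoint]
    have h3 := rank_trace T (T'.comp (rankS s T' ^ j)) hT (by
      intro n v
      rw [ContinuousLinearMap.comp_apply, ContinuousLinearMap.comp_apply, rankS_tr s T' hT2,
        hT2])
    simp only [ContinuousLinearMap.comp_apply] at h3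
    have h4 : ∑ a : α, ((rankS s T ^ (j + 1)) (dl (a, 1))) (a, 1) =
        ∑ a : α, ((rankS s T ^ j) (dl (a, 1))) (a, 1) -
          (s : ℂ) * ∑ a : α, (T' ((rankS s T' ^ j) (T (dl (a, 1))))) (a, 1) := by
      rw [Finset.mul_sum, ← Finset.sum_sub_distrib]
      refine Finset.sum_congr rfl fun a _ => ?_
      rw [h1]
      rfl
    have h5 : ∑ b : β, ((rankS s T' ^ (j + 1)) (dl (b, 1))) (b, 1) =
        ∑ b : β, ((rankS s T' ^ j) (dl (b, 1))) (b, 1) -
          (s : ℂ) * ∑ b : β, (T (T' ((rankS s T' ^ j) (dl (b, 1))))) (b, 1) := by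
      rw [Finset.mul_sum, ← Finset.sum_sub_distrib]
      refine Finset.sum_congr rfl fun b _ => ?_
      rw [h2]
      rfl
    rw [h4, h5, h3]
    linear_combination ih

private theorem rank_avg (γ : Type*) [Fintype γ] (f : ℕ → γ → ℂ) (l : γ → ℂ)
    (h : ∀ c, Filter.Tendsto (fun n : ℕ => (n : ℂ)⁻¹ * ∑ j ∈ Finset.range n, f j c)
      Filter.atTop (nhds (l c))) :
    Filter.Tendsto (fun n : ℕ => (n : ℂ)⁻¹ * ∑ j ∈ Finset.range n,
      ((Fintype.card γ : ℂ) - ∑ c, f j c)) Filter.atTop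
        (nhds ((Fintype.card γ : ℂ) - ∑ c, l c)) := by
  have h1 : Filter.Tendsto (fun n : ℕ => (Fintype.card γ : ℂ) -
      ∑ c, (n : ℂ)⁻¹ * ∑ j ∈ Finset.range n, f j c) Filter.atTop
      (nhds ((Fintype.card γ : ℂ) - ∑ c, l c)) :=
    tendsto_const_nhds.sub (tendsto_finsetSum _ fun c _ => h c)
  refine h1.congr' ?_
  filter_upwards [Filter.eventually_gt_atTop 0] with n hn
  have hn' : (n : ℂ) ≠ 0 := by exact_mod_cast hn.ne'
  rw [Finset.sum_sub_distrib, Finset.sum_const, Finset.card_range, nsmul_eq_mul, mul_sub,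
    inv_mul_cancel_left₀ hn', Finset.sum_comm, Finset.mul_sum]

/-- **Rank formula.** A bounded operator commuting with the right translations and its adjoint
have the same rank. -/
theorem rank_eq [Fintype α] [Fintype β] (T : L2 (α × N) →L[ℂ] L2 (β × N))
    (hT : ∀ n v, T (tr α n v) = tr β n (T v)) :
    ∑ a : α, (1 - phi (LinearMap.ker (T : L2 (α × N) →ₗ[ℂ] L2 (β × N))) (a, 1)) =
      ∑ b : β, (1 - phi (LinearMap.ker
        (ContinuousLinearMap.adjoint T : L2 (β × N) →ₗ[ℂ] L2 (α × N))) (b, 1)) := by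
  set s : ℝ := (‖T‖ ^ 2 + 1)⁻¹ with hs
  have hs0 : 0 < s := by positivity
  have hsT : s * ‖T‖ ^ 2 ≤ 1 := by
    rw [hs, inv_mul_le_iff₀ (by positivity)]
    linarith
  have hsT' : s * ‖ContinuousLinearMap.adjoint T‖ ^ 2 ≤ 1 := by
    rwa [LinearIsometryEquiv.norm_map]
  have l1 := rank_avg α (fun j a => ((rankS s T ^ j) (dl (a, 1))) (a, 1)) _
    (fun a => rankS_lim s hs0 T hsT (a, 1))
  have l2 := rank_avg β (fun j b => ((rankS s (ContinuousLinearMap.adjoint T) ^ j)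
    (dl (b, 1))) (b, 1)) _ (fun b => rankS_lim s hs0 (ContinuousLinearMap.adjoint T) hsT' (b, 1))
  have l3 := l2.congr (f₂ := fun n : ℕ => (n : ℂ)⁻¹ * ∑ j ∈ Finset.range n,
        ((Fintype.card α : ℂ) - ∑ a : α, ((rankS s T ^ j) (dl (a, 1))) (a, 1))) (fun n => by
    congr 1
    exact Finset.sum_congr rfl fun j _ => (rank_step s T hT j).symm)
  have h := tendsto_nhds_unique l1 l3
  rw [Finset.sum_sub_distrib, Finset.sum_sub_distrib]
  simp only [Finset.sum_const, Finset.card_univ, nsmul_eq_mul, mul_one]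
  exact_mod_cast h

end Pool.Agent.FIO
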