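import Mathlib

set_option autoImplicit false

namespace Pool.Agent.FIO

/-- If `n * x ≤ c` for all `n` then `x ≤ 0`. -/
private theorem seq_arch (x c : ℝ) (h : ∀ n : ℕ, n * x ≤ c) : x ≤ 0 := by
  by_contra hx
  push Not at hx
  obtain ⟨n, hn⟩ := exists_nat_gt (c / x)
  rw [div_lt_iff₀ hx] at hn
  exact absurd (h n) (not_le.2 hn)

/-- A convex sequence with values in `(1/m) ℤ` at bounded distance from `L * a` has `m * a`
an integer. -/
theorem seq_int (k : ℕ → ℝ) (m : ℕ) (a C : ℝ) (hk : ∀ L, ∃ z : ℤ, (m : ℝ) * k L = z)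
    (h2 : ∀ L, 2 * k (L + 1) ≤ k (L + 2) + k L) (hu : ∀ L : ℕ, k L ≤ L * a)
    (hl : ∀ L : ℕ, L * a ≤ k L + C) : ∃ z : ℤ, (m : ℝ) * a = z := by
  choose z hz using hk
  have hm : (0 : ℝ) ≤ m := Nat.cast_nonneg m
  have hstep : ∀ L, z (L + 1) - z L ≤ z (L + 2) - z (L + 1) := by
    intro L
    have h3 : (m : ℝ) * (2 * k (L + 1)) ≤ m * (k (L + 2) + k L) :=
      mul_le_mul_of_nonneg_left (h2 L) hm
    have h4 : (2 : ℝ) * z (L + 1) ≤ z (L + 2) + z L := by
      rw [← hz, ← hz, ← hz]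
      linarith
    have h5 : 2 * z (L + 1) ≤ z (L + 2) + z L := by exact_mod_cast h4
    linarith
  have hmono : Monotone fun L => z (L + 1) - z L := monotone_nat_of_le_succ hstep
  have hlow : ∀ L n : ℕ, z L + n * (z (L + 1) - z L) ≤ z (L + n) := by
    intro L n
    induction n with
    | zero => simp
    | succ n ih =>
      have h6 : z (L + 1) - z L ≤ z (L + n + 1) - z (L + n) := hmono (Nat.le_add_right L n)
      have h7 : L + (n + 1) = L + n + 1 := by ring
      rw [h7]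
      push_cast
      nlinarith
  have hD : ∀ L, ((z (L + 1) - z L : ℤ) : ℝ) ≤ m * a := by
    intro L
    have h8 := seq_arch (((z (L + 1) - z L : ℤ) : ℝ) - m * a) (m * (L * a) - z L) ?_
    · linarith
    · intro n
      have h9 : ((z L + n * (z (L + 1) - z L) : ℤ) : ℝ) ≤ (z (L + n) : ℝ) := by
        exact_mod_cast hlow L n
      have h10 : (m : ℝ) * k (L + n) ≤ m * (((L + n : ℕ) : ℝ) * a) :=
        mul_le_mul_of_nonneg_left (hu (L + n)) hm
      rw [hz] at h10
      push_cast at h9 h10 ⊢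
      linarith
  have hbdd : BddAbove (Set.range fun L => z (L + 1) - z L) := by
    refine ⟨⌊(m : ℝ) * a⌋, ?_⟩
    rintro _ ⟨L, rfl⟩
    exact Int.le_floor.2 (hD L)
  obtain ⟨L0, hL0⟩ : ∃ L0, ∀ L, z (L + 1) - z L ≤ z (L0 + 1) - z L0 := by
    obtain ⟨L0, h11⟩ := Int.csSup_mem (Set.range_nonempty _) hbdd
    refine ⟨L0, fun L => ?_⟩
    have h12 : z (L + 1) - z L ≤ sSup (Set.range fun L => z (L + 1) - z L) :=
      le_csSup hbdd ⟨L, rfl⟩
    dsimp only at h11
    rw [h11]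
    exact h12
  have hup : ∀ n : ℕ, z (L0 + n) ≤ z L0 + n * (z (L0 + 1) - z L0) := by
    intro n
    induction n with
    | zero => simp
    | succ n ih =>
      have h6 := hL0 (L0 + n)
      have h7 : L0 + (n + 1) = L0 + n + 1 := by ring
      rw [h7]
      push_cast
      nlinarith
  refine ⟨z (L0 + 1) - z L0, le_antisymm ?_ (hD L0)⟩
  have h8 := seq_arch (m * a - ((z (L0 + 1) - z L0 : ℤ) : ℝ)) (z L0 + m * C - m * (L0 * a)) ?_
  · linarith
  · intro n
    have h9 : (z (L0 + n) : ℝ) ≤ ((z L0 + n * (z (L0 + 1) - z L0) : ℤ) : ℝ) := by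
      exact_mod_cast hup n
    have h10 : (m : ℝ) * (((L0 + n : ℕ) : ℝ) * a) ≤ m * (k (L0 + n) + C) :=
      mul_le_mul_of_nonneg_left (hl (L0 + n)) hm
    rw [mul_add, hz] at h10
    push_cast at h9 h10 ⊢
    linarith

end Pool.Agent.FIO
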