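import Pool.Agent.FIO.Zwin

set_option autoImplicit false

open scoped InnerProductSpace ENNReal
open Function

namespace Pool.Agent.FIO

variable {G : Type*} [Group G] {ι κ : Type*} [Fintype ι]

private theorem Zlow_deg_mul (δ : G →* Multiplicative ℤ) (g h : G) :
    deg δ (g * h) = deg δ g + deg δ h := by
  simp [deg]

private theorem Zlow_deg_inv (δ : G →* Multiplicative ℤ) (g : G) :
    deg δ g⁻¹ = - deg δ g := by
  simp [deg]

private theorem Zlow_deg_ker (δ : G →* Multiplicative ℤ) (n : δ.ker) : deg δ (n : G) = 0 := by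
  have h := n.2
  rw [MonoidHom.mem_ker] at h
  simp [deg, h]

private theorem Zlow_deg_zpow (δ : G →* Multiplicative ℤ) (t : G)
    (ht : δ t = Multiplicative.ofAdd 1) (m : ℤ) : deg δ (t ^ m) = m := by
  simp [deg, ht]

private theorem Zlow_deg_pow (δ : G →* Multiplicative ℤ) (t : G)
    (ht : δ t = Multiplicative.ofAdd 1) (m : ℕ) : deg δ (t ^ m) = m := by
  simp [deg, ht]

private theorem Zlow_mem (δ : G →* Multiplicative ℤ) {g : G} (h : deg δ g = 0) : g ∈ δ.ker := by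
  rw [MonoidHom.mem_ker]
  exact Multiplicative.toAdd.injective h

/-- The embedding `((i, j), n) ↦ (i, t ^ j * n)`. -/
private def Zlow_E (δ : G →* Multiplicative ℤ) (t : G) (ι : Type*) (L : ℕ) :
    (ι × Fin L) × δ.ker → ι × G :=
  fun x => (x.1.1, t ^ (x.1.2 : ℕ) * (x.2 : G))

private theorem Zlow_inj (δ : G →* Multiplicative ℤ) (t : G)
    (ht : δ t = Multiplicative.ofAdd 1) (ι : Type*) (L : ℕ) : Injective (Zlow_E δ t ι L) := by
  rintro ⟨⟨i, j⟩, n⟩ ⟨⟨i', j'⟩, n'⟩ h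
  simp only [Zlow_E, Prod.mk.injEq] at h
  obtain ⟨h1, h2⟩ := h
  have h3 := congrArg (deg δ) h2
  rw [Zlow_deg_mul, Zlow_deg_mul, Zlow_deg_pow δ t ht, Zlow_deg_pow δ t ht, Zlow_deg_ker,
    Zlow_deg_ker, add_zero, add_zero] at h3
  have h4 : j = j' := Fin.ext (by exact_mod_cast h3)
  subst h4
  subst h1
  have h5 : n = n' := Subtype.ext (mul_left_cancel h2)
  rw [h5]

omit [Fintype ι] in
private theorem Zlow_ex (δ : G →* Multiplicative ℤ) (t : G)
    (ht : δ t = Multiplicative.ofAdd 1) (L : ℕ) (i : ι) (g : G) (h0 : 0 ≤ deg δ g)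
    (h1 : deg δ g < L) : ∃ x, Zlow_E δ t ι L x = (i, g) := by
  have hj : (deg δ g).toNat < L := by omega
  have hm : (t ^ (deg δ g).toNat)⁻¹ * g ∈ δ.ker := by
    apply Zlow_mem
    rw [Zlow_deg_mul, Zlow_deg_inv, Zlow_deg_pow δ t ht]
    omega
  refine ⟨((i, ⟨(deg δ g).toNat, hj⟩), ⟨_, hm⟩), ?_⟩
  simp [Zlow_E]

omit [Fintype ι] in
private theorem Zlow_deg_E (δ : G →* Multiplicative ℤ) (t : G)
    (ht : δ t = Multiplicative.ofAdd 1) (L : ℕ) (x : (ι × Fin L) × δ.ker) :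
    0 ≤ deg δ (Zlow_E δ t ι L x).2 ∧ deg δ (Zlow_E δ t ι L x).2 < L := by
  simp only [Zlow_E]
  rw [Zlow_deg_mul, Zlow_deg_pow δ t ht, Zlow_deg_ker, add_zero]
  have := x.1.2.2
  constructor <;> omega

/-- The value of `A v` at a point as a continuous functional. -/
private noncomputable def Zlow_app (A : κ → ι → G →₀ ℂ) (k : κ) (g : G) :
    L2 (ι × G) →L[ℂ] ℂ :=
  ∑ i, ∑ x ∈ (A k i).support, (A k i x) • evL (i, x⁻¹ * g)

private theorem Zlow_app_apply (A : κ → ι → G →₀ ℂ) (k : κ) (g : G) (v : L2 (ι × G)) :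
    Zlow_app A k g v = app A v k g := by
  simp [Zlow_app, app, Finsupp.sum]

private noncomputable def Zlow_W (δ : G →* Multiplicative ℤ) (t : G)
    (ht : δ t = Multiplicative.ofAdd 1) (A : κ → ι → G →₀ ℂ) (d L : ℕ) :
    Submodule ℂ (L2 ((ι × Fin L) × δ.ker)) where
  carrier := {v | ∀ (k : κ) (g : G), (d : ℤ) ≤ deg δ g → deg δ g < L - d →
    Zlow_app A k g (extL (Zlow_E δ t ι L) (Zlow_inj δ t ht ι L) v) = 0}
  add_mem' := by
    intro v w hv hw k g h0 h1
    rw [map_add, map_add, hv k g h0 h1, hw k g h0 h1, add_zero]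
  zero_mem' := by
    intro k g _ _
    rw [map_zero, map_zero]
  smul_mem' := by
    intro c v hv k g h0 h1
    rw [map_smul, map_smul, hv k g h0 h1, smul_zero]

private theorem Zlow_closed (δ : G →* Multiplicative ℤ) (t : G)
    (ht : δ t = Multiplicative.ofAdd 1) (A : κ → ι → G →₀ ℂ) (d L : ℕ) :
    IsClosed (Zlow_W δ t ht A d L : Set (L2 ((ι × Fin L) × δ.ker))) := by
  have h : (Zlow_W δ t ht A d L : Set (L2 ((ι × Fin L) × δ.ker))) =
      ⋂ (k : κ) (g : G) (_ : (d : ℤ) ≤ deg δ g) (_ : deg δ g < L - d),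
        {v | Zlow_app A k g (extL (Zlow_E δ t ι L) (Zlow_inj δ t ht ι L) v) = 0} := by
    ext v
    simp only [Set.mem_iInter]
    exact Iff.rfl
  rw [h]
  refine isClosed_iInter fun k => isClosed_iInter fun g => isClosed_iInter fun _ =>
    isClosed_iInter fun _ => ?_
  exact isClosed_eq ((Zlow_app A k g).continuous.comp
    (extL (Zlow_E δ t ι L) (Zlow_inj δ t ht ι L)).continuous) continuous_const

omit [Fintype ι] in
private theorem Zlow_ext_tr (δ : G →* Multiplicative ℤ) (t : G)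
    (ht : δ t = Multiplicative.ofAdd 1) (L : ℕ) (v : L2 ((ι × Fin L) × δ.ker)) (n : δ.ker)
    (i : ι) (g : G) :
    extL (Zlow_E δ t ι L) (Zlow_inj δ t ht ι L) (tr (ι × Fin L) n v) (i, g) =
      extL (Zlow_E δ t ι L) (Zlow_inj δ t ht ι L) v (i, g * n) := by
  by_cases h : 0 ≤ deg δ g ∧ deg δ g < L
  · obtain ⟨⟨⟨i', j⟩, m⟩, hx⟩ := Zlow_ex δ t ht L i g h.1 h.2
    have hx' : Zlow_E δ t ι L ((i', j), m * n) = (i, g * n) := by
      simp only [Zlow_E, Prod.mk.injEq] at hx ⊢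
      refine ⟨hx.1, ?_⟩
      rw [← hx.2]
      simp [mul_assoc]
    rw [← hx, ← hx', extL_apply, extL_apply, tr_apply]
  · rw [extL_zero _ _ _ _ (by
      intro x hx
      apply h
      have := Zlow_deg_E δ t ht L x
      rw [hx] at this
      exact this), extL_zero _ _ _ _ (by
      intro x hx
      apply h
      have := Zlow_deg_E δ t ht L x
      rw [hx] at this
      simp only [Zlow_deg_mul, Zlow_deg_ker, add_zero] at this
      exact this)]

private theorem Zlow_inv (δ : G →* Multiplicative ℤ) (t : G)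
    (ht : δ t = Multiplicative.ofAdd 1) (A : κ → ι → G →₀ ℂ) (d L : ℕ) :
    Inv (Zlow_W δ t ht A d L) := by
  intro v hv n k g h0 h1
  have h := hv k (g * n) (by rw [Zlow_deg_mul, Zlow_deg_ker, add_zero]; exact h0)
    (by rw [Zlow_deg_mul, Zlow_deg_ker, add_zero]; exact h1)
  rw [Zlow_app_apply] at h ⊢
  rw [← h]
  unfold app Finsupp.sum
  refine Finset.sum_congr rfl fun i _ => Finset.sum_congr rfl fun x _ => ?_
  have h2 := Zlow_ext_tr δ t ht L v n i (x⁻¹ * g)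
  rw [mul_assoc] at h2
  exact congrArg (fun z => (A k i) x * z) h2

private theorem Zlow_win (δ : G →* Multiplicative ℤ) (t : G)
    (ht : δ t = Multiplicative.ofAdd 1) (A : κ → ι → G →₀ ℂ) (L : ℕ) {β : Type*} (s : β → G)
    (v : L2 ((ι × Fin L) × δ.ker)) (k : κ) (b : β) (n : δ.ker) :
    app (winMat δ.ker (fun j : Fin L => t ^ (j : ℕ)) s A) v (k, b) n =
      app A (extL (Zlow_E δ t ι L) (Zlow_inj δ t ht ι L) v) k (s b * n) := by
  unfold app
  rw [Fintype.sum_prod_type]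
  refine Finset.sum_congr rfl fun i _ => ?_
  unfold Finsupp.sum
  rw [Finset.sum_sigma']
  refine Finset.sum_of_injOn
    (fun p : (_ : Fin L) × δ.ker => s b * (p.2 : G) * (t ^ (p.1 : ℕ))⁻¹) ?_ ?_ ?_ ?_
  · rintro ⟨a, y⟩ _ ⟨a', y'⟩ _ h
    simp only at h
    have h3 := congrArg (deg δ) h
    simp only [Zlow_deg_mul, Zlow_deg_inv, Zlow_deg_pow δ t ht, Zlow_deg_ker] at h3
    have h4 : a = a' := Fin.ext (by omega)
    subst h4
    have h5 : y = y' := Subtype.ext (mul_left_cancel (mul_right_cancel h))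
    rw [h5]
  · rintro ⟨a, y⟩ h
    simpa [winMat] using h
  · intro x hx hx'
    by_contra hne
    have h1 : extL (Zlow_E δ t ι L) (Zlow_inj δ t ht ι L) v (i, x⁻¹ * (s b * n)) ≠ 0 :=
      right_ne_zero_of_mul hne
    apply h1
    apply extL_zero
    rintro ⟨⟨i', j⟩, m⟩ hE
    apply hx'
    simp only [Zlow_E, Prod.mk.injEq] at hE
    have h2 : s b * ((n * m⁻¹ : δ.ker) : G) * (t ^ (j : ℕ))⁻¹ = x := by
      have h3 : (n : G) = (s b)⁻¹ * x * (t ^ (j : ℕ) * m) := by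
        rw [hE.2]
        group
      push_cast
      rw [h3]
      group
    refine ⟨⟨j, n * m⁻¹⟩, ?_, h2⟩
    simp only [Finset.coe_sigma, Set.mem_sigma_iff, Finset.coe_univ, Set.mem_univ, true_and,
      winMat, Finset.mem_coe, Finsupp.mem_support_iff, Finsupp.comapDomain_apply]
    rw [h2]
    exact Finsupp.mem_support_iff.mp hx
  · rintro ⟨a, y⟩ _
    simp only [winMat, Finsupp.comapDomain_apply]
    congr 1
    have h : ((i, (s b * (y : G) * (t ^ (a : ℕ))⁻¹)⁻¹ * (s b * (n : G))) : ι × G) =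
        Zlow_E δ t ι L ((i, a), y⁻¹ * n) := by
      simp only [Zlow_E, Prod.mk.injEq, true_and]
      push_cast
      group
    rw [h, extL_apply]

private theorem Zlow_bound [Finite κ] (δ : G →* Multiplicative ℤ) (A : κ → ι → G →₀ ℂ) :
    ∃ d : ℕ, ∀ k i, ∀ x ∈ (A k i).support, -(d : ℤ) ≤ deg δ x ∧ deg δ x ≤ d := by
  have hfin : (⋃ k, ⋃ i, (fun x => (deg δ x).natAbs) '' ((A k i).support : Set G)).Finite :=
    Set.finite_iUnion fun k => Set.finite_iUnion fun i =>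
      ((A k i).support.finite_toSet).image _
  obtain ⟨d, hd⟩ := hfin.bddAbove
  refine ⟨d, fun k i x hx => ?_⟩
  have h : (deg δ x).natAbs ≤ d := hd (Set.mem_iUnion.mpr ⟨k, Set.mem_iUnion.mpr ⟨i, x, hx, rfl⟩⟩)
  constructor <;> omega

/-- The boundary rows. -/
private def Zlow_s (t : G) (d L : ℕ) : Fin (2 * d) ⊕ Fin (2 * d) → G :=
  Sum.elim (fun j => t ^ ((j : ℤ) - d)) (fun j => t ^ ((j : ℤ) + L - d))

private theorem Zlow_mem_Kw (δ : G →* Multiplicative ℤ) (t : G)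
    (ht : δ t = Multiplicative.ofAdd 1) (A : κ → ι → G →₀ ℂ) (d L : ℕ)
    (hd : ∀ k i, ∀ x ∈ (A k i).support, -(d : ℤ) ≤ deg δ x ∧ deg δ x ≤ d)
    (v : L2 ((ι × Fin L) × δ.ker)) (h1 : v ∈ Zlow_W δ t ht A d L)
    (h2 : v ∈ kerMat (winMat δ.ker (fun j : Fin L => t ^ (j : ℕ)) (Zlow_s t d L) A)) :
    extL (Zlow_E δ t ι L) (Zlow_inj δ t ht ι L) v ∈ Kw δ A 0 L := by
  have hz : ∀ (i : ι) (g : G), ¬ (0 ≤ deg δ g ∧ deg δ g < L) →
      extL (Zlow_E δ t ι L) (Zlow_inj δ t ht ι L) v (i, g) = 0 := by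
    intro i g h
    apply extL_zero
    intro x hx
    apply h
    have := Zlow_deg_E δ t ht L x
    rw [hx] at this
    exact this
  refine ⟨hz, ?_⟩
  intro k g
  by_cases h3 : (d : ℤ) ≤ deg δ g ∧ deg δ g < L - d
  · rw [← Zlow_app_apply]
    exact h1 k g h3.1 h3.2
  by_cases h4 : -(d : ℤ) ≤ deg δ g ∧ deg δ g < d
  · have hj : (deg δ g + d).toNat < 2 * d := by omega
    have hs : deg δ (Zlow_s t d L (Sum.inl ⟨(deg δ g + d).toNat, hj⟩)) = deg δ g := by
      simp only [Zlow_s, Sum.elim_inl]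
      rw [Zlow_deg_zpow δ t ht]
      omega
    have hm : (Zlow_s t d L (Sum.inl ⟨(deg δ g + d).toNat, hj⟩))⁻¹ * g ∈ δ.ker := by
      apply Zlow_mem
      rw [Zlow_deg_mul, Zlow_deg_inv, hs]
      omega
    have h5 := h2 (k, Sum.inl ⟨(deg δ g + d).toNat, hj⟩) ⟨_, hm⟩
    rw [Zlow_win δ t ht, mul_inv_cancel_left] at h5
    exact h5
  by_cases h5 : (L : ℤ) - d ≤ deg δ g ∧ deg δ g < L + d
  · have hj : (deg δ g - L + d).toNat < 2 * d := by omega
    have hs : deg δ (Zlow_s t d L (Sum.inr ⟨(deg δ g - L + d).toNat, hj⟩)) = deg δ g := by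
      simp only [Zlow_s, Sum.elim_inr]
      rw [Zlow_deg_zpow δ t ht]
      omega
    have hm : (Zlow_s t d L (Sum.inr ⟨(deg δ g - L + d).toNat, hj⟩))⁻¹ * g ∈ δ.ker := by
      apply Zlow_mem
      rw [Zlow_deg_mul, Zlow_deg_inv, hs]
      omega
    have h6 := h2 (k, Sum.inr ⟨(deg δ g - L + d).toNat, hj⟩) ⟨_, hm⟩
    rw [Zlow_win δ t ht, mul_inv_cancel_left] at h6
    exact h6
  · unfold app Finsupp.sum
    refine Finset.sum_eq_zero fun i _ => Finset.sum_eq_zero fun x hx => ?_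
    have h6 := hd k i x hx
    have h7 := hz i (x⁻¹ * g) (by
      rw [Zlow_deg_mul, Zlow_deg_inv]
      omega)
    exact mul_eq_zero_of_right _ h7

private theorem Zlow_trunc (δ : G →* Multiplicative ℤ) (t : G)
    (ht : δ t = Multiplicative.ofAdd 1) (A : κ → ι → G →₀ ℂ) (d L : ℕ)
    (hd : ∀ k i, ∀ x ∈ (A k i).support, -(d : ℤ) ≤ deg δ x ∧ deg δ x ≤ d)
    (v : L2 (ι × G)) (h : v ∈ kerMat A) :
    resL (Zlow_E δ t ι L) (Zlow_inj δ t ht ι L) v ∈ Zlow_W δ t ht A d L := by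
  intro k g h0 h1
  rw [Zlow_app_apply, ← h k g]
  unfold app Finsupp.sum
  refine Finset.sum_congr rfl fun i _ => Finset.sum_congr rfl fun x hx => ?_
  have h6 := hd k i x hx
  obtain ⟨y, hy⟩ := Zlow_ex δ t ht L i (x⁻¹ * g) (by rw [Zlow_deg_mul, Zlow_deg_inv]; omega)
    (by rw [Zlow_deg_mul, Zlow_deg_inv]; omega)
  have h7 : extL (Zlow_E δ t ι L) (Zlow_inj δ t ht ι L)
      (resL (Zlow_E δ t ι L) (Zlow_inj δ t ht ι L) v) (i, x⁻¹ * g) = v (i, x⁻¹ * g) := by
    rw [← hy, extL_apply, resL_apply]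
  exact congrArg (fun z => (A k i) x * z) h7

/-- Z4: lower bound -/
theorem le_kw [Finite κ] (δ : G →* Multiplicative ℤ) (t : G) (ht : δ t = Multiplicative.ofAdd 1)
    (A : κ → ι → G →₀ ℂ) : ∃ C : ℝ, ∀ L : ℕ, L * vdim (kerMat A) ≤ kw δ t A L + C := by
  haveI := Fintype.ofFinite κ
  obtain ⟨d, hd⟩ := Zlow_bound δ A
  refine ⟨(Fintype.card (κ × (Fin (2 * d) ⊕ Fin (2 * d))) : ℝ), fun L => ?_⟩
  have h1 := vdim_rows (Zlow_closed δ t ht A d L) (Zlow_inv δ t ht A d L)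
    (winMat δ.ker (fun j : Fin L => t ^ (j : ℕ)) (Zlow_s t d L) A)
  have hcl : IsClosed ((Zlow_W δ t ht A d L ⊓
      kerMat (winMat δ.ker (fun j : Fin L => t ^ (j : ℕ)) (Zlow_s t d L) A) :
        Submodule ℂ (L2 ((ι × Fin L) × δ.ker))) : Set (L2 ((ι × Fin L) × δ.ker))) := by
    rw [Submodule.coe_inf]
    exact (Zlow_closed δ t ht A d L).inter (isClosed_kerMat _)
  have h2 : L * vdim (kerMat A) ≤ vdim (Zlow_W δ t ht A d L) := by
    unfold vdim
    rw [Fintype.sum_prod_type, Finset.mul_sum]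
    refine Finset.sum_le_sum fun i _ => ?_
    have h3 : (L : ℝ) * phi (kerMat A) (i, 1) =
        ∑ j : Fin L, phi (kerMat A) (i, t ^ (j : ℕ)) := by
      rw [Finset.sum_congr rfl fun (j : Fin L) _ => phi_kerMat A i (t ^ (j : ℕ))]
      simp
    rw [h3]
    refine Finset.sum_le_sum fun j _ => ?_
    refine phi_le_of (isClosed_kerMat A) fun v hv =>
      ⟨_, Zlow_trunc δ t ht A d L hd v hv, ?_, norm_resL_le _ _ _⟩
    rw [resL_apply]
    simp [Zlow_E]
  have h4 : vdim (Zlow_W δ t ht A d L ⊓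
      kerMat (winMat δ.ker (fun j : Fin L => t ^ (j : ℕ)) (Zlow_s t d L) A)) ≤ kw δ t A L := by
    unfold vdim kw
    rw [Fintype.sum_prod_type]
    refine Finset.sum_le_sum fun i _ => Finset.sum_le_sum fun j _ => ?_
    refine phi_le_of hcl fun v hv =>
      ⟨_, Zlow_mem_Kw δ t ht A d L hd v hv.1 hv.2, ?_, ?_⟩
    · have h5 : ((i, t ^ (j : ℕ)) : ι × G) = Zlow_E δ t ι L ((i, j), 1) := by
        simp [Zlow_E]
      rw [h5, extL_apply]
    · rw [LinearIsometry.norm_map]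
  linarith

end Pool.Agent.FIO
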