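import Pool.Agent.FIO.Zconv
import Pool.Agent.FIO.Zlow
import Pool.Agent.FIO.Seq
import Pool.Agent.FIO.Lcm

set_option autoImplicit false

open Function

namespace Pool.Agent.FIO

variable {G : Type*} [Group G]

/-- A homomorphism to `ℤ` kills finite subgroups. -/
theorem le_ker_of_finite (δ : G →* Multiplicative ℤ) (K : Subgroup G) (hK : Finite K) :
    K ≤ δ.ker := by
  intro g hg
  rw [MonoidHom.mem_ker]
  have h1 : (⟨g, hg⟩ : K) ^ Nat.card K = 1 := pow_card_eq_one'
  have h2 : g ^ Nat.card K = 1 := by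
    have h := congrArg (Subtype.val : K → G) h1
    rw [SubmonoidClass.coe_pow] at h
    exact h
  have h3 : δ g ^ Nat.card K = 1 := by rw [← map_pow, h2, map_one]
  have h4 : (Nat.card K : ℤ) * (δ g).toAdd = 0 := by
    have := congrArg Multiplicative.toAdd h3
    rw [toAdd_pow, toAdd_one] at this
    rwa [nsmul_eq_mul] at this
  have h5 : (Nat.card K : ℤ) ≠ 0 := by
    have : Nat.card K ≠ 0 := Nat.card_pos.ne'
    exact_mod_cast this
  have h6 : (δ g).toAdd = 0 := by
    rcases mul_eq_zero.1 h4 with h | h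
    · exact absurd h h5
    · exact h
  exact toAdd_eq_zero.1 h6

/-- `A_F` is closed under extensions by `ℤ`. -/
theorem zext {F : Subfield ℂ} (δ : G →* Multiplicative ℤ) (hδ : Surjective δ)
    (h : Atiyah F δ.ker) : Atiyah F G := by
  obtain ⟨t, ht⟩ := hδ (Multiplicative.ofAdd 1)
  have hl := lcmFin_eq δ.ker.subtype δ.ker.subtype_injective h.1 (fun K hK => by
    rw [Subgroup.range_subtype]
    exact le_ker_of_finite δ K hK)
  refine ⟨hl.1, fun a b A hA => ?_⟩
  rw [hl.2]
  obtain ⟨C, hC⟩ := le_kw δ t ht A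
  exact seq_int (kw δ t A) (lcmFin δ.ker) (vdim (kerMat A)) C (fun L => kw_int δ t ht h A hA L)
    (fun L => kw_convex δ t ht A L) (fun L => kw_le δ t ht A L) hC

/-- The same for a homomorphism to `ℤ` with nontrivial image. -/
theorem zext' {F : Subfield ℂ} (δ : G →* Multiplicative ℤ) (hδ : ∃ g, δ g ≠ 1)
    (h : Atiyah F δ.ker) : Atiyah F G := by
  obtain ⟨c, hc⟩ := Int.subgroup_cyclic (AddMonoidHom.range
    (MonoidHom.toAdditiveLeft δ))
  have hc' : ∀ g, ∃ n : ℤ, (δ g).toAdd = n * c := by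
    intro g
    have h1 : (δ g).toAdd ∈ AddMonoidHom.range (MonoidHom.toAdditiveLeft δ) := ⟨Additive.ofMul g, rfl⟩
    rw [hc, AddSubgroup.mem_closure_singleton] at h1
    obtain ⟨n, hn⟩ := h1
    exact ⟨n, by rw [← hn]; simp⟩
  have hc0 : c ≠ 0 := by
    rintro rfl
    obtain ⟨g, hg⟩ := hδ
    obtain ⟨n, hn⟩ := hc' g
    rw [mul_zero] at hn
    exact hg (toAdd_eq_zero.1 hn)
  obtain ⟨t, ht⟩ : ∃ t, (δ t).toAdd = c := by
    have h1 : c ∈ AddMonoidHom.range (MonoidHom.toAdditiveLeft δ) := by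
      rw [hc]
      exact AddSubgroup.subset_closure (Set.mem_singleton c)
    obtain ⟨g, hg⟩ := h1
    exact ⟨g.toMul, hg⟩
  choose n hn using hc'
  have hmul : ∀ g g', n (g * g') = n g + n g' := by
    intro g g'
    apply mul_right_cancel₀ hc0
    rw [add_mul, ← hn, ← hn, ← hn, map_mul, toAdd_mul]
  let δ' : G →* Multiplicative ℤ := MonoidHom.mk' (fun g => Multiplicative.ofAdd (n g)) (by
    intro g g'
    rw [hmul, ofAdd_add])
  have hk : δ'.ker = δ.ker := by
    ext g
    rw [MonoidHom.mem_ker, MonoidHom.mem_ker]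
    have e1 : δ' g = Multiplicative.ofAdd (n g) := rfl
    rw [e1, ofAdd_eq_one, ← toAdd_eq_zero, hn g]
    constructor
    · intro h2
      rw [h2, zero_mul]
    · intro h2
      exact (mul_eq_zero.1 h2).resolve_right hc0
  have hs : Surjective δ' := by
    intro y
    refine ⟨t ^ (y.toAdd), ?_⟩
    have h3 : n t = 1 := by
      apply mul_right_cancel₀ hc0
      rw [← hn, ht, one_mul]
    rw [map_zpow]
    have e1 : δ' t = Multiplicative.ofAdd 1 := by
      show Multiplicative.ofAdd (n t) = _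
      rw [h3]
    rw [e1]
    apply Multiplicative.toAdd.injective
    rw [toAdd_zpow, toAdd_ofAdd]
    simp
  refine zext δ' hs ?_
  rw [hk]
  exact h

end Pool.Agent.FIO
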