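import Pool.Agent.FIO.RootDefs
import Pool.Agent.FIO.Zext

set_option autoImplicit false

open Function

namespace Pool.Agent.FIO

universe u

/-- Adjoining a root of a central element, without the extra conditions of `RootPair`. -/
structure Root {G : Type*} [Group G] (H : Subgroup G) (p : ℕ) (w : G) : Prop where
  prime : p.Prime
  central : ∀ g : G, w * g = g * w
  not_mem : w ∉ H
  pow_mem : w ^ p ∈ H
  gen : H ⊔ Subgroup.zpowers w = ⊤

theorem Root.normal {G : Type*} [Group G] {H : Subgroup G} {p : ℕ} {w : G} (h : Root H p w) :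
    H.Normal := by
  rw [← Subgroup.normalizer_eq_top_iff, eq_top_iff, ← h.gen]
  refine sup_le Subgroup.le_normalizer ?_
  rw [Subgroup.zpowers_le, Subgroup.mem_normalizer_iff]
  intro x
  rw [h.central x, mul_inv_cancel_right]

private theorem root_decomp {G : Type*} [Group G] {H : Subgroup G} {p : ℕ} {w : G}
    (h : Root H p w) (g : G) : ∃ x ∈ H, ∃ i : ℤ, g = x * w ^ i := by
  have := h.normal
  have hg : g ∈ ((H ⊔ Subgroup.zpowers w : Subgroup G) : Set G) := by
    rw [h.gen]; exact Subgroup.mem_top g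
  rw [Subgroup.normal_mul] at hg
  obtain ⟨x, hx, y, hy, rfl⟩ := hg
  obtain ⟨i, rfl⟩ := Subgroup.mem_zpowers_iff.1 hy
  exact ⟨x, hx, i, rfl⟩

theorem Root.index {G : Type*} [Group G] {H : Subgroup G} {p : ℕ} {w : G} (h : Root H p w) :
    H.index = p := by
  have := h.normal
  have : Fact p.Prime := ⟨h.prime⟩
  have ho : orderOf (QuotientGroup.mk w : G ⧸ H) = p := by
    apply orderOf_eq_prime
    · rw [← QuotientGroup.mk_pow, QuotientGroup.eq_one_iff]
      exact h.pow_mem
    · intro hc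
      exact h.not_mem ((QuotientGroup.eq_one_iff w).1 hc)
  have htop : Subgroup.zpowers (QuotientGroup.mk w : G ⧸ H) = ⊤ := by
    rw [eq_top_iff]
    rintro q -
    obtain ⟨g, rfl⟩ := QuotientGroup.mk_surjective q
    obtain ⟨x, hx, i, rfl⟩ := root_decomp h g
    rw [QuotientGroup.mk_mul, (QuotientGroup.eq_one_iff x).2 hx, one_mul, QuotientGroup.mk_zpow]
    exact Subgroup.zpow_mem_zpowers _ _
  rw [Subgroup.index_eq_card, ← Subgroup.card_top, ← htop, Nat.card_zpowers, ho]

/-- If `w` has finite order, the least common multiple gets larger. -/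
theorem Root.lcm_ne {G : Type*} [Group G] {H : Subgroup G} {p : ℕ} {w : G} (h : Root H p w)
    (hb : BoundedFin H) {n : ℕ} (hn : 0 < n) (hw : w ^ n = 1) : lcmFin G ≠ lcmFin H := by
  intro he
  have := h.normal
  have hfi : H.FiniteIndex := ⟨by rw [h.index]; exact h.prime.ne_zero⟩
  have hbG : BoundedFin G := BoundedFin.of_index H hb
  have hfin : IsOfFinOrder w := isOfFinOrder_iff_pow_eq_one.2 ⟨n, hn, hw⟩
  have hwf : Finite (Subgroup.zpowers w) := (finite_zpowers.2 hfin).to_subtype
  have hwn : (Subgroup.zpowers w).Normal := by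
    refine ⟨fun x hx g => ?_⟩
    obtain ⟨i, rfl⟩ := Subgroup.mem_zpowers_iff.1 hx
    have hc : Commute w g := h.central g
    have : g * w ^ i = w ^ i * g := ((hc.zpow_left i).eq).symm
    rw [this, mul_inv_cancel_right]
    exact Subgroup.zpow_mem_zpowers _ _
  -- the key divisibility
  have key : ∀ K : Subgroup H, Finite K → p * Nat.card K ∣ lcmFin G := by
    intro K hK
    set K1 : Subgroup G := K.map H.subtype with hK1
    set K2 : Subgroup G := K1 ⊔ Subgroup.zpowers w with hK2
    have hK1f : Finite K1 := by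
      have : (K1 : Set G).Finite := by
        rw [hK1, Subgroup.coe_map]
        exact (Set.toFinite (K : Set H)).image _
      exact this
    have hdec : ∀ g ∈ K2, ∃ x ∈ K1, ∃ i : ℤ, g = x * w ^ i := by
      intro g hg
      have hg' : g ∈ (K2 : Set G) := hg
      rw [hK2, Subgroup.mul_normal] at hg'
      obtain ⟨x, hx, y, hy, rfl⟩ := hg'
      obtain ⟨i, rfl⟩ := Subgroup.mem_zpowers_iff.1 hy
      exact ⟨x, hx, i, rfl⟩
    have hK2f : Finite K2 := by
      have : (K2 : Set G).Finite := by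
        rw [hK2, Subgroup.mul_normal]
        exact Set.Finite.mul (Set.toFinite (K1 : Set G)) (Set.toFinite _)
      exact this
    have hK1H : K1 ≤ H := by
      rw [hK1]
      rintro _ ⟨x, _, rfl⟩
      exact x.2
    have hwK : w ∈ K2 := (le_sup_right : Subgroup.zpowers w ≤ K2) (Subgroup.mem_zpowers w)
    have hR : Root (H.subgroupOf K2) p (⟨w, hwK⟩ : K2) := by
      refine ⟨h.prime, ?_, ?_, ?_, ?_⟩
      · intro g
        exact Subtype.ext (h.central g)
      · intro hc
        exact h.not_mem (Subgroup.mem_subgroupOf.1 hc)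
      · rw [Subgroup.mem_subgroupOf]
        exact h.pow_mem
      · rw [eq_top_iff]
        rintro g -
        obtain ⟨x, hx, i, hxi⟩ := hdec g g.2
        have hxK : x ∈ K2 := (le_sup_left : K1 ≤ K2) hx
        have : g = (⟨x, hxK⟩ : K2) * (⟨w, hwK⟩ : K2) ^ i := by
          apply Subtype.ext
          rw [hxi]
          push_cast
          rfl
        rw [this]
        refine Subgroup.mul_mem_sup ?_ (Subgroup.zpow_mem_zpowers _ _)
        rw [Subgroup.mem_subgroupOf]
        exact hK1H hx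
    have hcard := (H.subgroupOf K2).card_mul_index
    rw [hR.index] at hcard
    have hdvd : Nat.card K ∣ Nat.card (H.subgroupOf K2) := by
      let f : K →* H.subgroupOf K2 :=
        { toFun := fun x => ⟨⟨(x : H), (le_sup_left : K1 ≤ K2) ⟨x, x.2, rfl⟩⟩, by
            rw [Subgroup.mem_subgroupOf]; exact (x : H).2⟩
          map_one' := rfl
          map_mul' := fun _ _ => rfl }
      refine Subgroup.card_dvd_of_injective f ?_
      intro x y hxy
      have h1 : ((f x : K2) : G) = ((f y : K2) : G) := by rw [hxy]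
      exact Subtype.ext (Subtype.ext h1)
    have h2 : p * Nat.card K ∣ Nat.card K2 := by
      rw [← hcard, mul_comm p]
      exact Nat.mul_dvd_mul_right hdvd p
    exact h2.trans (hbG.dvd_lcmFin K2 hK2f)
  have hpos : 0 < lcmFin G := hbG.lcmFin_pos
  have hp1 : p ∣ lcmFin G := by
    have := key ⊥ inferInstance
    exact (Dvd.intro _ rfl).trans this
  obtain ⟨c, hc⟩ := hp1
  have hc0 : 0 < c := by
    rcases Nat.eq_zero_or_pos c with h0 | h0
    · rw [hc, h0] at hpos; simp at hpos
    · exact h0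
  have h3 : lcmFin H ∣ c := by
    apply lcmFin_dvd hc0
    intro K hK
    have := key K hK
    rw [hc] at this
    exact Nat.dvd_of_mul_dvd_mul_left h.prime.pos this
  have h4 := Nat.le_of_dvd hc0 h3
  rw [← he, hc] at h4
  have := h.prime.two_le
  nlinarith

/-- If the least common multiples differ, integrality is trivial. -/
theorem Root.atiyah_of_lcm_ne {F : Subfield ℂ} {G : Type*} [Group G] {H : Subgroup G} {p : ℕ}
    {w : G} (h : Root H p w) (hH : Atiyah F H) (hl : lcmFin G ≠ lcmFin H) : Atiyah F G := by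
  have := h.normal
  have hfi : H.FiniteIndex := ⟨by rw [h.index]; exact h.prime.ne_zero⟩
  have hbG : BoundedFin G := BoundedFin.of_index H hH.1
  have h1 : lcmFin G ∣ p * lcmFin H := by
    have := lcmFin_dvd_index H hH.1
    rwa [h.index] at this
  have h2 : lcmFin H ∣ lcmFin G :=
    (BoundedFin.of_injective H.subtype H.subtype_injective hbG).2
  have hHpos : 0 < lcmFin H := hH.1.lcmFin_pos
  obtain ⟨c, hc⟩ := h2
  have hcp : c ∣ p := by
    rw [hc, mul_comm p] at h1
    exact Nat.dvd_of_mul_dvd_mul_left hHpos h1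
  have hcp' : c = p := by
    rcases (Nat.dvd_prime h.prime).1 hcp with h5 | h5
    · exact absurd (by rw [hc, h5, mul_one]) hl
    · exact h5
  refine ⟨hbG, fun a b A hA => ?_⟩
  obtain ⟨z, hz⟩ := index_int (N := H) hH A hA
  refine ⟨z, ?_⟩
  rw [← hz, hc, hcp', h.index]
  push_cast
  ring

/-- If a homomorphism to `ℤ` maps `w ^ p` to an element that is not a multiple of `p`, then `G` is
an extension of a subgroup of `H` by `ℤ`. -/
theorem Root.atiyah_of_hom {F : Subfield ℂ} {G : Type*} [Group G] {H : Subgroup G} {p : ℕ}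
    {w : G} (h : Root H p w) (hH : Atiyah F H) (φ : H →* Multiplicative ℤ)
    (hφ : ¬ ∃ y, φ ⟨w ^ p, h.pow_mem⟩ = y ^ p) : Atiyah F G := by
  set W : H := ⟨w ^ p, h.pow_mem⟩ with hW
  -- the surjection from `H × ℤ`
  let Ψ : H × Multiplicative ℤ →* G :=
    { toFun := fun x => (x.1 : G) * w ^ (Multiplicative.toAdd x.2)
      map_one' := by simp
      map_mul' := by
        rintro ⟨x, i⟩ ⟨y, j⟩
        have hc : Commute (w ^ (Multiplicative.toAdd i)) (y : G) :=
          (show Commute w (y : G) from h.central y).zpow_left _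
        simp only [Prod.mk_mul_mk, toAdd_mul, zpow_add, Subgroup.coe_mul]
        rw [mul_assoc (x : G), mul_assoc (x : G), ← mul_assoc (y : G), ← hc.eq, mul_assoc] }
  have hΨ : ∀ (x : H) (i : ℤ), Ψ (x, Multiplicative.ofAdd i) = x * w ^ i := fun x i => rfl
  have hΨs : Surjective Ψ := by
    intro g
    obtain ⟨x, hx, i, rfl⟩ := root_decomp h g
    exact ⟨(⟨x, hx⟩, Multiplicative.ofAdd i), rfl⟩
  let δ' : H × Multiplicative ℤ →* Multiplicative ℤ :=
    { toFun := fun x => φ x.1 ^ p * φ W ^ (Multiplicative.toAdd x.2)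
      map_one' := by simp
      map_mul' := by
        rintro ⟨x, i⟩ ⟨y, j⟩
        simp only [Prod.mk_mul_mk, toAdd_mul, zpow_add, map_mul, mul_pow]
        exact mul_mul_mul_comm _ _ _ _ }
  have hδ' : ∀ (x : H) (i : ℤ), δ' (x, Multiplicative.ofAdd i) = φ x ^ p * φ W ^ i :=
    fun x i => rfl
  -- `w ^ i ∈ H` iff `p ∣ i`
  have hdiv : ∀ i : ℤ, w ^ i ∈ H → (p : ℤ) ∣ i := by
    intro i hi
    by_contra hcon
    have hcop : IsCoprime (p : ℤ) i :=
      ((Nat.prime_iff_prime_int.1 h.prime).coprime_iff_not_dvd).2 hcon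
    obtain ⟨a, b, hab⟩ := hcop
    apply h.not_mem
    have : w = (w ^ p) ^ a * (w ^ i) ^ b := by
      rw [← zpow_natCast, ← zpow_mul, ← zpow_mul, ← zpow_add, mul_comm (p : ℤ), mul_comm i, hab,
        zpow_one]
    rw [this]
    exact H.mul_mem (H.zpow_mem h.pow_mem _) (H.zpow_mem hi _)
  have hker : Ψ.ker ≤ δ'.ker := by
    rintro ⟨x, i⟩ hx
    obtain ⟨i, rfl⟩ := Multiplicative.ofAdd.surjective i
    rw [MonoidHom.mem_ker, hΨ] at hx
    rw [MonoidHom.mem_ker, hδ']
    have h1 : w ^ i = (x : G)⁻¹ := (inv_eq_of_mul_eq_one_right hx).symm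
    obtain ⟨j, rfl⟩ := hdiv i (by rw [h1]; exact H.inv_mem x.2)
    have h2 : x = (W ^ j)⁻¹ := by
      apply Subtype.ext
      have : (x : G) * (w ^ p) ^ j = 1 := by
        rw [← zpow_natCast, ← zpow_mul]; exact hx
      simpa [hW] using eq_inv_of_mul_eq_one_left this
    rw [h2, map_inv, map_zpow, inv_pow, ← zpow_natCast, ← zpow_mul, mul_comm j, inv_mul_cancel]
  let δ : G →* Multiplicative ℤ := Ψ.liftOfSurjective hΨs ⟨δ', hker⟩
  have hδ : ∀ (x : H) (i : ℤ), δ (x * w ^ i) = φ x ^ p * φ W ^ i := by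
    intro x i
    rw [← hΨ, ← hδ']
    exact MonoidHom.liftOfRightInverse_comp_apply Ψ _ _ ⟨δ', hker⟩ _
  -- the kernel lies in `H`
  have hkerH : δ.ker ≤ H := by
    intro g hg
    obtain ⟨x, hx, i, rfl⟩ := root_decomp h g
    rw [MonoidHom.mem_ker] at hg
    have h1 := hδ ⟨x, hx⟩ i
    rw [show ((⟨x, hx⟩ : H) : G) = x from rfl, hg] at h1
    by_cases hpi : (p : ℤ) ∣ i
    · obtain ⟨j, rfl⟩ := hpi
      refine H.mul_mem hx ?_
      rw [zpow_mul, zpow_natCast]
      exact H.zpow_mem h.pow_mem _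
    · exfalso
      have hcop : IsCoprime (p : ℤ) i :=
        ((Nat.prime_iff_prime_int.1 h.prime).coprime_iff_not_dvd).2 hpi
      obtain ⟨a, b, hab⟩ := hcop
      apply hφ
      refine ⟨φ W ^ a * (φ ⟨x, hx⟩ ^ b)⁻¹, ?_⟩
      have h2 : φ W ^ i = (φ ⟨x, hx⟩ ^ p)⁻¹ := (inv_eq_of_mul_eq_one_right h1.symm).symm
      calc φ W = φ W ^ (a * (p : ℤ) + b * i) := by rw [hab, zpow_one]
        _ = (φ W ^ a) ^ p * (φ W ^ i) ^ b := by
            rw [zpow_add, zpow_mul, zpow_natCast, mul_comm b, zpow_mul]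
        _ = (φ W ^ a) ^ p * ((φ ⟨x, hx⟩ ^ b)⁻¹) ^ p := by
            rw [h2]
            congr 1
            rw [inv_zpow, inv_pow, ← zpow_natCast, ← zpow_natCast, ← zpow_mul, ← zpow_mul,
              mul_comm b]
        _ = (φ W ^ a * (φ ⟨x, hx⟩ ^ b)⁻¹) ^ p := by rw [mul_pow]
  -- the least common multiple of the kernel
  have hinj : Injective (Subgroup.inclusion hkerH) := Subgroup.inclusion_injective hkerH
  have hbk : BoundedFin δ.ker := (BoundedFin.of_injective (Subgroup.inclusion hkerH) hinj hH.1).1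
  have hl : lcmFin H = lcmFin δ.ker := by
    refine (lcmFin_eq (Subgroup.inclusion hkerH) hinj hbk ?_).2
    intro K hK x hx
    have h1 := le_ker_of_finite (δ.comp H.subtype) K hK hx
    rw [MonoidHom.mem_ker] at h1
    exact ⟨⟨(x : G), h1⟩, rfl⟩
  have hAk : Atiyah F δ.ker := Atiyah.of_injective (Subgroup.inclusion hkerH) hinj hH hl
  refine zext' δ ⟨w, ?_⟩ hAk
  intro hc
  have h1 := hδ 1 1
  rw [zpow_one, zpow_one, map_one, one_pow, one_mul, Subgroup.coe_one, one_mul, hc] at h1
  exact hφ ⟨1, by rw [← h1, one_pow]⟩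

end Pool.Agent.FIO
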