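import Pool.Agent.FIO.Defs

set_option autoImplicit false

namespace Pool.Agent.FIO

universe u

/-- `G` is generated by the finitely generated subgroup `H` and a central element `w`, not in `H`,
with `w ^ p` in `H` for the prime `p`; `lcm(G) = lcm(H)`; every homomorphism from `H` to `ℤ` maps
`w ^ p` to a multiple of `p`, and some homomorphism maps it to `p`. -/
structure RootPair {G : Type*} [Group G] (H : Subgroup G) (p : ℕ) (w : G) : Prop where
  prime : p.Prime
  central : ∀ g : G, w * g = g * w
  not_mem : w ∉ H
  pow_mem : w ^ p ∈ H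
  gen : H ⊔ Subgroup.zpowers w = ⊤
  fg : Group.FG H
  lcm_eq : lcmFin G = lcmFin H
  hom_mul : ∀ φ : H →* Multiplicative ℤ, ∃ y, φ ⟨w ^ p, pow_mem⟩ = y ^ p
  hom_eq : ∃ δ : H →* Multiplicative ℤ, δ ⟨w ^ p, pow_mem⟩ = Multiplicative.ofAdd (p : ℤ)

/-- A class of groups closed under subgroups and under products with `ℤ`. -/
structure GoodClass (C : ∀ (G : Type u) [Group G], Prop) : Prop where
  sub : ∀ (G : Type u) [Group G] (H : Subgroup G), C G → C H
  prod : ∀ (G : Type u) [Group G], C G → C (G × Multiplicative ℤ)

/-- `A_F` is closed, inside the class `C`, under adjoining roots of central elements. -/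
def RootClosed (F : Subfield ℂ) (C : ∀ (G : Type u) [Group G], Prop) : Prop :=
  ∀ (G : Type u) [Group G] (H : Subgroup G) (p : ℕ) (w : G), C G → RootPair H p w →
    Atiyah F H → Atiyah F G

end Pool.Agent.FIO
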