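import Pool.Agent.FIO.MainP

/-!
Extensions by torsion-free abelian groups.
-/

set_option autoImplicit false

open Function

namespace Pool.Agent.FIO

universe u

theorem lcmFin_congr {G G₂ : Type*} [Group G] [Group G₂] (e : G ≃* G₂) (hb : BoundedFin G) :
    BoundedFin G₂ ∧ lcmFin G₂ = lcmFin G := by
  obtain ⟨hb2, h1⟩ := hb.of_injective e.symm.toMonoidHom e.symm.injective
  exact ⟨hb2, Nat.dvd_antisymm h1 (hb2.of_injective e.toMonoidHom e.injective).2⟩

/-- Homomorphisms to `ℤ`, trivial or not. -/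
theorem zextC'' {F : Subfield ℂ} {c : ℕ} {G : Type*} [Group G] (δ : G →* Multiplicative ℤ)
    (h : AtC F c δ.ker) : AtC F c G := by
  by_cases hδ : ∃ g, δ g ≠ 1
  · exact zextC' δ hδ h
  · push Not at hδ
    have hk : δ.ker = ⊤ := by
      rw [eq_top_iff]
      intro g _
      exact (MonoidHom.mem_ker).2 (hδ g)
    rw [hk] at h
    exact AtC.of_equiv (Subgroup.topEquiv (G := G)).symm h

/-- Homomorphisms to `ℤ ^ r`. -/
theorem zrC {F : Subfield ℂ} {c : ℕ} (r : ℕ) : ∀ {G : Type u} [Group G]
    (φ : G →* Multiplicative (Fin r → ℤ)), AtC F c φ.ker → AtC F c G := by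
  induction r with
  | zero =>
    intro G _ φ h
    have hk : φ.ker = ⊤ := by
      rw [eq_top_iff]
      intro g _
      rw [MonoidHom.mem_ker]
      exact Subsingleton.elim _ _
    rw [hk] at h
    exact AtC.of_equiv (Subgroup.topEquiv (G := G)).symm h
  | succ r ih =>
    intro G _ φ h
    let δ : G →* Multiplicative ℤ := MonoidHom.mk' (fun g =>
      Multiplicative.ofAdd (Multiplicative.toAdd (φ g) 0)) (by
        intro a b
        rw [map_mul]
        rfl)
    let φ' : δ.ker →* Multiplicative (Fin r → ℤ) := MonoidHom.mk' (fun g =>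
      Multiplicative.ofAdd (fun i => Multiplicative.toAdd (φ (g : G)) i.succ)) (by
        intro a b
        rw [Subgroup.coe_mul, map_mul]
        rfl)
    have hmem : ∀ g : G, g ∈ φ.ker ↔ ∀ i, Multiplicative.toAdd (φ g) i = 0 := by
      intro g
      rw [MonoidHom.mem_ker]
      constructor
      · intro hg i
        rw [hg]
        rfl
      · intro hg
        apply Multiplicative.toAdd.injective
        funext i
        exact hg i
    have hδ : ∀ g : G, g ∈ δ.ker ↔ Multiplicative.toAdd (φ g) 0 = 0 := fun g => Iff.rfl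
    have hφ' : ∀ g : δ.ker, g ∈ φ'.ker ↔ ∀ i : Fin r, Multiplicative.toAdd (φ (g : G)) i.succ = 0 := by
      intro g
      rw [MonoidHom.mem_ker]
      constructor
      · intro hg i
        have := congrArg (fun v : Multiplicative (Fin r → ℤ) => Multiplicative.toAdd v i) hg
        exact this
      · intro hg
        apply Multiplicative.toAdd.injective
        funext i
        exact hg i
    have hle : φ.ker ≤ δ.ker := fun g hg => (hδ g).2 ((hmem g).1 hg 0)
    have hk : φ'.ker = φ.ker.subgroupOf δ.ker := by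
      ext g
      rw [hφ', Subgroup.mem_subgroupOf, hmem]
      constructor
      · intro hg i
        refine Fin.cases ?_ (fun j => hg j) i
        exact (hδ g).1 g.2
      · intro hg i
        exact hg i.succ
    refine zextC'' δ (ih φ' ?_)
    rw [hk]
    exact AtC.of_equiv (Subgroup.subgroupOfEquivOfLe hle) h

/-- A finitely generated torsion-free abelian group embeds in some `ℤ ^ r`. -/
theorem exists_zr {Q : Type*} [CommGroup Q] [Group.FG Q]
    (htf : ∀ (x : Q) (n : ℕ), 0 < n → x ^ n = 1 → x = 1) :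
    ∃ (r : ℕ) (j : Q →* Multiplicative (Fin r → ℤ)), Injective j := by
  have h1 : AddGroup.FG (Additive Q) := inferInstance
  have h2 : Module.Finite ℤ (Additive Q) := Module.Finite.iff_addGroup_fg.2 h1
  have h3 : Module.IsTorsionFree ℤ (Additive Q) := by
    rw [Module.isTorsionFree_iff_smul_eq_zero]
    intro n x hx
    by_cases hn : n = 0
    · exact Or.inl hn
    · right
      have h4 : (Additive.toMul x) ^ n = 1 := by
        have := congrArg Additive.toMul hx
        rwa [toMul_zsmul] at this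
      have h5 : (Additive.toMul x) ^ n.natAbs = 1 := pow_natAbs_eq_one.2 h4
      exact Additive.toMul.injective (htf _ _ (Int.natAbs_pos.2 hn) h5)
  have h4 : Module.Free ℤ (Additive Q) := inferInstance
  let b := Module.finBasis ℤ (Additive Q)
  let e : Additive Q →+ (Fin (Module.finrank ℤ (Additive Q)) → ℤ) :=
    b.equivFun.toLinearMap.toAddMonoidHom
  refine ⟨_, AddMonoidHom.toMultiplicativeRight e, ?_⟩
  intro x y hxy
  exact b.equivFun.injective hxy

/-- The class is closed under extensions by torsion-free abelian groups. -/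
theorem tfabC {F : Subfield ℂ} {c : ℕ} {G : Type u} [Group G] (L : Subgroup G)
    (hc : ∀ x y : G, x * y * x⁻¹ * y⁻¹ ∈ L)
    (ht : ∀ (x : G) (n : ℕ), 0 < n → x ^ n ∈ L → x ∈ L) (h : AtC F c L) :
    AtC F c G ∧ lcmFin G = lcmFin L := by
  have hn : L.Normal := ⟨fun n hn g => by
    have h1 := L.mul_mem (hc g n) hn
    rwa [inv_mul_cancel_right] at h1⟩
  have hfin : ∀ K : Subgroup G, Finite K → K ≤ L := by
    intro K hK x hx
    refine ht x (Nat.card K) Nat.card_pos ?_
    have h1 : (⟨x, hx⟩ : K) ^ Nat.card K = 1 := pow_card_eq_one'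
    have h2 : x ^ Nat.card K = 1 := congrArg Subtype.val h1
    rw [h2]
    exact L.one_mem
  obtain ⟨hbG, hl⟩ := lcmFin_eq L.subtype L.subtype_injective h.1 (fun K hK => by
    rw [Subgroup.range_subtype]
    exact hfin K hK)
  refine ⟨⟨hbG, fun a b A hA => ?_⟩, hl⟩
  obtain ⟨G₀, hfg, -, A₀, hA₀, hmap⟩ := exists_fg_matrix A hA (⊥ : Subgroup G)
    ⟨∅, by simp⟩
  let Q := G ⧸ L
  let _ : CommGroup Q := { (inferInstance : Group Q) with
    mul_comm := by
      intro x y
      obtain ⟨x, rfl⟩ := QuotientGroup.mk_surjective x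
      obtain ⟨y, rfl⟩ := QuotientGroup.mk_surjective y
      have h1 := hc y⁻¹ x⁻¹
      refine QuotientGroup.eq.2 ?_
      have h2 : (x * y)⁻¹ * (y * x) = y⁻¹ * x⁻¹ * (y⁻¹)⁻¹ * (x⁻¹)⁻¹ := by group
      rw [h2]
      exact h1 }
  let q : G →* Q := QuotientGroup.mk' L
  let Q₀ : Subgroup Q := G₀.map q
  have hfQ : Group.FG Q₀ := by
    rw [Group.fg_iff_subgroup_fg]
    classical
    obtain ⟨S, hS⟩ := hfg
    refine ⟨S.image q, ?_⟩
    rw [Finset.coe_image, ← MonoidHom.map_closure, hS]
  have htf : ∀ (x : Q₀) (n : ℕ), 0 < n → x ^ n = 1 → x = 1 := by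
    rintro ⟨_, x, hx, rfl⟩ n hn hxn
    have h1 : q (x ^ n) = 1 := by
      rw [map_pow]
      exact congrArg Subtype.val hxn
    have h2 : x ∈ L := ht x n hn ((QuotientGroup.eq_one_iff _).1 h1)
    exact Subtype.ext ((QuotientGroup.eq_one_iff x).2 h2)
  obtain ⟨r, j, hj⟩ := exists_zr htf
  let K₀ : Subgroup G := Q₀.comap q
  have hGK : G₀ ≤ K₀ := Subgroup.le_comap_map q G₀
  let φ : K₀ →* Multiplicative (Fin r → ℤ) := j.comp
    { toFun := fun x => (⟨q (x : G), x.2⟩ : Q₀)
      map_one' := Subtype.ext (map_one q)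
      map_mul' := fun x y => Subtype.ext (map_mul q _ _) }
  have hLK : L ≤ K₀ := by
    intro x hx
    rw [Subgroup.mem_comap]
    have h1 : q x = 1 := (QuotientGroup.eq_one_iff x).2 hx
    rw [h1]
    exact Q₀.one_mem
  have hφ : φ.ker = L.subgroupOf K₀ := by
    ext x
    rw [MonoidHom.mem_ker, Subgroup.mem_subgroupOf]
    constructor
    · intro h1
      have h2 : (⟨q (x : G), x.2⟩ : Q₀) = 1 := hj (by rw [map_one]; exact h1)
      exact (QuotientGroup.eq_one_iff _).1 (congrArg Subtype.val h2)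
    · intro h1
      have h2 : (⟨q (x : G), x.2⟩ : Q₀) = 1 :=
        Subtype.ext ((QuotientGroup.eq_one_iff _).2 h1)
      change j ⟨q (x : G), x.2⟩ = 1
      rw [h2, map_one]
  have hK0 : AtC F c K₀ := by
    refine zrC r φ ?_
    rw [hφ]
    exact AtC.of_equiv (Subgroup.subgroupOfEquivOfLe hLK) h
  obtain ⟨z, hz⟩ := hK0.2 a b (mapMat (Subgroup.inclusion hGK) A₀)
    (ploc_mapMat' _ (Subgroup.inclusion_injective hGK) A₀ hA₀)
  rw [vdim_mapMat _ (Subgroup.inclusion_injective hGK)] at hz
  obtain ⟨e', he'⟩ := (hbG.of_injective K₀.subtype (Subgroup.subtype_injective _)).2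
  refine ⟨e' * z, ?_⟩
  rw [← hmap, vdim_mapMat _ (Subgroup.subtype_injective _), he']
  push_cast at hz ⊢
  rw [← hz]
  ring

end Pool.Agent.FIO
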