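import Pool.Agent.FIO.W1

/-!
Finite powers of regular wreath products with a finite group.
-/

set_option autoImplicit false

open Function

namespace Pool.Agent.FIO

universe u

/-- Powers of wreath products of subgroups. -/
theorem card_dvd_wreath_pow {H P : Type*} [Group H] [Group P] [Finite P] (d : ℕ)
    (hb : BoundedFin (Fin d → RegularWreathProduct H P)) (K : Subgroup H) (hK : Finite K) :
    (Nat.card K ^ Nat.card P * Nat.card P) ^ d ∣ lcmFin (Fin d → RegularWreathProduct H P) := by
  let f : (Fin d → RegularWreathProduct K P) →* (Fin d → RegularWreathProduct H P) :=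
    MonoidHom.mk' (fun x j => ⟨fun q => ((x j).left q : H), (x j).right⟩) fun x y => rfl
  have hf : Injective f := by
    intro x y hxy
    funext j
    have h0 : f x j = f y j := congrFun hxy j
    have h1 : (fun q => ((x j).left q : H)) = fun q => ((y j).left q : H) :=
      congrArg RegularWreathProduct.left h0
    have h2 : (f x j).right = (f y j).right := congrArg RegularWreathProduct.right h0
    refine RegularWreathProduct.ext ?_ h2
    funext q
    exact Subtype.ext (congrFun h1 q)
  have hcard : Nat.card (Fin d → RegularWreathProduct K P) =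
      (Nat.card K ^ Nat.card P * Nat.card P) ^ d := by
    rw [Nat.card_fun, RegularWreathProduct.card, Nat.card_eq_fintype_card (α := Fin d),
      Fintype.card_fin]
  have h3 : Nat.card f.range = Nat.card (Fin d → RegularWreathProduct K P) :=
    (Nat.card_congr (MonoidHom.ofInjective hf).toEquiv).symm
  rw [← hcard, ← h3]
  exact hb.dvd_lcmFin _ (Finite.of_equiv _ (MonoidHom.ofInjective hf).toEquiv)

/-- The projection of a power of the wreath product to the power of `P`. -/
def wreathPowRight (H P : Type*) [Group H] [Group P] (d : ℕ) :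
    (Fin d → RegularWreathProduct H P) →* (Fin d → P) :=
  MonoidHom.mk' (fun x j => (x j).right) fun _ _ => rfl

/-- The base group of a power. -/
noncomputable def wreathPowBase (H P : Type*) [Group H] [Group P] (d : ℕ) :
    (wreathPowRight H P d).ker ≃* (Fin d × P → H) where
  toFun x jq := ((x : Fin d → RegularWreathProduct H P) jq.1).left jq.2
  invFun a := ⟨fun j => ⟨fun q => a (j, q), 1⟩, rfl⟩
  left_inv x := by
    have h : (fun j => ((x : Fin d → RegularWreathProduct H P) j).right) = 1 := x.2
    refine Subtype.ext (funext fun j => RegularWreathProduct.ext rfl ?_)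
    exact (congrFun h j).symm
  right_inv a := rfl
  map_mul' x y := by
    have h : (fun j => ((x : Fin d → RegularWreathProduct H P) j).right) = 1 := x.2
    funext jq
    change ((x : Fin d → RegularWreathProduct H P) jq.1).left jq.2 *
      ((y : Fin d → RegularWreathProduct H P) jq.1).left
        (((x : Fin d → RegularWreathProduct H P) jq.1).right⁻¹ * jq.2) = _
    have h1 : ((x : Fin d → RegularWreathProduct H P) jq.1).right = 1 := congrFun h jq.1
    rw [h1, inv_one, one_mul]
    rfl

/-- ROW V1. Finite powers of the wreath product. -/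
theorem Atiyah.wreath_pow {F : Subfield ℂ} {H P : Type u} [Group H] [Group P] [Finite P] (d : ℕ)
    (h : Atiyah F (Fin d × P → H)) (hH : BoundedFin H) :
    Atiyah F (Fin d → RegularWreathProduct H P) := by
  let π : (Fin d → RegularWreathProduct H P) →* (Fin d → P) := wreathPowRight H P d
  have hπ : Surjective π := fun q => ⟨fun j => ⟨1, q j⟩, rfl⟩
  have hB : Atiyah F π.ker := Atiyah.of_equiv (wreathPowBase H P d) h
  have hidx : π.ker.index = Nat.card P ^ d := by
    rw [Subgroup.index_ker, MonoidHom.range_eq_top.2 hπ,
      Nat.card_congr Subgroup.topEquiv.toEquiv, Nat.card_fun, Nat.card_eq_fintype_card (α := Fin d),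
      Fintype.card_fin]
  have hfi : π.ker.FiniteIndex := ⟨by rw [hidx]; exact (pow_pos Nat.card_pos d).ne'⟩
  have hb : BoundedFin (Fin d → RegularWreathProduct H P) := BoundedFin.of_index π.ker hB.1
  have hl : lcmFin π.ker ∣ lcmFin H ^ (d * Nat.card P) := by
    have h1 : lcmFin (Fin d × P → H) ∣ lcmFin H ^ (d * Nat.card P) := by
      have h2 := lcmFin_pi_dvd (P := Fin d × P) hH
      rwa [Nat.card_prod, Nat.card_eq_fintype_card (α := Fin d), Fintype.card_fin] at h2
    exact ((h.1.of_injective (wreathPowBase H P d).toMonoidHom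
      (wreathPowBase H P d).injective).2).trans h1
  have hdvd : Nat.card P ^ d * lcmFin π.ker ∣ lcmFin (Fin d → RegularWreathProduct H P) := by
    have h0 : Nat.card P ^ d ∣ lcmFin (Fin d → RegularWreathProduct H P) :=
      (pow_dvd_pow_of_dvd (Dvd.intro_left _ rfl) d).trans
        (card_dvd_wreath_pow d hb ⊥ inferInstance)
    obtain ⟨M, hM⟩ := h0
    have hP0 : 0 < Nat.card P ^ d := pow_pos Nat.card_pos d
    have hM0 : 0 < M := by
      rcases Nat.eq_zero_or_pos M with h1 | h1
      · have := hb.lcmFin_pos
        rw [hM, h1] at this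
        simp at this
      · exact h1
    rw [hM]
    refine Nat.mul_dvd_mul_left _ (hl.trans ?_)
    have hm0 := hH.lcmFin_pos
    refine (Nat.factorization_prime_le_iff_dvd (pow_pos hm0 _).ne' hM0.ne').1 fun p hp => ?_
    obtain ⟨K, hK, hKp⟩ := exists_card_factorization hH hp
    have h2 : Nat.card K ^ (d * Nat.card P) ∣ M := by
      have h3 := card_dvd_wreath_pow d hb K hK
      rw [hM, mul_pow, ← pow_mul, mul_comm (Nat.card P) d, mul_comm (Nat.card P ^ d) M] at h3
      exact Nat.dvd_of_mul_dvd_mul_right hP0 h3
    have h4 : (Nat.card K ^ (d * Nat.card P)).factorization p ≤ M.factorization p :=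
      (Nat.factorization_prime_le_iff_dvd (pow_pos Nat.card_pos _).ne' hM0.ne').2 h2 p hp
    refine le_trans ?_ h4
    rw [Nat.factorization_pow, Nat.factorization_pow, Finsupp.smul_apply, Finsupp.smul_apply,
      smul_eq_mul, smul_eq_mul]
    exact Nat.mul_le_mul_left _ hKp
  refine ⟨hb, fun a b A hA => ?_⟩
  obtain ⟨z, hz⟩ := index_int hB A hA
  obtain ⟨e, he⟩ := hdvd
  refine ⟨e * z, ?_⟩
  rw [hidx] at hz
  push_cast at hz ⊢
  rw [← hz, he]
  push_cast
  ring

end Pool.Agent.FIO
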