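import Pool.Agent.FIO.W3

set_option autoImplicit false

open Function

namespace Pool.Agent.FIO

universe u

/-- ROW V2. The part of a subgroup of a power of `G` in the power of the core. -/
theorem Hered.inter {F : Subfield ℂ} {G : Type u} [Group G] (H : Subgroup G) (hf : H.FiniteIndex)
    (hH : Hered F H) (d : ℕ) (K : Subgroup (Fin d → G)) :
    ∃ K₀ : Subgroup K, K₀.FiniteIndex ∧ Hered F K₀ := by
  have hfin : Finite (G ⧸ H.normalCore) := inferInstance
  let q : (Fin d → G) →* (Fin d → G ⧸ H.normalCore) :=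
    MonoidHom.mk' (fun x j => (QuotientGroup.mk' H.normalCore) (x j)) fun x y => by
      funext j
      exact map_mul _ _ _
  let π : K →* (Fin d → G ⧸ H.normalCore) := q.comp K.subtype
  have hπ : Finite π.range := inferInstance
  have hmem : ∀ (x : π.ker) (j : Fin d), ((x : K) : Fin d → G) j ∈ H := by
    intro x j
    have h1 : (QuotientGroup.mk' H.normalCore) (((x : K) : Fin d → G) j) = 1 := congrFun x.2 j
    exact H.normalCore_le ((QuotientGroup.eq_one_iff _).1 h1)
  let g : π.ker →* (ULift.{u} (Fin d) → H) :=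
    MonoidHom.mk' (fun x j => ⟨((x : K) : Fin d → G) j.down, hmem x j.down⟩) fun x y => rfl
  refine ⟨π.ker, Subgroup.finiteIndex_ker π, hH.pi (ULift.{u} (Fin d)) g fun x y hxy => ?_⟩
  refine Subtype.ext (Subtype.ext (funext fun j => ?_))
  exact congrArg Subtype.val (congrFun hxy ⟨j⟩)

end Pool.Agent.FIO
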