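import Mathlib

/-!
Chains of index `p` steps above a normal subgroup whose quotient is a finite `p`-group.
-/

set_option autoImplicit false

open Function

namespace Pool.Agent.FIO

universe u

private theorem pgroup_aux {p : ℕ} (hp : p.Prime) (S : ∀ (G : Type u) [Group G], Prop)
    (hiso : ∀ (G G' : Type u) [Group G] [Group G'], (G ≃* G') → S G → S G')
    (hS : ∀ (G : Type u) [Group G] (M : Subgroup G) [M.Normal], M.index = p → S M → S G) (n : ℕ) :
    ∀ (G : Type u) [Group G] (N : Subgroup G) [N.Normal], N.index = p ^ n → S N → S G := by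
  induction n with
  | zero =>
    intro G _ N _ hi hN
    rw [pow_zero, Subgroup.index_eq_one] at hi
    subst hi
    exact hiso _ _ Subgroup.topEquiv hN
  | succ n ih =>
    intro G _ N _ hi hN
    have hfi : N.FiniteIndex := ⟨by rw [hi]; exact (pow_pos hp.pos _).ne'⟩
    have hf : Finite (G ⧸ N) := inferInstance
    have hpf : Fact p.Prime := ⟨hp⟩
    have hcard : Nat.card (G ⧸ N) = p ^ (n + 1) := by rw [← Subgroup.index_eq_card]; exact hi
    obtain ⟨R, hR⟩ := Sylow.exists_subgroup_card_pow_prime (G := G ⧸ N) p (n := n)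
      (by rw [hcard]; exact pow_dvd_pow p (Nat.le_succ n))
    have hRi : R.index = p := by
      have h1 := R.card_mul_index
      rw [hR, hcard, pow_succ] at h1
      exact Nat.eq_of_mul_eq_mul_left (pow_pos hp.pos n) h1
    have hRn : R.Normal := Subgroup.normal_of_index_eq_minFac_card
      (by rw [hRi, hcard, Nat.Prime.pow_minFac hp n.succ_ne_zero])
    have hNM : N ≤ R.comap (QuotientGroup.mk' N) := by
      intro x hx
      rw [Subgroup.mem_comap, QuotientGroup.mk'_apply, (QuotientGroup.eq_one_iff x).2 hx]
      exact one_mem _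
    have hMi : (R.comap (QuotientGroup.mk' N)).index = p := by
      rw [Subgroup.index_comap_of_surjective _ (QuotientGroup.mk'_surjective N), hRi]
    have hrel : (N.subgroupOf (R.comap (QuotientGroup.mk' N))).index = p ^ n := by
      have h1 := Subgroup.relIndex_mul_index hNM
      rw [hMi, hi, pow_succ] at h1
      exact Nat.eq_of_mul_eq_mul_right hp.pos h1
    refine hS G (R.comap (QuotientGroup.mk' N)) hMi (ih _ _ hrel ?_)
    exact hiso _ _ (Subgroup.subgroupOfEquivOfLe hNM).symm hN

/-- ROW V3. -/
theorem pgroup_induction {p : ℕ} (hp : p.Prime) (S : ∀ (G : Type u) [Group G], Prop)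
    (hiso : ∀ (G G' : Type u) [Group G] [Group G'], (G ≃* G') → S G → S G')
    (hS : ∀ (G : Type u) [Group G] (M : Subgroup G) [M.Normal], M.index = p → S M → S G)
    {G : Type u} [Group G] (N : Subgroup G) [N.Normal] [N.FiniteIndex]
    (hP : IsPGroup p (G ⧸ N)) (hN : S N) : S G := by
  have hpf : Fact p.Prime := ⟨hp⟩
  have hf : Finite (G ⧸ N) := inferInstance
  obtain ⟨n, hn⟩ := IsPGroup.iff_card.1 hP
  exact pgroup_aux hp S hiso hS n G N (by rw [Subgroup.index_eq_card]; exact hn) hN

end Pool.Agent.FIO
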