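import Pool.Agent.FIO.WrDefs

set_option autoImplicit false

open Function

namespace Pool.Agent.FIO

universe u

/-- ROW W2. Kaloujnine and Krasner: a group embeds in the wreath product of a normal subgroup and the
quotient. -/
theorem exists_wreath {G : Type u} [Group G] (N : Subgroup G) [N.Normal] :
    ∃ f : G →* RegularWreathProduct N (G ⧸ N), Injective f := by
  classical
  have hout : ∀ x : G ⧸ N, ((Quotient.out x : G) : G ⧸ N) = x := fun x => QuotientGroup.out_eq' x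
  have hmem : ∀ (g : G) (x : G ⧸ N),
      (Quotient.out x)⁻¹ * g * Quotient.out ((g : G ⧸ N)⁻¹ * x) ∈ N := by
    intro g x
    rw [← QuotientGroup.eq_one_iff, QuotientGroup.mk_mul, QuotientGroup.mk_mul,
      QuotientGroup.mk_inv, hout, hout, mul_assoc, mul_inv_cancel_left, inv_mul_cancel]
  let F : G → RegularWreathProduct N (G ⧸ N) := fun g =>
    ⟨fun x => ⟨(Quotient.out x)⁻¹ * g * Quotient.out ((g : G ⧸ N)⁻¹ * x), hmem g x⟩, (g : G ⧸ N)⟩
  have hF : ∀ a b, F (a * b) = F a * F b := by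
    intro a b
    refine RegularWreathProduct.ext ?_ rfl
    funext x
    refine Subtype.ext ?_
    show (Quotient.out x)⁻¹ * (a * b) * Quotient.out (((a * b : G) : G ⧸ N)⁻¹ * x) =
      ((Quotient.out x)⁻¹ * a * Quotient.out ((a : G ⧸ N)⁻¹ * x)) *
        ((Quotient.out ((a : G ⧸ N)⁻¹ * x))⁻¹ * b *
          Quotient.out ((b : G ⧸ N)⁻¹ * ((a : G ⧸ N)⁻¹ * x)))
    rw [QuotientGroup.mk_mul, mul_inv_rev, mul_assoc (b : G ⧸ N)⁻¹]
    group
  refine ⟨MonoidHom.mk' F hF, ?_⟩
  rw [injective_iff_map_eq_one]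
  intro g hg
  have h1 : (g : G ⧸ N) = 1 := congrArg RegularWreathProduct.right hg
  have h2 : (Quotient.out (1 : G ⧸ N))⁻¹ * g * Quotient.out ((g : G ⧸ N)⁻¹ * 1) = 1 :=
    congrArg Subtype.val (congrFun (congrArg RegularWreathProduct.left hg) 1)
  rw [h1, inv_one, one_mul] at h2
  have h3 : g = (Quotient.out (1 : G ⧸ N)) * ((Quotient.out (1 : G ⧸ N))⁻¹ * g *
      Quotient.out (1 : G ⧸ N)) * (Quotient.out (1 : G ⧸ N))⁻¹ := by group
  rw [h3, h2, mul_one, mul_inv_cancel]

end Pool.Agent.FIO
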