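import Pool.Agent.FIO.WrDefs

set_option autoImplicit false

open Function

namespace Pool.Agent.FIO

universe u

/-- A group embedded in a power of a hereditary group. -/
theorem Hered.pi {F : Subfield ℂ} {H : Type u} [Group H] (h : Hered F H) (ι : Type u) [Finite ι]
    {L : Type u} [Group L] (f : L →* (ι → H)) (hf : Injective f) : Hered F L := by
  intro d K
  have := Fintype.ofFinite ι
  let e : Fin d × ι ≃ Fin (Fintype.card (Fin d × ι)) := Fintype.equivFin _
  let g : (Fin d → L) →* (Fin (Fintype.card (Fin d × ι)) → H) :=
    { toFun := fun x j => f (x (e.symm j).1) (e.symm j).2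
      map_one' := by
        funext j
        simp
      map_mul' := by
        intro x y
        funext j
        simp }
  have hg : Injective g := by
    intro x y hxy
    funext i
    refine hf ?_
    funext k
    have h1 := congrFun hxy (e (i, k))
    simpa [g] using h1
  exact Atiyah.of_equiv (K.equivMapOfInjective g hg) (h _ (K.map g))

theorem Hered.of_injective {F : Subfield ℂ} {H : Type u} [Group H] (h : Hered F H)
    {L : Type u} [Group L] (f : L →* H) (hf : Injective f) : Hered F L := by
  refine h.pi PUnit.{u + 1} (f := { toFun := fun x _ => f x, map_one' := ?_, map_mul' := ?_ }) ?_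
  · funext _
    simp
  · intro x y
    funext _
    simp
  · intro x y hxy
    exact hf (congrFun hxy PUnit.unit)

theorem Hered.power {F : Subfield ℂ} {H : Type u} [Group H] (h : Hered F H) (ι : Type u)
    [Finite ι] : Atiyah F (ι → H) := by
  have := Fintype.ofFinite ι
  let e : ι ≃ Fin (Fintype.card ι) := Fintype.equivFin _
  have h1 : Atiyah F (⊤ : Subgroup (Fin (Fintype.card ι) → H)) := h _ ⊤
  have h2 : Atiyah F (Fin (Fintype.card ι) → H) := Atiyah.of_equiv Subgroup.topEquiv.symm h1
  let g : (ι → H) ≃* (Fin (Fintype.card ι) → H) :=
    { toFun := fun x j => x (e.symm j)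
      invFun := fun y i => y (e i)
      left_inv := fun x => by
        funext i
        simp
      right_inv := fun y => by
        funext j
        simp
      map_mul' := fun x y => rfl }
  exact Atiyah.of_equiv g h2

theorem Hered.self {F : Subfield ℂ} {H : Type u} [Group H] (h : Hered F H) : Atiyah F H := by
  let g : H ≃* (⊤ : Subgroup (Fin 1 → H)) :=
    { toFun := fun x => ⟨fun _ => x, trivial⟩
      invFun := fun y => (y : Fin 1 → H) 0
      left_inv := fun x => rfl
      right_inv := fun y => by
        refine Subtype.ext ?_
        funext i
        fin_cases i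
        rfl
      map_mul' := fun x y => rfl }
  exact Atiyah.of_equiv g (h 1 ⊤)

/-- For torsion-free groups it is enough that all finite powers are in `A_F`. -/
theorem hered_torFree {F : Subfield ℂ} {H : Type u} [Group H] (hH : TorFree H) :
    Hered F H ↔ ∀ d : ℕ, Atiyah F (Fin d → H) := by
  constructor
  · intro h d
    exact Atiyah.of_equiv Subgroup.topEquiv.symm (h d ⊤)
  · intro h d K
    have hT : TorFree (Fin d → H) := by
      intro g n hn hg
      funext i
      exact hH _ n hn (congrFun hg i)
    have hK : TorFree K := by
      intro g n hn hg
      exact Subtype.ext (hT g n hn (by simpa using congrArg Subtype.val hg))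
    refine (h d).of_injective K.subtype K.subtype_injective ?_
    rw [(lcmFin_torFree hT).2, (lcmFin_torFree hK).2]

end Pool.Agent.FIO
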