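import Pool.Agent.FIO.WrDefs
import Pool.Agent.FIO.Irr

set_option autoImplicit false

open Function

namespace Pool.Agent.FIO

universe u

/-- Sylow subgroups of a finite quotient. -/
theorem atiyah_sylow' {F : Subfield ℂ} {G : Type u} [Group G] (N : Subgroup G)
    [N.Normal] [N.FiniteIndex]
    (h : ∀ (p : ℕ) (_ : p.Prime) (K : Subgroup G), N ≤ K → IsPGroup p (K.map (QuotientGroup.mk' N)) →
      Atiyah F K) : Atiyah F G := by
  refine Atiyah.of_atP fun p hp => ?_
  have hpf : Fact p.Prime := ⟨hp⟩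
  have hfin : Finite (G ⧸ N) := inferInstance
  obtain ⟨P⟩ : Nonempty (Sylow p (G ⧸ N)) := inferInstance
  have hs : Surjective (QuotientGroup.mk' N) := QuotientGroup.mk'_surjective N
  have hNK : N ≤ (P : Subgroup (G ⧸ N)).comap (QuotientGroup.mk' N) := by
    intro x hx
    rw [Subgroup.mem_comap, QuotientGroup.mk'_apply, (QuotientGroup.eq_one_iff x).2 hx]
    exact one_mem _
  have hK : ((P : Subgroup (G ⧸ N)).comap (QuotientGroup.mk' N)).map (QuotientGroup.mk' N) =
      (P : Subgroup (G ⧸ N)) := Subgroup.map_comap_eq_self_of_surjective hs _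
  have hi : ¬ p ∣ ((P : Subgroup (G ⧸ N)).comap (QuotientGroup.mk' N)).index := by
    rw [Subgroup.index_comap_of_surjective _ hs]
    exact P.not_dvd_index
  have hfi : ((P : Subgroup (G ⧸ N)).comap (QuotientGroup.mk' N)).FiniteIndex :=
    ⟨fun h0 => hi (by rw [h0]; exact dvd_zero p)⟩
  exact AtP.of_index hp _ hi ((h p hp _ hNK (by rw [hK]; exact P.isPGroup')).atP hp)

/-- Sylow subgroups, torsion-free case. -/
theorem atiyah_sylow {F : Subfield ℂ} {G : Type u} [Group G] (_hG : TorFree G) (N : Subgroup G)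
    [N.Normal] [N.FiniteIndex]
    (h : ∀ (p : ℕ) (_ : p.Prime) (K : Subgroup G), N ≤ K → IsPGroup p (K.map (QuotientGroup.mk' N)) →
      Atiyah F K) : Atiyah F G :=
  atiyah_sylow' N h

end Pool.Agent.FIO
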