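import Pool.Agent.FIO.W1
import Pool.Agent.FIO.W2
import Pool.Agent.FIO.W3
import Pool.Agent.FIO.W5

set_option autoImplicit false

open Function

namespace Pool.Agent.FIO

universe u

/-- ROW V4. The base group of the wreath product. -/
theorem Hered.base {F : Subfield ℂ} {H P : Type u} [Group H] [Group P] [Finite P]
    (h : Hered F H) : ∃ B : Subgroup (RegularWreathProduct H P), B.FiniteIndex ∧ Hered F B := by
  let π : RegularWreathProduct H P →* P := RegularWreathProduct.rightHom
  have hfin : Finite π.range := inferInstance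
  exact ⟨π.ker, Subgroup.finiteIndex_ker π,
    h.pi P (wreathBase H P).toMonoidHom (wreathBase H P).injective⟩

theorem of_closed_normal (F : Subfield ℂ)
    (hS : ∀ (G : Type u) [Group G] (K : Subgroup G), Atiyah F G → Atiyah F K)
    {G : Type u} [Group G] (N : Subgroup G) [N.Normal] [N.FiniteIndex]
    (h : ∀ p k : ℕ, p.Prime → p ^ k ∣ N.index → Atiyah F (Fin (p ^ k) → N)) : Atiyah F G := by
  have h0 : Atiyah F (Fin (2 ^ 0) → N) := h 2 0 Nat.prime_two (by simp)
  have hNb : BoundedFin N := by
    let g : N →* (Fin (2 ^ 0) → N) := MonoidHom.mk' (fun x _ => x) fun _ _ => rfl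
    have hg : Injective g := fun x y hxy => congrFun hxy ⟨0, by simp⟩
    exact (h0.1.of_injective g hg).1
  refine atiyah_sylow' N fun p hp K hNK hK => ?_
  have hpf : Fact p.Prime := ⟨hp⟩
  have hfi : (N.subgroupOf K).FiniteIndex := inferInstance
  have hf : Finite (K ⧸ N.subgroupOf K) := inferInstance
  have e1 : N.subgroupOf K ≃* N := Subgroup.subgroupOfEquivOfLe hNK
  have hP : IsPGroup p (K ⧸ N.subgroupOf K) := by
    refine hK.of_injective (QuotientGroup.lift (N.subgroupOf K)
      (((QuotientGroup.mk' N).comp K.subtype).codRestrict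
        (K.map (QuotientGroup.mk' N)) fun x => ⟨x, x.2, rfl⟩) ?_) ?_
    · intro x hx
      apply Subtype.ext
      exact (QuotientGroup.eq_one_iff _).2 hx
    · rw [← MonoidHom.ker_eq_bot_iff, eq_bot_iff]
      intro x hx
      obtain ⟨y, rfl⟩ := QuotientGroup.mk_surjective x
      have h1 : ((y : G) : G ⧸ N) = 1 := congrArg Subtype.val hx
      rw [QuotientGroup.eq_one_iff] at h1
      exact (QuotientGroup.eq_one_iff y).2 h1
  obtain ⟨k, hk⟩ := IsPGroup.iff_card.1 hP
  have hdvd : p ^ k ∣ N.index := by
    rw [← hk, ← Subgroup.index_eq_card]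
    exact Dvd.intro _ (Subgroup.relIndex_mul_index hNK)
  have e2 : (K ⧸ N.subgroupOf K) ≃ Fin (p ^ k) := by
    have := Fintype.ofFinite (K ⧸ N.subgroupOf K)
    refine Fintype.equivFinOfCardEq ?_
    rw [← Nat.card_eq_fintype_card, hk]
  have h2 : Atiyah F ((K ⧸ N.subgroupOf K) → N.subgroupOf K) := by
    let g : ((K ⧸ N.subgroupOf K) → N.subgroupOf K) ≃* (Fin (p ^ k) → N) :=
      { toFun := fun x j => e1 (x (e2.symm j))
        invFun := fun y i => e1.symm (y (e2 i))
        left_inv := fun x => by
          funext i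
          simp
        right_inv := fun y => by
          funext j
          simp
        map_mul' := fun x y => by
          funext j
          simp }
    exact Atiyah.of_equiv g (h p k hp hdvd)
  have hb : BoundedFin (N.subgroupOf K) := (hNb.of_injective e1.toMonoidHom e1.injective).1
  obtain ⟨f, hf2⟩ := exists_wreath (N.subgroupOf K)
  have h3 : Atiyah F f.range := hS _ f.range (Atiyah.wreath h2 hb)
  exact Atiyah.of_equiv (MonoidHom.ofInjective hf2) h3

end Pool.Agent.FIO
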