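import Pool.Agent.FIO.WrDefs

set_option autoImplicit false

open Function

namespace Pool.Agent.FIO

universe u

/-- The part of a subgroup of the wreath product in the base group. -/
theorem wreath_base {H P : Type u} [Group H] [Group P] [Finite P]
    (K : Subgroup (RegularWreathProduct H P)) :
    ∃ K₀ : Subgroup K, K₀.FiniteIndex ∧ ∃ f : K₀ →* (P → H), Injective f := by
  let π : K →* P := RegularWreathProduct.rightHom.comp K.subtype
  have hπ : ∀ x : π.ker, ((x : K) : RegularWreathProduct H P).right = 1 := fun x => x.2
  have hfin : Finite π.range := inferInstance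
  refine ⟨π.ker, Subgroup.finiteIndex_ker π, ⟨⟨⟨fun x => ((x : K) : RegularWreathProduct H P).left,
    rfl⟩, fun x y => ?_⟩, fun x y hxy => ?_⟩⟩
  · change ((x : K) : RegularWreathProduct H P).left * (fun q =>
      ((y : K) : RegularWreathProduct H P).left
        (((x : K) : RegularWreathProduct H P).right⁻¹ * q)) = _
    rw [hπ x]
    simp only [inv_one, one_mul]
  · exact Subtype.ext (Subtype.ext (RegularWreathProduct.ext hxy ((hπ x).trans (hπ y).symm)))

end Pool.Agent.FIO
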