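import Pool.Agent.FIO.W2
import Pool.Agent.FIO.W3
import Pool.Agent.FIO.W4
import Pool.Agent.FIO.W5

set_option autoImplicit false

open Function

namespace Pool.Agent.FIO

universe u

theorem atiyah_of_subgroups {F : Subfield ℂ} {H L : Type u} [Group H] [Group L]
    (h : ∀ K : Subgroup H, Atiyah F K) (f : L →* H) (hf : Injective f) : Atiyah F L :=
  AtC.one_iff.1 (AtC.of_equiv (MonoidHom.ofInjective hf) (AtC.one_iff.2 (h f.range)))

/-- Heredity at the wreath products with finite `p`-groups gives overgroups of finite index. -/
theorem atiyah_of_wreath {F : Subfield ℂ}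
    (h : ∀ (p : ℕ) (H P : Type u) [Group H] [Group P], p.Prime → Finite P → IsPGroup p P →
      Hered F H → ∀ K : Subgroup (RegularWreathProduct H P), Atiyah F K)
    {G : Type u} [Group G] (H : Subgroup G) [H.FiniteIndex] (hH : Hered F H) : Atiyah F G := by
  have hN : Hered F H.normalCore :=
    hH.of_injective (Subgroup.inclusion H.normalCore_le)
      (Subgroup.inclusion_injective H.normalCore_le)
  refine atiyah_sylow' H.normalCore fun p hp K hNK hK => ?_
  have hN' : Hered F (H.normalCore.subgroupOf K) :=
    hN.of_injective (Subgroup.subgroupOfEquivOfLe hNK).toMonoidHom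
      (Subgroup.subgroupOfEquivOfLe hNK).injective
  obtain ⟨f, hf⟩ := exists_wreath (H.normalCore.subgroupOf K)
  have hfin : (H.normalCore.subgroupOf K).FiniteIndex := inferInstance
  have hP : IsPGroup p (K ⧸ H.normalCore.subgroupOf K) := by
    refine hK.of_injective (QuotientGroup.lift (H.normalCore.subgroupOf K)
      (((QuotientGroup.mk' H.normalCore).comp K.subtype).codRestrict
        (K.map (QuotientGroup.mk' H.normalCore)) fun x => ⟨x, x.2, rfl⟩) ?_) ?_
    · intro x hx
      apply Subtype.ext
      exact (QuotientGroup.eq_one_iff _).2 hx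
    · rw [← MonoidHom.ker_eq_bot_iff, eq_bot_iff]
      intro x hx
      obtain ⟨y, rfl⟩ := QuotientGroup.mk_surjective x
      have h1 : ((y : G) : G ⧸ H.normalCore) = 1 := congrArg Subtype.val hx
      rw [QuotientGroup.eq_one_iff] at h1
      exact (QuotientGroup.eq_one_iff y).2 h1
  exact atiyah_of_subgroups (h p _ _ hp inferInstance hP hN') f hf

/-- Overgroups of finite index give heredity at all finite wreath products. -/
theorem wreath_of_atiyah {F : Subfield ℂ}
    (h : ∀ (G : Type u) [Group G] (H : Subgroup G), H.FiniteIndex → Hered F H → Atiyah F G)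
    {H P : Type u} [Group H] [Group P] [Finite P] (hH : Hered F H)
    (K : Subgroup (RegularWreathProduct H P)) : Atiyah F K := by
  obtain ⟨K₀, hK₀, f, hf⟩ := wreath_base K
  exact h K K₀ hK₀ (hH.pi P f hf)

end Pool.Agent.FIO
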