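import Pool.Agent.FIO.W1
import Pool.Agent.FIO.W6

set_option autoImplicit false

open Function

namespace Pool.Agent.FIO

universe u

/-- A class of groups closed under subgroups (up to isomorphism). -/
def SubClass (C : ∀ (G : Type u) [Group G], Prop) : Prop :=
  ∀ (G G₂ : Type u) [Group G] [Group G₂] (f : G →* G₂), Injective f → C G₂ → C G

theorem subClass_true : SubClass.{u} (fun _ _ => True) := fun _ _ _ _ _ _ _ => trivial

theorem subClass_torFree : SubClass.{u} (fun G _ => TorFree G) := by
  intro G G₂ _ _ f hf h g n hn hg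
  exact hf (by rw [map_one]; exact h (f g) n hn (by rw [← map_pow, hg, map_one]))

theorem Hered.wreath {F : Subfield ℂ} {H P : Type u} [Group H] [Group P] [Finite P]
    (h : Hered F H) : Atiyah F (RegularWreathProduct H P) :=
  Atiyah.wreath (h.power P) h.self.1

/-- Heredity at the wreath products with finite `p`-groups, inside a class of groups, gives
overgroups of finite index. -/
theorem atiyah_of_wreathC {F : Subfield ℂ} {C : ∀ (G : Type u) [Group G], Prop} (hC : SubClass C)
    (h : ∀ (p : ℕ) (H P : Type u) [Group H] [Group P], p.Prime → Finite P → IsPGroup p P → C H →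
      Hered F H → ∀ K : Subgroup (RegularWreathProduct H P), C K → Atiyah F K)
    {G : Type u} [Group G] (hG : C G) (H : Subgroup G) [H.FiniteIndex] (hH : Hered F H) :
    Atiyah F G := by
  have hN : Hered F H.normalCore :=
    hH.of_injective (Subgroup.inclusion H.normalCore_le)
      (Subgroup.inclusion_injective H.normalCore_le)
  refine atiyah_sylow' H.normalCore fun p hp K hNK hK => ?_
  have hN' : Hered F (H.normalCore.subgroupOf K) :=
    hN.of_injective (Subgroup.subgroupOfEquivOfLe hNK).toMonoidHom
      (Subgroup.subgroupOfEquivOfLe hNK).injective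
  have hCK : C K := hC _ _ K.subtype K.subtype_injective hG
  have hCN : C (H.normalCore.subgroupOf K) :=
    hC _ _ (H.normalCore.subgroupOf K).subtype (Subgroup.subtype_injective _) hCK
  obtain ⟨f, hf⟩ := exists_wreath (H.normalCore.subgroupOf K)
  have hfin : (H.normalCore.subgroupOf K).FiniteIndex := inferInstance
  have hP : IsPGroup p (K ⧸ H.normalCore.subgroupOf K) := by
    refine hK.of_injective (QuotientGroup.lift (H.normalCore.subgroupOf K)
      (((QuotientGroup.mk' H.normalCore).comp K.subtype).codRestrict
        (K.map (QuotientGroup.mk' H.normalCore)) fun x => ⟨x, x.2, rfl⟩) ?_) ?_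
    · intro x hx
      apply Subtype.ext
      exact (QuotientGroup.eq_one_iff _).2 hx
    · rw [← MonoidHom.ker_eq_bot_iff, eq_bot_iff]
      intro x hx
      obtain ⟨y, rfl⟩ := QuotientGroup.mk_surjective x
      have h1 : ((y : G) : G ⧸ H.normalCore) = 1 := congrArg Subtype.val hx
      rw [QuotientGroup.eq_one_iff] at h1
      exact (QuotientGroup.eq_one_iff y).2 h1
  have hR : C f.range :=
    hC _ _ (MonoidHom.ofInjective hf).symm.toMonoidHom (MonoidHom.ofInjective hf).symm.injective hCK
  exact AtC.one_iff.1 (AtC.of_equiv (MonoidHom.ofInjective hf)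
    (AtC.one_iff.2 (h p _ _ hp inferInstance hP hCN hN' f.range hR)))

/-- **Q1 for hereditary subgroups is heredity at wreath products.** -/
theorem tfae_wreath (F : Subfield ℂ) {C : ∀ (G : Type u) [Group G], Prop} (hC : SubClass C) :
    List.TFAE [
      ∀ (G : Type u) [Group G] (H : Subgroup G), C G → H.FiniteIndex → Hered F H → Atiyah F G,
      ∀ (H P : Type u) [Group H] [Group P] (K : Subgroup (RegularWreathProduct H P)), Finite P →
        Hered F H → C K → Atiyah F K,
      ∀ (p : ℕ) (H P : Type u) [Group H] [Group P] (K : Subgroup (RegularWreathProduct H P)),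
        p.Prime → Finite P → IsPGroup p P → C H → Hered F H → C K → Atiyah F K] := by
  tfae_have 1 → 2 := by
    intro h H P _ _ K hP hH hK
    obtain ⟨K₀, hK₀, f, hf⟩ := wreath_base K
    exact h K K₀ hK hK₀ (hH.pi P f hf)
  tfae_have 2 → 3 := fun h p H P _ _ K _ hP _ _ hH hK => h H P K hP hH hK
  tfae_have 3 → 1 := fun h G _ H hG hHi hH =>
    atiyah_of_wreathC hC (fun p H P _ _ hp hP hPp hCH hH K hK => h p H P K hp hP hPp hCH hH hK) hG H
      hH
  tfae_finish

/-- Heredity gives Q1 for all groups with all finite powers in `A_F`. -/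
theorem atiyah_of_heredity {F : Subfield ℂ}
    (h : ∀ (G : Type u) [Group G] (K : Subgroup G), Atiyah F G → Atiyah F K)
    {G : Type u} [Group G] (H : Subgroup G) [H.FiniteIndex]
    (hH : ∀ d : ℕ, Atiyah F (Fin d → H)) : Atiyah F G :=
  atiyah_of_wreathC subClass_true (fun _ _ _ _ _ _ _hP _ _ hH K _ => h _ K hH.wreath) trivial H
    fun d K => h _ K (hH d)

end Pool.Agent.FIO
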