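import Pool.Agent.FIO.V1
import Pool.Agent.FIO.V2
import Pool.Agent.FIO.V3
import Pool.Agent.FIO.V4
import Pool.Agent.FIO.W7

set_option autoImplicit false

open Function

namespace Pool.Agent.FIO

universe u

/-- All finite powers of the wreath product are in `A_F`. -/
theorem Hered.wreath_pow {F : Subfield ℂ} {H P : Type u} [Group H] [Group P] [Finite P]
    (h : Hered F H) (d : ℕ) : Atiyah F (Fin d → RegularWreathProduct H P) := by
  refine Atiyah.wreath_pow d ?_ h.self.1
  have h1 : Atiyah F (ULift.{u} (Fin d) × P → H) := h.power (ULift.{u} (Fin d) × P)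
  let g : (Fin d × P → H) ≃* (ULift.{u} (Fin d) × P → H) :=
    { toFun := fun x jq => x (jq.1.down, jq.2)
      invFun := fun y jq => y (⟨jq.1⟩, jq.2)
      left_inv := fun x => rfl
      right_inv := fun y => rfl
      map_mul' := fun x y => rfl }
  exact Atiyah.of_equiv g h1

/-- A class of groups closed under subgroups (up to isomorphism) and finite powers. -/
structure PowClass (C : ∀ (G : Type u) [Group G], Prop) : Prop where
  sub : SubClass C
  pow : ∀ (G : Type u) [Group G] (d : ℕ), C G → C (Fin d → G)

theorem powClass_true : PowClass.{u} (fun _ _ => True) := ⟨subClass_true, fun _ _ _ _ => trivial⟩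

theorem powClass_torFree : PowClass.{u} (fun G _ => TorFree G) :=
  ⟨subClass_torFree, fun _ _ _ h g n hn hg => funext fun i => h (g i) n hn (congrFun hg i)⟩

/-- **Q1 for hereditary subgroups is heredity at wreath products with groups of prime order.** -/
theorem tfae_wreath_prime (F : Subfield ℂ) {C : ∀ (G : Type u) [Group G], Prop}
    (hC : PowClass C) : List.TFAE [
      ∀ (G : Type u) [Group G] (H : Subgroup G), C G → H.FiniteIndex → Hered F H → Atiyah F G,
      ∀ (G : Type u) [Group G] (H : Subgroup G), C G → H.FiniteIndex → Hered F H → Hered F G,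
      ∀ (H P : Type u) [Group H] [Group P] (K : Subgroup (RegularWreathProduct H P)), Finite P →
        Hered F H → C K → Atiyah F K,
      ∀ (H P : Type u) [Group H] [Group P] (d : ℕ)
        (K : Subgroup (Fin d → RegularWreathProduct H P)), (Nat.card P).Prime → C H → Hered F H →
          C K → Atiyah F K] := by
  tfae_have 1 → 2 := by
    intro h G _ H hG hHi hH d K
    obtain ⟨K₀, hK₀, hK⟩ := Hered.inter H hHi hH d K
    exact h K K₀ (hC.sub _ _ K.subtype K.subtype_injective (hC.pow G d hG)) hK₀ hK
  tfae_have 2 → 1 := fun h G _ H hG hHi hH => (h G H hG hHi hH).self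
  tfae_have 1 ↔ 3 := (tfae_wreath F hC.sub).out 0 1
  tfae_have 1 → 4 := by
    intro h H P _ _ d K hP _ hH hK
    have hfin : Finite P := Nat.finite_of_card_ne_zero hP.ne_zero
    obtain ⟨B, hB, hBH⟩ := Hered.base (P := P) hH
    obtain ⟨K₀, hK₀, hK₀H⟩ := Hered.inter B hB hBH d K
    exact h K K₀ hK hK₀ hK₀H
  tfae_have 4 → 1 := by
    intro h G _ H hG hHi hH
    have hN : Hered F H.normalCore :=
      hH.of_injective (Subgroup.inclusion H.normalCore_le)
        (Subgroup.inclusion_injective H.normalCore_le)
    refine atiyah_sylow' H.normalCore fun p hp K hNK hK => ?_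
    have hCK : C K := hC.sub _ _ K.subtype K.subtype_injective hG
    have hN' : Hered F (H.normalCore.subgroupOf K) :=
      hN.of_injective (Subgroup.subgroupOfEquivOfLe hNK).toMonoidHom
        (Subgroup.subgroupOfEquivOfLe hNK).injective
    have hfi : (H.normalCore.subgroupOf K).FiniteIndex := inferInstance
    have hP : IsPGroup p (K ⧸ H.normalCore.subgroupOf K) := by
      refine hK.of_injective (QuotientGroup.lift (H.normalCore.subgroupOf K)
        (((QuotientGroup.mk' H.normalCore).comp K.subtype).codRestrict
          (K.map (QuotientGroup.mk' H.normalCore)) fun x => ⟨x, x.2, rfl⟩) ?_) ?_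
      · intro x hx
        apply Subtype.ext
        exact (QuotientGroup.eq_one_iff _).2 hx
      · rw [← MonoidHom.ker_eq_bot_iff, eq_bot_iff]
        intro x hx
        obtain ⟨y, rfl⟩ := QuotientGroup.mk_surjective x
        have h1 : ((y : G) : G ⧸ H.normalCore) = 1 := congrArg Subtype.val hx
        rw [QuotientGroup.eq_one_iff] at h1
        exact (QuotientGroup.eq_one_iff y).2 h1
    have key : C K → Hered F K := by
      refine pgroup_induction hp (fun G _ => C G → Hered F G) ?_ ?_ (H.normalCore.subgroupOf K) hP
        fun _ => hN'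
      · intro G₁ G₂ _ _ e h1 h2
        exact (h1 (hC.sub _ _ e.toMonoidHom e.injective h2)).of_injective e.symm.toMonoidHom
          e.symm.injective
      · intro G₁ _ M _ hM hMh hG₁ d L
        have hCM : C M := hC.sub _ _ M.subtype M.subtype_injective hG₁
        obtain ⟨f, hf⟩ := exists_wreath M
        let g : (Fin d → G₁) →* (Fin d → RegularWreathProduct M (G₁ ⧸ M)) :=
          MonoidHom.mk' (fun x j => f (x j)) fun x y => funext fun j => map_mul f _ _
        have hg : Injective g := fun x y hxy => funext fun j => hf (congrFun hxy j)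
        have hCL : C L := hC.sub _ _ L.subtype L.subtype_injective (hC.pow G₁ d hG₁)
        let e : L ≃* L.map g := L.equivMapOfInjective g hg
        have hCm : C (L.map g) := hC.sub _ _ e.symm.toMonoidHom e.symm.injective hCL
        exact Atiyah.of_equiv e (h M (G₁ ⧸ M) d (L.map g)
          (by rw [← Subgroup.index_eq_card, hM]; exact hp) hCM (hMh hCM) hCm)
    exact (key hCK).self
  tfae_finish

end Pool.Agent.FIO
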