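import Pool.Agent.FIO.WrDefs
import Pool.Agent.FIO.Irr

/-!
Regular wreath products with a finite group: the base group has index `|P|`.
-/

set_option autoImplicit false

open Function

namespace Pool.Agent.FIO

universe u

/-- The `p`-part of `lcm(H)` is attained by one finite subgroup. -/
theorem exists_card_factorization {H : Type*} [Group H] (hH : BoundedFin H) {p : ℕ}
    (hp : p.Prime) : ∃ K : Subgroup H, Finite K ∧
      (lcmFin H).factorization p ≤ (Nat.card K).factorization p := by
  by_contra hne
  push Not at hne
  have hm := hH.lcmFin_pos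
  have h1 := hne ⊥ inferInstance
  have hpm : p ∣ lcmFin H := by
    by_contra h2
    rw [Nat.factorization_eq_zero_of_not_dvd h2] at h1
    omega
  have hm' : 0 < lcmFin H / p := Nat.div_pos (Nat.le_of_dvd hm hpm) hp.pos
  have h3 : lcmFin H ∣ lcmFin H / p := by
    refine lcmFin_dvd hm' fun K hK => ?_
    refine (Nat.factorization_prime_le_iff_dvd Nat.card_pos.ne' hm'.ne').1 fun q hq => ?_
    have h4 : (Nat.card K).factorization q ≤ (lcmFin H).factorization q :=
      (Nat.factorization_prime_le_iff_dvd Nat.card_pos.ne' hm.ne').2 (hH.dvd_lcmFin K hK) q hq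
    rw [Nat.factorization_div hpm, Finsupp.tsub_apply, hp.factorization]
    by_cases hqp : q = p
    · subst hqp
      have h5 := hne K hK
      rw [Finsupp.single_eq_same]
      omega
    · rw [Finsupp.single_eq_of_ne hqp]
      simpa using h4
  have h6 := Nat.le_of_dvd hm' h3
  have h7 := Nat.div_lt_self hm hp.one_lt
  omega

/-- Finite subgroups of a finite power. -/
theorem lcmFin_pi_dvd {H P : Type*} [Group H] [Finite P] (hH : BoundedFin H) :
    lcmFin (P → H) ∣ lcmFin H ^ Nat.card P := by
  have hP := Fintype.ofFinite P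
  refine lcmFin_dvd (pow_pos hH.lcmFin_pos _) fun L hL => ?_
  let g : L →* ((q : P) → L.map (Pi.evalMonoidHom (fun _ : P => H) q)) :=
    MonoidHom.mk' (fun x q => ⟨(x : P → H) q, ⟨x, x.2, rfl⟩⟩) fun x y => by
      funext q
      rfl
  have hg : Injective g := by
    intro x y hxy
    apply Subtype.ext
    funext q
    exact congrArg Subtype.val (congrFun hxy q)
  have h1 : Nat.card L ∣ Nat.card ((q : P) → L.map (Pi.evalMonoidHom (fun _ : P => H) q)) :=
    Subgroup.card_dvd_of_injective g hg
  refine h1.trans ?_
  rw [Nat.card_pi, Nat.card_eq_fintype_card, ← Finset.card_univ, ← Finset.prod_const]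
  refine Finset.prod_dvd_prod_of_dvd _ _ fun q _ => hH.dvd_lcmFin _ ?_
  exact Set.Finite.subset (Set.toFinite (L : Set (P → H)) |>.image (fun v => v q))
    (by rintro _ ⟨x, hx, rfl⟩; exact ⟨x, hx, rfl⟩)

/-- Wreath products of subgroups. -/
theorem card_dvd_wreath {H P : Type*} [Group H] [Group P] [Finite P]
    (hb : BoundedFin (RegularWreathProduct H P)) (K : Subgroup H) (hK : Finite K) :
    Nat.card K ^ Nat.card P * Nat.card P ∣ lcmFin (RegularWreathProduct H P) := by
  let f : RegularWreathProduct K P →* RegularWreathProduct H P :=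
    MonoidHom.mk' (fun x => ⟨fun q => (x.left q : H), x.right⟩) fun x y => rfl
  have hf : Injective f := by
    intro x y hxy
    have h1 : (fun q => (x.left q : H)) = fun q => (y.left q : H) :=
      congrArg RegularWreathProduct.left hxy
    have h2 : (f x).right = (f y).right := congrArg RegularWreathProduct.right hxy
    refine RegularWreathProduct.ext ?_ h2
    funext q
    exact Subtype.ext (congrFun h1 q)
  rw [← RegularWreathProduct.card (D := K) (Q := P)]
  have h3 : Nat.card f.range = Nat.card (RegularWreathProduct K P) :=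
    (Nat.card_congr (MonoidHom.ofInjective hf).toEquiv).symm
  rw [← h3]
  exact hb.dvd_lcmFin _ (Finite.of_equiv _ (MonoidHom.ofInjective hf).toEquiv)

/-- The base group. -/
noncomputable def wreathBase (H P : Type*) [Group H] [Group P] :
    (RegularWreathProduct.rightHom : RegularWreathProduct H P →* P).ker ≃* (P → H) where
  toFun x := (x : RegularWreathProduct H P).left
  invFun a := ⟨⟨a, 1⟩, rfl⟩
  left_inv x := by
    have h : (x : RegularWreathProduct H P).right = 1 := x.2
    exact Subtype.ext (RegularWreathProduct.ext rfl h.symm)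
  right_inv a := rfl
  map_mul' x y := by
    have h : (x : RegularWreathProduct H P).right = 1 := x.2
    change (x : RegularWreathProduct H P).left * (fun q =>
      (y : RegularWreathProduct H P).left ((x : RegularWreathProduct H P).right⁻¹ * q)) = _
    rw [h]
    simp only [inv_one, one_mul]

/-- ROW W1. The base group `H ^ P` has index `|P|`. -/
theorem Atiyah.wreath {F : Subfield ℂ} {H P : Type u} [Group H] [Group P] [Finite P]
    (h : Atiyah F (P → H)) (hH : BoundedFin H) : Atiyah F (RegularWreathProduct H P) := by
  let π : RegularWreathProduct H P →* P := RegularWreathProduct.rightHom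
  have hπ : Surjective π := fun q => ⟨⟨1, q⟩, rfl⟩
  have hB : Atiyah F π.ker := Atiyah.of_equiv (wreathBase H P) h
  have hidx : π.ker.index = Nat.card P := by
    rw [Subgroup.index_ker, MonoidHom.range_eq_top.2 hπ]
    exact Nat.card_congr Subgroup.topEquiv.toEquiv
  have hfi : π.ker.FiniteIndex := ⟨by rw [hidx]; exact Nat.card_pos.ne'⟩
  have hb : BoundedFin (RegularWreathProduct H P) := BoundedFin.of_index π.ker hB.1
  have hl : lcmFin π.ker ∣ lcmFin H ^ Nat.card P :=
    ((h.1.of_injective (wreathBase H P).toMonoidHom (wreathBase H P).injective).2).trans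
      (lcmFin_pi_dvd hH)
  have hdvd : Nat.card P * lcmFin π.ker ∣ lcmFin (RegularWreathProduct H P) := by
    have h0 : Nat.card P ∣ lcmFin (RegularWreathProduct H P) :=
      (Dvd.intro_left _ rfl).trans (card_dvd_wreath hb ⊥ inferInstance)
    obtain ⟨M, hM⟩ := h0
    have hP0 : 0 < Nat.card P := Nat.card_pos
    have hM0 : 0 < M := by
      rcases Nat.eq_zero_or_pos M with h1 | h1
      · have := hb.lcmFin_pos
        rw [hM, h1] at this
        simp at this
      · exact h1
    rw [hM]
    refine Nat.mul_dvd_mul_left _ (hl.trans ?_)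
    have hm0 := hH.lcmFin_pos
    refine (Nat.factorization_prime_le_iff_dvd (pow_pos hm0 _).ne' hM0.ne').1 fun p hp => ?_
    obtain ⟨K, hK, hKp⟩ := exists_card_factorization hH hp
    have h2 : Nat.card K ^ Nat.card P ∣ M := by
      have h3 := card_dvd_wreath hb K hK
      rw [hM, mul_comm (Nat.card P) M] at h3
      exact Nat.dvd_of_mul_dvd_mul_right hP0 h3
    have h4 : (Nat.card K ^ Nat.card P).factorization p ≤ M.factorization p :=
      (Nat.factorization_prime_le_iff_dvd (pow_pos Nat.card_pos _).ne' hM0.ne').2 h2 p hp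
    refine le_trans ?_ h4
    rw [Nat.factorization_pow, Nat.factorization_pow, Finsupp.smul_apply, Finsupp.smul_apply,
      smul_eq_mul, smul_eq_mul]
    exact Nat.mul_le_mul_left _ hKp
  refine ⟨hb, fun a b A hA => ?_⟩
  obtain ⟨z, hz⟩ := index_int hB A hA
  obtain ⟨d, hd⟩ := hdvd
  refine ⟨d * z, ?_⟩
  rw [hidx] at hz
  push_cast
  rw [← hz, hd]
  push_cast
  ring

end Pool.Agent.FIO
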