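import Pool.Agent.FIO.V7

set_option autoImplicit false

open Function

namespace Pool.Agent.FIO

universe u

/-- (1). -/
theorem wr_embed (F : Subfield ℂ) (G : Type u) [Group G] (N : Subgroup G) [N.Normal]
    (_hN : N.FiniteIndex) (h : Atiyah F (G ⧸ N → N)) :
    Atiyah F (RegularWreathProduct N (G ⧸ N)) ∧
      ∃ f : G →* RegularWreathProduct N (G ⧸ N), Injective f := by
  refine ⟨Atiyah.wreath h ?_, exists_wreath N⟩
  let g : N →* (G ⧸ N → N) :=
    { toFun := fun x _ => x, map_one' := rfl, map_mul' := fun _ _ => rfl }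
  have hg : Injective g := fun x y hxy => congrFun hxy 1
  exact (h.1.of_injective g hg).1

theorem of_closed_normalC {F : Subfield ℂ} {C : ∀ (G : Type u) [Group G], Prop} (hC : SubClass C)
    (hS : ∀ (G : Type u) [Group G] (K : Subgroup G), C K → Atiyah F G → Atiyah F K)
    {G : Type u} [Group G] (hG : C G) (N : Subgroup G) [N.Normal] [N.FiniteIndex]
    (h : ∀ p k : ℕ, p.Prime → p ^ k ∣ N.index → Atiyah F (Fin (p ^ k) → N)) : Atiyah F G := by
  have h0 : Atiyah F (Fin (2 ^ 0) → N) := h 2 0 Nat.prime_two (by simp)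
  have hNb : BoundedFin N := by
    let g : N →* (Fin (2 ^ 0) → N) := MonoidHom.mk' (fun x _ => x) fun _ _ => rfl
    have hg : Injective g := fun x y hxy => congrFun hxy ⟨0, by simp⟩
    exact (h0.1.of_injective g hg).1
  refine atiyah_sylow' N fun p hp K hNK hK => ?_
  have hpf : Fact p.Prime := ⟨hp⟩
  have hfi : (N.subgroupOf K).FiniteIndex := inferInstance
  have hf : Finite (K ⧸ N.subgroupOf K) := inferInstance
  have e1 : N.subgroupOf K ≃* N := Subgroup.subgroupOfEquivOfLe hNK
  have hP : IsPGroup p (K ⧸ N.subgroupOf K) := by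
    refine hK.of_injective (QuotientGroup.lift (N.subgroupOf K)
      (((QuotientGroup.mk' N).comp K.subtype).codRestrict
        (K.map (QuotientGroup.mk' N)) fun x => ⟨x, x.2, rfl⟩) ?_) ?_
    · intro x hx
      apply Subtype.ext
      exact (QuotientGroup.eq_one_iff _).2 hx
    · rw [← MonoidHom.ker_eq_bot_iff, eq_bot_iff]
      intro x hx
      obtain ⟨y, rfl⟩ := QuotientGroup.mk_surjective x
      have h1 : ((y : G) : G ⧸ N) = 1 := congrArg Subtype.val hx
      rw [QuotientGroup.eq_one_iff] at h1
      exact (QuotientGroup.eq_one_iff y).2 h1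
  obtain ⟨k, hk⟩ := IsPGroup.iff_card.1 hP
  have hdvd : p ^ k ∣ N.index := by
    rw [← hk, ← Subgroup.index_eq_card]
    exact Dvd.intro _ (Subgroup.relIndex_mul_index hNK)
  have e2 : (K ⧸ N.subgroupOf K) ≃ Fin (p ^ k) := by
    have := Fintype.ofFinite (K ⧸ N.subgroupOf K)
    refine Fintype.equivFinOfCardEq ?_
    rw [← Nat.card_eq_fintype_card, hk]
  have h2 : Atiyah F ((K ⧸ N.subgroupOf K) → N.subgroupOf K) := by
    let g : ((K ⧸ N.subgroupOf K) → N.subgroupOf K) ≃* (Fin (p ^ k) → N) :=
      { toFun := fun x j => e1 (x (e2.symm j))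
        invFun := fun y i => e1.symm (y (e2 i))
        left_inv := fun x => by
          funext i
          simp
        right_inv := fun y => by
          funext j
          simp
        map_mul' := fun x y => by
          funext j
          simp }
    exact Atiyah.of_equiv g (h p k hp hdvd)
  have hb : BoundedFin (N.subgroupOf K) := (hNb.of_injective e1.toMonoidHom e1.injective).1
  obtain ⟨f, hf2⟩ := exists_wreath (N.subgroupOf K)
  have hCf : C f.range := hC _ _ ((K.subtype).comp (MonoidHom.ofInjective hf2).symm.toMonoidHom)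
    (K.subtype_injective.comp (MonoidHom.ofInjective hf2).symm.injective) hG
  have h3 : Atiyah F f.range := hS _ f.range hCf (Atiyah.wreath h2 hb)
  exact Atiyah.of_equiv (MonoidHom.ofInjective hf2) h3

/-- (2). -/
theorem wr_closed {F : Subfield ℂ} {C : ∀ (G : Type u) [Group G], Prop} (hC : PowClass C)
    (hS : ∀ (G : Type u) [Group G] (K : Subgroup G), C K → Atiyah F G → Atiyah F K) :
    (∀ (G : Type u) [Group G] (N : Subgroup G) [N.Normal], C G → N.FiniteIndex →
      (∀ p k : ℕ, p.Prime → p ^ k ∣ N.index → Atiyah F (Fin (p ^ k) → N)) → Atiyah F G) ∧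
    (∀ (G : Type u) [Group G] (H : Subgroup G), C G → H.FiniteIndex →
      (∀ d : ℕ, Atiyah F (Fin d → H)) → Atiyah F G) := by
  refine ⟨fun G _ N _ hG hN h => of_closed_normalC hC.sub hS hG N h, fun G _ H hG hf hH => ?_⟩
  refine of_closed_normalC hC.sub hS hG H.normalCore ?_
  intro p k _ _
  let g : (Fin (p ^ k) → H.normalCore) →* (Fin (p ^ k) → H) :=
    MonoidHom.mk' (fun x j => Subgroup.inclusion H.normalCore_le (x j)) fun x y => rfl
  have hg : Injective g := fun x y hxy =>
    funext fun j => Subgroup.inclusion_injective H.normalCore_le (congrFun hxy j)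
  have hCN : C (Fin (p ^ k) → H.normalCore) :=
    hC.pow _ _ (hC.sub _ _ H.normalCore.subtype H.normalCore.subtype_injective hG)
  have hCr : C g.range := hC.sub _ _ (MonoidHom.ofInjective hg).symm.toMonoidHom
    (MonoidHom.ofInjective hg).symm.injective hCN
  exact Atiyah.of_equiv (MonoidHom.ofInjective hg) (hS _ _ hCr (hH (p ^ k)))

end Pool.Agent.FIO
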