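import Pool.Agent.FIO.Emb

set_option autoImplicit false

open scoped InnerProductSpace ENNReal
open Function

namespace Pool.Agent.FIO

variable {G : Type*} [Group G] {ι κ α β : Type*} [Fintype ι]

/-- The matrix over the subgroup `N` describing `A` from the columns `i, r a N` to the rows
`k, s b N`: entry `y ↦ A k i (s b * y * (r a)⁻¹)`. -/
noncomputable def winMat (N : Subgroup G) (r : α → G) (s : β → G) (A : κ → ι → G →₀ ℂ) :
    κ × β → ι × α → N →₀ ℂ := fun kb ia =>
  (A kb.1 ia.1).comapDomain (fun y : N => s kb.2 * y * (r ia.2)⁻¹)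
    (fun y _ y' _ h => Subtype.ext (mul_left_cancel (mul_right_cancel h)))

/-- The vectors of `l2(G)^ι` supported in the cosets `r a N` whose image under `A` vanishes on the
cosets `s b N`. -/
def winSpace (N : Subgroup G) (r : α → G) (s : β → G) (A : κ → ι → G →₀ ℂ) :
    Submodule ℂ (L2 (ι × G)) where
  carrier := {v | (∀ (i : ι) (g : G), (∀ (a : α) (n : N), g ≠ r a * n) → v (i, g) = 0) ∧
    ∀ (k : κ) (b : β) (n : N), app A v k (s b * n) = 0}
  add_mem' := by
    rintro v w ⟨hv, hv'⟩ ⟨hw, hw'⟩
    refine ⟨fun i g h => ?_, fun k b n => ?_⟩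
    · simp [hv i g h, hw i g h]
    · have h : app A (v + w : L2 (ι × G)) k (s b * n) = app A v k (s b * n) +
          app A w k (s b * n) := by
        simp only [app, Finsupp.sum, lp.coeFn_add, Pi.add_apply, mul_add, Finset.sum_add_distrib]
      rw [h, hv' k b n, hw' k b n, add_zero]
  zero_mem' := by
    refine ⟨fun i g _ => by simp, fun k b n => by simp [app, Finsupp.sum]⟩
  smul_mem' := by
    rintro c v ⟨hv, hv'⟩
    refine ⟨fun i g h => by simp [hv i g h], fun k b n => ?_⟩
    have h : app A (c • v : L2 (ι × G)) k (s b * n) = c * app A v k (s b * n) := by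
      simp only [app, Finsupp.sum, lp.coeFn_smul, Pi.smul_apply, smul_eq_mul, Finset.mul_sum]
      refine Finset.sum_congr rfl fun i _ => Finset.sum_congr rfl fun x _ => ?_
      ring
    rw [h, hv' k b n, mul_zero]

private theorem win_continuous_ev {X : Type*} (x : X) : Continuous fun v : L2 X => v x := by
  have h : (fun v : L2 X => v x) = evL x := by
    funext v
    exact (evL_apply x v).symm
  rw [h]
  exact (evL x).continuous

private theorem win_continuous_app (A : κ → ι → G →₀ ℂ) (k : κ) (g : G) :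
    Continuous fun v : L2 (ι × G) => app A v k g := by
  unfold app Finsupp.sum
  refine continuous_finsetSum _ fun i _ => continuous_finsetSum _ fun x _ => ?_
  exact continuous_const.mul (win_continuous_ev _)

theorem isClosed_winSpace (N : Subgroup G) (r : α → G) (s : β → G) (A : κ → ι → G →₀ ℂ) :
    IsClosed (winSpace N r s A : Set (L2 (ι × G))) := by
  have h : (winSpace N r s A : Set (L2 (ι × G))) =
      (⋂ (i : ι) (g : G) (_ : ∀ (a : α) (n : N), g ≠ r a * n),
        {v : L2 (ι × G) | v (i, g) = 0}) ∩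
      ⋂ (k : κ) (b : β) (n : N), {v : L2 (ι × G) | app A v k (s b * n) = 0} := by
    ext v
    simp only [Set.mem_inter_iff, Set.mem_iInter, Set.mem_ofPred_eq]
    exact Iff.rfl
  rw [h]
  refine IsClosed.inter ?_ ?_
  · refine isClosed_iInter fun i => isClosed_iInter fun g => isClosed_iInter fun _ => ?_
    exact isClosed_eq (win_continuous_ev _) continuous_const
  · refine isClosed_iInter fun k => isClosed_iInter fun b => isClosed_iInter fun n => ?_
    exact isClosed_eq (win_continuous_app A k _) continuous_const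

/-- The map from the index set over `N` to the index set over `G`. -/
private def winE (N : Subgroup G) (r : α → G) (ι : Type*) (x : (ι × α) × N) : ι × G :=
  (x.1.1, r x.1.2 * x.2)

private theorem winE_injective (N : Subgroup G) (r : α → G) (ι : Type*)
    (hr : Injective fun an : α × N => r an.1 * (an.2 : G)) : Injective (winE N r ι) := by
  rintro ⟨⟨i, a⟩, n⟩ ⟨⟨i', a'⟩, n'⟩ h
  simp only [winE, Prod.mk.injEq] at h
  have h2 : ((a, n) : α × N) = (a', n') := hr h.2
  rw [Prod.mk.injEq] at h2
  rw [h.1, h2.1, h2.2]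

private theorem win_key [Fintype α] (N : Subgroup G) (r : α → G) (s : β → G)
    (hr : Injective fun an : α × N => r an.1 * (an.2 : G)) (A : κ → ι → G →₀ ℂ)
    (v : ι × G → ℂ)
    (hv : ∀ (i : ι) (g : G), (∀ (a : α) (n : N), g ≠ r a * n) → v (i, g) = 0)
    (k : κ) (b : β) (n : N) :
    app A v k (s b * n) = app (winMat N r s A) (fun x => v (winE N r ι x)) (k, b) n := by
  classical
  unfold app
  rw [Fintype.sum_prod_type]
  refine Finset.sum_congr rfl fun i _ => ?_
  unfold Finsupp.sum
  rw [Finset.sum_sigma']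
  symm
  refine Finset.sum_of_injOn (fun p : (_ : α) × N => s b * p.2 * (r p.1)⁻¹) ?_ ?_ ?_ ?_
  · rintro ⟨a, y⟩ _ ⟨a', y'⟩ _ h
    simp only [mul_assoc, mul_right_inj] at h
    have h1 : r a * ((y⁻¹ : N) : G) = r a' * ((y'⁻¹ : N) : G) := by
      have := congrArg (·⁻¹) h
      simpa using this
    have h2 : ((a, y⁻¹) : α × N) = (a', y'⁻¹) := hr h1
    rw [Prod.mk.injEq] at h2
    obtain ⟨h3, h4⟩ := h2
    subst h3
    rw [inv_inj] at h4
    rw [h4]
  · rintro ⟨a, y⟩ h
    simp only [Finset.coe_sigma, Finset.coe_univ, Set.mem_sigma_iff, Set.mem_univ, true_and,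
      Finset.mem_coe, Finsupp.mem_support_iff] at h
    simp only [Finset.mem_coe, Finsupp.mem_support_iff]
    exact h
  · intro x hx hx'
    beta_reduce
    rw [hv, mul_zero]
    intro a m hm
    refine hx' ⟨⟨a, n * m⁻¹⟩, ?_, ?_⟩
    · have hx2 : s b * ((n * m⁻¹ : N) : G) * (r a)⁻¹ = x := by
        have h1 : x⁻¹ = r a * m * (s b * n)⁻¹ := by
          rw [← hm]; group
        have h2 : x = (r a * m * (s b * n)⁻¹)⁻¹ := by rw [← h1, inv_inv]
        rw [h2]
        push_cast
        group
      simp only [Finset.coe_sigma, Finset.coe_univ, Set.mem_sigma_iff, Set.mem_univ, true_and,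
        Finset.mem_coe, Finsupp.mem_support_iff]
      simp only [winMat, Finsupp.comapDomain_apply]
      rw [hx2]
      exact Finsupp.mem_support_iff.mp hx
    · have h1 : x⁻¹ = r a * m * (s b * n)⁻¹ := by
        rw [← hm]; group
      have h2 : x = (r a * m * (s b * n)⁻¹)⁻¹ := by rw [← h1, inv_inv]
      simp only
      rw [h2]
      push_cast
      group
  · rintro ⟨a, y⟩ _
    simp only [winMat, winE, Finsupp.comapDomain_apply]
    congr 2
    rw [Prod.mk.injEq]
    refine ⟨rfl, ?_⟩
    push_cast
    group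

/-- The dimension over `N` of a window space is the dimension of the kernel of a matrix over
`N`. -/
theorem sum_phi_winSpace [Fintype α] (N : Subgroup G) (r : α → G) (s : β → G)
    (hr : Injective fun an : α × N => r an.1 * (an.2 : G)) (A : κ → ι → G →₀ ℂ) :
    ∑ i, ∑ a, phi (winSpace N r s A) (i, r a) = vdim (kerMat (winMat N r s A)) := by
  unfold vdim
  rw [Fintype.sum_prod_type]
  refine Finset.sum_congr rfl fun i _ => Finset.sum_congr rfl fun a _ => ?_
  have hE := winE_injective N r ι hr
  have hEa : winE N r ι ((i, a), 1) = (i, r a) := by simp [winE]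
  refine le_antisymm ?_ ?_
  · refine phi_le_of (isClosed_winSpace N r s A) fun v hv =>
      ⟨resL (winE N r ι) hE v, ?_, ?_, norm_resL_le _ _ _⟩
    · rintro ⟨k, b⟩ n
      have h := win_key N r s hr A v hv.1 k b n
      rw [hv.2 k b n] at h
      exact h.symm
    · rw [resL_apply, hEa]
  · refine phi_le_of (isClosed_kerMat _) fun v hv =>
      ⟨extL (winE N r ι) hE v, ⟨?_, ?_⟩, ?_, ?_⟩
    · intro j g h
      refine extL_zero _ _ _ _ ?_
      rintro ⟨⟨j', a'⟩, n'⟩ h'
      simp only [winE, Prod.mk.injEq] at h'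
      exact h a' n' h'.2.symm
    · intro k b n
      have h := win_key N r s hr A (extL (winE N r ι) hE v) ?_ k b n
      · rw [h]
        have h2 : (fun x => extL (winE N r ι) hE v (winE N r ι x)) = (v : (ι × α) × N → ℂ) := by
          funext x
          rw [extL_apply]
        rw [h2]
        exact hv (k, b) n
      · intro j g h
        refine extL_zero _ _ _ _ ?_
        rintro ⟨⟨j', a'⟩, n'⟩ h'
        simp only [winE, Prod.mk.injEq] at h'
        exact h a' n' h'.2.symm
    · rw [← hEa, extL_apply]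
    · rw [LinearIsometry.norm_map]

/-- Integrality of the dimension over `N` of a window space. -/
theorem winSpace_int {F : Subfield ℂ} [Fintype α] [Finite β] [Finite κ] {N : Subgroup G}
    (hN : Atiyah F N) (r : α → G) (s : β → G)
    (hr : Injective fun an : α × N => r an.1 * (an.2 : G)) (A : κ → ι → G →₀ ℂ)
    (hA : ∀ k i g, A k i g ∈ F) :
    ∃ z : ℤ, (lcmFin N : ℝ) * ∑ i, ∑ a, phi (winSpace N r s A) (i, r a) = z := by
  rw [sum_phi_winSpace N r s hr A]
  refine hN.int (winMat N r s A) fun k i g => ?_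
  simp only [winMat, Finsupp.comapDomain_apply]
  exact hA _ _ _

/-- Restriction to a subgroup of finite index. -/
theorem index_int {F : Subfield ℂ} [Finite κ] {N : Subgroup G} [N.FiniteIndex]
    (hN : Atiyah F N) (A : κ → ι → G →₀ ℂ) (hA : ∀ k i g, A k i g ∈ F) :
    ∃ z : ℤ, (lcmFin N : ℝ) * ((N.index : ℝ) * vdim (kerMat A)) = z := by
  have : Fintype (G ⧸ N) := Fintype.ofFinite _
  have hr : Injective fun an : (G ⧸ N) × N => (Quotient.out an.1 : G) * (an.2 : G) := by
    rintro ⟨a, n⟩ ⟨a', n'⟩ h
    simp only at h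
    have h1 : a = a' := by
      have h2 : ((Quotient.out a * (n : G) : G) : G ⧸ N) = ((Quotient.out a' * (n' : G) : G) : G ⧸ N) := by
        rw [h]
      rw [QuotientGroup.mk_mul_of_mem _ n.2, QuotientGroup.mk_mul_of_mem _ n'.2] at h2
      simpa using h2
    subst h1
    rw [mul_right_inj] at h
    rw [Subtype.ext h]
  have hall : ∀ g : G, ∃ (a : G ⧸ N) (n : N), g = Quotient.out a * n := by
    intro g
    refine ⟨(g : G ⧸ N), ⟨(Quotient.out (g : G ⧸ N))⁻¹ * g, ?_⟩, ?_⟩
    · rw [← QuotientGroup.eq]
      simp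
    · simp
  have hK : winSpace N (Quotient.out : G ⧸ N → G) (Quotient.out : G ⧸ N → G) A = kerMat A := by
    ext v
    constructor
    · rintro ⟨_, h⟩ k g
      obtain ⟨b, n, rfl⟩ := hall g
      exact h k b n
    · intro h
      refine ⟨fun i g hg => ?_, fun k b n => h k _⟩
      obtain ⟨a, n, han⟩ := hall g
      exact absurd han (hg a n)
  obtain ⟨z, hz⟩ := winSpace_int (β := G ⧸ N) hN (Quotient.out : G ⧸ N → G)
    (Quotient.out : G ⧸ N → G) hr A hA
  refine ⟨z, ?_⟩
  rw [← hz, hK]
  congr 1
  unfold vdim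
  rw [Finset.mul_sum]
  refine Finset.sum_congr rfl fun i _ => ?_
  rw [Finset.sum_congr rfl fun a _ => phi_kerMat A i (Quotient.out a), Finset.sum_const,
    nsmul_eq_mul, Finset.card_univ, ← Nat.card_eq_fintype_card]
  rfl

end Pool.Agent.FIO
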