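import Pool.Agent.FIO.MainP
import Mathlib.GroupTheory.RegularWreathProduct

set_option autoImplicit false

open Function

namespace Pool.Agent.FIO

universe u

/-- All subgroups of all finite powers of `H` are in `A_F`. -/
def Hered (F : Subfield ℂ) (H : Type u) [Group H] : Prop :=
  ∀ (d : ℕ) (K : Subgroup (Fin d → H)), Atiyah F K

end Pool.Agent.FIO
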