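import Pool.Agent.FIO.Lcm
import Mathlib.GroupTheory.Coprod.Basic
import Mathlib.GroupTheory.CoprodI

/-!
# Finite subgroups of free products

A finite subgroup of a free product is conjugate to a subgroup of a factor.

A reduced word whose first and last letters are in different factors has infinite order. So the
first and the last letter of a reduced word of finite order are in the same factor, and inverse to
each other if there are at least two letters. For a finite subgroup `L` with an element
`a u a⁻¹` of this kind, all the nontrivial elements of `L` are of the form `a v a⁻¹`, with the same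
`a`: otherwise some product has infinite order. So conjugation by `a` makes all words shorter.
-/

set_option autoImplicit false

open Function Monoid Monoid.CoprodI

namespace Pool.Agent.FIO

universe u v

section

variable {ι : Type*} {G : ι → Type*} [∀ i, Group (G i)]

theorem x1_ne_one {i j : ι} (w : NeWord G i j) : w.prod ≠ 1 := by
  classical
  intro h
  have h1 : w.toWord = Word.empty := by
    apply (Word.equiv (M := G)).symm.injective
    exact h.trans (Word.prod_empty (M := G)).symm
  have h2 : w.toList = [] := congrArg Word.toList h1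
  exact w.toList_ne_nil h2

theorem x1_pow {i j : ι} (w : NeWord G i j) (h : i ≠ j) (n : ℕ) :
    ∃ w' : NeWord G i j, w'.prod = w.prod ^ (n + 1) := by
  induction n with
  | zero => exact ⟨w, by simp⟩
  | succ n ih =>
    obtain ⟨w', hw'⟩ := ih
    exact ⟨NeWord.append w' h.symm w, by rw [NeWord.append_prod, hw', ← pow_succ]⟩

theorem x1_inf {i j : ι} (w : NeWord G i j) (h : i ≠ j) : ¬ IsOfFinOrder w.prod := by
  intro hf
  obtain ⟨n, hn, hw⟩ := isOfFinOrder_iff_pow_eq_one.1 hf
  obtain ⟨w', hw'⟩ := x1_pow w h (n - 1)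
  rw [Nat.sub_add_cancel hn, hw] at hw'
  exact x1_ne_one w' hw'

theorem x1_left {i j : ι} (w : NeWord G i j) :
    (i = j ∧ ∃ a : G i, a ≠ 1 ∧ w.prod = of a) ∨
      ∃ (a : G i) (k : ι) (u : NeWord G k j), a ≠ 1 ∧ k ≠ i ∧ w.prod = of a * u.prod ∧
        u.toList.length + 1 ≤ w.toList.length := by
  induction w with
  | singleton x hx => exact Or.inl ⟨rfl, x, hx, NeWord.prod_singleton x hx⟩
  | append w₁ hne w₂ ih₁ _ =>
    right
    rcases ih₁ with ⟨rfl, a, ha, h⟩ | ⟨a, k, u, ha, hk, h, hl⟩
    · refine ⟨a, _, w₂, ha, hne.symm, by rw [NeWord.append_prod, h], ?_⟩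
      have := List.length_pos_of_ne_nil w₁.toList_ne_nil
      simp only [NeWord.toList, List.length_append]
      omega
    · refine ⟨a, k, NeWord.append u hne w₂, ha, hk, by
        rw [NeWord.append_prod, NeWord.append_prod, h, mul_assoc], ?_⟩
      simp only [NeWord.toList, List.length_append]
      omega

theorem x1_right {i j : ι} (w : NeWord G i j) :
    i = j ∨ ∃ (b : G j) (k : ι) (u : NeWord G i k), k ≠ j ∧ w.prod = u.prod * of b ∧
        u.toList.length + 1 ≤ w.toList.length := by
  suffices h : (i = j ∧ ∃ a : G j, w.prod = of a) ∨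
      ∃ (b : G j) (k : ι) (u : NeWord G i k), k ≠ j ∧ w.prod = u.prod * of b ∧
        u.toList.length + 1 ≤ w.toList.length by
    rcases h with h | h
    · exact Or.inl h.1
    · exact Or.inr h
  induction w with
  | singleton x hx => exact Or.inl ⟨rfl, x, NeWord.prod_singleton x hx⟩
  | append w₁ hne w₂ _ ih₂ =>
    right
    rcases ih₂ with ⟨rfl, a, h⟩ | ⟨b, k, u, hk, h, hl⟩
    · refine ⟨a, _, w₁, hne, by rw [NeWord.append_prod, h], ?_⟩
      have := List.length_pos_of_ne_nil w₂.toList_ne_nil
      simp only [NeWord.toList, List.length_append]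
      omega
    · refine ⟨b, k, NeWord.append w₁ hne u, hk, by
        rw [NeWord.append_prod, NeWord.append_prod, h, mul_assoc], ?_⟩
      simp only [NeWord.toList, List.length_append]
      omega

theorem x1_conj {H : Type*} [Group H] {g : H} (c : H) (hg : IsOfFinOrder g) :
    IsOfFinOrder (c⁻¹ * g * c) := by
  have := (MulAut.conj c⁻¹).toMonoidHom.isOfFinOrder hg
  simpa [MulAut.conj_apply] using this

/-- The reduced words of finite order. -/
theorem x1_fin {i j : ι} (w : NeWord G i j) (hf : IsOfFinOrder w.prod) :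
    i = j ∧ ((∃ a : G i, a ≠ 1 ∧ w.prod = of a) ∨
      ∃ (a : G i) (k l : ι) (u : NeWord G k l), a ≠ 1 ∧ k ≠ i ∧ l ≠ i ∧
        w.prod = of a * u.prod * (of a)⁻¹ ∧ u.toList.length + 2 ≤ w.toList.length) := by
  have hij : i = j := by
    by_contra h
    exact x1_inf w h hf
  subst hij
  refine ⟨rfl, ?_⟩
  rcases x1_left w with ⟨_, a, ha, h⟩ | ⟨a, k, u, ha, hk, h, hl⟩
  · exact Or.inl ⟨a, ha, h⟩
  · right
    rcases x1_right u with h' | ⟨b, l, u', hl', h', hle⟩
    · exact absurd h' hk
    · have hab : b * a = 1 := by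
        by_contra hne
        have h1 := x1_conj (of a) hf
        have h2 : (of a)⁻¹ * w.prod * of a =
            (NeWord.append u' hl' (NeWord.singleton (b * a) hne)).prod := by
          rw [h, h', NeWord.append_prod, NeWord.prod_singleton, map_mul]
          group
        rw [h2] at h1
        exact x1_inf _ hk h1
      have hb : b = a⁻¹ := eq_inv_of_mul_eq_one_left hab
      refine ⟨a, k, l, u', ha, hk, hl', ?_, by omega⟩
      rw [h, h', hb, map_inv]
      group

/-- `m` is a product of a short reduced word. -/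
def X1Sh (N : ℕ) (m : CoprodI G) : Prop :=
  m = 1 ∨ ∃ (i j : ι) (w : NeWord G i j), w.prod = m ∧ w.toList.length ≤ N

theorem x1_exists (m : CoprodI G) : ∃ N, X1Sh N m := by
  classical
  by_cases hm : m = 1
  · exact ⟨0, Or.inl hm⟩
  have h1 : Word.equiv m ≠ Word.empty := by
    intro h
    apply hm
    have h2 : m = (Word.equiv (M := G)).symm Word.empty := by rw [← h, Equiv.symm_apply_apply]
    rw [h2]
    exact Word.prod_empty
  obtain ⟨i, j, w, hw⟩ := NeWord.of_word _ h1
  refine ⟨w.toList.length, Or.inr ⟨i, j, w, ?_, le_rfl⟩⟩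
  have h3 : w.prod = (Word.equiv (M := G)).symm (Word.equiv m) := by
    rw [← hw]
    rfl
  rw [h3, Equiv.symm_apply_apply]

theorem x1_mono {N N' : ℕ} (h : N ≤ N') {m : CoprodI G} (hm : X1Sh N m) : X1Sh N' m := by
  rcases hm with hm | ⟨i, j, w, hw, hl⟩
  · exact Or.inl hm
  · exact Or.inr ⟨i, j, w, hw, hl.trans h⟩

/-- All the elements are of the form `a v a⁻¹`. -/
theorem x1_step {L : Subgroup (CoprodI G)} (hf : ∀ m ∈ L, IsOfFinOrder m) {i k l : ι} {a : G i}
    {u : NeWord G k l} (ha : a ≠ 1) (hk : k ≠ i) (hl : l ≠ i) (hL : of a * u.prod * (of a)⁻¹ ∈ L) {N : ℕ}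
    {m : CoprodI G} (hm : m ∈ L) (hs : X1Sh (N + 1) m) : X1Sh N ((of a)⁻¹ * m * of a) := by
  rcases hs with rfl | ⟨j, j', w, rfl, hw⟩
  · exact Or.inl (by group)
  obtain ⟨rfl, h⟩ := x1_fin w (hf _ hm)
  -- the products have finite order
  have hpf : IsOfFinOrder (u.prod * ((of a)⁻¹ * w.prod * of a)) := by
    have h1 := x1_conj (of a) (hf _ (L.mul_mem hL hm))
    have h2 : (of a)⁻¹ * (of a * u.prod * (of a)⁻¹ * w.prod) * of a =
        u.prod * ((of a)⁻¹ * w.prod * of a) := by group
    rwa [h2] at h1
  by_cases hj : j = i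
  · subst hj
    rcases h with ⟨c, hc, h⟩ | ⟨c, k', l', v, _, hk', hl', h, hle⟩
    · exfalso
      have hne : a⁻¹ * c * a ≠ 1 := by
        intro h'
        apply hc
        have h'' : c = a * (a⁻¹ * c * a) * a⁻¹ := by group
        rw [h'', h']
        group
      have h3 : u.prod * ((of a)⁻¹ * w.prod * of a) =
          (NeWord.append u hl (NeWord.singleton (a⁻¹ * c * a) hne)).prod := by
        rw [h, NeWord.append_prod, NeWord.prod_singleton, map_mul, map_mul, map_inv]
      rw [h3] at hpf
      exact x1_inf _ hk hpf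
    · by_cases hac : a⁻¹ * c = 1
      · have hca : c = a := by
          have := inv_mul_eq_one.1 hac
          exact this.symm
        subst hca
        refine Or.inr ⟨k', l', v, ?_, by omega⟩
        rw [h]
        group
      · exfalso
        have hca : (a⁻¹ * c)⁻¹ ≠ 1 := inv_ne_one.2 hac
        have h3 : u.prod * ((of a)⁻¹ * w.prod * of a) =
            (NeWord.append (NeWord.append (NeWord.append u hl (NeWord.singleton (a⁻¹ * c) hac))
              hk'.symm v) hl' (NeWord.singleton (a⁻¹ * c)⁻¹ hca)).prod := by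
          rw [h, NeWord.append_prod, NeWord.append_prod, NeWord.append_prod,
            NeWord.prod_singleton, NeWord.prod_singleton, map_inv, map_mul, map_inv]
          group
        rw [h3] at hpf
        exact x1_inf _ hk hpf
  · exfalso
    have h1 := hf _ (L.mul_mem hL hm)
    have h2 : of a * u.prod * (of a)⁻¹ * w.prod =
        (NeWord.append (NeWord.append (NeWord.append (NeWord.singleton a ha) hk.symm u) hl
          (NeWord.singleton a⁻¹ (inv_ne_one.2 ha))) (Ne.symm hj) w).prod := by
      rw [NeWord.append_prod, NeWord.append_prod, NeWord.append_prod, NeWord.prod_singleton,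
        NeWord.prod_singleton, map_inv]
    rw [h2] at h1
    exact x1_inf _ (Ne.symm hj) h1

/-- Finite subgroups are conjugate to subgroups of the factors. -/
theorem x1_main [Nonempty ι] (N : ℕ) : ∀ L : Subgroup (CoprodI G), (∀ m ∈ L, IsOfFinOrder m) →
    (∀ m ∈ L, X1Sh N m) → ∃ (g : CoprodI G) (i : ι), ∀ m ∈ L,
      g⁻¹ * m * g ∈ (of : G i →* CoprodI G).range := by
  induction N with
  | zero =>
    intro L _ hs
    refine ⟨1, Classical.arbitrary ι, fun m hm => ?_⟩
    rcases hs m hm with rfl | ⟨i, j, w, _, hw⟩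
    · exact ⟨1, by simp⟩
    · exfalso
      have := List.length_pos_of_ne_nil w.toList_ne_nil
      omega
  | succ N ih =>
    intro L hf hs
    by_cases hA : ∃ (i k l : ι) (a : G i) (u : NeWord G k l), a ≠ 1 ∧ k ≠ i ∧ l ≠ i ∧
        of a * u.prod * (of a)⁻¹ ∈ L
    · obtain ⟨i, k, l, a, u, ha, hk, hl, hL⟩ := hA
      obtain ⟨g, i', hg⟩ := ih (L.comap (MulAut.conj (of a)).toMonoidHom) (by
          intro m hm
          have h1 : of a * m * (of a)⁻¹ ∈ L := by simpa [MulAut.conj_apply] using hm
          have h2 := x1_conj (of a) (hf _ h1)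
          have h3 : (of a)⁻¹ * (of a * m * (of a)⁻¹) * of a = m := by group
          rwa [h3] at h2) (by
          intro m hm
          have h1 : of a * m * (of a)⁻¹ ∈ L := by simpa [MulAut.conj_apply] using hm
          have h2 := x1_step hf ha hk hl hL h1 (hs _ h1)
          have h3 : (of a)⁻¹ * (of a * m * (of a)⁻¹) * of a = m := by group
          rwa [h3] at h2)
      refine ⟨of a * g, i', fun m hm => ?_⟩
      have h1 := hg ((of a)⁻¹ * m * of a) (by
        have h3 : of a * ((of a)⁻¹ * m * of a) * (of a)⁻¹ = m := by group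
        have h4 : of a * ((of a)⁻¹ * m * of a) * (of a)⁻¹ ∈ L := by rw [h3]; exact hm
        simpa [MulAut.conj_apply] using h4)
      have h5 : (of a * g)⁻¹ * m * (of a * g) = g⁻¹ * ((of a)⁻¹ * m * of a) * g := by group
      rw [h5]
      exact h1
    · -- all elements are in the factors
      have hB : ∀ m ∈ L, m = 1 ∨ ∃ (i : ι) (a : G i), a ≠ 1 ∧ m = of a := by
        intro m hm
        rcases hs m hm with h | ⟨i, j, w, rfl, _⟩
        · exact Or.inl h
        · right
          obtain ⟨_, h⟩ := x1_fin w (hf _ hm)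
          rcases h with ⟨a, ha, h⟩ | ⟨a, k, l, u, ha, hk, hl, h, _⟩
          · exact ⟨i, a, ha, h⟩
          · exact absurd ⟨i, k, l, a, u, ha, hk, hl, h ▸ hm⟩ hA
      by_cases hC : ∀ m ∈ L, m = 1
      · refine ⟨1, Classical.arbitrary ι, fun m hm => ?_⟩
        rw [hC m hm]
        exact ⟨1, by simp⟩
      · push Not at hC
        obtain ⟨m₀, hm₀, hne⟩ := hC
        rcases hB m₀ hm₀ with h | ⟨i, a, ha, rfl⟩
        · exact absurd h hne
        · refine ⟨1, i, fun m hm => ?_⟩
          rcases hB m hm with rfl | ⟨j, b, hb, rfl⟩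
          · exact ⟨1, by simp⟩
          · by_cases hij : i = j
            · subst hij
              exact ⟨b, by simp⟩
            · exfalso
              have h1 := hf _ (L.mul_mem hm₀ hm)
              have h2 : of a * of b =
                  (NeWord.append (NeWord.singleton a ha) hij (NeWord.singleton b hb)).prod := by
                rw [NeWord.append_prod, NeWord.prod_singleton, NeWord.prod_singleton]
              rw [h2] at h1
              exact x1_inf _ hij h1

/-- Finite subgroups of free products are conjugate to subgroups of the factors. -/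
theorem x1_finite [Nonempty ι] (L : Subgroup (CoprodI G)) (hL : Finite L) :
    ∃ (g : CoprodI G) (i : ι), ∀ m ∈ L, g⁻¹ * m * g ∈ (of : G i →* CoprodI G).range := by
  classical
  choose f hf using fun m : L => x1_exists (m : CoprodI G)
  obtain ⟨N, hN⟩ := (Set.finite_range f).bddAbove
  refine x1_main N L (fun m hm => ?_) fun m hm => ?_
  · have h1 : IsOfFinOrder (⟨m, hm⟩ : L) := isOfFinOrder_of_finite _
    exact (L.subtype).isOfFinOrder h1
  · exact x1_mono (hN ⟨⟨m, hm⟩, rfl⟩) (hf ⟨m, hm⟩)

end

theorem x1_card {H H₂ : Type*} [Group H] [Group H₂] (f : H →* H₂) (hf : Injective f)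
    (hb : BoundedFin H) (K : Subgroup H₂) (hK : Finite K) (h : K ≤ f.range) :
    Nat.card K ∣ lcmFin H := by
  have h1 : (K.comap f).map f = K := Subgroup.map_comap_eq_self h
  have h2 : Nat.card ((K.comap f).map f) = Nat.card (K.comap f) :=
    Subgroup.card_map_of_injective hf
  rw [h1] at h2
  rw [h2]
  have hfin : Finite (K.comap f) :=
    Finite.of_injective (fun x : K.comap f => (⟨f x, x.2⟩ : K)) fun x y hxy => by
      apply Subtype.ext
      exact hf (congrArg Subtype.val hxy)
  exact hb.dvd_lcmFin _ hfin

/-- The two factors. -/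
def X1F (A : Type u) (B : Type v) : Bool → Type (max u v)
  | true => ULift.{v} A
  | false => ULift.{u} B

instance (A : Type u) (B : Type v) [Group A] [Group B] : ∀ b, Group (X1F A B b)
  | true => inferInstanceAs (Group (ULift.{v} A))
  | false => inferInstanceAs (Group (ULift.{u} B))

/-- `A → ULift A`. -/
def x1a (A : Type u) (B : Type v) [Group A] [Group B] : A →* X1F A B true :=
  (MulEquiv.ulift (α := A)).symm.toMonoidHom

/-- `B → ULift B`. -/
def x1b (A : Type u) (B : Type v) [Group A] [Group B] : B →* X1F A B false :=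
  (MulEquiv.ulift (α := B)).symm.toMonoidHom

/-- `ULift A → A`. -/
def x1a' (A : Type u) (B : Type v) [Group A] [Group B] : X1F A B true →* A :=
  (MulEquiv.ulift (α := A)).toMonoidHom

/-- `ULift B → B`. -/
def x1b' (A : Type u) (B : Type v) [Group A] [Group B] : X1F A B false →* B :=
  (MulEquiv.ulift (α := B)).toMonoidHom

/-- The map to the free product of the family. -/
def x1φ (A : Type u) (B : Type v) [Group A] [Group B] : Coprod A B →* CoprodI (X1F A B) :=
  Coprod.lift ((of (i := true)).comp (x1a A B)) ((of (i := false)).comp (x1b A B))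

/-- The inverse. -/
def x1ψ (A : Type u) (B : Type v) [Group A] [Group B] : CoprodI (X1F A B) →* Coprod A B :=
  CoprodI.lift fun b => match b with
    | true => Coprod.inl.comp (x1a' A B)
    | false => Coprod.inr.comp (x1b' A B)

theorem x1_ψφ (A : Type u) (B : Type v) [Group A] [Group B] (x : Coprod A B) :
    x1ψ A B (x1φ A B x) = x := by
  have h : (x1ψ A B).comp (x1φ A B) = MonoidHom.id _ := by
    apply Coprod.hom_ext
    · ext a
      simp only [x1φ, x1ψ, MonoidHom.comp_apply, Coprod.lift_apply_inl, lift_of, MonoidHom.id_apply]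
      rfl
    · ext a
      simp only [x1φ, x1ψ, MonoidHom.comp_apply, Coprod.lift_apply_inr, lift_of, MonoidHom.id_apply]
      rfl
  exact DFunLike.congr_fun h x

/-- ROW X1. Finite subgroups of free products. -/
theorem coprod_fin {A : Type u} {B : Type v} [Group A] [Group B] (hA : BoundedFin A)
    (hB : BoundedFin B) : BoundedFin (Monoid.Coprod A B) ∧
      lcmFin (Monoid.Coprod A B) ∣ Nat.lcm (lcmFin A) (lcmFin B) := by
  have hpos : 0 < Nat.lcm (lcmFin A) (lcmFin B) := Nat.lcm_pos hA.lcmFin_pos hB.lcmFin_pos
  have key : ∀ K : Subgroup (Coprod A B), Finite K →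
      Nat.card K ∣ Nat.lcm (lcmFin A) (lcmFin B) := by
    intro K hK
    have hφ : Injective (x1φ A B) := LeftInverse.injective (g := x1ψ A B) (x1_ψφ A B)
    have hL : Finite (K.map (x1φ A B)) := by
      have : Finite ((x1φ A B) '' (K : Set (Coprod A B))) := Set.Finite.image _ hK
      exact this
    obtain ⟨g, i, hg⟩ := x1_finite (K.map (x1φ A B)) hL
    have hc1 : Nat.card (K.map (x1φ A B)) = Nat.card K := Subgroup.card_map_of_injective hφ
    have hc2 : Nat.card ((K.map (x1φ A B)).map (MulAut.conj g⁻¹).toMonoidHom) =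
        Nat.card (K.map (x1φ A B)) :=
      Subgroup.card_map_of_injective (MulAut.conj g⁻¹).injective
    have hfin : Finite ((K.map (x1φ A B)).map (MulAut.conj g⁻¹).toMonoidHom) := by
      have : Finite ((MulAut.conj g⁻¹).toMonoidHom ''
        ((K.map (x1φ A B) : Subgroup _) : Set (CoprodI (X1F A B)))) := Set.Finite.image _ hL
      exact this
    have hle : (K.map (x1φ A B)).map (MulAut.conj g⁻¹).toMonoidHom ≤
        (of : X1F A B i →* CoprodI (X1F A B)).range := by
      rintro _ ⟨m, hm, rfl⟩
      have := hg m hm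
      simpa [MulAut.conj_apply] using this
    rw [← hc1, ← hc2]
    match i, hle with
    | true, hle =>
      refine (x1_card ((of (i := true)).comp (x1a A B)) ?_ hA _ hfin ?_).trans
        (Nat.dvd_lcm_left _ _)
      · exact (of_injective true).comp (MulEquiv.ulift (α := A)).symm.injective
      · intro x hx
        obtain ⟨y, hy⟩ := hle hx
        exact ⟨x1a' A B y, hy⟩
    | false, hle =>
      refine (x1_card ((of (i := false)).comp (x1b A B)) ?_ hB _ hfin ?_).trans
        (Nat.dvd_lcm_right _ _)
      · exact (of_injective false).comp (MulEquiv.ulift (α := B)).symm.injective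
      · intro x hx
        obtain ⟨y, hy⟩ := hle hx
        exact ⟨x1b' A B y, hy⟩
  exact ⟨BoundedFin.of_dvd hpos key, lcmFin_dvd hpos key⟩

end Pool.Agent.FIO
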