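import Pool.Agent.FIO.X1

/-!
# Free products of injective homomorphisms

An injective homomorphism of the factors maps reduced words to reduced words.
-/

set_option autoImplicit false

open Function Monoid Monoid.CoprodI

namespace Pool.Agent.FIO

universe u v

section

variable {ι : Type*} {G G' : ι → Type*} [∀ i, Group (G i)] [∀ i, Group (G' i)]

theorem x2_word (h : ∀ i, G i →* G' i) (hi : ∀ i, Injective (h i)) {i j : ι} (w : NeWord G i j) :
    ∃ w' : NeWord G' i j, w'.prod = CoprodI.lift (fun i => (of (i := i)).comp (h i)) w.prod := by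
  induction w with
  | singleton x hx =>
    refine ⟨NeWord.singleton (h _ x) ?_, ?_⟩
    · intro h'
      exact hx (hi _ (h'.trans (map_one _).symm))
    · rw [NeWord.prod_singleton, NeWord.prod_singleton, lift_of]
      rfl
  | append w₁ hne w₂ ih₁ ih₂ =>
    obtain ⟨w₁', h₁⟩ := ih₁
    obtain ⟨w₂', h₂⟩ := ih₂
    exact ⟨NeWord.append w₁' hne w₂', by
      rw [NeWord.append_prod, NeWord.append_prod, h₁, h₂, map_mul]⟩

theorem x2_inj (h : ∀ i, G i →* G' i) (hi : ∀ i, Injective (h i)) :
    Injective (CoprodI.lift (fun i => (of (M := G') (i := i)).comp (h i)) :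
      CoprodI G →* CoprodI G') := by
  rw [injective_iff_map_eq_one]
  intro m hm
  obtain ⟨N, hN⟩ := x1_exists m
  rcases hN with h1 | ⟨i, j, w, rfl, _⟩
  · exact h1
  · exfalso
    obtain ⟨w', hw'⟩ := x2_word h hi w
    rw [hm] at hw'
    exact x1_ne_one w' hw'

end

/-- The maps of the factors. -/
def x2h {A A' : Type u} {B B' : Type v} [Group A] [Group B] [Group A'] [Group B'] (f : A →* A')
    (g : B →* B') : ∀ b, X1F A B b →* X1F A' B' b
  | true => (x1a A' B').comp (f.comp (x1a' A B))
  | false => (x1b A' B').comp (g.comp (x1b' A B))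

/-- ROW X2. Free products of injective homomorphisms. -/
theorem coprod_map_injective {A A' : Type u} {B B' : Type v} [Group A] [Group B] [Group A']
    [Group B'] (f : A →* A') (g : B →* B') (hf : Injective f) (hg : Injective g) :
    Injective (Monoid.Coprod.map f g) := by
  have hi : ∀ b, Injective (x2h f g b) := by
    intro b
    match b with
    | true =>
      exact (MulEquiv.ulift (α := A')).symm.injective.comp
        (hf.comp (MulEquiv.ulift (α := A)).injective)
    | false =>
      exact (MulEquiv.ulift (α := B')).symm.injective.comp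
        (hg.comp (MulEquiv.ulift (α := B)).injective)
  have h1 : (x1φ A' B').comp (Coprod.map f g) =
      (CoprodI.lift (fun i => (of (M := X1F A' B') (i := i)).comp (x2h f g i))).comp
        (x1φ A B) := by
    apply Coprod.hom_ext
    · ext a
      simp only [x1φ, MonoidHom.comp_apply, Coprod.map_apply_inl, Coprod.lift_apply_inl, lift_of]
      rfl
    · ext a
      simp only [x1φ, MonoidHom.comp_apply, Coprod.map_apply_inr, Coprod.lift_apply_inr, lift_of]
      rfl
  have h2 : Injective ((x1φ A' B').comp (Coprod.map f g)) := by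
    rw [h1]
    exact (x2_inj (x2h f g) hi).comp (LeftInverse.injective (g := x1ψ A B) (x1_ψφ A B))
  intro x y hxy
  exact h2 (congrArg (x1φ A' B') hxy)

end Pool.Agent.FIO
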