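import Pool.Agent.FIO.YDefs

/-!
The stabiliser of a point of `K/D = (G/H) × S` in `G * F * K` embeds in `H * F' * D`.
-/

set_option autoImplicit false

open Function

namespace Pool.Agent.FIO

universe u v w t

section

variable {G : Type u} [Group G] (H : Subgroup G) {K : Type v} [Group K] (D : Subgroup K)
  {S : Type w} (β : (K ⧸ D) ≃ (G ⧸ H) × S) (ι : Type t)

/-- The target of the embedding. -/
abbrev FeA : Type _ :=
  Monoid.Coprod (Monoid.Coprod H (FreeGroup ((K ⧸ D) ⊕ ι × (K ⧸ D)))) D

/-- The big group. -/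
abbrev FeG (G : Type u) [Group G] (K : Type v) [Group K] (ι : Type t) : Type _ :=
  Monoid.Coprod (Monoid.Coprod G (FreeGroup ι)) K

/-- The action of `G` on `K/D`. -/
def feP : G →* Equiv.Perm (K ⧸ D) :=
  MonoidHom.toHomPerm
    { toFun := fun g x => β.symm (g • (β x).1, (β x).2)
      map_one' := by
        funext x
        change β.symm ((1 : G) • (β x).1, (β x).2) = x
        rw [one_smul]
        exact β.symm_apply_apply x
      map_mul' := fun g h => by
        funext x
        change β.symm ((g * h) • (β x).1, (β x).2) =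
          β.symm (g • (β (β.symm (h • (β x).1, (β x).2))).1, (β (β.symm (h • (β x).1, (β x).2))).2)
        rw [β.apply_symm_apply, mul_smul] }

theorem feP_fst (g : G) (x : K ⧸ D) : (β (feP H D β g x)).1 = g • (β x).1 := by
  change (β (β.symm (g • (β x).1, (β x).2))).1 = _
  rw [β.apply_symm_apply]

/-- The action of the big group on `K/D`. -/
def feR : FeG G K ι →* Equiv.Perm (K ⧸ D) :=
  Monoid.Coprod.lift (Monoid.Coprod.lift (feP H D β) 1) (MulAction.toPermHom K (K ⧸ D))

/-- Representatives in `G`. -/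
noncomputable def feS (x : K ⧸ D) : G := Quotient.out (β x).1

theorem feS_mk (x : K ⧸ D) : ((feS H D β x : G) : G ⧸ H) = (β x).1 := QuotientGroup.out_eq' _

open Classical in
/-- Representatives in `K`, with `1` at the base point. -/
noncomputable def feC (x : K ⧸ D) : K := if x = ((1 : K) : K ⧸ D) then 1 else Quotient.out x

theorem feC_one : feC D ((1 : K) : K ⧸ D) = 1 := if_pos rfl

theorem feC_mk (x : K ⧸ D) : ((feC D x : K) : K ⧸ D) = x := by
  by_cases h : x = ((1 : K) : K ⧸ D)
  · rw [h, feC_one]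
  · rw [feC, if_neg h]
    exact QuotientGroup.out_eq' x

theorem feH_mem (g : G) (x : K ⧸ D) :
    (feS H D β (feP H D β g x))⁻¹ * (g * feS H D β x) ∈ H := by
  rw [← QuotientGroup.eq, feS_mk, feP_fst, ← feS_mk H D β x]
  rfl

theorem feD_mem (k : K) (x : K ⧸ D) : (feC D (k • x))⁻¹ * (k * feC D x) ∈ D := by
  rw [← QuotientGroup.eq, feC_mk]
  conv_lhs => rw [← feC_mk D x]
  rfl

/-- The free generators at the points. -/
def feT (x : K ⧸ D) : FeA H D ι :=
  Monoid.Coprod.inl (Monoid.Coprod.inr (FreeGroup.of (Sum.inl x)))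

/-- The free generators at the points for each `i`. -/
def feU (i : ι) (x : K ⧸ D) : FeA H D ι :=
  Monoid.Coprod.inl (Monoid.Coprod.inr (FreeGroup.of (Sum.inr (i, x))))

/-- The elements of `H`. -/
def feIH : H →* FeA H D ι := Monoid.Coprod.inl.comp Monoid.Coprod.inl

/-- The action of `G` on the product. -/
noncomputable def feAG : G →* Equiv.Perm (FeA H D ι × (K ⧸ D)) :=
  MonoidHom.toHomPerm
    { toFun := fun g ax => (feT H D ι (feP H D β g ax.2) * feIH H D ι ⟨_, feH_mem H D β g ax.2⟩ *
        (feT H D ι ax.2)⁻¹ * ax.1, feP H D β g ax.2)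
      map_one' := by
        funext ax
        have h1 : feP H D β 1 ax.2 = ax.2 := by rw [map_one]; rfl
        have h2 : (⟨_, feH_mem H D β 1 ax.2⟩ : H) = 1 := by
          apply Subtype.ext
          change (feS H D β (feP H D β 1 ax.2))⁻¹ * (1 * feS H D β ax.2) = 1
          rw [h1, one_mul, inv_mul_cancel]
        refine Prod.ext ?_ h1
        change feT H D ι (feP H D β 1 ax.2) * feIH H D ι ⟨_, feH_mem H D β 1 ax.2⟩ *
          (feT H D ι ax.2)⁻¹ * ax.1 = ax.1
        rw [h2, h1, map_one, mul_one, mul_inv_cancel, one_mul]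
      map_mul' := fun g h => by
        funext ax
        have h1 : feP H D β (g * h) ax.2 = feP H D β g (feP H D β h ax.2) := by
          rw [map_mul]
          rfl
        have h2 : (⟨_, feH_mem H D β (g * h) ax.2⟩ : H) =
            ⟨_, feH_mem H D β g (feP H D β h ax.2)⟩ * ⟨_, feH_mem H D β h ax.2⟩ := by
          apply Subtype.ext
          change (feS H D β (feP H D β (g * h) ax.2))⁻¹ * (g * h * feS H D β ax.2) =
            ((feS H D β (feP H D β g (feP H D β h ax.2)))⁻¹ * (g * feS H D β (feP H D β h ax.2))) *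
              ((feS H D β (feP H D β h ax.2))⁻¹ * (h * feS H D β ax.2))
          rw [h1]
          group
        refine Prod.ext ?_ h1
        change feT H D ι (feP H D β (g * h) ax.2) * feIH H D ι ⟨_, feH_mem H D β (g * h) ax.2⟩ *
          (feT H D ι ax.2)⁻¹ * ax.1 = feT H D ι (feP H D β g (feP H D β h ax.2)) *
            feIH H D ι ⟨_, feH_mem H D β g (feP H D β h ax.2)⟩ *
            (feT H D ι (feP H D β h ax.2))⁻¹ * (feT H D ι (feP H D β h ax.2) *
            feIH H D ι ⟨_, feH_mem H D β h ax.2⟩ * (feT H D ι ax.2)⁻¹ * ax.1)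
        rw [h2, h1, map_mul]
        group }

/-- The action of `K` on the product. -/
noncomputable def feAK : K →* Equiv.Perm (FeA H D ι × (K ⧸ D)) :=
  MonoidHom.toHomPerm
    { toFun := fun k ax => ((Monoid.Coprod.inr (⟨_, feD_mem D k ax.2⟩ : D) : FeA H D ι) * ax.1,
        k • ax.2)
      map_one' := by
        funext ax
        have h1 : (1 : K) • ax.2 = ax.2 := one_smul _ _
        have h2 : (⟨_, feD_mem D 1 ax.2⟩ : D) = 1 := by
          apply Subtype.ext
          change (feC D ((1 : K) • ax.2))⁻¹ * (1 * feC D ax.2) = 1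
          rw [h1, one_mul, inv_mul_cancel]
        refine Prod.ext ?_ h1
        change (Monoid.Coprod.inr (⟨_, feD_mem D 1 ax.2⟩ : D) : FeA H D ι) * ax.1 = ax.1
        rw [h2, map_one, one_mul]
      map_mul' := fun g h => by
        funext ax
        have h1 : (g * h) • ax.2 = g • h • ax.2 := mul_smul _ _ _
        have h2 : (⟨_, feD_mem D (g * h) ax.2⟩ : D) =
            ⟨_, feD_mem D g (h • ax.2)⟩ * ⟨_, feD_mem D h ax.2⟩ := by
          apply Subtype.ext
          change (feC D ((g * h) • ax.2))⁻¹ * (g * h * feC D ax.2) =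
            ((feC D (g • h • ax.2))⁻¹ * (g * feC D (h • ax.2))) *
              ((feC D (h • ax.2))⁻¹ * (h * feC D ax.2))
          rw [h1]
          group
        refine Prod.ext ?_ h1
        change (Monoid.Coprod.inr (⟨_, feD_mem D (g * h) ax.2⟩ : D) : FeA H D ι) * ax.1 =
          Monoid.Coprod.inr (⟨_, feD_mem D g (h • ax.2)⟩ : D) *
            (Monoid.Coprod.inr (⟨_, feD_mem D h ax.2⟩ : D) * ax.1)
        rw [h2, map_mul, mul_assoc] }

/-- The action of the free group on the product. -/
def feAF : FreeGroup ι →* Equiv.Perm (FeA H D ι × (K ⧸ D)) :=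
  FreeGroup.lift fun i =>
    { toFun := fun ax => (feU H D ι i ax.2 * ax.1, ax.2)
      invFun := fun ax => ((feU H D ι i ax.2)⁻¹ * ax.1, ax.2)
      left_inv := fun ax => by simp
      right_inv := fun ax => by simp }

/-- The action of the big group on the product. -/
noncomputable def feA : FeG G K ι →* Equiv.Perm (FeA H D ι × (K ⧸ D)) :=
  Monoid.Coprod.lift (Monoid.Coprod.lift (feAG H D β ι) (feAF H D ι)) (feAK H D ι)

/-- The map back. -/
noncomputable def feB : FeA H D ι →* FeG G K ι :=
  Monoid.Coprod.lift (Monoid.Coprod.lift ((Monoid.Coprod.inl.comp Monoid.Coprod.inl).comp H.subtype)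
    (FreeGroup.lift fun j => match j with
      | Sum.inl x => (Monoid.Coprod.inr (feC D x) : FeG G K ι)⁻¹ *
          Monoid.Coprod.inl (Monoid.Coprod.inl (feS H D β x))
      | Sum.inr (i, x) => (Monoid.Coprod.inr (feC D x) : FeG G K ι)⁻¹ *
          Monoid.Coprod.inl (Monoid.Coprod.inr (FreeGroup.of i)) * Monoid.Coprod.inr (feC D x)))
    (Monoid.Coprod.inr.comp D.subtype)

theorem feB_T (x : K ⧸ D) : feB H D β ι (feT H D ι x) =
    (Monoid.Coprod.inr (feC D x) : FeG G K ι)⁻¹ *
    Monoid.Coprod.inl (Monoid.Coprod.inl (feS H D β x)) := by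
  simp [feB, feT]

theorem feB_U (i : ι) (x : K ⧸ D) : feB H D β ι (feU H D ι i x) =
    (Monoid.Coprod.inr (feC D x) : FeG G K ι)⁻¹ * Monoid.Coprod.inl (Monoid.Coprod.inr (FreeGroup.of i)) *
      Monoid.Coprod.inr (feC D x) := by
  simp [feB, feU]

theorem feB_H (h : H) : feB H D β ι (feIH H D ι h) =
    Monoid.Coprod.inl (Monoid.Coprod.inl (h : G)) := by
  simp [feB, feIH]

theorem feB_D (d : D) : feB H D β ι (Monoid.Coprod.inr d) = Monoid.Coprod.inr (d : K) := by
  simp [feB]

/-- The property which is proved by induction. -/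
def FeQ (w : FeG G K ι) : Prop :=
  ∀ x : K ⧸ D, ∃ c : FeA H D ι, (∀ a, feA H D β ι w (a, x) = (c * a, feR H D β ι w x)) ∧
    feB H D β ι c = (Monoid.Coprod.inr (feC D (feR H D β ι w x)))⁻¹ *
      (w * Monoid.Coprod.inr (feC D x))

theorem FeQ.mul {v w : FeG G K ι} (hv : FeQ H D β ι v) (hw : FeQ H D β ι w) :
    FeQ H D β ι (v * w) := by
  intro x
  obtain ⟨c, hc, hcB⟩ := hw x
  obtain ⟨e, he, heB⟩ := hv (feR H D β ι w x)
  have h1 : feR H D β ι (v * w) x = feR H D β ι v (feR H D β ι w x) := by
    rw [map_mul]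
    rfl
  refine ⟨e * c, fun a => ?_, ?_⟩
  · rw [map_mul, Equiv.Perm.mul_apply, hc, he, h1, mul_assoc]
  · rw [map_mul, heB, hcB, h1]
    group

theorem feQ_all (w : FeG G K ι) : FeQ H D β ι w := by
  induction w using Monoid.Coprod.induction_on with
  | inl y =>
    induction y using Monoid.Coprod.induction_on with
    | inl g =>
      intro x
      have h1 : feR H D β ι (Monoid.Coprod.inl (Monoid.Coprod.inl g)) x = feP H D β g x := by
        simp [feR]
      refine ⟨feT H D ι (feP H D β g x) * feIH H D ι ⟨_, feH_mem H D β g x⟩ * (feT H D ι x)⁻¹,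
        fun a => ?_, ?_⟩
      · rw [h1, feA, Monoid.Coprod.lift_apply_inl, Monoid.Coprod.lift_apply_inl]
        rfl
      · rw [h1, map_mul, map_mul, map_inv, feB_T, feB_T, feB_H]
        change _ * Monoid.Coprod.inl (Monoid.Coprod.inl
          ((feS H D β (feP H D β g x))⁻¹ * (g * feS H D β x))) * _ = _
        rw [map_mul, map_mul, map_inv, map_mul, map_mul, map_inv]
        group
    | inr f =>
      induction f using FreeGroup.induction_on with
      | C1 =>
        intro x
        refine ⟨1, fun a => ?_, ?_⟩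
        · simp only [map_one, Equiv.Perm.one_apply, one_mul]
        · simp only [map_one, Equiv.Perm.one_apply, one_mul, inv_mul_cancel]
      | of i =>
        intro x
        have h1 : feR H D β ι (Monoid.Coprod.inl (Monoid.Coprod.inr (FreeGroup.of i))) x = x := by
          simp [feR]
        refine ⟨feU H D ι i x, fun a => ?_, ?_⟩
        · rw [h1, feA, Monoid.Coprod.lift_apply_inl, Monoid.Coprod.lift_apply_inr, feAF,
            FreeGroup.lift_apply_of]
          rfl
        · rw [h1, feB_U, mul_assoc]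
      | inv_of i _ =>
        intro x
        have h1 : feR H D β ι (Monoid.Coprod.inl (Monoid.Coprod.inr (FreeGroup.of i)⁻¹)) x = x := by
          simp [feR]
        refine ⟨(feU H D ι i x)⁻¹, fun a => ?_, ?_⟩
        · rw [h1, feA, Monoid.Coprod.lift_apply_inl, Monoid.Coprod.lift_apply_inr, map_inv, feAF,
            FreeGroup.lift_apply_of]
          rfl
        · rw [h1, map_inv, feB_U, map_inv, map_inv]
          group
      | mul f g hf hg =>
        rw [map_mul, map_mul]
        exact FeQ.mul H D β ι hf hg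
    | mul y z hy hz =>
      rw [map_mul]
      exact FeQ.mul H D β ι hy hz
  | inr k =>
    intro x
    have h1 : feR H D β ι (Monoid.Coprod.inr k) x = k • x := by
      simp [feR]
    refine ⟨Monoid.Coprod.inr ⟨_, feD_mem D k x⟩, fun a => ?_, ?_⟩
    · rw [h1, feA, Monoid.Coprod.lift_apply_inr]
      rfl
    · rw [h1, feB_D]
      change Monoid.Coprod.inr ((feC D (k • x))⁻¹ * (k * feC D x)) = _
      rw [map_mul, map_mul, map_inv]
  | mul v w hv hw => exact FeQ.mul H D β ι hv hw

end

/-- ROW Y1. The stabiliser of a point of `K/D = (G/H) × S` in `G * F * K`. -/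
theorem free_embed {G : Type u} [Group G] (H : Subgroup G) {K : Type v} [Group K]
    (D : Subgroup K) {S : Type w} (β : (K ⧸ D) ≃ (G ⧸ H) × S) (ι : Type t) :
    ∃ L : Subgroup (Monoid.Coprod (Monoid.Coprod G (FreeGroup ι)) K), L.index = D.index ∧
      (∃ f : D →* L, Injective f) ∧
      ∃ f : L →* Monoid.Coprod (Monoid.Coprod H (FreeGroup ((K ⧸ D) ⊕ ι × (K ⧸ D)))) D,
        Injective f := by
  let act : MulAction (FeG G K ι) (K ⧸ D) := MulAction.compHom (K ⧸ D) (feR H D β ι)
  have hact : ∀ (w : FeG G K ι) (x : K ⧸ D), w • x = feR H D β ι w x := fun w x => rfl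
  have hK : ∀ (k : K) (x : K ⧸ D), feR H D β ι (Monoid.Coprod.inr k) x = k • x := by
    intro k x
    simp [feR]
  have htr : MulAction.IsPretransitive (FeG G K ι) (K ⧸ D) := by
    constructor
    intro x y
    obtain ⟨k, hk⟩ := MulAction.exists_smul_eq K x y
    exact ⟨Monoid.Coprod.inr k, by rw [hact, hK, hk]⟩
  let x₀ : K ⧸ D := ((1 : K) : K ⧸ D)
  let L : Subgroup (FeG G K ι) := MulAction.stabilizer (FeG G K ι) x₀
  have hL : ∀ w : L, feR H D β ι (w : FeG G K ι) x₀ = x₀ := fun w => w.2
  refine ⟨L, ?_, ?_, ?_⟩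
  · rw [MulAction.index_stabilizer_of_transitive]
    rfl
  · have hmem : ∀ d : D, (Monoid.Coprod.inr (d : K) : FeG G K ι) ∈ L := by
      intro d
      change feR H D β ι (Monoid.Coprod.inr (d : K)) x₀ = x₀
      rw [hK]
      change (((d : K) * 1 : K) : K ⧸ D) = ((1 : K) : K ⧸ D)
      rw [QuotientGroup.eq, mul_one, mul_one]
      exact inv_mem d.2
    refine ⟨MonoidHom.mk' (fun d => ⟨Monoid.Coprod.inr (d : K), hmem d⟩) fun a b => ?_,
      fun a b hab => ?_⟩
    · apply Subtype.ext
      simp only [Subgroup.coe_mul, map_mul]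
    · exact Subtype.ext (Monoid.Coprod.inr_injective (congrArg Subtype.val hab))
  · choose c hc hcB using fun w : FeG G K ι => feQ_all H D β ι w x₀
    have hmul : ∀ v w : L, c ((v : FeG G K ι) * (w : FeG G K ι)) = c v * c w := by
      intro v w
      have h1 := hc ((v : FeG G K ι) * (w : FeG G K ι)) 1
      rw [map_mul, Equiv.Perm.mul_apply, hc, hL w, hc] at h1
      have h2 := congrArg Prod.fst h1
      simp only [mul_one] at h2
      exact h2.symm
    refine ⟨MonoidHom.mk' (fun w => c (w : FeG G K ι)) fun v w => hmul v w, fun v w hvw => ?_⟩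
    have hvw' : c (v : FeG G K ι) = c (w : FeG G K ι) := hvw
    have h1 := hcB (v : FeG G K ι)
    have h2 := hcB (w : FeG G K ι)
    rw [hL v, feC_one, map_one, mul_one, inv_one, one_mul] at h1
    rw [hL w, feC_one, map_one, mul_one, inv_one, one_mul] at h2
    exact Subtype.ext (by rw [← h1, ← h2, hvw'])

end Pool.Agent.FIO
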