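import Pool.Agent.FIO.Y1
import Pool.Agent.FIO.X2

set_option autoImplicit false

open Function

namespace Pool.Agent.FIO

universe u v w

/-- The index formula: if `[G:B] lcm(B)` divides `lcm(G)` then `A_F` passes from `B` to `G`. -/
theorem Atiyah.of_index_dvd {F : Subfield ℂ} {G : Type*} [Group G] (B : Subgroup G)
    [B.FiniteIndex] (hB : Atiyah F B) (h : B.index * lcmFin B ∣ lcmFin G) : Atiyah F G := by
  refine ⟨BoundedFin.of_index B hB.1, fun a b A hA => ?_⟩
  obtain ⟨z, hz⟩ := index_int hB A hA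
  obtain ⟨d, hd⟩ := h
  refine ⟨d * z, ?_⟩
  push_cast
  rw [← hz, hd]
  push_cast
  ring

theorem lcmFin_finite {D : Type*} [Group D] [Finite D] : BoundedFin D ∧ lcmFin D = Nat.card D := by
  have h1 : ∀ K : Subgroup D, Finite K → Nat.card K ∣ Nat.card D := fun K _ =>
    Subgroup.card_subgroup_dvd_card K
  have hb : BoundedFin D := BoundedFin.of_dvd Nat.card_pos h1
  refine ⟨hb, Nat.dvd_antisymm (lcmFin_dvd Nat.card_pos h1) ?_⟩
  have h2 := hb.dvd_lcmFin ⊤ inferInstance
  rwa [Subgroup.card_top] at h2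

theorem torFree_freeGroup (α : Type*) : TorFree (FreeGroup α) := by
  intro g n hn hg
  exact (pow_eq_one_iff_left hn.ne').1 hg

/-- `lcm(N * F * D) = |D|` if `lcm(N)` divides `|D|`. -/
theorem lcm_NFD {N : Type u} [Group N] (hN : BoundedFin N) (α : Type v) {D : Type w} [Group D]
    [Finite D] (hD : lcmFin N ∣ Nat.card D) :
    BoundedFin (Monoid.Coprod (Monoid.Coprod N (FreeGroup α)) D) ∧
      lcmFin (Monoid.Coprod (Monoid.Coprod N (FreeGroup α)) D) = Nat.card D := by
  have hF := lcmFin_torFree (torFree_freeGroup α)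
  have h1 := coprod_fin hN hF.1
  have hDf := lcmFin_finite (D := D)
  have h2 := coprod_fin h1.1 hDf.1
  refine ⟨h2.1, Nat.dvd_antisymm (h2.2.trans ?_) ?_⟩
  · rw [hDf.2]
    refine Nat.lcm_dvd (h1.2.trans ?_) dvd_rfl
    rw [hF.2, Nat.lcm_one_right]
    exact hD
  · rw [← hDf.2]
    exact (h2.1.of_injective Monoid.Coprod.inr Monoid.Coprod.inr_injective).2

theorem atiyah_congr {F : Subfield ℂ} {N : Type u} [Group N] {α : Type v} {β : Type w}
    (e : α ≃ β) {D D' : Type*} [Group D] [Group D'] (e' : D ≃* D')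
    (h : Atiyah F (Monoid.Coprod (Monoid.Coprod N (FreeGroup β)) D')) :
    Atiyah F (Monoid.Coprod (Monoid.Coprod N (FreeGroup α)) D) :=
  Atiyah.of_equiv (MulEquiv.coprodCongr (MulEquiv.coprodCongr (MulEquiv.refl N)
    (FreeGroup.freeGroupCongr e)) e') h

/-- **Free products with large finite groups.** -/
theorem free_general {F : Subfield ℂ} {G : Type u} [Group G] (H : Subgroup G) [H.FiniteIndex]
    {K : Type v} [Group K] [Finite K] (D : Subgroup K) (hn : H.index ∣ D.index)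
    (hD : lcmFin H ∣ Nat.card D) (r : ℕ)
    (h : ∀ R : ℕ, Atiyah F (Monoid.Coprod (Monoid.Coprod H (FreeGroup (Fin R))) D)) :
    Atiyah F (Monoid.Coprod (Monoid.Coprod G (FreeGroup (Fin r))) K) := by
  classical
  obtain ⟨s, hs⟩ := hn
  have hfK : Finite (K ⧸ D) := inferInstance
  have hfG : Finite (G ⧸ H) := Subgroup.finite_quotient_of_finiteIndex
  have hcard : Nat.card (K ⧸ D) = Nat.card ((G ⧸ H) × Fin s) := by
    rw [Nat.card_prod, Nat.card_fin, ← Subgroup.index, ← Subgroup.index, hs]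
  let β : (K ⧸ D) ≃ (G ⧸ H) × Fin s := (Finite.card_eq.1 hcard).some
  obtain ⟨L, hL, ⟨f₁, hf₁⟩, ⟨f₂, hf₂⟩⟩ := free_embed H D β (Fin r)
  have hHb : BoundedFin H := ((h 0).1.of_injective (Monoid.Coprod.inl.comp Monoid.Coprod.inl)
    (Monoid.Coprod.inl_injective.comp Monoid.Coprod.inl_injective)).1
  have hft : Finite ((K ⧸ D) ⊕ Fin r × (K ⧸ D)) := inferInstance
  have hfty := Fintype.ofFinite ((K ⧸ D) ⊕ Fin r × (K ⧸ D))
  have hA : Atiyah F (Monoid.Coprod (Monoid.Coprod H
      (FreeGroup ((K ⧸ D) ⊕ Fin r × (K ⧸ D)))) D) :=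
    atiyah_congr (Fintype.equivFin _) (MulEquiv.refl D) (h _)
  have hl := lcm_NFD hHb ((K ⧸ D) ⊕ Fin r × (K ⧸ D)) hD
  have hLb := hl.1.of_injective f₂ hf₂
  have hLl : lcmFin L = Nat.card D := by
    refine Nat.dvd_antisymm (hl.2 ▸ hLb.2) ?_
    rw [← (lcmFin_finite (D := D)).2]
    exact (hLb.1.of_injective f₁ hf₁).2
  have hLA : Atiyah F L := hA.of_injective f₂ hf₂ (by rw [hl.2, hLl])
  have hfi : L.FiniteIndex := ⟨by rw [hL]; exact Subgroup.FiniteIndex.index_ne_zero⟩
  refine Atiyah.of_index_dvd L hLA ?_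
  have hb := BoundedFin.of_index L hLA.1
  rw [hL, hLl, mul_comm, Subgroup.card_mul_index, ← (lcmFin_finite (D := K)).2]
  exact (hb.of_injective Monoid.Coprod.inr Monoid.Coprod.inr_injective).2

/-- A cyclic group of order `n * m` has a cyclic subgroup of order `m` and index `n`. -/
theorem exists_cyclic_sub (n m : ℕ) (hn : 0 < n) (hm : 0 < m) :
    ∃ D : Subgroup (Multiplicative (ZMod (n * m))), D.index = n ∧ Nat.card D = m ∧
      Nonempty (D ≃* Multiplicative (ZMod m)) := by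
  have hne : NeZero (n * m) := ⟨(Nat.mul_pos hn hm).ne'⟩
  have hnem : NeZero m := ⟨hm.ne'⟩
  have hfin : Finite (Multiplicative (ZMod (n * m))) :=
    inferInstanceAs (Finite (ZMod (n * m)))
  have hcK : Nat.card (Multiplicative (ZMod (n * m))) = n * m := Nat.card_zmod _
  let g : Multiplicative (ZMod (n * m)) := Multiplicative.ofAdd ((n : ℕ) : ZMod (n * m))
  have hg : orderOf g = m := by
    rw [orderOf_ofAdd_eq_addOrderOf, ZMod.addOrderOf_coe _ hne.out]
    rw [Nat.gcd_eq_right (Dvd.intro _ rfl), Nat.mul_div_cancel_left _ hn]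
  have hcD : Nat.card (Subgroup.zpowers g) = m := by rw [Nat.card_zpowers, hg]
  refine ⟨Subgroup.zpowers g, ?_, hcD, ⟨?_⟩⟩
  · have h1 := Subgroup.card_mul_index (Subgroup.zpowers g)
    rw [hcD, hcK] at h1
    exact Nat.eq_of_mul_eq_mul_left hm (h1.trans (mul_comm n m))
  · have hcm : Nat.card (Multiplicative (ZMod m)) = m := Nat.card_zmod _
    exact mulEquivOfCyclicCardEq (by rw [hcD, hcm])

/-- **Q1 for the stable class.** -/
theorem StAt.overgroup {F : Subfield ℂ} {M₀ : ℕ} {G : Type u} [Group G] (H : Subgroup G)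
    [H.FiniteIndex] (h : StAt F M₀ H) : StAt F (H.index * Nat.lcm M₀ (lcmFin H)) G := by
  refine ⟨BoundedFin.of_index H h.1, fun r M hM hd => ?_⟩
  obtain ⟨c, rfl⟩ := hd
  rw [mul_assoc] at hM ⊢
  have hn : 0 < H.index := Nat.pos_of_ne_zero Subgroup.FiniteIndex.index_ne_zero
  have hm : 0 < Nat.lcm M₀ (lcmFin H) * c := Nat.pos_of_mul_pos_left hM
  obtain ⟨D, hDi, hDc, ⟨e⟩⟩ := exists_cyclic_sub H.index (Nat.lcm M₀ (lcmFin H) * c) hn hm
  have hne : NeZero (H.index * (Nat.lcm M₀ (lcmFin H) * c)) := ⟨hM.ne'⟩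
  have hfin : Finite (Multiplicative (ZMod (H.index * (Nat.lcm M₀ (lcmFin H) * c)))) :=
    inferInstanceAs (Finite (ZMod (H.index * (Nat.lcm M₀ (lcmFin H) * c))))
  refine free_general H D (by rw [hDi]) ?_ r fun R => ?_
  · rw [hDc]
    exact (Nat.dvd_lcm_right _ _).trans (Nat.dvd_mul_right _ _)
  · exact atiyah_congr (Equiv.refl _) e (h.2 R _ hm ((Nat.dvd_lcm_left _ _).trans
      (Nat.dvd_mul_right _ _)))

/-- The stable class is closed under subgroups. -/
theorem StAt.sub {F : Subfield ℂ} {M₀ : ℕ} {G : Type u} [Group G] (K : Subgroup G)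
    (h : StAt F M₀ G) : StAt F (Nat.lcm M₀ (lcmFin G)) K := by
  have hK := h.1.of_injective K.subtype K.subtype_injective
  refine ⟨hK.1, fun r M hM hd => ?_⟩
  have hne : NeZero M := ⟨hM.ne'⟩
  have hfin : Finite (Multiplicative (ZMod M)) := inferInstanceAs (Finite (ZMod M))
  have hc : Nat.card (Multiplicative (ZMod M)) = M := Nat.card_zmod _
  have hG : lcmFin G ∣ Nat.card (Multiplicative (ZMod M)) := by
    rw [hc]
    exact (Nat.dvd_lcm_right _ _).trans hd
  refine (h.2 r M hM ((Nat.dvd_lcm_left _ _).trans hd)).of_injective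
    (Monoid.Coprod.map (Monoid.Coprod.map K.subtype (MonoidHom.id _)) (MonoidHom.id _))
    (coprod_map_injective _ _ (coprod_map_injective _ _ K.subtype_injective injective_id)
      injective_id) ?_
  rw [(lcm_NFD h.1 (Fin r) hG).2, (lcm_NFD hK.1 (Fin r) (hK.2.trans hG)).2]

/-- At a level dividing `lcm(G)`. -/
theorem StAt.atiyah {F : Subfield ℂ} {M₀ : ℕ} {G : Type u} [Group G] (h : StAt F M₀ G)
    (hd : M₀ ∣ lcmFin G) : Atiyah F G := by
  have hpos := h.1.lcmFin_pos
  have hne : NeZero (lcmFin G) := ⟨hpos.ne'⟩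
  have hfin : Finite (Multiplicative (ZMod (lcmFin G))) :=
    inferInstanceAs (Finite (ZMod (lcmFin G)))
  have hc : Nat.card (Multiplicative (ZMod (lcmFin G))) = lcmFin G := Nat.card_zmod _
  refine (h.2 0 _ hpos hd).of_injective (Monoid.Coprod.inl.comp Monoid.Coprod.inl)
    (Monoid.Coprod.inl_injective.comp Monoid.Coprod.inl_injective) ?_
  rw [(lcm_NFD h.1 (Fin 0) (by rw [hc])).2, hc]

end Pool.Agent.FIO
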