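import Pool.Agent.FIO.Y2

set_option autoImplicit false

open Function

namespace Pool.Agent.FIO

universe u

/-- `G * C` is `(G * F_0) * C`. -/
noncomputable def coprodZero (G : Type u) [Group G] (C : Type) [Group C] :
    Monoid.Coprod G C ≃* Monoid.Coprod (Monoid.Coprod G (FreeGroup (Fin 0))) C :=
  MonoidHom.toMulEquiv (Monoid.Coprod.map Monoid.Coprod.inl (MonoidHom.id _))
    (Monoid.Coprod.map Monoid.Coprod.fst (MonoidHom.id _))
    (by refine Monoid.Coprod.hom_ext ?_ ?_ <;> ext x <;> simp)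
    (by
      refine Monoid.Coprod.hom_ext (Monoid.Coprod.hom_ext ?_ ?_) ?_
      · ext x
        simp
      · refine FreeGroup.ext_hom _ _ fun i => i.elim0
      · ext x
        simp)

/-- Free products and free factors: **Q1 is heredity at free factors**. -/
theorem free_tfae (F : Subfield ℂ) (𝓗 : ∀ (H : Type u) [Group H], Prop)
    (hF : ∀ (H : Type u) [Group H] (r M : ℕ), 𝓗 H → 0 < M → lcmFin H ∣ M → Atiyah F H →
      Atiyah F (Monoid.Coprod (Monoid.Coprod H (FreeGroup (Fin r))) (Multiplicative (ZMod M)))) :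
    List.TFAE [
      ∀ (G : Type u) [Group G] (H : Subgroup G), 𝓗 H → H.FiniteIndex → Atiyah F H → Atiyah F G,
      ∀ (G : Type u) [Group G] (H : Subgroup G), 𝓗 H → H.FiniteIndex → Atiyah F H →
        StAt F (H.index * lcmFin H) G → Atiyah F G,
      ∀ (G : Type u) [Group G] (H : Subgroup G) (M : ℕ), 𝓗 H → H.FiniteIndex → Atiyah F H →
        0 < M → Atiyah F (Monoid.Coprod G (Multiplicative (ZMod M))) → Atiyah F G] := by
  tfae_have 1 → 3 := fun h G _ H M hH hf hA _ _ => h G H hH hf hA
  tfae_have 3 → 2 := by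
    intro h G _ H hH hf hA hS
    have hn : 0 < H.index := Nat.pos_of_ne_zero Subgroup.FiniteIndex.index_ne_zero
    have hM : 0 < H.index * lcmFin H := Nat.mul_pos hn hA.1.lcmFin_pos
    exact h G H _ hH hf hA hM (Atiyah.of_equiv (coprodZero G _) (hS.2 0 _ hM dvd_rfl))
  tfae_have 2 → 1 := by
    intro h G _ H hH hf hA
    have h1 : StAt F (lcmFin H) H := ⟨hA.1, fun r M hM hd => hF H r M hH hM hd hA⟩
    have h2 := h1.overgroup H
    rw [Nat.lcm_self] at h2
    exact h G H hH hf hA h2
  tfae_finish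

end Pool.Agent.FIO
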