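import Pool.Agent.FIO.MainP
import Mathlib.GroupTheory.Coprod.Basic
import Mathlib.GroupTheory.FreeGroup.CyclicallyReduced

set_option autoImplicit false

open Function

namespace Pool.Agent.FIO

universe u

/-- `G` is stably in `A_F`, at level `M₀`: the free products of `G` with a free group of finite rank
and a cyclic group of order `M` are in `A_F` for all positive multiples `M` of `M₀`. -/
def StAt (F : Subfield ℂ) (M₀ : ℕ) (G : Type u) [Group G] : Prop :=
  BoundedFin G ∧ ∀ r M : ℕ, 0 < M → M₀ ∣ M →
    Atiyah F (Monoid.Coprod (Monoid.Coprod G (FreeGroup (Fin r))) (Multiplicative (ZMod M)))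

end Pool.Agent.FIO
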