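import Pool.Agent.FIO.Zwin

set_option autoImplicit false

open scoped InnerProductSpace ENNReal
open Function

namespace Pool.Agent.FIO

variable {G : Type*} [Group G] {ι κ : Type*} [Fintype ι]

private theorem zconv_deg_mul (δ : G →* Multiplicative ℤ) (g h : G) :
    deg δ (g * h) = deg δ g + deg δ h := by
  simp [deg]

private theorem zconv_deg_pow (δ : G →* Multiplicative ℤ) (t : G)
    (ht : δ t = Multiplicative.ofAdd 1) (j : ℕ) : deg δ (t ^ j) = j := by
  simp [deg, ht]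

private theorem zconv_deg_ker (δ : G →* Multiplicative ℤ) (n : δ.ker) :
    deg δ (n : G) = 0 := by
  have h : δ (n : G) = 1 := n.2
  simp [deg, h]

/-- right multiplication -/
private def zconv_E (ι : Type*) (c : G) : ι × G ≃ ι × G :=
  (Equiv.refl ι).prodCongr (Equiv.mulRight c)

private theorem zconv_E_apply (c : G) (i : ι) (g : G) : zconv_E ι c (i, g) = (i, g * c) := rfl

private theorem zconv_res (c : G) (v : L2 (ι × G)) (i : ι) (g : G) :
    resL (zconv_E ι c) (zconv_E ι c).injective v (i, g) = v (i, g * c) := rfl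

private theorem zconv_app (A : κ → ι → G →₀ ℂ) (c : G) (v : L2 (ι × G)) (k : κ) (h : G) :
    app A (resL (zconv_E ι c) (zconv_E ι c).injective v) k h = app A v k (h * c) := by
  unfold app
  refine Finset.sum_congr rfl fun j _ => Finset.sum_congr rfl fun x _ => ?_
  have e : resL (zconv_E ι c) (zconv_E ι c).injective v (j, x⁻¹ * h) = v (j, x⁻¹ * (h * c)) := by
    rw [zconv_res, mul_assoc]
  exact congrArg (fun s => A k j x * s) e

private theorem zconv_mem (δ : G →* Multiplicative ℤ) (A : κ → ι → G →₀ ℂ) (c : G) (a b : ℤ)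
    (v : L2 (ι × G)) : v ∈ Kw δ A (a + deg δ c) (b + deg δ c) ↔
      resL (zconv_E ι c) (zconv_E ι c).injective v ∈ Kw δ A a b := by
  constructor
  · rintro ⟨h1, h2⟩
    refine ⟨fun i g hg => ?_, fun k h => ?_⟩
    · rw [zconv_res]
      refine h1 i (g * c) fun hh => hg ?_
      rw [zconv_deg_mul] at hh
      omega
    · rw [zconv_app]
      exact h2 k _
  · rintro ⟨h1, h2⟩
    refine ⟨fun i g hg => ?_, fun k h => ?_⟩
    · have h3 := h1 i (g * c⁻¹) (fun hh => hg (by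
        have h4 : deg δ g = deg δ (g * c⁻¹) + deg δ c := by
          rw [← zconv_deg_mul, inv_mul_cancel_right]
        omega))
      rw [zconv_res, inv_mul_cancel_right] at h3
      exact h3
    · have h3 := h2 k (h * c⁻¹)
      rw [zconv_app, inv_mul_cancel_right] at h3
      exact h3

/-- right translation of the windows -/
private theorem zconv_phi (δ : G →* Multiplicative ℤ) (A : κ → ι → G →₀ ℂ) (c : G) (a b : ℤ)
    (i : ι) (g : G) : phi (Kw δ A a b) (i, g) =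
      phi (Kw δ A (a + deg δ c) (b + deg δ c)) (i, g * c) :=
  phi_equiv (zconv_E ι c) (isClosed_Kw δ A _ _) (isClosed_Kw δ A _ _)
    (fun v => zconv_mem δ A c a b v) (i, g)

private theorem zconv_phi_zero (δ : G →* Multiplicative ℤ) (A : κ → ι → G →₀ ℂ) (a b : ℤ)
    (i : ι) (g : G) (hg : ¬ (a ≤ deg δ g ∧ deg δ g < b)) : phi (Kw δ A a b) (i, g) = 0 :=
  phi_zero_of (isClosed_Kw δ A a b) fun v hv => hv.1 i g hg

/-- the transport map -/
private def zconv_T (δ : G →* Multiplicative ℤ) (t : G) (ι : Type*) (M : ℕ) :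
    (ι × Fin M) × δ.ker → ι × G := fun x => (x.1.1, t ^ (x.1.2 : ℕ) * (x.2 : G))

private theorem zconv_T_inj (δ : G →* Multiplicative ℤ) (t : G)
    (ht : δ t = Multiplicative.ofAdd 1) (M : ℕ) : Injective (zconv_T δ t ι M) := by
  rintro ⟨⟨i, j⟩, n⟩ ⟨⟨i', j'⟩, n'⟩ h
  simp only [zconv_T, Prod.mk.injEq] at h
  obtain ⟨h1, h2⟩ := h
  have h3 : (j : ℕ) = (j' : ℕ) := by
    have h4 := congrArg (deg δ) h2
    rw [zconv_deg_mul, zconv_deg_mul, zconv_deg_pow δ t ht, zconv_deg_pow δ t ht,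
      zconv_deg_ker, zconv_deg_ker] at h4
    omega
  have h5 : j = j' := Fin.ext h3
  subst h1 h5
  have h6 : n = n' := Subtype.ext (mul_left_cancel h2)
  rw [h6]

private theorem zconv_range (δ : G →* Multiplicative ℤ) (t : G)
    (ht : δ t = Multiplicative.ofAdd 1) (M : ℕ) (i : ι) (g : G)
    (hg : 0 ≤ deg δ g ∧ deg δ g < M) : ∃ x', zconv_T δ t ι M x' = (i, g) := by
  have h1 : (((deg δ g).toNat : ℕ) : ℤ) = deg δ g := Int.toNat_of_nonneg hg.1
  have h2 : (deg δ g).toNat < M := by omega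
  refine ⟨((i, ⟨(deg δ g).toNat, h2⟩), ⟨(t ^ (deg δ g).toNat)⁻¹ * g, ?_⟩), ?_⟩
  · rw [MonoidHom.mem_ker]
    have h3 : deg δ ((t ^ (deg δ g).toNat)⁻¹ * g) = 0 := by
      have h4 : deg δ (t ^ (deg δ g).toNat * ((t ^ (deg δ g).toNat)⁻¹ * g)) = deg δ g := by
        rw [mul_inv_cancel_left]
      rw [zconv_deg_mul, zconv_deg_pow δ t ht] at h4
      omega
    exact Multiplicative.toAdd.injective h3
  · simp [zconv_T]

/-- support in the window -/
private theorem zconv_supp (δ : G →* Multiplicative ℤ) (t : G)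
    (ht : δ t = Multiplicative.ofAdd 1) (A : κ → ι → G →₀ ℂ) (M : ℕ) (a b : ℤ) (ha : 0 ≤ a)
    (hb : b ≤ M) (v : L2 (ι × G)) (hv : v ∈ Kw δ A a b) (x : ι × G)
    (hx : ∀ x', zconv_T δ t ι M x' ≠ x) : v x = 0 := by
  obtain ⟨i, g⟩ := x
  refine hv.1 i g fun hg => ?_
  obtain ⟨x', hx'⟩ := zconv_range (ι := ι) δ t ht M i g ⟨ha.trans hg.1, hg.2.trans_le hb⟩
  exact hx x' hx'

private theorem zconv_vdim (δ : G →* Multiplicative ℤ) (t : G)
    (ht : δ t = Multiplicative.ofAdd 1) (A : κ → ι → G →₀ ℂ) (M : ℕ) (a b : ℤ) (ha : 0 ≤ a)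
    (hb : b ≤ M) :
    vdim ((Kw δ A a b).comap (extL (zconv_T δ t ι M) (zconv_T_inj δ t ht M)).toLinearMap) =
      ∑ i, ∑ j : Fin M, phi (Kw δ A a b) (i, t ^ (j : ℕ)) := by
  unfold vdim
  rw [Fintype.sum_prod_type]
  refine Finset.sum_congr rfl fun i _ => Finset.sum_congr rfl fun j _ => ?_
  rw [phi_comap _ _ _ (isClosed_Kw δ A a b) (zconv_supp δ t ht A M a b ha hb)]
  simp [zconv_T]

private theorem zconv_inv (δ : G →* Multiplicative ℤ) (t : G)
    (ht : δ t = Multiplicative.ofAdd 1) (A : κ → ι → G →₀ ℂ) (M : ℕ) (a b : ℤ) :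
    Inv ((Kw δ A a b).comap (extL (zconv_T δ t ι M) (zconv_T_inj δ t ht M)).toLinearMap) := by
  intro w hw n
  have hw' : extL (zconv_T δ t ι M) (zconv_T_inj δ t ht M) w ∈ Kw δ A a b := hw
  have hd := zconv_deg_ker δ n
  have h1 : extL (zconv_T δ t ι M) (zconv_T_inj δ t ht M) (tr (ι × Fin M) n w) =
      resL (zconv_E ι (n : G)) (zconv_E ι (n : G)).injective
        (extL (zconv_T δ t ι M) (zconv_T_inj δ t ht M) w) := by
    apply lp.ext
    funext x
    obtain ⟨i, g⟩ := x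
    rw [zconv_res]
    by_cases hx : ∃ x', zconv_T δ t ι M x' = (i, g)
    · obtain ⟨x', hx'⟩ := hx
      rw [← hx', extL_apply]
      have h2 : (i, g * (n : G)) = zconv_T δ t ι M (x'.1, x'.2 * n) := by
        obtain ⟨⟨i', j'⟩, n'⟩ := x'
        simp only [zconv_T, Prod.mk.injEq] at hx' ⊢
        obtain ⟨h3, h4⟩ := hx'
        subst h3
        refine ⟨rfl, ?_⟩
        rw [← h4]
        simp [mul_assoc]
      rw [h2, extL_apply]
      rfl
    · have hx' : ∀ x', zconv_T δ t ι M x' ≠ (i, g) := fun x' h => hx ⟨x', h⟩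
      rw [extL_zero _ _ _ _ hx', extL_zero]
      rintro x' h
      refine hx ⟨(x'.1, x'.2 * n⁻¹), ?_⟩
      obtain ⟨⟨i', j'⟩, n'⟩ := x'
      simp only [zconv_T, Prod.mk.injEq] at h ⊢
      obtain ⟨h3, h4⟩ := h
      refine ⟨h3, ?_⟩
      push_cast
      rw [← mul_assoc, h4, mul_inv_cancel_right]
  change extL (zconv_T δ t ι M) (zconv_T_inj δ t ht M) (tr (ι × Fin M) n w) ∈ Kw δ A a b
  rw [h1, ← zconv_mem]
  rw [hd, add_zero, add_zero]
  exact hw'

private theorem zconv_closed (δ : G →* Multiplicative ℤ) (t : G)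
    (ht : δ t = Multiplicative.ofAdd 1) (A : κ → ι → G →₀ ℂ) (M : ℕ) (a b : ℤ) :
    IsClosed (((Kw δ A a b).comap
      (extL (zconv_T δ t ι M) (zconv_T_inj δ t ht M)).toLinearMap : Submodule ℂ _) :
        Set (L2 ((ι × Fin M) × δ.ker))) :=
  (isClosed_Kw δ A a b).preimage (extL (zconv_T δ t ι M) (zconv_T_inj δ t ht M)).continuous

/-- Z2: convexity -/
theorem kw_convex (δ : G →* Multiplicative ℤ) (t : G) (ht : δ t = Multiplicative.ofAdd 1)
    (A : κ → ι → G →₀ ℂ) (L : ℕ) :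
    2 * kw δ t A (L + 1) ≤ kw δ t A (L + 2) + kw δ t A L := by
  have hdt : deg δ t = 1 := by simp [deg, ht]
  have hU : vdim ((Kw δ A 0 (L + 1)).comap
      (extL (zconv_T δ t ι (L + 2)) (zconv_T_inj δ t ht (L + 2))).toLinearMap) =
      kw δ t A (L + 1) := by
    rw [zconv_vdim δ t ht A (L + 2) 0 (L + 1) le_rfl (by push_cast; omega)]
    unfold kw
    refine Finset.sum_congr rfl fun i _ => ?_
    rw [Fin.sum_univ_castSucc]
    have h0 : phi (Kw δ A 0 (L + 1)) (i, t ^ ((Fin.last (L + 1) : Fin (L + 2)) : ℕ)) = 0 := by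
      refine zconv_phi_zero δ A _ _ i _ ?_
      rw [zconv_deg_pow δ t ht]
      simp
    rw [h0, add_zero]
    push_cast
    rfl
  have hW : vdim ((Kw δ A 0 (L + 2)).comap
      (extL (zconv_T δ t ι (L + 2)) (zconv_T_inj δ t ht (L + 2))).toLinearMap) =
      kw δ t A (L + 2) := by
    rw [zconv_vdim δ t ht A (L + 2) 0 (L + 2) le_rfl (by push_cast; omega)]
    unfold kw
    push_cast
    rfl
  have hV : vdim ((Kw δ A 1 (L + 2)).comap
      (extL (zconv_T δ t ι (L + 2)) (zconv_T_inj δ t ht (L + 2))).toLinearMap) =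
      kw δ t A (L + 1) := by
    rw [zconv_vdim δ t ht A (L + 2) 1 (L + 2) (by norm_num) (by push_cast; omega)]
    unfold kw
    refine Finset.sum_congr rfl fun i _ => ?_
    rw [Fin.sum_univ_succ]
    have h0 : phi (Kw δ A 1 (L + 2)) (i, t ^ ((0 : Fin (L + 2)) : ℕ)) = 0 := by
      refine zconv_phi_zero δ A _ _ i _ ?_
      rw [zconv_deg_pow δ t ht]
      simp
    rw [h0, zero_add]
    refine Finset.sum_congr rfl fun j _ => ?_
    rw [zconv_phi δ A t 0 ((L + 1 : ℕ) : ℤ) i (t ^ (j : ℕ)), hdt]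
    have h1 : t ^ ((Fin.succ j : Fin (L + 2)) : ℕ) = t ^ (j : ℕ) * t := by
      rw [Fin.val_succ, pow_succ]
    rw [h1]
    congr 2
  have hI : vdim ((Kw δ A 1 (L + 1)).comap
      (extL (zconv_T δ t ι (L + 2)) (zconv_T_inj δ t ht (L + 2))).toLinearMap) =
      kw δ t A L := by
    rw [zconv_vdim δ t ht A (L + 2) 1 (L + 1) (by norm_num) (by push_cast; omega)]
    unfold kw
    refine Finset.sum_congr rfl fun i _ => ?_
    rw [Fin.sum_univ_succ, Fin.sum_univ_castSucc]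
    have h0 : phi (Kw δ A 1 (L + 1)) (i, t ^ ((0 : Fin (L + 2)) : ℕ)) = 0 := by
      refine zconv_phi_zero δ A _ _ i _ ?_
      rw [zconv_deg_pow δ t ht]
      simp
    have h2 : phi (Kw δ A 1 (L + 1)) (i, t ^ ((Fin.succ (Fin.last L) : Fin (L + 2)) : ℕ)) = 0 := by
      refine zconv_phi_zero δ A _ _ i _ ?_
      rw [zconv_deg_pow δ t ht]
      simp
    rw [h0, h2, zero_add, add_zero]
    refine Finset.sum_congr rfl fun j _ => ?_
    rw [zconv_phi δ A t 0 (L : ℤ) i (t ^ (j : ℕ)), hdt]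
    have h1 : t ^ ((Fin.succ (Fin.castSucc j) : Fin (L + 2)) : ℕ) = t ^ (j : ℕ) * t := by
      rw [Fin.val_succ, pow_succ, Fin.val_castSucc]
    rw [h1, zero_add]
  have hinf : (Kw δ A 0 (L + 1)).comap
        (extL (zconv_T δ t ι (L + 2)) (zconv_T_inj δ t ht (L + 2))).toLinearMap ⊓
      (Kw δ A 1 (L + 2)).comap
        (extL (zconv_T δ t ι (L + 2)) (zconv_T_inj δ t ht (L + 2))).toLinearMap =
      (Kw δ A 1 (L + 1)).comap
        (extL (zconv_T δ t ι (L + 2)) (zconv_T_inj δ t ht (L + 2))).toLinearMap := by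
    ext w
    simp only [Submodule.mem_inf, Submodule.mem_comap]
    constructor
    · rintro ⟨⟨h1, h2⟩, ⟨h3, -⟩⟩
      refine ⟨fun i g hg => ?_, h2⟩
      by_cases h4 : 0 ≤ deg δ g ∧ deg δ g < (L : ℤ) + 1
      · refine h3 i g fun h5 => hg ⟨h5.1, h4.2⟩
      · exact h1 i g h4
    · rintro ⟨h1, h2⟩
      exact ⟨⟨fun i g hg => h1 i g (fun h => hg ⟨by omega, h.2⟩), h2⟩,
        ⟨fun i g hg => h1 i g (fun h => hg ⟨h.1, by omega⟩), h2⟩⟩
  have key := vdim_sub (zconv_closed (ι := ι) δ t ht A (L + 2) 0 (L + 1))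
    (zconv_closed (ι := ι) δ t ht A (L + 2) 1 (L + 2))
    (zconv_closed (ι := ι) δ t ht A (L + 2) 0 (L + 2)) (zconv_inv δ t ht A (L + 2) 0 (L + 1))
    (zconv_inv δ t ht A (L + 2) 1 (L + 2)) (zconv_inv δ t ht A (L + 2) 0 (L + 2))
    (Submodule.comap_mono fun v hv =>
      ⟨fun i g hg => hv.1 i g (fun h => hg ⟨h.1, by omega⟩), hv.2⟩)
    (Submodule.comap_mono fun v hv =>
      ⟨fun i g hg => hv.1 i g (fun h => hg ⟨by omega, h.2⟩), hv.2⟩)
  rw [hU, hV, hW, hinf, hI] at key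
  linarith

end Pool.Agent.FIO
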