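import Pool.Agent.FIO.Win
import Pool.Agent.FIO.Dim

set_option autoImplicit false

open scoped InnerProductSpace ENNReal
open Function

namespace Pool.Agent.FIO

variable {G : Type*} [Group G] {ι κ : Type*} [Fintype ι]

/-- degree of an element -/
def deg (δ : G →* Multiplicative ℤ) (g : G) : ℤ := (δ g).toAdd

/-- The vectors in the kernel of `A` with degrees in `[a, b)`. -/
def Kw (δ : G →* Multiplicative ℤ) (A : κ → ι → G →₀ ℂ) (a b : ℤ) : Submodule ℂ (L2 (ι × G)) where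
  carrier := {v | (∀ (i : ι) (g : G), ¬ (a ≤ deg δ g ∧ deg δ g < b) → v (i, g) = 0) ∧
    v ∈ kerMat A}
  add_mem' := by
    rintro v w ⟨hv, hv'⟩ ⟨hw, hw'⟩
    exact ⟨fun i g h => by simp [hv i g h, hw i g h], Submodule.add_mem _ hv' hw'⟩
  zero_mem' := ⟨fun i g _ => by simp, Submodule.zero_mem _⟩
  smul_mem' := by
    rintro c v ⟨hv, hv'⟩
    exact ⟨fun i g h => by simp [hv i g h], Submodule.smul_mem _ _ hv'⟩

/-- The dimension over `ker δ` of `Kw δ A 0 L`. -/
noncomputable def kw (δ : G →* Multiplicative ℤ) (t : G) (A : κ → ι → G →₀ ℂ) (L : ℕ) : ℝ :=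
  ∑ i, ∑ j : Fin L, phi (Kw δ A 0 L) (i, t ^ (j : ℕ))

/-- Transport to the standard module along an injective map. -/
theorem phi_comap {X X' : Type*} (E : X' → X) (hE : Injective E) (K : Submodule ℂ (L2 X))
    (hK : IsClosed (K : Set (L2 X))) (hs : ∀ v ∈ K, ∀ x, (∀ x', E x' ≠ x) → v x = 0) (x' : X') :
    phi (K.comap (extL E hE).toLinearMap) x' = phi K (E x') := by
  refine le_antisymm ?_ ?_
  · refine phi_le_of ?_ fun v hv => ⟨extL E hE v, hv, ?_, ?_⟩
    · exact hK.preimage (extL E hE).continuous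
    · have e : extL E hE v (E x') = v x' := extL_apply _ _ _ _
      rw [e]
    · exact le_of_eq ((extL E hE).norm_map v)
  · refine phi_le_of hK fun v hv => ⟨resL E hE v, ?_, ?_, norm_resL_le _ _ _⟩
    · have h : extL E hE (resL E hE v) = v := by
        apply lp.ext
        funext x
        by_cases hx : ∃ y, E y = x
        · obtain ⟨y, rfl⟩ := hx
          rw [extL_apply, resL_apply]
        · push Not at hx
          rw [extL_zero _ _ _ _ hx, hs v hv x hx]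
      change extL E hE (resL E hE v) ∈ K
      rw [h]
      exact hv
    · rw [resL_apply]

theorem isClosed_Kw (δ : G →* Multiplicative ℤ) (A : κ → ι → G →₀ ℂ) (a b : ℤ) :
    IsClosed (Kw δ A a b : Set (L2 (ι × G))) := by
  have h : (Kw δ A a b : Set (L2 (ι × G))) =
      (⋂ i : ι, ⋂ g : G, ⋂ _ : ¬ (a ≤ deg δ g ∧ deg δ g < b), {v | evL (i, g) v = 0}) ∩
        (kerMat A : Set (L2 (ι × G))) := by
    ext v
    simp only [Set.mem_inter_iff, Set.mem_iInter, evL_apply]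
    rfl
  rw [h]
  refine IsClosed.inter ?_ (isClosed_kerMat A)
  exact isClosed_iInter fun i => isClosed_iInter fun g => isClosed_iInter fun _ =>
    isClosed_eq (evL (i, g)).continuous continuous_const

theorem zwin_deg_mul (δ : G →* Multiplicative ℤ) (g h : G) : deg δ (g * h) = deg δ g + deg δ h := by
  unfold deg
  rw [map_mul]
  rfl

theorem zwin_deg_inv (δ : G →* Multiplicative ℤ) (g : G) : deg δ g⁻¹ = - deg δ g := by
  unfold deg
  rw [map_inv]
  rfl

theorem zwin_deg_pow (δ : G →* Multiplicative ℤ) (t : G) (ht : δ t = Multiplicative.ofAdd 1)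
    (j : ℤ) : deg δ (t ^ j) = j := by
  unfold deg
  rw [map_zpow, ht, ← ofAdd_zsmul]
  simp

theorem zwin_deg_ker (δ : G →* Multiplicative ℤ) (n : δ.ker) : deg δ (n : G) = 0 := by
  unfold deg
  rw [n.2]
  rfl

theorem zwin_mem_ker (δ : G →* Multiplicative ℤ) {g : G} (h : deg δ g = 0) : g ∈ δ.ker := by
  rw [MonoidHom.mem_ker]
  exact h

/-- The degrees of the entries are bounded. -/
theorem zwin_bound [Finite κ] (δ : G →* Multiplicative ℤ) (A : κ → ι → G →₀ ℂ) :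
    ∃ d : ℕ, ∀ k i, ∀ x ∈ (A k i).support, |deg δ x| ≤ d := by
  classical
  obtain ⟨d, hd⟩ := Finite.exists_le fun p : κ × ι =>
    (A p.1 p.2).support.sup fun x => (deg δ x).natAbs
  refine ⟨d, fun k i x hx => ?_⟩
  have h1 := hd (k, i)
  have h2 : (deg δ x).natAbs ≤ (A k i).support.sup fun x => (deg δ x).natAbs :=
    Finset.le_sup (f := fun x => (deg δ x).natAbs) hx
  have h3 : (deg δ x).natAbs ≤ d := h2.trans h1
  rw [Int.abs_eq_natAbs]
  exact_mod_cast h3

theorem zwin_inj (δ : G →* Multiplicative ℤ) (t : G) (ht : δ t = Multiplicative.ofAdd 1) (L : ℕ) :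
    Injective fun an : Fin L × δ.ker => t ^ (an.1 : ℕ) * (an.2 : G) := by
  rintro ⟨a, n⟩ ⟨a', n'⟩ h
  simp only at h
  have h1 : deg δ (t ^ (a : ℕ) * (n : G)) = deg δ (t ^ (a' : ℕ) * (n' : G)) := by rw [h]
  rw [zwin_deg_mul, zwin_deg_mul, zwin_deg_ker, zwin_deg_ker, ← zpow_natCast, ← zpow_natCast,
    zwin_deg_pow δ t ht, zwin_deg_pow δ t ht] at h1
  have h2 : a = a' := by
    apply Fin.ext
    omega
  subst h2
  rw [mul_right_inj] at h
  rw [Prod.mk.injEq]
  exact ⟨rfl, Subtype.ext h⟩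

/-- The window space. -/
theorem zwin_eq (δ : G →* Multiplicative ℤ) (t : G) (ht : δ t = Multiplicative.ofAdd 1)
    (A : κ → ι → G →₀ ℂ) (L d : ℕ) (hd : ∀ k i, ∀ x ∈ (A k i).support, |deg δ x| ≤ d) :
    Kw δ A 0 L = winSpace δ.ker (fun j : Fin L => t ^ (j : ℕ))
      (fun j : Fin (L + 2 * d) => t ^ ((j : ℤ) - d)) A := by
  have hsupp : ∀ g : G, (∀ (a : Fin L) (n : δ.ker), g ≠ t ^ (a : ℕ) * n) ↔
      ¬ (0 ≤ deg δ g ∧ deg δ g < L) := by
    intro g
    constructor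
    · rintro h ⟨h1, h2⟩
      obtain ⟨j, hj⟩ := Int.eq_ofNat_of_zero_le h1
      have hjL : j < L := by omega
      refine h ⟨j, hjL⟩ ⟨(t ^ j)⁻¹ * g, zwin_mem_ker δ ?_⟩ ?_
      · rw [zwin_deg_mul, zwin_deg_inv, ← zpow_natCast, zwin_deg_pow δ t ht, hj]
        simp
      · simp
    · rintro h a n rfl
      apply h
      rw [zwin_deg_mul, zwin_deg_ker, ← zpow_natCast, zwin_deg_pow δ t ht]
      have := a.2
      omega
  ext v
  constructor
  · rintro ⟨h1, h2⟩
    refine ⟨fun i g hg => h1 i g ((hsupp g).1 hg), fun k b n => h2 k _⟩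
  · rintro ⟨h1, h2⟩
    have h1' : ∀ (i : ι) (g : G), ¬ (0 ≤ deg δ g ∧ deg δ g < (L : ℤ)) → v (i, g) = 0 :=
      fun i g hg => h1 i g ((hsupp g).2 hg)
    refine ⟨h1', fun k g => ?_⟩
    by_cases hg : -(d : ℤ) ≤ deg δ g ∧ deg δ g < L + d
    · obtain ⟨j, hj⟩ := Int.eq_ofNat_of_zero_le (by omega : 0 ≤ deg δ g + d)
      have hjL : j < L + 2 * d := by omega
      have h3 := h2 k ⟨j, hjL⟩ ⟨(t ^ ((j : ℤ) - d))⁻¹ * g, zwin_mem_ker δ (by
        rw [zwin_deg_mul, zwin_deg_inv, zwin_deg_pow δ t ht]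
        omega)⟩
      simpa using h3
    · unfold app
      refine Finset.sum_eq_zero fun i _ => Finset.sum_eq_zero fun x hx => ?_
      have h3 : v (i, x⁻¹ * g) = 0 := by
        apply h1'
        rw [zwin_deg_mul, zwin_deg_inv]
        have h4 := abs_le.1 (hd k i x hx)
        omega
      change A k i x * v (i, x⁻¹ * g) = 0
      rw [h3, mul_zero]

/-- Z1: integrality -/
theorem kw_int {F : Subfield ℂ} [Finite κ] (δ : G →* Multiplicative ℤ) (t : G)
    (ht : δ t = Multiplicative.ofAdd 1) (h : Atiyah F δ.ker) (A : κ → ι → G →₀ ℂ)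
    (hA : ∀ k i g, A k i g ∈ F) (L : ℕ) :
    ∃ z : ℤ, (lcmFin δ.ker : ℝ) * kw δ t A L = z := by
  obtain ⟨d, hd⟩ := zwin_bound δ A
  obtain ⟨z, hz⟩ := winSpace_int h (fun j : Fin L => t ^ (j : ℕ))
    (fun j : Fin (L + 2 * d) => t ^ ((j : ℤ) - d)) (zwin_inj δ t ht L) A hA
  refine ⟨z, ?_⟩
  rw [← hz]
  unfold kw
  rw [zwin_eq δ t ht A L d hd]

/-- Z3: upper bound -/
theorem kw_le (δ : G →* Multiplicative ℤ) (t : G) (ht : δ t = Multiplicative.ofAdd 1)
    (A : κ → ι → G →₀ ℂ) (L : ℕ) : kw δ t A L ≤ L * vdim (kerMat A) := by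
  have h1 : ∀ (i : ι) (j : Fin L), phi (Kw δ A 0 L) (i, t ^ (j : ℕ)) ≤ phi (kerMat A) (i, 1) := by
    intro i j
    rw [← phi_kerMat A i (t ^ (j : ℕ))]
    exact phi_mono (isClosed_Kw _ _ _ _) (fun v hv => hv.2) _
  unfold kw vdim
  rw [Finset.mul_sum]
  refine Finset.sum_le_sum fun i _ => ?_
  calc ∑ j : Fin L, phi (Kw δ A 0 L) (i, t ^ (j : ℕ)) ≤ ∑ _j : Fin L, phi (kerMat A) (i, 1) :=
        Finset.sum_le_sum fun j _ => h1 i j
    _ = L * phi (kerMat A) (i, 1) := by simp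

end Pool.Agent.FIO
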